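import Pool.Agent.H67.TS.Defs

/-!
# [H67 TS L1] the mean of `|EI|`

PROOF. `|E| ≤ s E + 2 C κ`, `κ = (X/2)^(α-1) H`, for `X/2 ≤ n ≤ 3X` (`One` at `x = n`, `h = H ≤ X/2`). `W(n) = 1` on `[X, 2X]`, linear down
to `0` on `[X/2, X]` and on `[2X, 3X]`. `Σ W(n) EI n H = Σ W(n) (PiN (n+H) - PiN n) = Σ PiN(n) (W(n-H) - W(n))`,
`|W(n-H) - W(n)| ≤ 2H/X`, and `Σ_(n ≤ 4X) |PiN n| ≤ (4X)^(1+w) Σ |PiN n| n^(-1-w)`, `α < w < α + ε`.
(In the file: `l1_core`, with the support `[3X/4, 5X/2]`, so that it can be used for both parts of the theorem.)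
-/

set_option autoImplicit false

namespace Pool.Agent.H67.TS

open Finset Pool.Agent.H48.WN

/-- the weight -/
noncomputable def l1W (X t : ℝ) : ℝ :=
  max 0 (min 1 (min ((t - 3 / 4 * X) * (4 / X)) ((5 / 2 * X - t) * (4 / X))))

theorem l1W_nonneg (X t : ℝ) : 0 ≤ l1W X t := le_max_left _ _

theorem l1W_le (X t : ℝ) : l1W X t ≤ 1 := max_le zero_le_one (min_le_left _ _)

theorem l1W_one {X t : ℝ} (hX : 0 < X) (h1 : X ≤ t) (h2 : t ≤ 2 * X) : l1W X t = 1 := by
  unfold l1W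
  have e1 : 1 ≤ (t - 3 / 4 * X) * (4 / X) := by
    rw [mul_div_assoc', le_div_iff₀ hX]
    linarith
  have e2 : 1 ≤ (5 / 2 * X - t) * (4 / X) := by
    rw [mul_div_assoc', le_div_iff₀ hX]
    linarith
  rw [min_eq_left (le_min e1 e2)]
  simp

theorem l1W_left {X t : ℝ} (hX : 0 < X) (h1 : t ≤ 3 / 4 * X) : l1W X t = 0 := by
  unfold l1W
  have e1 : (t - 3 / 4 * X) * (4 / X) ≤ 0 :=
    mul_nonpos_of_nonpos_of_nonneg (by linarith) (by positivity)
  exact max_eq_left ((min_le_right _ _).trans ((min_le_left _ _).trans e1))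

theorem l1W_right {X t : ℝ} (hX : 0 < X) (h1 : 5 / 2 * X ≤ t) : l1W X t = 0 := by
  unfold l1W
  have e1 : (5 / 2 * X - t) * (4 / X) ≤ 0 :=
    mul_nonpos_of_nonpos_of_nonneg (by linarith) (by positivity)
  exact max_eq_left ((min_le_right _ _).trans ((min_le_right _ _).trans e1))

theorem l1W_lip {X : ℝ} (hX : 0 < X) (t t' : ℝ) : |l1W X t - l1W X t'| ≤ 4 / X * |t - t'| := by
  unfold l1W
  have h4 : (0 : ℝ) < 4 / X := by positivity
  have e1 : |(t - 3 / 4 * X) * (4 / X) - (t' - 3 / 4 * X) * (4 / X)| = 4 / X * |t - t'| := by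
    rw [← sub_mul, abs_mul, abs_of_pos h4, mul_comm]
    congr 2
    ring
  have e2 : |(5 / 2 * X - t) * (4 / X) - (5 / 2 * X - t') * (4 / X)| = 4 / X * |t - t'| := by
    rw [← sub_mul, abs_mul, abs_of_pos h4, mul_comm]
    congr 1
    rw [abs_sub_comm t t']
    congr 1
    ring
  have h0 : 0 ≤ 4 / X * |t - t'| := by positivity
  refine (abs_max_sub_max_le_max _ _ _ _).trans (max_le (by simpa using h0) ?_)
  refine (abs_min_sub_min_le_max _ _ _ _).trans (max_le (by simpa using h0) ?_)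
  refine (abs_min_sub_min_le_max _ _ _ _).trans (max_le e1.le e2.le)

theorem l1_pc (n : ℕ) : (Nat.primeCounting (n + 1) : ℝ) =
    Nat.primeCounting n + (if (n + 1).Prime then 1 else 0) := by
  have h : Nat.primeCounting (n + 1) = Nat.primeCounting n + (if (n + 1).Prime then 1 else 0) := by
    unfold Nat.primeCounting Nat.primeCounting'
    rw [Nat.count_succ]
  rw [h]
  split_ifs <;> simp

theorem l1_card {m n : ℕ} (h : m ≤ n) : (((Ioc m n).filter Nat.Prime).card : ℝ) =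
    Nat.primeCounting n - Nat.primeCounting m := by
  induction n, h using Nat.le_induction with
  | base => simp
  | succ n hmn ih =>
    rw [l1_pc]
    have e : Ioc m (n + 1) = insert (n + 1) (Ioc m n) := by
      ext k
      simp only [mem_Ioc, mem_insert]
      omega
    rw [e, filter_insert]
    split_ifs with hp
    · rw [card_insert_of_notMem (by simp)]
      push_cast
      rw [ih]
      ring
    · rw [ih]
      ring

theorem l1_ii {a b : ℝ} (ha : 2 ≤ a) (hb : 2 ≤ b) :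
    IntervalIntegrable (fun t => 1 / Real.log t) MeasureTheory.volume a b := by
  refine ContinuousOn.intervalIntegrable ?_
  intro t ht
  have h1 : min a b ≤ t := ht.1
  have h2 : 2 ≤ t := le_trans (le_min ha hb) h1
  refine ContinuousAt.continuousWithinAt ?_
  refine ContinuousAt.div continuousAt_const (Real.continuousAt_log (by linarith)) ?_
  exact (Real.log_pos (by linarith)).ne'

/-- `EI` is a difference of `PiN` -/
theorem ei_sub (n H : ℕ) (hn : 2 ≤ n) : EI n H = PiN (n + H) - PiN n := by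
  have hn2 : (2 : ℝ) ≤ n := by exact_mod_cast hn
  have hn3 : (2 : ℝ) ≤ ((n + H : ℕ) : ℝ) := by push_cast; have : (0 : ℝ) ≤ H := Nat.cast_nonneg H; linarith
  unfold EI PiN
  rw [l1_card (by omega : n ≤ n + H),
    ← intervalIntegral.integral_add_adjacent_intervals (l1_ii (le_refl 2) hn2) (l1_ii hn2 hn3)]
  push_cast
  ring

/-- the sum of the differences with the weight `W` -/
theorem l1_shift (X : ℝ) (hX : 4 ≤ X) (N H : ℕ) (_hH : 2 * (H : ℝ) ≤ X) (hN : 5 / 2 * X ≤ N) (f : ℕ → ℝ) :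
    |∑ n ∈ Ico 1 N, l1W X n * (f (n + H) - f n)| ≤
      4 / X * H * ∑ n ∈ Ico 1 (N + H), |f n| := by
  have hX0 : 0 < X := by linarith
  have hH0 : (0 : ℝ) ≤ H := Nat.cast_nonneg H
  have h1 : ∑ n ∈ Ico 1 N, l1W X n * f (n + H) =
      ∑ n ∈ Ico 1 (N + H), l1W X ((n : ℝ) - H) * f n := by
    have e1 : ∑ n ∈ Ico 1 N, l1W X n * f (n + H) =
        ∑ n ∈ Ico 1 N, (fun m : ℕ => l1W X ((m : ℝ) - H) * f m) (n + H) := by
      refine Finset.sum_congr rfl fun n _ => ?_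
      push_cast
      rw [add_sub_cancel_right]
    rw [e1, Finset.sum_Ico_add' (fun m : ℕ => l1W X ((m : ℝ) - H) * f m) 1 N H]
    refine Finset.sum_subset ?_ ?_
    · intro k hk
      rw [mem_Ico] at hk ⊢
      omega
    · intro k hk hk2
      rw [mem_Ico] at hk hk2
      have h3 : k < 1 + H := by omega
      have h4 : (k : ℝ) ≤ H := by exact_mod_cast (by omega : k ≤ H)
      rw [l1W_left hX0 (by linarith), zero_mul]
  have h2 : ∑ n ∈ Ico 1 N, l1W X n * f n = ∑ n ∈ Ico 1 (N + H), l1W X n * f n := by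
    refine Finset.sum_subset ?_ ?_
    · intro k hk
      rw [mem_Ico] at hk ⊢
      omega
    · intro k hk hk2
      rw [mem_Ico] at hk hk2
      have h4 : (N : ℝ) ≤ k := by exact_mod_cast (by omega : N ≤ k)
      rw [l1W_right hX0 (by linarith), zero_mul]
  have h3 : ∑ n ∈ Ico 1 N, l1W X n * (f (n + H) - f n) =
      ∑ n ∈ Ico 1 (N + H), (l1W X ((n : ℝ) - H) - l1W X n) * f n := by
    have e : ∀ n : ℕ, l1W X n * (f (n + H) - f n) = l1W X n * f (n + H) - l1W X n * f n :=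
      fun n => by ring
    simp_rw [e, Finset.sum_sub_distrib, h1, h2, sub_mul, Finset.sum_sub_distrib]
  rw [h3, Finset.mul_sum]
  refine (Finset.abs_sum_le_sum_abs _ _).trans (Finset.sum_le_sum fun n _ => ?_)
  rw [abs_mul]
  refine mul_le_mul_of_nonneg_right ?_ (abs_nonneg _)
  have h4 := l1W_lip hX0 ((n : ℝ) - H) n
  have e : |(n : ℝ) - H - n| = H := by
    rw [sub_sub_cancel_left, abs_neg, abs_of_nonneg hH0]
  rw [e] at h4
  exact h4

/-- the sum of `|PiN n|` -/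
theorem l1_sum (α : ℝ) (hb : Smb α) (hα0 : 0 ≤ α) (w : ℝ) (hw : α < w) : ∃ S : ℝ, 0 ≤ S ∧ ∀ N : ℕ,
    ∑ n ∈ Ico 1 N, |PiN n| ≤ S * (N : ℝ) ^ (1 + w) := by
  have hsum := hb w hw
  refine ⟨∑' n : ℕ, |PiN n| * (n : ℝ) ^ (-(1 + w)), tsum_nonneg fun n => by positivity, fun N => ?_⟩
  have h1 : ∀ n ∈ Ico 1 N, |PiN n| ≤ (|PiN n| * (n : ℝ) ^ (-(1 + w))) * (N : ℝ) ^ (1 + w) := by
    intro n hn
    rw [mem_Ico] at hn
    have hn0 : (0 : ℝ) < n := by exact_mod_cast (by omega : 0 < n)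
    have h2 : (n : ℝ) ^ (1 + w) ≤ (N : ℝ) ^ (1 + w) :=
      Real.rpow_le_rpow hn0.le (by exact_mod_cast hn.2.le) (by linarith)
    have h3 : (n : ℝ) ^ (-(1 + w)) * (n : ℝ) ^ (1 + w) = 1 := by
      rw [← Real.rpow_add hn0]
      simp
    have h4 : 1 ≤ (n : ℝ) ^ (-(1 + w)) * (N : ℝ) ^ (1 + w) :=
      h3.symm.le.trans (mul_le_mul_of_nonneg_left h2 (by positivity))
    calc |PiN n| = |PiN n| * 1 := by ring
      _ ≤ |PiN n| * ((n : ℝ) ^ (-(1 + w)) * (N : ℝ) ^ (1 + w)) :=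
          mul_le_mul_of_nonneg_left h4 (abs_nonneg _)
      _ = _ := by ring
  refine (Finset.sum_le_sum h1).trans ?_
  rw [← Finset.sum_mul]
  refine mul_le_mul_of_nonneg_right ?_ (by positivity)
  exact hsum.sum_le_tsum _ fun n _ => by positivity

/-- **The core**: a one sided bound on `[3X/4, 5X/2]` gives a bound of the mean of `|EI|`. -/
theorem l1_core (s α : ℝ) (hs : s = 1 ∨ s = -1) (hα0 : 0 ≤ α) (hb : Smb α) (ε : ℝ) (hε : 0 < ε) :
    ∃ x0 : ℝ, ∀ X H : ℕ, x0 ≤ X → 2 * (H : ℝ) ≤ X → ∀ κ : ℝ, 0 ≤ κ →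
      (∀ n : ℕ, 3 * X ≤ 4 * n → 2 * n ≤ 5 * X → -κ ≤ s * EI n H) →
      ∑ n ∈ Ioc X (2 * X), |EI n H| ≤ (X : ℝ) ^ (α + ε) * H + 4 * κ * X := by
  obtain ⟨S, hS, hsum⟩ := l1_sum α hb hα0 (α + ε / 2) (by linarith)
  set K : ℝ := 4 * (S * 4 ^ (1 + (α + ε / 2))) with hK
  refine ⟨max 4 (K ^ (2 / ε)), fun X H hX hH κ hκ hone => ?_⟩
  have hX4 : (4 : ℝ) ≤ X := (le_max_left _ _).trans hX
  have hXK : K ^ (2 / ε) ≤ X := (le_max_right _ _).trans hX
  have hX0 : (0 : ℝ) < X := by linarith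
  have hX4' : 4 ≤ X := by exact_mod_cast hX4
  have hK0 : 0 ≤ K := by rw [hK]; positivity
  have hsabs : ∀ x : ℝ, |x| = |s * x| := by
    intro x
    rcases hs with rfl | rfl
    · rw [one_mul]
    · rw [neg_one_mul, abs_neg]
  -- pass to the weights
  have h1 : ∑ n ∈ Ioc X (2 * X), |EI n H| ≤ ∑ n ∈ Ico 1 (3 * X), l1W X n * |EI n H| := by
    have h2 : ∑ n ∈ Ioc X (2 * X), |EI n H| = ∑ n ∈ Ioc X (2 * X), l1W X n * |EI n H| := by
      refine Finset.sum_congr rfl fun n hn => ?_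
      rw [mem_Ioc] at hn
      rw [l1W_one hX0 (by exact_mod_cast hn.1.le) (by exact_mod_cast hn.2), one_mul]
    rw [h2]
    refine Finset.sum_le_sum_of_subset_of_nonneg ?_ fun n _ _ =>
      mul_nonneg (l1W_nonneg _ _) (abs_nonneg _)
    intro n hn
    rw [mem_Ioc] at hn
    rw [mem_Ico]
    omega
  have h2 : ∀ n ∈ Ico 1 (3 * X), l1W X n * |EI n H| ≤
      s * (l1W X n * (PiN (n + H) - PiN n)) + l1W X n * (2 * κ) := by
    intro n hn
    rw [mem_Ico] at hn
    rcases le_or_gt (n : ℝ) (3 / 4 * X) with hl | hl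
    · rw [l1W_left hX0 hl]; simp
    rcases le_or_gt (5 / 2 * (X : ℝ)) n with hr | hr
    · rw [l1W_right hX0 hr]; simp
    have h3 : 3 * X ≤ 4 * n := by
      have : 3 * (X : ℝ) ≤ 4 * n := by linarith
      exact_mod_cast this
    have h4 : 2 * n ≤ 5 * X := by
      have : 2 * (n : ℝ) ≤ 5 * X := by linarith
      exact_mod_cast this
    have h5 := hone n h3 h4
    have h6 : |EI n H| ≤ s * EI n H + 2 * κ := by
      rw [hsabs, abs_le]
      constructor <;> linarith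
    rw [← ei_sub n H (by omega)]
    have h7 := mul_le_mul_of_nonneg_left h6 (l1W_nonneg X n)
    calc l1W X n * |EI n H| ≤ l1W X n * (s * EI n H + 2 * κ) := h7
      _ = _ := by ring
  have h3 : ∑ n ∈ Ico 1 (3 * X), l1W X n * (2 * κ) ≤ 4 * κ * X := by
    have h4 : ∀ n ∈ Ico 1 (3 * X), l1W X n * (2 * κ) ≤
        if n ∈ Icc (3 * X / 4) (5 * X / 2) then 2 * κ else 0 := by
      intro n hn
      split_ifs with hmem
      · have := mul_le_mul_of_nonneg_right (l1W_le X n) (by linarith : 0 ≤ 2 * κ)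
        linarith
      · rw [mem_Icc, not_and_or] at hmem
        rcases hmem with hm | hm
        · have h5 : 4 * n ≤ 3 * X := by omega
          have h6 : (n : ℝ) ≤ 3 / 4 * X := by
            have : 4 * (n : ℝ) ≤ 3 * X := by exact_mod_cast h5
            linarith
          rw [l1W_left hX0 h6, zero_mul]
        · have h5 : 5 * X ≤ 2 * n := by omega
          have h6 : 5 / 2 * (X : ℝ) ≤ n := by
            have : 5 * (X : ℝ) ≤ 2 * n := by exact_mod_cast h5
            linarith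
          rw [l1W_right hX0 h6, zero_mul]
    refine (Finset.sum_le_sum h4).trans ?_
    rw [← Finset.sum_filter, Finset.sum_const, nsmul_eq_mul]
    have h5 : ((Ico 1 (3 * X)).filter (fun n => n ∈ Icc (3 * X / 4) (5 * X / 2))).card ≤ 2 * X := by
      have h6 : ((Ico 1 (3 * X)).filter (fun n => n ∈ Icc (3 * X / 4) (5 * X / 2))) ⊆
          Icc (3 * X / 4) (5 * X / 2) := by
        intro n hn
        rw [mem_filter] at hn
        exact hn.2
      have h7 := Finset.card_le_card h6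
      rw [Nat.card_Icc] at h7
      omega
    have h6 : (((Ico 1 (3 * X)).filter (fun n => n ∈ Icc (3 * X / 4) (5 * X / 2))).card : ℝ) ≤
        2 * X := by exact_mod_cast h5
    calc _ ≤ (2 * (X : ℝ)) * (2 * κ) := mul_le_mul_of_nonneg_right h6 (by linarith)
      _ = 4 * κ * X := by ring
  have h4 := l1_shift X hX4 (3 * X) H hH (by push_cast; linarith) PiN
  have h5 : ∑ n ∈ Ico 1 (3 * X + H), |PiN n| ≤ S * (4 * (X : ℝ)) ^ (1 + (α + ε / 2)) := by
    refine (hsum (3 * X + H)).trans (mul_le_mul_of_nonneg_left ?_ hS)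
    refine Real.rpow_le_rpow (Nat.cast_nonneg _) ?_ (by linarith)
    push_cast
    linarith
  have h6 : 4 / (X : ℝ) * H * ∑ n ∈ Ico 1 (3 * X + H), |PiN n| ≤ (X : ℝ) ^ (α + ε) * H := by
    have h7 : 4 / (X : ℝ) * (S * (4 * (X : ℝ)) ^ (1 + (α + ε / 2))) = K * (X : ℝ) ^ (α + ε / 2) := by
      rw [Real.mul_rpow (by norm_num) hX0.le, hK]
      have e : (X : ℝ) ^ (1 + (α + ε / 2)) = X * (X : ℝ) ^ (α + ε / 2) := by
        rw [Real.rpow_add hX0, Real.rpow_one]
      rw [e]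
      field_simp
    have h8 : K ≤ (X : ℝ) ^ (ε / 2) := by
      have h9 : (K ^ (2 / ε)) ^ (ε / 2) ≤ (X : ℝ) ^ (ε / 2) :=
        Real.rpow_le_rpow (by positivity) hXK (by linarith)
      rwa [← Real.rpow_mul hK0, show 2 / ε * (ε / 2) = 1 by field_simp, Real.rpow_one] at h9
    have h9 : K * (X : ℝ) ^ (α + ε / 2) ≤ (X : ℝ) ^ (α + ε) := by
      have e : (X : ℝ) ^ (α + ε) = (X : ℝ) ^ (ε / 2) * (X : ℝ) ^ (α + ε / 2) := by
        rw [← Real.rpow_add hX0]
        congr 1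
        ring
      rw [e]
      exact mul_le_mul_of_nonneg_right h8 (by positivity)
    calc 4 / (X : ℝ) * H * ∑ n ∈ Ico 1 (3 * X + H), |PiN n|
        ≤ 4 / (X : ℝ) * H * (S * (4 * (X : ℝ)) ^ (1 + (α + ε / 2))) :=
          mul_le_mul_of_nonneg_left h5 (by positivity)
      _ = (4 / (X : ℝ) * (S * (4 * (X : ℝ)) ^ (1 + (α + ε / 2)))) * H := by ring
      _ = K * (X : ℝ) ^ (α + ε / 2) * H := by rw [h7]
      _ ≤ (X : ℝ) ^ (α + ε) * H := mul_le_mul_of_nonneg_right h9 (Nat.cast_nonneg _)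
  have h7 := (Finset.sum_le_sum h2)
  rw [Finset.sum_add_distrib, ← Finset.mul_sum] at h7
  have h8 : s * ∑ n ∈ Ico 1 (3 * X), l1W X n * (PiN (n + H) - PiN n) ≤
      |∑ n ∈ Ico 1 (3 * X), l1W X n * (PiN (n + H) - PiN n)| := by
    rw [hsabs]
    exact le_abs_self _
  linarith

theorem l1 (s α u : ℝ) (hs : s = 1 ∨ s = -1) (hu : 0 < u) (hu1 : u < 1) (hα0 : 0 ≤ α) (hα1 : α < 1)
    (h : One s α u) (hb : Smb α) (ε : ℝ) (hε : 0 < ε) : ∃ x0 : ℝ, ∀ X H : ℕ, x0 ≤ X →
      4 * (3 * (X : ℝ)) ^ (1 - u) ≤ H → 2 * (H : ℝ) ≤ X →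
      ∑ n ∈ Ioc X (2 * X), |EI n H| ≤ (X : ℝ) ^ (α + ε) * H := by
  obtain ⟨C, x1, hC, hx1, hone⟩ := h
  obtain ⟨x2, hcore⟩ := l1_core s α hs hα0 hb (ε / 2) (by linarith)
  set K : ℝ := 1 + 6 * C with hK
  have hK1 : 1 ≤ K := by rw [hK]; linarith
  refine ⟨max (2 * x1) (max x2 (K ^ (2 / ε))), fun X H hX hH1 hH2 => ?_⟩
  have hX1 : 2 * x1 ≤ X := (le_max_left _ _).trans hX
  have hX2 : x2 ≤ X := (le_max_left _ _).trans ((le_max_right _ _).trans hX)
  have hX3 : K ^ (2 / ε) ≤ X := (le_max_right _ _).trans ((le_max_right _ _).trans hX)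
  have hX0 : (0 : ℝ) < X := by linarith
  have hH0 : (0 : ℝ) ≤ H := Nat.cast_nonneg H
  set κ : ℝ := 4 / 3 * C * (X : ℝ) ^ (α - 1) * H with hκ
  have hκ0 : 0 ≤ κ := by rw [hκ]; positivity
  have h1 := hcore X H hX2 hH2 κ hκ0 ?_
  · have h2 : 4 * κ * X = 16 / 3 * C * (X : ℝ) ^ α * H := by
      have e : (X : ℝ) ^ α = (X : ℝ) ^ (α - 1) * X := by
        rw [← Real.rpow_add_one hX0.ne']
        congr 1
        ring
      rw [hκ, e]
      ring
    rw [h2] at h1
    have hX1' : (1 : ℝ) ≤ X := by linarith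
    have h3 : (X : ℝ) ^ α ≤ (X : ℝ) ^ (α + ε / 2) :=
      Real.rpow_le_rpow_of_exponent_le hX1' (by linarith)
    have h4 : 16 / 3 * C * (X : ℝ) ^ α ≤ 6 * C * (X : ℝ) ^ (α + ε / 2) := by
      have h5 : 16 / 3 * C * (X : ℝ) ^ α ≤ 16 / 3 * C * (X : ℝ) ^ (α + ε / 2) :=
        mul_le_mul_of_nonneg_left h3 (by positivity)
      have h6 : 0 ≤ C * (X : ℝ) ^ (α + ε / 2) := by positivity
      linarith
    have h8 : K ≤ (X : ℝ) ^ (ε / 2) := by
      have h9 : (K ^ (2 / ε)) ^ (ε / 2) ≤ (X : ℝ) ^ (ε / 2) :=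
        Real.rpow_le_rpow (by positivity) hX3 (by linarith)
      rwa [← Real.rpow_mul (by linarith), show 2 / ε * (ε / 2) = 1 by field_simp,
        Real.rpow_one] at h9
    have h9 : K * (X : ℝ) ^ (α + ε / 2) ≤ (X : ℝ) ^ (α + ε) := by
      have e : (X : ℝ) ^ (α + ε) = (X : ℝ) ^ (ε / 2) * (X : ℝ) ^ (α + ε / 2) := by
        rw [← Real.rpow_add hX0]
        congr 1
        ring
      rw [e]
      exact mul_le_mul_of_nonneg_right h8 (by positivity)
    calc ∑ n ∈ Ioc X (2 * X), |EI n H|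
        ≤ (X : ℝ) ^ (α + ε / 2) * H + 16 / 3 * C * (X : ℝ) ^ α * H := h1
      _ ≤ (X : ℝ) ^ (α + ε / 2) * H + 6 * C * (X : ℝ) ^ (α + ε / 2) * H := by
          have := mul_le_mul_of_nonneg_right h4 hH0
          linarith
      _ = K * (X : ℝ) ^ (α + ε / 2) * H := by rw [hK]; ring
      _ ≤ (X : ℝ) ^ (α + ε) * H := mul_le_mul_of_nonneg_right h9 hH0
  · intro n hn1 hn2
    have hn1' : 3 * (X : ℝ) ≤ 4 * n := by exact_mod_cast hn1
    have hn2' : 2 * (n : ℝ) ≤ 5 * X := by exact_mod_cast hn2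
    have hn0 : (0 : ℝ) < n := by linarith
    have hnx : x1 ≤ n := by linarith
    have hn3 : 2 ≤ n := by
      have : (2 : ℝ) ≤ n := hx1.trans hnx
      exact_mod_cast this
    have h2 := hone n H hnx ?_ (by linarith)
    · have e1 : Pi n H = EI n H := by
        rw [ei_sub n H hn3]
        have hn2 : (2 : ℝ) ≤ n := by exact_mod_cast hn3
        have hn3 : (2 : ℝ) ≤ ((n + H : ℕ) : ℝ) := by push_cast; linarith
        have e1 : ⌊((n : ℝ) + (H : ℝ))⌋₊ = n + H := by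
          rw [← Nat.cast_add, Nat.floor_natCast]
        unfold Pi PiN
        rw [e1, Nat.floor_natCast, l1_card (by omega : n ≤ n + H),
          ← intervalIntegral.integral_add_adjacent_intervals (l1_ii (le_refl 2) hn2)
            (l1_ii hn2 hn3)]
        have e2 : ∫ t in (n : ℝ)..((n : ℝ) + H), 1 / Real.log (max t 2) =
            ∫ t in (n : ℝ)..((n : ℝ) + H), 1 / Real.log t := by
          apply intervalIntegral.integral_congr
          intro t ht
          rw [Set.uIcc_of_le (by linarith)] at ht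
          show 1 / Real.log (max t 2) = 1 / Real.log t
          rw [max_eq_left (hn2.trans ht.1)]
        rw [e2]
        push_cast
        ring
      rw [e1] at h2
      refine le_trans (neg_le_neg ?_) h2
      rw [hκ]
      have h3 : (n : ℝ) ^ (α - 1) ≤ 4 / 3 * (X : ℝ) ^ (α - 1) := by
        have h4 : (n : ℝ) ^ (α - 1) ≤ (3 / 4 * (X : ℝ)) ^ (α - 1) :=
          Real.rpow_le_rpow_of_nonpos (by positivity) (by linarith) (by linarith)
        rw [Real.mul_rpow (by norm_num) hX0.le] at h4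
        have h5 : (3 / 4 : ℝ) ^ (α - 1) ≤ (3 / 4 : ℝ) ^ (-1 : ℝ) :=
          Real.rpow_le_rpow_of_exponent_ge (by norm_num) (by norm_num) (by linarith)
        have h6 : (3 / 4 : ℝ) ^ (-1 : ℝ) = 4 / 3 := by
          rw [Real.rpow_neg_one]; norm_num
        rw [h6] at h5
        exact h4.trans (mul_le_mul_of_nonneg_right h5 (by positivity))
      have h4 : C * (n : ℝ) ^ (α - 1) * H ≤ C * (4 / 3 * (X : ℝ) ^ (α - 1)) * H :=
        mul_le_mul_of_nonneg_right (mul_le_mul_of_nonneg_left h3 hC.le) hH0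
      linarith
    · refine le_trans ?_ hH1
      exact mul_le_mul_of_nonneg_left (Real.rpow_le_rpow hn0.le (by linarith) (by linarith))
        (by norm_num)

end Pool.Agent.H67.TS
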