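import Pool.Agent.H67.TS.Defs
import Pool.Agent.H24.TS.Lnd

/-!
# [H67 TS LND] Landau (helper24)

PROOF. `One` for dyadic lengths: `s PiN n ≥ -C' n^α` (telescoping `s Pi (n/2^j)`, rounding O(1) each). Then Landau's theorem for
`Σ (s PiN n + C' n^α + C'') n^(-1-w)`: near every real point of `(α, 1]` and beyond it is analytic (`log ((w-1) ζ(w))`, `ζ(σ) ≠ 0`).
(The analytic part is `Pool/Agent/H24/TS/Lnd.lean`, for `BB n = π(n) - ∑_{k ≤ n} 1/log k`.)
-/

set_option autoImplicit false

namespace Pool.Agent.H67.TS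

open Finset Pool.Agent.H48.WN Pool.Agent.H24.TS

theorem lnd_pc (n : ℕ) : (Nat.primeCounting (n + 1) : ℝ) =
    Nat.primeCounting n + (if (n + 1).Prime then 1 else 0) := by
  have h : Nat.primeCounting (n + 1) = Nat.primeCounting n + (if (n + 1).Prime then 1 else 0) := by
    unfold Nat.primeCounting Nat.primeCounting'
    rw [Nat.count_succ]
  rw [h]
  split_ifs <;> simp

theorem lnd_card {m n : ℕ} (h : m ≤ n) : (((Ioc m n).filter Nat.Prime).card : ℝ) =
    Nat.primeCounting n - Nat.primeCounting m := by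
  induction n, h using Nat.le_induction with
  | base => simp
  | succ n hmn ih =>
    rw [lnd_pc]
    have e : Ioc m (n + 1) = insert (n + 1) (Ioc m n) := by
      ext k
      simp only [mem_Ioc, mem_insert]
      omega
    rw [e, filter_insert]
    split_ifs with hp
    · rw [card_insert_of_notMem (by simp)]
      push_cast
      rw [ih]
      ring
    · rw [ih]
      ring

theorem lnd_ii {a b : ℝ} (ha : 2 ≤ a) (hb : 2 ≤ b) :
    IntervalIntegrable (fun t => 1 / Real.log t) MeasureTheory.volume a b := by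
  refine ContinuousOn.intervalIntegrable ?_
  intro t ht
  have h1 : min a b ≤ t := ht.1
  have h2 : 2 ≤ t := le_trans (le_min ha hb) h1
  refine ContinuousAt.continuousWithinAt ?_
  refine ContinuousAt.div continuousAt_const (Real.continuousAt_log (by linarith)) ?_
  exact (Real.log_pos (by linarith)).ne'

/-- differences of `PiN` -/
theorem lnd_sub {m n : ℕ} (hm : 2 ≤ m) (h : m ≤ n) : PiN n - PiN m = Pi m ((n : ℝ) - m) := by
  have hm2 : (2 : ℝ) ≤ m := by exact_mod_cast hm
  have hmn : (m : ℝ) ≤ n := by exact_mod_cast h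
  have hn2 : (2 : ℝ) ≤ n := by linarith
  unfold PiN Pi
  have e1 : (m : ℝ) + ((n : ℝ) - m) = n := by ring
  rw [e1, Nat.floor_natCast, Nat.floor_natCast, lnd_card h]
  have e2 : ∫ t in (m : ℝ)..n, 1 / Real.log (max t 2) = ∫ t in (m : ℝ)..n, 1 / Real.log t := by
    apply intervalIntegral.integral_congr
    intro t ht
    rw [Set.uIcc_of_le hmn] at ht
    show 1 / Real.log (max t 2) = 1 / Real.log t
    rw [max_eq_left (hm2.trans ht.1)]
  rw [e2, ← intervalIntegral.integral_add_adjacent_intervals (lnd_ii (le_refl 2) hm2)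
    (lnd_ii hm2 hn2)]
  ring

/-- comparison of `PiN` and `BB` -/
theorem lnd_cmp (n : ℕ) (hn : 2 ≤ n) :
    1 / Real.log n ≤ PiN n - BB n ∧ PiN n - BB n ≤ 2 / Real.log 2 := by
  have hl2 : 0 < Real.log 2 := Real.log_pos (by norm_num)
  induction n, hn using Nat.le_induction with
  | base =>
    have e1 : BB 2 = 1 - 2 / Real.log 2 := by
      have e2 : BB 2 = BB 1 + bb 2 := BB_succ 1
      have e3 : BB 1 = BB 0 + bb 1 := BB_succ 0
      rw [e2, e3, BB_zero]
      unfold bb
      rw [if_neg (by norm_num), if_neg (by norm_num), if_neg (by norm_num), if_pos Nat.prime_two]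
      rw [Nat.cast_one, max_eq_right (by norm_num : (1 : ℝ) ≤ 2), Nat.cast_ofNat, max_self]
      ring
    have e2 : PiN 2 = 1 := by
      unfold PiN
      have e4 : Nat.primeCounting 2 = 1 := by decide
      rw [e4]
      simp
    rw [e1, e2]
    have h1 : (0 : ℝ) < 1 / Real.log 2 := by positivity
    have h2 : 2 / Real.log 2 = 2 * (1 / Real.log 2) := by ring
    push_cast
    constructor
    · rw [h2]; linarith
    · linarith
  | succ n hn ih =>
    have hn2 : (2 : ℝ) ≤ n := by exact_mod_cast hn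
    have hn3 : (2 : ℝ) ≤ ((n + 1 : ℕ) : ℝ) := by push_cast; linarith
    have hln : 0 < Real.log n := Real.log_pos (by linarith)
    have hstep : PiN (n + 1) - BB (n + 1) = PiN n - BB n + 1 / Real.log ((n + 1 : ℕ) : ℝ) -
        ∫ t in (n : ℝ)..((n + 1 : ℕ) : ℝ), 1 / Real.log t := by
      rw [BB_succ]
      unfold PiN bb
      rw [lnd_pc, if_neg (Nat.succ_ne_zero n), max_eq_left hn3,
        ← intervalIntegral.integral_add_adjacent_intervals (lnd_ii (le_refl 2) hn2)
        (lnd_ii hn2 hn3)]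
      ring
    have hub : ∫ t in (n : ℝ)..((n + 1 : ℕ) : ℝ), 1 / Real.log t ≤ 1 / Real.log n := by
      have h1 : ∫ t in (n : ℝ)..((n + 1 : ℕ) : ℝ), 1 / Real.log t ≤
          ∫ t in (n : ℝ)..((n + 1 : ℕ) : ℝ), 1 / Real.log n := by
        refine intervalIntegral.integral_mono_on (by push_cast; linarith) (lnd_ii hn2 hn3)
          (by simp) ?_
        intro t ht
        exact one_div_le_one_div_of_le hln (Real.log_le_log (by linarith) ht.1)
      refine h1.trans (le_of_eq ?_)
      rw [intervalIntegral.integral_const]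
      push_cast
      simp
    have hlb : 1 / Real.log ((n + 1 : ℕ) : ℝ) ≤
        ∫ t in (n : ℝ)..((n + 1 : ℕ) : ℝ), 1 / Real.log t := by
      have h1 : ∫ t in (n : ℝ)..((n + 1 : ℕ) : ℝ), 1 / Real.log ((n + 1 : ℕ) : ℝ) ≤
          ∫ t in (n : ℝ)..((n + 1 : ℕ) : ℝ), 1 / Real.log t := by
        refine intervalIntegral.integral_mono_on (by push_cast; linarith) (by simp)
          (lnd_ii hn2 hn3) ?_
        intro t ht
        have h2 : (2 : ℝ) ≤ t := hn2.trans ht.1
        exact one_div_le_one_div_of_le (Real.log_pos (by linarith))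
          (Real.log_le_log (by linarith) ht.2)
      refine le_trans (le_of_eq ?_) h1
      rw [intervalIntegral.integral_const]
      push_cast
      simp
    rw [hstep]
    constructor <;> linarith [ih.1, ih.2]

theorem lnd (s α u : ℝ) (hs : s = 1 ∨ s = -1) (hu : 0 < u) (hu1 : u < 1) (hα2 : 1 / 2 ≤ α) (hα1 : α < 1)
    (h : One s α u) : Smb α := by
  obtain ⟨C, x0, hC, hx0, hone⟩ := h
  have hsabs : |s| = 1 := by
    rcases hs with rfl | rfl <;> simp
  -- a large starting point
  obtain ⟨N0, hN0⟩ : ∃ N0 : ℕ, ∀ n : ℕ, N0 ≤ n → 100 ≤ n ∧ x0 ≤ (n : ℝ) / 2 ∧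
      4 * (n : ℝ) ^ (1 - u) ≤ (n : ℝ) / 3 := by
    have h1 : ∀ᶠ x : ℝ in Filter.atTop, 12 ≤ x ^ u :=
      (tendsto_rpow_atTop hu).eventually_ge_atTop 12
    have h2 : ∀ᶠ n : ℕ in Filter.atTop, (12 : ℝ) ≤ (n : ℝ) ^ u :=
      tendsto_natCast_atTop_atTop.eventually h1
    have h3 : ∀ᶠ n : ℕ in Filter.atTop, (2 * x0 : ℝ) ≤ (n : ℝ) :=
      tendsto_natCast_atTop_atTop.eventually_ge_atTop _
    obtain ⟨N0, hN0⟩ := Filter.eventually_atTop.1 (h2.and (h3.and (Filter.eventually_ge_atTop 100)))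
    refine ⟨N0, fun n hn => ?_⟩
    obtain ⟨h4, h5, h6⟩ := hN0 n hn
    refine ⟨h6, by linarith, ?_⟩
    have hn0 : (0 : ℝ) < n := by exact_mod_cast (by omega : 0 < n)
    have e : (n : ℝ) ^ (1 - u) * (n : ℝ) ^ u = n := by
      rw [← Real.rpow_add hn0]
      simp
    have h7 : 0 < (n : ℝ) ^ (1 - u) := by positivity
    nlinarith
  set M : ℝ := ∑ k ∈ range (N0 + 1), |PiN k| with hM
  have hM0 : 0 ≤ M := Finset.sum_nonneg fun _ _ => abs_nonneg _
  set C' : ℝ := 5 * C + M with hC'
  have hC'0 : 0 < C' := by rw [hC']; linarith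
  have hlow : ∀ n : ℕ, 1 ≤ n → -(C' * (n : ℝ) ^ α) ≤ s * PiN n := by
    intro n
    induction n using Nat.strong_induction_on with
    | _ n ih =>
    intro hn
    have hn1 : (1 : ℝ) ≤ n := by exact_mod_cast hn
    have hpow : 1 ≤ (n : ℝ) ^ α := Real.one_le_rpow hn1 (by linarith)
    rcases Nat.lt_or_ge n N0 with hlt | hge
    · have h1 : |PiN n| ≤ M := by
        rw [hM]
        exact Finset.single_le_sum (f := fun k => |PiN k|) (fun _ _ => abs_nonneg _)
          (mem_range.2 (by omega))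
      have h2 : |s * PiN n| ≤ M := by rw [abs_mul, hsabs, one_mul]; exact h1
      have h3 := (abs_le.1 h2).1
      have h4 : M ≤ C' * (n : ℝ) ^ α := by
        calc M ≤ C' := by rw [hC']; linarith
          _ = C' * 1 := by ring
          _ ≤ C' * (n : ℝ) ^ α := mul_le_mul_of_nonneg_left hpow hC'0.le
      linarith
    · obtain ⟨h100, hx, h4⟩ := hN0 n hge
      obtain ⟨m, hm⟩ : ∃ m : ℕ, m = (n + 1) / 2 := ⟨_, rfl⟩
      have hm1 : n ≤ 2 * m := by omega
      have hm2 : 2 * m ≤ n + 1 := by omega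
      have hm1' : (n : ℝ) ≤ 2 * m := by exact_mod_cast hm1
      have hm2' : 2 * (m : ℝ) ≤ n + 1 := by exact_mod_cast hm2
      have h100' : (100 : ℝ) ≤ n := by exact_mod_cast h100
      have hmn : m ≤ n := by omega
      have hih := ih m (by omega) (by omega)
      have hsub := lnd_sub (m := m) (n := n) (by omega) hmn
      have hm0 : (0 : ℝ) < m := by linarith
      have hmle : (m : ℝ) ≤ n := by exact_mod_cast hmn
      have hpm : (m : ℝ) ^ (1 - u) ≤ (n : ℝ) ^ (1 - u) :=
        Real.rpow_le_rpow hm0.le hmle (by linarith)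
      have hpm0 : 0 ≤ (m : ℝ) ^ (1 - u) := by positivity
      have h5 := hone m ((n : ℝ) - m) (by linarith) (by linarith) (by linarith)
      have h6 : s * PiN n = s * PiN m + s * Pi m ((n : ℝ) - m) := by
        rw [← hsub]; ring
      have h7 : C * (m : ℝ) ^ (α - 1) * ((n : ℝ) - m) ≤ C * (m : ℝ) ^ α := by
        have e : (m : ℝ) ^ α = (m : ℝ) ^ (α - 1) * m := by
          rw [← Real.rpow_add_one hm0.ne']
          congr 1
          ring
        rw [e, mul_assoc]
        have h8 : 0 ≤ (m : ℝ) ^ (α - 1) := by positivity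
        exact mul_le_mul_of_nonneg_left (mul_le_mul_of_nonneg_left (by linarith) h8) hC.le
      have h8 : (m : ℝ) ^ α ≤ 4 / 5 * (n : ℝ) ^ α := by
        have h9 : (m : ℝ) ≤ 16 / 25 * n := by linarith
        have h10 : (m : ℝ) ^ α ≤ (16 / 25 * (n : ℝ)) ^ α := Real.rpow_le_rpow hm0.le h9 (by linarith)
        have h11 : (16 / 25 * (n : ℝ)) ^ α = (16 / 25 : ℝ) ^ α * (n : ℝ) ^ α :=
          Real.mul_rpow (by norm_num) (by linarith)
        have h12 : (16 / 25 : ℝ) ^ α ≤ (16 / 25 : ℝ) ^ (1 / 2 : ℝ) :=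
          Real.rpow_le_rpow_of_exponent_ge (by norm_num) (by norm_num) hα2
        have h13 : (16 / 25 : ℝ) ^ (1 / 2 : ℝ) = 4 / 5 := by
          rw [← Real.sqrt_eq_rpow]
          rw [show (16 / 25 : ℝ) = (4 / 5) ^ 2 by norm_num]
          exact Real.sqrt_sq (by norm_num)
        rw [h11] at h10
        rw [h13] at h12
        exact h10.trans (mul_le_mul_of_nonneg_right h12 (by positivity))
      have h9 : C' * (m : ℝ) ^ α + C * (m : ℝ) ^ α ≤ C' * (n : ℝ) ^ α := by
        have h10 : C * (m : ℝ) ^ α ≤ C * (4 / 5 * (n : ℝ) ^ α) :=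
          mul_le_mul_of_nonneg_left h8 hC.le
        have h11 : C' * (m : ℝ) ^ α ≤ C' * (4 / 5 * (n : ℝ) ^ α) :=
          mul_le_mul_of_nonneg_left h8 hC'0.le
        have h12 : C ≤ 1 / 5 * C' := by rw [hC']; linarith
        have h13 : C * (n : ℝ) ^ α ≤ 1 / 5 * C' * (n : ℝ) ^ α :=
          mul_le_mul_of_nonneg_right h12 (by positivity)
        have h14 : C * (4 / 5 * (n : ℝ) ^ α) ≤ 1 / 5 * C' * (n : ℝ) ^ α := by
          have h15 : 0 ≤ C * (n : ℝ) ^ α := by positivity
          linarith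
        linarith
      linarith
  -- pass to `BB`
  have hl2 : (1 / 2 : ℝ) < Real.log 2 := by
    have := Real.log_two_gt_d9
    linarith
  set D : ℝ := 4 + |PiN 1 - BB 1| with hD
  have hD0 : 0 < D := by rw [hD]; positivity
  have hcmp : ∀ n : ℕ, 1 ≤ n → |PiN n - BB n| ≤ D := by
    intro n hn
    rcases Nat.lt_or_ge n 2 with h2 | h2
    · have : n = 1 := by omega
      subst this
      rw [hD]; linarith
    · obtain ⟨h3, h4⟩ := lnd_cmp n h2
      have h5 : 0 ≤ 1 / Real.log n := by
        have : (2 : ℝ) ≤ n := by exact_mod_cast h2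
        have := Real.log_pos (by linarith : (1 : ℝ) < n)
        positivity
      have h6 : 2 / Real.log 2 ≤ 4 := by
        rw [div_le_iff₀ (by linarith)]
        linarith
      rw [abs_of_nonneg (by linarith), hD]
      have := abs_nonneg (PiN 1 - BB 1)
      linarith
  have hBB : ∀ n : ℕ, 0 ≤ s * BB n + (C' + D) * (n : ℝ) ^ α := by
    intro n
    rcases Nat.eq_zero_or_pos n with h0 | h0
    · subst h0
      rw [BB_zero, Nat.cast_zero, Real.zero_rpow (by linarith)]
      simp
    · have hn1 : (1 : ℝ) ≤ n := by exact_mod_cast h0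
      have hpow : 1 ≤ (n : ℝ) ^ α := Real.one_le_rpow hn1 (by linarith)
      have h1 := hlow n h0
      have h2 : |s * (PiN n - BB n)| ≤ D := by rw [abs_mul, hsabs, one_mul]; exact hcmp n h0
      have h3 := (abs_le.1 h2).2
      have h4 : D ≤ D * (n : ℝ) ^ α := by nlinarith
      nlinarith
  intro w hw
  have hsum := lnd_sum s (C' + D) α hsabs (by linarith) hα2 hα1.le hBB w hw
  have h4 : Summable fun n : ℕ => (n : ℝ) ^ (-(1 + w)) := by
    rw [Real.summable_nat_rpow]
    linarith
  refine Summable.of_nonneg_of_le (fun n => by positivity) (fun n => ?_) (hsum.add (h4.mul_left D))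
  rcases Nat.eq_zero_or_pos n with h0 | h0
  · subst h0
    rw [Nat.cast_zero, Real.zero_rpow (by linarith)]
    simp
  · have h1 := hcmp n h0
    have h2 : |PiN n| ≤ |BB n| + D := by
      have h3 : PiN n = BB n + (PiN n - BB n) := by ring
      rw [h3]
      exact (abs_add_le _ _).trans (by linarith)
    have h5 : 0 ≤ (n : ℝ) ^ (-(1 + w)) := by positivity
    calc |PiN n| * (n : ℝ) ^ (-(1 + w)) ≤ (|BB n| + D) * (n : ℝ) ^ (-(1 + w)) :=
          mul_le_mul_of_nonneg_right h2 h5
      _ = _ := by ring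

end Pool.Agent.H67.TS
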