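import Pool.Agent.H67.TS.Asm
import Pool.Agent.H67.TS.Gcm
import Pool.Agent.H24.WH.Mai
import Pool.Agent.H99.GB.Fin
import Pool.Agent.H99.GC.Fin

/-!
# [H67 TS TRD] the final theorem

`δ(θ) = max (min (θ/2) ((1-2θ)/6)) (θ - 1/(3-θ))`: GC (`H99/GC/Fin`) for `θ < 1/4`, GB (`H99/GB/Fin`) for
`1/4 ≤ θ < 1/2`, `main` (`H67/TS/Asm`) for `θ (3 - θ) > 1`.
-/

set_option autoImplicit false

namespace Pool.Agent.H67.TS

open Finset Pool.Agent.H48.WN

/-- the half `θ < 1/2`: input -/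
theorem gcat (θ : ℝ) (h0 : 0 < θ) (h1 : θ < 1 / 2) : GcAt θ (min (θ / 2) ((1 - 2 * θ) / 6)) := by
  intro ε c hε hc
  rcases lt_or_ge θ (1 / 4) with h | h
  · obtain ⟨X0, hX0⟩ := Pool.Agent.H99.GC.gc θ ε c h0 h hε hc
    have e : (1 / 2 - θ) / 3 = (1 - 2 * θ) / 6 := by ring
    rw [e] at hX0
    exact ⟨X0, hX0⟩
  · obtain ⟨X0, hX0⟩ := Pool.Agent.H99.GB.gb θ ε c h0 h1 hε hc
    refine ⟨X0, fun X hX A hA1 hA2 => ?_⟩
    obtain ⟨H, k1, k2, k3⟩ := hX0 X hX A hA1 hA2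
    refine ⟨H, k1, k2, fun s κ _ hκ _ => ?_⟩
    have e1 : min (θ / 2) ((1 - 2 * θ) / 6) = (1 - 2 * θ) / 6 := min_eq_right (by linarith)
    have e2 : min θ (1 / 2 - θ) / 3 = (1 - 2 * θ) / 6 := by
      rw [min_eq_right (by linarith)]
      ring
    rw [e2] at k3
    rw [e1]
    have : 0 ≤ κ * (X : ℝ) := by positivity
    linarith

/-- the half `θ < 1/2` -/
theorem gch (s θ ε : ℝ) (hs : s = 1 ∨ s = -1) (h0 : 0 < θ) (h1 : θ < 1 / 2) (hε : 0 < ε) (N : ℕ) :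
    ∃ n H : ℕ, N ≤ n ∧ (n : ℝ) ^ θ ≤ H ∧ (H : ℝ) ≤ 2 * (n : ℝ) ^ θ ∧
      (n : ℝ) ^ (min (θ / 2) ((1 - 2 * θ) / 6) - ε) ≤ s * EI n H := by
  obtain ⟨m, hm⟩ : ∃ m : ℝ, m = min (θ / 2) ((1 - 2 * θ) / 6) := ⟨_, rfl⟩
  have hm0 : 0 < m := by
    rw [hm]
    exact lt_min (by linarith) (by linarith)
  have hm1 : m ≤ θ / 2 := by
    rw [hm]
    exact min_le_left _ _
  obtain ⟨e, he, he1, he2⟩ : ∃ e : ℝ, 0 < e ∧ e ≤ ε ∧ e ≤ m :=
    ⟨min ε m, by positivity, min_le_left _ _, min_le_right _ _⟩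
  have hat : GcAt θ m := by
    rw [hm]
    exact gcat θ h0 h1
  have hn := gcm (-s) θ m (m - e) hat (by rcases hs with h | h <;> simp [h]) h0 h1
    (by linarith) (by linarith) (by linarith) (by linarith)
  unfold OneN at hn
  push Not at hn
  obtain ⟨n, H, k1, k2, k4, k5⟩ := hn (max N 1)
  rw [show 1 - (1 - θ) = θ by ring] at k2 k4
  rw [show m - e + (1 - θ) - (1 - θ) = m - e by ring] at k5
  refine ⟨n, H, (le_max_left _ _).trans k1, k2, k4, ?_⟩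
  have hn1 : (1 : ℝ) ≤ n := by exact_mod_cast (le_max_right N 1).trans k1
  have h6 : (n : ℝ) ^ (m - ε) ≤ (n : ℝ) ^ (m - e) :=
    Real.rpow_le_rpow_of_exponent_le hn1 (by linarith)
  have h7 : -s * EI n H = -(s * EI n H) := by ring
  rw [h7] at k5
  rw [← hm]
  linarith

/-- the exponent is positive -/
theorem exq_pos (θ : ℝ) (h0 : 0 < θ) (h1 : θ < 1) :
    0 < max (min (θ / 2) ((1 - 2 * θ) / 6)) (θ - 1 / (3 - θ)) := by
  rcases lt_or_ge θ (1 / 2) with h | h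
  · exact lt_max_of_lt_left (lt_min (by linarith) (by linarith))
  · refine lt_max_of_lt_right ?_
    have h3 : 0 < 3 - θ := by linarith
    rw [sub_pos, div_lt_iff₀ h3]
    nlinarith

theorem three (s θ ε : ℝ) (hs : s = 1 ∨ s = -1) (h0 : 0 < θ) (h1 : θ < 1) (hε : 0 < ε) (N : ℕ) :
    ∃ n H : ℕ, N ≤ n ∧ (n : ℝ) ^ θ ≤ H ∧ (H : ℝ) ≤ 2 * (n : ℝ) ^ θ ∧
      (n : ℝ) ^ (max (min (θ / 2) ((1 - 2 * θ) / 6)) (θ - 1 / (3 - θ)) - ε) ≤ s * EI n H := by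
  have h3 : 0 < 3 - θ := by linarith
  rcases le_or_gt (min (θ / 2) ((1 - 2 * θ) / 6)) (θ - 1 / (3 - θ)) with h | h
  · rw [max_eq_right h]
    rcases le_or_gt (θ - 1 / (3 - θ)) 0 with h2 | h2
    · -- then `θ < 1/2` and the other exponent is positive: impossible
      have h4 : θ * (3 - θ) ≤ 1 := by
        rw [sub_nonpos, le_div_iff₀ h3] at h2
        exact h2
      have h5 : θ < 1 / 2 := by nlinarith
      have h6 : 0 < min (θ / 2) ((1 - 2 * θ) / 6) := lt_min (by linarith) (by linarith)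
      linarith
    · have h4 : 1 < θ * (3 - θ) := by
        rw [sub_pos, div_lt_iff₀ h3] at h2
        exact h2
      obtain ⟨n, H, k1, k2, k3, k4⟩ := main Pool.Agent.H24.WH.mai s θ ε hs h1 h4 hε N
      exact ⟨n, H, k1, k2, k3, k4.le⟩
  · rw [max_eq_left h.le]
    have h5 : θ < 1 / 2 := by
      by_contra hc
      push Not at hc
      have h6 : min (θ / 2) ((1 - 2 * θ) / 6) ≤ 0 := (min_le_right _ _).trans (by linarith)
      have h7 : 0 < θ - 1 / (3 - θ) := by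
        rw [sub_pos, div_lt_iff₀ h3]
        nlinarith
      linarith
    exact gch s θ ε hs h0 h5 hε N

end Pool.Agent.H67.TS
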