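import Pool.Agent.H67.TS.Defs
import Pool.Agent.H48.WN.Coc

/-!
# [H67 TS PCS] from `H ∈ [n^(1-u), 2 n^(1-u)]` to all lengths, from integers to reals

PROOF. Cut `(⌊x⌋, ⌊x+h⌋]` greedily into integer intervals `(n, n+H]` with `H ∈ [n^(1-u), 2 n^(1-u)]` (`H = ⌈n^(1-u)⌉₊`; the
last piece takes the rest, which is `< n^(1-u)`, so its length is still `≤ 2 n^(1-u)`; `n^(1-u)` changes little): at most
`C h x^(u-1)` pieces, each with `s EI ≥ -(3x)^(α-u)`. Passing from `(⌊x⌋, ⌊x+h⌋]` to `(x, x+h]` changes only the integral, by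
`≤ 2/log 2`, and `x^(α-1) h ≥ x^(α-u) ≥ 1`.
-/

set_option autoImplicit false

namespace Pool.Agent.H67.TS

open Finset Pool.Agent.H48.WN

private theorem pi_ei (n H : ℕ) (hn : 2 ≤ n) : Pi n H = EI n H := by
  have e1 : ⌊((n : ℝ) + (H : ℝ))⌋₊ = n + H := by
    rw [← Nat.cast_add, Nat.floor_natCast]
  have hn2 : (2 : ℝ) ≤ n := by exact_mod_cast hn
  unfold Pi EI
  rw [e1, Nat.floor_natCast]
  congr 1
  apply intervalIntegral.integral_congr
  intro t ht
  rw [Set.uIcc_of_le (by simp)] at ht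
  show 1 / Real.log (max t 2) = 1 / Real.log t
  rw [max_eq_left (hn2.trans ht.1)]

private theorem ei_add (n a b : ℕ) (hn : 2 ≤ n) : EI n (a + b) = EI n a + EI (n + a) b := by
  rw [← pi_ei n (a + b) hn, ← pi_ei n a hn, ← pi_ei (n + a) b (by omega)]
  push_cast
  exact pi_coc.add n a b (by positivity) (by positivity) (by positivity)

private theorem pi_small (n : ℕ) (f : ℝ) (hf : 0 ≤ f) (hf1 : f < 1) : |Pi n f| ≤ 2 := by
  unfold Pi
  have e1 : ⌊(n : ℝ) + f⌋₊ = n := by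
    rw [Nat.floor_eq_iff (by positivity)]
    constructor <;> linarith
  rw [e1, Nat.floor_natCast]
  simp only [Ioc_self, filter_empty, card_empty, Nat.cast_zero, zero_sub, abs_neg]
  have h2 := intervalIntegral.norm_integral_le_of_norm_le_const (a := (n : ℝ)) (b := (n : ℝ) + f)
    (f := fun t => 1 / Real.log (max t 2)) (C := 2) (fun t _ => by
      have h1 : (2 : ℝ) ≤ max t 2 := le_max_right t 2
      have h3 : Real.log 2 ≤ Real.log (max t 2) := Real.log_le_log (by norm_num) h1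
      have h4 := Real.log_two_gt_d9
      rw [Real.norm_eq_abs, abs_of_nonneg (by apply div_nonneg zero_le_one; linarith),
        div_le_iff₀ (by linarith)]
      linarith)
  rw [Real.norm_eq_abs, add_sub_cancel_left, abs_of_nonneg hf] at h2
  linarith

private theorem cut {s u κ W B : ℝ} {n0 : ℕ}
    (hpiece : ∀ m H : ℕ, n0 ≤ m → (m : ℝ) ≤ B → (m : ℝ) ^ (1 - u) ≤ H → (H : ℝ) ≤ 2 * (m : ℝ) ^ (1 - u) →
      -W ≤ s * EI m H)
    (hκ : ∀ m : ℕ, n0 ≤ m → κ ≤ (m : ℝ) ^ (1 - u)) (hκ0 : 0 < κ) (hW : 0 ≤ W)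
    (hgrow : ∀ m H : ℕ, n0 ≤ m → (H : ℝ) ≤ 2 * (m : ℝ) ^ (1 - u) →
      ((m + H : ℕ) : ℝ) ^ (1 - u) ≤ 1.1 * (m : ℝ) ^ (1 - u))
    (hmono : ∀ m H : ℕ, (m : ℝ) ^ (1 - u) ≤ ((m + H : ℕ) : ℝ) ^ (1 - u))
    (hbig : ∀ m : ℕ, n0 ≤ m → 100 ≤ (m : ℝ) ^ (1 - u)) (hn0 : 2 ≤ n0) :
    ∀ r m : ℕ, n0 ≤ m → (m : ℝ) + r ≤ B → 2.25 * (m : ℝ) ^ (1 - u) ≤ r → -(r / κ * W) ≤ s * EI m r := by
  intro r
  induction r using Nat.strong_induction_on with
  | _ r ih =>
  intro m hm hB hr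
  have g1 := hbig m hm
  have g2 := hκ m hm
  by_cases hc : (r : ℝ) ≤ 3.5 * (m : ℝ) ^ (1 - u)
  · obtain ⟨H1, hH1⟩ : ∃ H1, H1 = r / 2 := ⟨_, rfl⟩
    obtain ⟨H2, hH2⟩ : ∃ H2, H2 = r - H1 := ⟨_, rfl⟩
    have b0 : r = H1 + H2 := by omega
    have b1 : 2 * H1 ≤ r := by omega
    have b2 : r ≤ 2 * H1 + 1 := by omega
    have c0 : (r : ℝ) = H1 + H2 := by exact_mod_cast b0
    have c1 : 2 * (H1 : ℝ) ≤ r := by exact_mod_cast b1
    have c2 : (r : ℝ) ≤ 2 * H1 + 1 := by exact_mod_cast b2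
    have d1 : (H1 : ℝ) ≤ 2 * (m : ℝ) ^ (1 - u) := by linarith
    have p1 := hpiece m H1 hm (by have : (0 : ℝ) ≤ r := Nat.cast_nonneg _; linarith) (by linarith) d1
    have d2 := hgrow m H1 hm d1
    have d3 := hmono m H1
    have p2 := hpiece (m + H1) H2 (by omega) (by push_cast; linarith) (by linarith) (by linarith)
    rw [b0, ei_add m H1 H2 (by omega), ← b0]
    have e1 : 2 ≤ (r : ℝ) / κ := by rw [le_div_iff₀ hκ0]; linarith
    nlinarith
  · rw [not_le] at hc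
    obtain ⟨H, hH⟩ : ∃ H, H = ⌈(m : ℝ) ^ (1 - u)⌉₊ := ⟨_, rfl⟩
    have b1 : (m : ℝ) ^ (1 - u) ≤ H := by rw [hH]; exact Nat.le_ceil _
    have b2 : (H : ℝ) < (m : ℝ) ^ (1 - u) + 1 := by rw [hH]; exact Nat.ceil_lt_add_one (by linarith)
    have b3 : (H : ℝ) < r := by linarith
    have b4 : H < r := by exact_mod_cast b3
    obtain ⟨r', hr'⟩ : ∃ r', r' = r - H := ⟨_, rfl⟩
    have b5 : r = H + r' := by omega
    have b6 : (0 : ℝ) < H := by linarith
    have b7 : 0 < H := by exact_mod_cast b6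
    have c0 : (r : ℝ) = H + r' := by exact_mod_cast b5
    have d1 : (H : ℝ) ≤ 2 * (m : ℝ) ^ (1 - u) := by linarith
    have p1 := hpiece m H hm (by have : (0 : ℝ) ≤ r := Nat.cast_nonneg _; linarith) b1 d1
    have d2 := hgrow m H hm d1
    have p2 := ih r' (by omega) (m + H) (by omega) (by push_cast; linarith) (by linarith)
    rw [b5, ei_add m H r' (by omega), ← b5]
    have e1 : 1 ≤ (H : ℝ) / κ := by rw [le_div_iff₀ hκ0]; linarith
    have e2 : (r : ℝ) / κ = H / κ + r' / κ := by rw [c0, add_div]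
    rw [e2]
    nlinarith

theorem pcs (s α u : ℝ) (hs : s = 1 ∨ s = -1) (hu : 0 < u) (hu1 : u < 1) (hα : u ≤ α) (hα1 : α < 1)
    (h : OneN s α u) : One s α u := by
  obtain ⟨N0, hN⟩ := h
  obtain ⟨T1, hT1⟩ : ∃ T1, T1 = (20 : ℝ) ^ (1 / u) := ⟨_, rfl⟩
  obtain ⟨T2, hT2⟩ : ∃ T2, T2 = (100 : ℝ) ^ (1 / (1 - u)) := ⟨_, rfl⟩
  have hT10 : 0 < T1 := by rw [hT1]; positivity
  have hT20 : 0 < T2 := by rw [hT2]; positivity
  have k1 : ∀ y : ℝ, T1 ≤ y → 20 ≤ y ^ u := by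
    intro y hy
    calc (20 : ℝ) = T1 ^ u := by
          rw [hT1, ← Real.rpow_mul (by norm_num), one_div_mul_cancel hu.ne', Real.rpow_one]
      _ ≤ y ^ u := Real.rpow_le_rpow hT10.le hy hu.le
  have k2 : ∀ y : ℝ, T2 ≤ y → 100 ≤ y ^ (1 - u) := by
    intro y hy
    calc (100 : ℝ) = T2 ^ (1 - u) := by
          rw [hT2, ← Real.rpow_mul (by norm_num), one_div_mul_cancel (by linarith), Real.rpow_one]
      _ ≤ y ^ (1 - u) := Real.rpow_le_rpow hT20.le hy (by linarith)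
  refine ⟨9, N0 + T1 + T2 + 3, by norm_num, by
    have : (0 : ℝ) ≤ N0 := Nat.cast_nonneg _
    linarith, fun x h hx h1 h2 => ?_⟩
  have hN00 : (0 : ℝ) ≤ N0 := Nat.cast_nonneg _
  have hx0 : 0 < x := by linarith
  obtain ⟨n, hn⟩ : ∃ n, n = ⌊x⌋₊ := ⟨_, rfl⟩
  obtain ⟨N, hN'⟩ : ∃ N, N = ⌊x + h⌋₊ := ⟨_, rfl⟩
  have hxu : 0 < x ^ (1 - u) := Real.rpow_pos_of_pos hx0 _
  have hh0 : 0 < h := by linarith
  have n1 : (n : ℝ) ≤ x := by rw [hn]; exact Nat.floor_le hx0.le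
  have n2 : x < n + 1 := by rw [hn]; exact Nat.lt_floor_add_one x
  have N1 : (N : ℝ) ≤ x + h := by rw [hN']; exact Nat.floor_le (by linarith)
  have N2 : x + h < N + 1 := by rw [hN']; exact Nat.lt_floor_add_one _
  have nN : n ≤ N := by rw [hn, hN']; exact Nat.floor_le_floor (by linarith)
  obtain ⟨r, hr⟩ : ∃ r, r = N - n := ⟨_, rfl⟩
  have hr' : N = n + r := by omega
  have hr'' : (N : ℝ) = n + r := by exact_mod_cast hr'
  have n3 : (N0 : ℝ) ≤ n := by linarith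
  have n4 : N0 ≤ n := by exact_mod_cast n3
  have n5 : (2 : ℝ) ≤ n := by linarith
  have n6 : 2 ≤ n := by exact_mod_cast n5
  have n7 : (0 : ℝ) < n := by linarith
  have big : ∀ m : ℕ, n ≤ m → 100 ≤ (m : ℝ) ^ (1 - u) := fun m hm => k2 m (by
    have : (n : ℝ) ≤ m := by exact_mod_cast hm
    linarith)
  have nmono : (n : ℝ) ^ (1 - u) ≤ x ^ (1 - u) := Real.rpow_le_rpow n7.le n1 (by linarith)
  have key := cut (s := s) (u := u) (κ := (n : ℝ) ^ (1 - u)) (W := (2 * x) ^ (α - u)) (B := 2 * x) (n0 := n)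
    (fun m H hm hB h3 h4 => by
      have a1 := hN m H (by omega) h3 h4
      have a2 : (m : ℝ) ^ (α - u) ≤ (2 * x) ^ (α - u) :=
        Real.rpow_le_rpow (Nat.cast_nonneg _) hB (by linarith)
      linarith)
    (fun m hm => Real.rpow_le_rpow n7.le (by exact_mod_cast hm) (by linarith))
    (Real.rpow_pos_of_pos n7 _) (Real.rpow_nonneg (by linarith) _)
    (fun m H hm hH => by
      have m1 : (n : ℝ) ≤ m := by exact_mod_cast hm
      have m0 : (0 : ℝ) < m := by linarith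
      have m2 := k1 m (by linarith)
      have m3 : (m : ℝ) ^ (1 - u) * (m : ℝ) ^ u = m := by
        rw [← Real.rpow_add m0]
        have : 1 - u + u = 1 := by ring
        rw [this, Real.rpow_one]
      have m4 : 0 < (m : ℝ) ^ (1 - u) := Real.rpow_pos_of_pos m0 _
      have m5 : 20 * (m : ℝ) ^ (1 - u) ≤ m := by nlinarith
      have m6 : ((m + H : ℕ) : ℝ) ≤ 1.1 * m := by
        push_cast
        linarith
      calc ((m + H : ℕ) : ℝ) ^ (1 - u) ≤ (1.1 * (m : ℝ)) ^ (1 - u) :=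
            Real.rpow_le_rpow (Nat.cast_nonneg _) m6 (by linarith)
        _ = (1.1 : ℝ) ^ (1 - u) * (m : ℝ) ^ (1 - u) := Real.mul_rpow (by norm_num) m0.le
        _ ≤ 1.1 * (m : ℝ) ^ (1 - u) := by
            apply mul_le_mul_of_nonneg_right _ m4.le
            calc (1.1 : ℝ) ^ (1 - u) ≤ (1.1 : ℝ) ^ (1 : ℝ) :=
                  Real.rpow_le_rpow_of_exponent_le (by norm_num) (by linarith)
              _ = 1.1 := Real.rpow_one _)
    (fun m H => Real.rpow_le_rpow (Nat.cast_nonneg _) (by push_cast; linarith [(Nat.cast_nonneg H : (0:ℝ) ≤ H)])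
      (by linarith))
    big n6 r n le_rfl (by rw [← hr'']; linarith) (by
      have := big n le_rfl
      linarith)
  have a1 := pi_coc.add n (x - n) h n7.le (by linarith) hh0.le
  have a2 := pi_coc.add n r (x + h - N) n7.le (Nat.cast_nonneg _) (by linarith)
  have a3 : (n : ℝ) + (x - n) = x := by ring
  have a4 : (n : ℝ) + r = N := hr''.symm
  have a5 : (r : ℝ) + (x + h - N) = x - n + h := by rw [hr'']; ring
  rw [a3] at a1
  rw [a4, a5, a1, pi_ei n r n6] at a2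
  have b1 := abs_le.mp (pi_small n (x - n) (by linarith) (by linarith))
  have b2 := abs_le.mp (pi_small N (x + h - N) (by linarith) (by linarith))
  have b3 : s * EI n r - 4 ≤ s * Pi x h := by
    rcases hs with hs | hs <;> rw [hs] <;> linarith [b1.1, b1.2, b2.1, b2.2]
  have c1 : 4 ≤ x ^ (α - 1) * h := by
    have d1 : x ^ (α - 1) * x ^ (1 - u) = x ^ (α - u) := by
      rw [← Real.rpow_add hx0]
      congr 1
      ring
    have d2 : 1 ≤ x ^ (α - u) := Real.one_le_rpow (by linarith) (by linarith)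
    have d3 : 0 < x ^ (α - 1) := Real.rpow_pos_of_pos hx0 _
    nlinarith
  have c2 : (r : ℝ) / (n : ℝ) ^ (1 - u) * (2 * x) ^ (α - u) ≤ 8 * (x ^ (α - 1) * h) := by
    have d1 : x ^ (1 - u) / 2 ≤ (n : ℝ) ^ (1 - u) := by
      calc x ^ (1 - u) / 2 ≤ (1 / 2 : ℝ) ^ (1 - u) * x ^ (1 - u) := by
            have : (1 / 2 : ℝ) ≤ (1 / 2 : ℝ) ^ (1 - u) := by
              calc (1 / 2 : ℝ) = (1 / 2 : ℝ) ^ (1 : ℝ) := (Real.rpow_one _).symm
                _ ≤ _ := Real.rpow_le_rpow_of_exponent_ge (by norm_num) (by norm_num) (by linarith)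
            nlinarith
        _ = (1 / 2 * x) ^ (1 - u) := (Real.mul_rpow (by norm_num) hx0.le).symm
        _ ≤ (n : ℝ) ^ (1 - u) := Real.rpow_le_rpow (by linarith) (by linarith) (by linarith)
    have d2 : (2 * x) ^ (α - u) ≤ 2 * x ^ (α - u) := by
      rw [Real.mul_rpow (by norm_num) hx0.le]
      apply mul_le_mul_of_nonneg_right _ (Real.rpow_nonneg hx0.le _)
      calc (2 : ℝ) ^ (α - u) ≤ (2 : ℝ) ^ (1 : ℝ) :=
            Real.rpow_le_rpow_of_exponent_le (by norm_num) (by linarith)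
        _ = 2 := Real.rpow_one _
    have d3 : (r : ℝ) ≤ 2 * h := by
      have : 100 ≤ x ^ (1 - u) := k2 x (by linarith)
      linarith
    have d4 : x ^ (α - u) = x ^ (α - 1) * x ^ (1 - u) := by
      rw [← Real.rpow_add hx0]
      congr 1
      ring
    have d5 : 0 < (n : ℝ) ^ (1 - u) := Real.rpow_pos_of_pos n7 _
    have d6 : 0 < x ^ (α - 1) := Real.rpow_pos_of_pos hx0 _
    rw [div_mul_eq_mul_div, div_le_iff₀ d5]
    calc (r : ℝ) * (2 * x) ^ (α - u) ≤ (2 * h) * (2 * x ^ (α - u)) :=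
          mul_le_mul d3 d2 (Real.rpow_nonneg (by linarith) _) (by linarith)
      _ = 8 * (x ^ (α - 1) * h) * (x ^ (1 - u) / 2) := by rw [d4]; ring
      _ ≤ 8 * (x ^ (α - 1) * h) * (n : ℝ) ^ (1 - u) := by
          apply mul_le_mul_of_nonneg_left d1
          positivity
  have c3 : 9 * x ^ (α - 1) * h = 8 * (x ^ (α - 1) * h) + x ^ (α - 1) * h := by ring
  rw [c3]
  linarith

end Pool.Agent.H67.TS
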