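import Pool.Agent.H67.TS.Fth
import Pool.Agent.H24.TS.Fbl

/-!
# [H67 TS FFT] the final theorem, all ranges, unconditional
-/

set_option autoImplicit false

namespace Pool.Agent.H67.TS

open Finset Pool.Agent.H48.WN

theorem fblStmt : FblStmt := fun s θ ρ δ h1 h2 h3 h4 h5 h6 h7 h8 =>
  Pool.Agent.H24.TS.fbl s θ ρ δ h1 h2 h3 h4 h5 h6 h7 h8

theorem dl_pos (θ : ℝ) (h0 : 0 < θ) (w : ℝ) : 0 < max (θ / 4) w :=
  lt_max_of_lt_left (by linarith)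

theorem five (s θ ε : ℝ) (hs : s = 1 ∨ s = -1) (h0 : 0 < θ) (h1 : θ < 1) (hε : 0 < ε) (N : ℕ) :
    ∃ n H : ℕ, N ≤ n ∧ (n : ℝ) ^ θ ≤ H ∧ (H : ℝ) ≤ 2 * (n : ℝ) ^ θ ∧
      (n : ℝ) ^ (max (θ / 4) (max (min (θ / 2) (max ((1 - 2 * θ) / 6) (1 / 12))) (θ - 1 / (3 - θ))) - ε) ≤
        s * EI n H :=
  four_ranges fblStmt s θ ε hs h0 h1 hε N

end Pool.Agent.H67.TS
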