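import Pool.Agent.H67.TS.Defs

/-!
# [H67 TS CST] the constants cancel

PROOF (helper73). `k = ∫_1^2 ww(t) dt/t`. `Wz M = H_M + Σ_(M<m≤2M) ww(m/M)/m = log M + γ + k + o(1)` (Riemann sum). With `X = 2M`:
`Σ_(m≤X) Gz(X/m)/m = Σ_(N≤X) (log N/N) (1 - ww(X/N))` (`Lam * 1 = log`); by `Gas` the left side is
`(log X + c1) H_X - Σ_(m≤X) log m/m + O(1)`, the right side is `Σ_(N≤M) log N/N + log M (log 2 - k) + O(1)`, and
`Σ_(N≤M) log N/N = (log M)^2/2 + O(1)`. Hence `(c1 + γ + k) log M = O(1)`.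
-/

set_option autoImplicit false

namespace Pool.Agent.H67.TS

open Finset Pool.Agent.H48.WN

private theorem ww_lip : ∃ L : ℝ, 0 < L ∧ ∀ s t : ℝ, |ww s - ww t| ≤ L * |s - t| := by
  have hc : Continuous (deriv ww) := ww_contDiff.continuous_deriv (by simp)
  obtain ⟨B, hB⟩ := (isCompact_Icc (a := (1 : ℝ)) (b := 2)).exists_bound_of_continuousOn hc.continuousOn
  have hB' : ∀ t : ℝ, ‖deriv ww t‖ ≤ |B| + 1 := by
    intro t
    by_cases h1 : t < 1
    · have h2 : ww =ᶠ[nhds t] fun _ => (1 : ℝ) := by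
        filter_upwards [Iio_mem_nhds h1] with v hv using ww_one (le_of_lt hv)
      rw [h2.deriv_eq, deriv_const, norm_zero]; positivity
    · by_cases h3 : 2 < t
      · have h2 : ww =ᶠ[nhds t] fun _ => (0 : ℝ) := by
          filter_upwards [Ioi_mem_nhds h3] with v hv using ww_zero (le_of_lt hv)
        rw [h2.deriv_eq, deriv_const, norm_zero]; positivity
      · have h4 := hB t ⟨not_lt.1 h1, not_lt.1 h3⟩
        have h5 := le_abs_self B
        linarith
  refine ⟨|B| + 1, by positivity, fun s t => ?_⟩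
  have h := Convex.norm_image_sub_le_of_norm_deriv_le (f := ww) (C := |B| + 1) (s := Set.univ) (x := t) (y := s)
    (fun v _ => (ww_contDiff.differentiable (by simp)) v) (fun v _ => hB' v) convex_univ trivial trivial
  simpa [Real.norm_eq_abs] using h

/-- Riemann sums -/
private theorem rie (f : ℝ → ℝ) (L : ℝ) (hL : 0 ≤ L) (hc : ContinuousOn f (Set.Ioi 0))
    (hf : ∀ s t : ℝ, 1 ≤ s → 1 ≤ t → |f s - f t| ≤ L * |s - t|) (M : ℕ) (hM : 1 ≤ M) (N : ℕ) (hN : M ≤ N) :
    |∑ m ∈ Ioc M N, f ((m : ℝ) / M) / M - ∫ t in (1 : ℝ)..((N : ℝ) / M), f t| ≤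
      ((N : ℝ) - M) * (L / (M : ℝ) ^ 2) := by
  have hM0 : (0 : ℝ) < M := by exact_mod_cast hM
  have hint : ∀ a b : ℝ, 0 < a → 0 < b → IntervalIntegrable f MeasureTheory.volume a b := by
    intro a b ha hb
    apply ContinuousOn.intervalIntegrable
    exact hc.mono fun t ht => lt_of_lt_of_le (lt_min ha hb) ht.1
  induction N, hN using Nat.le_induction with
  | base => simp [div_self hM0.ne']
  | succ N hN ih =>
    have hNM : (M : ℝ) ≤ N := by exact_mod_cast hN
    have hN1 : (1 : ℝ) ≤ N / M := by rw [le_div_iff₀ hM0]; linarith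
    have hN2 : (N : ℝ) / M ≤ ((N + 1 : ℕ) : ℝ) / M := by gcongr; linarith
    rw [Finset.sum_Ioc_succ_top (by omega)]
    rw [← intervalIntegral.integral_add_adjacent_intervals (hint 1 ((N : ℝ) / M) one_pos (by linarith))
      (hint ((N : ℝ) / M) (((N + 1 : ℕ) : ℝ) / M) (by linarith) (by linarith))]
    have h1 : |f (((N + 1 : ℕ) : ℝ) / M) / M - ∫ t in ((N : ℝ) / M)..(((N + 1 : ℕ) : ℝ) / M), f t| ≤
        L / (M : ℝ) ^ 2 := by
      have e1 : f (((N + 1 : ℕ) : ℝ) / M) / M =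
          ∫ t in ((N : ℝ) / M)..(((N + 1 : ℕ) : ℝ) / M), f (((N + 1 : ℕ) : ℝ) / M) := by
        rw [intervalIntegral.integral_const, smul_eq_mul]
        push_cast; field_simp; ring
      rw [e1, ← intervalIntegral.integral_sub intervalIntegrable_const
        (hint ((N : ℝ) / M) (((N + 1 : ℕ) : ℝ) / M) (by linarith) (by linarith)), ← Real.norm_eq_abs]
      have e2 : ∀ t ∈ Set.uIoc ((N : ℝ) / M) (((N + 1 : ℕ) : ℝ) / M),
          ‖f (((N + 1 : ℕ) : ℝ) / M) - f t‖ ≤ L * (1 / M) := by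
        intro t ht
        rw [Set.uIoc_of_le hN2] at ht
        have g1 : ((N + 1 : ℕ) : ℝ) / M = (N : ℝ) / M + 1 / M := by push_cast; ring
        rw [Real.norm_eq_abs]
        refine (hf _ _ (by linarith) (by linarith [ht.1])).trans ?_
        have g2 : |((N + 1 : ℕ) : ℝ) / M - t| ≤ 1 / M := by
          rw [abs_le]; constructor
          · have : 0 ≤ 1 / (M : ℝ) := by positivity
            linarith [ht.2]
          · linarith [ht.1]
        gcongr
      have e3 := intervalIntegral.norm_integral_le_of_norm_le_const e2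
      have e4 : |((N + 1 : ℕ) : ℝ) / M - (N : ℝ) / M| = 1 / M := by
        rw [show ((N + 1 : ℕ) : ℝ) / M - (N : ℝ) / M = 1 / M by push_cast; ring, abs_of_pos (by positivity)]
      rw [e4] at e3
      calc _ ≤ L * (1 / M) * (1 / M) := e3
        _ = L / (M : ℝ) ^ 2 := by ring
    have h2 : ((N + 1 : ℕ) : ℝ) - M = (N : ℝ) - M + 1 := by push_cast; ring
    rw [h2, add_mul, one_mul]
    rw [abs_le] at ih h1 ⊢
    constructor <;> linarith [ih.1, ih.2, h1.1, h1.2]

private theorem inv_lip {s t : ℝ} (hs : 1 ≤ s) (ht : 1 ≤ t) : |1 / s - 1 / t| ≤ |s - t| := by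
  have h1 : 1 / s - 1 / t = (t - s) * (1 / (s * t)) := by
    have : s ≠ 0 := by linarith
    have : t ≠ 0 := by linarith
    field_simp
  have h2 : 1 / (s * t) ≤ 1 := by
    rw [div_le_one (by nlinarith)]; nlinarith
  have h3 : 0 ≤ 1 / (s * t) := by have : 0 < s * t := by nlinarith
                                  positivity
  rw [h1, abs_mul, abs_of_nonneg h3, abs_sub_comm t s]
  calc |s - t| * (1 / (s * t)) ≤ |s - t| * 1 := by gcongr
    _ = _ := mul_one _

private noncomputable def kk0 : ℝ := ∫ t in (1 : ℝ)..2, ww t / t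

/-- the two Riemann sums -/
private theorem two_sums : ∃ C : ℝ, 0 < C ∧ ∀ M : ℕ, 1 ≤ M →
    |∑ m ∈ Ioc M (2 * M), ww ((m : ℝ) / M) / m - kk0| ≤ C / M ∧
    |∑ N ∈ Ioc M (2 * M), ww (((2 * M : ℕ) : ℝ) / N) / N - kk0| ≤ C / M := by
  obtain ⟨L, hL, hww⟩ := ww_lip
  have hc1 : ContinuousOn (fun t : ℝ => ww t / t) (Set.Ioi 0) :=
    ww_contDiff.continuous.continuousOn.div continuousOn_id fun t ht => ne_of_gt ht
  have hc2 : ContinuousOn (fun t : ℝ => ww (2 / t) / t) (Set.Ioi 0) :=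
    (ww_contDiff.continuous.comp_continuousOn (continuousOn_const.div continuousOn_id fun t ht =>
      ne_of_gt ht)).div continuousOn_id fun t ht => ne_of_gt ht
  have hw1 : ∀ t : ℝ, |ww t| ≤ 1 := fun t => by rw [abs_of_nonneg (ww_nonneg t)]; exact ww_le t
  have hl1 : ∀ s t : ℝ, 1 ≤ s → 1 ≤ t → |ww s / s - ww t / t| ≤ (2 * L + 1) * |s - t| := by
    intro s t hs ht
    have e1 : ww s / s - ww t / t = (ww s - ww t) * (1 / s) + ww t * (1 / s - 1 / t) := by ring
    have e2 : |1 / s| ≤ 1 := by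
      rw [abs_of_pos (by positivity), div_le_one (by linarith)]; exact hs
    have e3 := abs_nonneg (s - t)
    rw [e1]
    calc _ ≤ |(ww s - ww t) * (1 / s)| + |ww t * (1 / s - 1 / t)| := abs_add_le _ _
      _ = |ww s - ww t| * |1 / s| + |ww t| * |1 / s - 1 / t| := by rw [abs_mul, abs_mul]
      _ ≤ (L * |s - t|) * 1 + 1 * |s - t| := by
          exact add_le_add (mul_le_mul (hww s t) e2 (abs_nonneg _) (by positivity))
            (mul_le_mul (hw1 t) (inv_lip hs ht) (abs_nonneg _) zero_le_one)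
      _ ≤ (2 * L + 1) * |s - t| := by nlinarith
  have hl2 : ∀ s t : ℝ, 1 ≤ s → 1 ≤ t → |ww (2 / s) / s - ww (2 / t) / t| ≤ (2 * L + 1) * |s - t| := by
    intro s t hs ht
    have e1 : ww (2 / s) / s - ww (2 / t) / t = (ww (2 / s) - ww (2 / t)) * (1 / s) +
      ww (2 / t) * (1 / s - 1 / t) := by ring
    have e2 : |1 / s| ≤ 1 := by
      rw [abs_of_pos (by positivity), div_le_one (by linarith)]; exact hs
    have e3 := abs_nonneg (s - t)
    have e4 : |ww (2 / s) - ww (2 / t)| ≤ L * (2 * |s - t|) := by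
      refine (hww _ _).trans ?_
      have g1 : |2 / s - 2 / t| ≤ 2 * |s - t| := by
        rw [show 2 / s - 2 / t = 2 * (1 / s - 1 / t) by ring, abs_mul, abs_two]
        have := inv_lip hs ht
        gcongr
      gcongr
    rw [e1]
    calc _ ≤ |(ww (2 / s) - ww (2 / t)) * (1 / s)| + |ww (2 / t) * (1 / s - 1 / t)| := abs_add_le _ _
      _ = |ww (2 / s) - ww (2 / t)| * |1 / s| + |ww (2 / t)| * |1 / s - 1 / t| := by rw [abs_mul, abs_mul]
      _ ≤ (L * (2 * |s - t|)) * 1 + 1 * |s - t| := by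
          exact add_le_add (mul_le_mul e4 e2 (abs_nonneg _) (by positivity))
            (mul_le_mul (hw1 _) (inv_lip hs ht) (abs_nonneg _) zero_le_one)
      _ ≤ (2 * L + 1) * |s - t| := by nlinarith
  -- the substitution
  have hsub : ∫ t in (1 : ℝ)..2, ww (2 / t) / t = kk0 := by
    have hder : ∀ y : ℝ, 0 < y → HasDerivAt (fun y => ∫ v in (1 : ℝ)..y, ww v / v) (ww y / y) y := by
      intro y hy
      refine intervalIntegral.integral_hasDerivAt_right ?_
        (hc1.stronglyMeasurableAtFilter isOpen_Ioi y hy) (hc1.continuousAt (Ioi_mem_nhds hy))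
      apply ContinuousOn.intervalIntegrable
      exact hc1.mono fun t ht => lt_of_lt_of_le (lt_min one_pos hy) ht.1
    have h1 : ∫ t in (1 : ℝ)..2, ww (2 / t) / t =
        (-∫ v in (1 : ℝ)..(2 / 2), ww v / v) - (-∫ v in (1 : ℝ)..(2 / 1), ww v / v) := by
      apply intervalIntegral.integral_eq_sub_of_hasDerivAt (f := fun t => -∫ v in (1 : ℝ)..(2 / t), ww v / v)
      · intro t ht
        rw [Set.uIcc_of_le (by norm_num)] at ht
        have ht0 : 0 < t := by linarith [ht.1]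
        have g1 : HasDerivAt (fun t : ℝ => 2 / t) (-(2 / t ^ 2)) t :=
          ((hasDerivAt_const t (2 : ℝ)).div (hasDerivAt_id t) ht0.ne').congr_deriv (by
            simp only [id]; ring)
        have g2 := ((hder (2 / t) (by positivity)).comp t g1).neg
        refine g2.congr_deriv ?_
        field_simp
      · apply ContinuousOn.intervalIntegrable
        exact hc2.mono fun t ht => lt_of_lt_of_le (lt_min one_pos two_pos) ht.1
    rw [h1, kk0, div_self two_ne_zero, intervalIntegral.integral_same, div_one]; ring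
  refine ⟨2 * L + 1, by positivity, fun M hM => ?_⟩
  have hM0 : (0 : ℝ) < M := by exact_mod_cast hM
  have hfin : (((2 * M : ℕ) : ℝ) - M) * ((2 * L + 1) / (M : ℝ) ^ 2) = (2 * L + 1) / M := by
    push_cast; field_simp; ring
  have hup : ((2 * M : ℕ) : ℝ) / M = 2 := by push_cast; field_simp
  constructor
  · have h1 := rie (fun t => ww t / t) (2 * L + 1) (by positivity) hc1 hl1 M hM (2 * M) (by omega)
    rw [hfin, hup] at h1
    have h2 : ∑ m ∈ Ioc M (2 * M), ww ((m : ℝ) / M) / m =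
        ∑ m ∈ Ioc M (2 * M), ww ((m : ℝ) / M) / ((m : ℝ) / M) / M := by
      apply Finset.sum_congr rfl
      intro m hm
      have : (0 : ℝ) < m := by exact_mod_cast (by have := (mem_Ioc.1 hm).1; omega : 0 < m)
      field_simp
    rw [h2, kk0]; exact h1
  · have h1 := rie (fun t => ww (2 / t) / t) (2 * L + 1) (by positivity) hc2 hl2 M hM (2 * M) (by omega)
    rw [hfin, hup] at h1
    have h2 : ∑ N ∈ Ioc M (2 * M), ww (((2 * M : ℕ) : ℝ) / N) / N =
        ∑ m ∈ Ioc M (2 * M), ww (2 / ((m : ℝ) / M)) / ((m : ℝ) / M) / M := by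
      apply Finset.sum_congr rfl
      intro m hm
      have : (0 : ℝ) < m := by exact_mod_cast (by have := (mem_Ioc.1 hm).1; omega : 0 < m)
      rw [show ((2 * M : ℕ) : ℝ) / m = 2 / ((m : ℝ) / M) by push_cast; field_simp]
      field_simp
    rw [h2, ← hsub]; exact h1

/-- harmonic numbers -/
private noncomputable def Hn (M : ℕ) : ℝ := ∑ m ∈ Icc 1 M, 1 / (m : ℝ)

private theorem hn_bd (M : ℕ) (hM : 1 ≤ M) :
    |Hn M - Real.log M - Real.eulerMascheroniConstant| ≤ 1 / M := by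
  have hM0 : (0 : ℝ) < M := by exact_mod_cast hM
  have h0 : Hn M = (harmonic M : ℝ) := by
    rw [harmonic_eq_sum_Icc, Hn]; push_cast
    exact Finset.sum_congr rfl fun m _ => one_div _
  have h1 := Real.eulerMascheroniSeq_lt_eulerMascheroniConstant M
  have h2 := Real.eulerMascheroniConstant_lt_eulerMascheroniSeq' M
  rw [Real.eulerMascheroniSeq, ← h0] at h1
  rw [Real.eulerMascheroniSeq', if_neg (by omega), ← h0] at h2
  have h3 : Real.log (M + 1) - Real.log M ≤ 1 / M := by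
    rw [← Real.log_div (by positivity) hM0.ne']
    have := Real.log_le_sub_one_of_pos (x := ((M : ℝ) + 1) / M) (by positivity)
    have e : ((M : ℝ) + 1) / M - 1 = 1 / M := by field_simp; ring
    linarith
  rw [abs_le]; constructor <;> linarith

private noncomputable def S1 (M : ℕ) : ℝ := ∑ m ∈ Icc 1 M, Real.log m / (m : ℝ)

private theorem s1_bd : ∃ B : ℝ, 0 < B ∧ ∀ M : ℕ, 1 ≤ M → |S1 M - Real.log M ^ 2 / 2| ≤ B := by
  have hs : Summable fun n : ℕ => 6 * (n : ℝ) ^ (-(3 / 2 : ℝ)) :=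
    (Real.summable_nat_rpow.2 (by norm_num)).mul_left _
  refine ⟨∑' n : ℕ, 6 * (n : ℝ) ^ (-(3 / 2 : ℝ)) + 1, by positivity, fun M hM => ?_⟩
  have hind : |S1 M - Real.log M ^ 2 / 2| ≤ ∑ n ∈ Icc 1 M, 6 * (n : ℝ) ^ (-(3 / 2 : ℝ)) := by
    induction M, hM using Nat.le_induction with
    | base => simp [S1]
    | succ M hM ih =>
      rw [Finset.sum_Icc_succ_top (by omega)]
      have hM1 : (1 : ℝ) ≤ M := by exact_mod_cast hM
      have hM0 : (0 : ℝ) < M := by linarith
      have e0 : S1 (M + 1) = S1 M + Real.log ((M + 1 : ℕ) : ℝ) / ((M + 1 : ℕ) : ℝ) := by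
        rw [S1, S1, Finset.sum_Icc_succ_top (by omega)]
      set x : ℝ := ((M + 1 : ℕ) : ℝ) with hx
      have hxM : x = M + 1 := by rw [hx]; push_cast; ring
      have hx0 : 0 < x := by rw [hxM]; linarith
      set d : ℝ := Real.log x - Real.log M with hd
      have hd1 : d ≤ 1 / M := by
        rw [hd, ← Real.log_div hx0.ne' hM0.ne']
        have := Real.log_le_sub_one_of_pos (x := x / M) (by positivity)
        have e : x / M - 1 = 1 / M := by rw [hxM]; field_simp; ring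
        linarith
      have hd2 : 1 / x ≤ d := by
        have h1 : Real.log M - Real.log x ≤ -(1 / x) := by
          rw [← Real.log_div hM0.ne' hx0.ne']
          have := Real.log_le_sub_one_of_pos (x := M / x) (by positivity)
          have e : M / x - 1 = -(1 / x) := by rw [hxM]; field_simp; ring
          linarith
        linarith
      have hd0 : 0 < 1 / x := by positivity
      have hlx : 0 ≤ Real.log x := Real.log_nonneg (by rw [hxM]; linarith)
      have hls : Real.log x ≤ 2 * x ^ (1 / 2 : ℝ) := by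
        have := Real.log_le_rpow_div hx0.le (by norm_num : (0 : ℝ) < 1 / 2)
        linarith
      have e1 : S1 (M + 1) - Real.log x ^ 2 / 2 = (S1 M - Real.log M ^ 2 / 2) +
          (d ^ 2 / 2 - Real.log x * (d - 1 / x)) := by
        rw [e0, hd]; ring
      have e2 : |d ^ 2 / 2 - Real.log x * (d - 1 / x)| ≤ 6 * x ^ (-(3 / 2 : ℝ)) := by
        have g1 : d ≤ 2 / x := by
          refine hd1.trans ?_
          rw [div_le_div_iff₀ hM0 hx0, hxM]; linarith
        have g2 : d - 1 / x ≤ 2 / x ^ 2 := by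
          have : 1 / (M : ℝ) - 1 / x ≤ 2 / x ^ 2 := by
            rw [div_sub_div _ _ hM0.ne' hx0.ne', div_le_div_iff₀ (by positivity) (by positivity), hxM]
            nlinarith
          linarith
        have g3 : d ^ 2 / 2 ≤ 2 / x ^ 2 := by
          have : d ^ 2 ≤ (2 / x) ^ 2 := by gcongr; linarith
          have e : (2 / x) ^ 2 = 2 * (2 / x ^ 2) := by ring
          linarith
        have g4 : Real.log x * (d - 1 / x) ≤ 2 * x ^ (1 / 2 : ℝ) * (2 / x ^ 2) := by
          gcongr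
        have g5 : 0 ≤ Real.log x * (d - 1 / x) := mul_nonneg hlx (by linarith)
        have g6 : x ^ (1 / 2 : ℝ) * (1 / x ^ 2) = x ^ (-(3 / 2 : ℝ)) := by
          have k1 : 1 / x ^ 2 = x ^ (-2 : ℝ) := by rw [Real.rpow_neg hx0.le, Real.rpow_two, one_div]
          rw [k1, ← Real.rpow_add hx0]; norm_num
        have g7 : 1 / x ^ 2 ≤ x ^ (-(3 / 2 : ℝ)) := by
          rw [← g6]
          have : 1 ≤ x ^ (1 / 2 : ℝ) := Real.one_le_rpow (by rw [hxM]; linarith) (by norm_num)
          have h8 : 0 ≤ 1 / x ^ 2 := by positivity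
          nlinarith
        have g8 : 2 * x ^ (1 / 2 : ℝ) * (2 / x ^ 2) = 4 * x ^ (-(3 / 2 : ℝ)) := by rw [← g6]; ring
        have g9 : 2 / x ^ 2 ≤ 2 * x ^ (-(3 / 2 : ℝ)) := by
          rw [show 2 / x ^ 2 = 2 * (1 / x ^ 2) by ring]; gcongr
        have g10 : 0 ≤ d ^ 2 / 2 := by positivity
        have g11 : 0 ≤ x ^ (-(3 / 2 : ℝ)) := by positivity
        rw [abs_le]; constructor <;> linarith
      rw [e1]
      exact (abs_add_le _ _).trans (add_le_add ih e2)
  refine hind.trans ?_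
  have := hs.sum_le_tsum (Icc 1 M) (fun n _ => by positivity)
  linarith

/-- Chebyshev's identity -/
private theorem cheb (X : ℕ) (F : ℕ → ℝ) :
    ∑ m ∈ Icc 1 X, ∑ n ∈ Icc 1 (X / m), ArithmeticFunction.vonMangoldt n * F (m * n) =
      ∑ N ∈ Icc 1 X, Real.log N * F N := by
  have h1 : ∀ N ∈ Icc 1 X, Real.log N * F N =
      ∑ n ∈ N.divisors, ArithmeticFunction.vonMangoldt n * F N := by
    intro N _
    rw [← Finset.sum_mul, ArithmeticFunction.vonMangoldt_sum]
  rw [Finset.sum_congr rfl h1, Finset.sum_sigma', Finset.sum_sigma']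
  refine Finset.sum_nbij' (fun a => ⟨a.1 * a.2, a.2⟩) (fun a => ⟨a.1 / a.2, a.2⟩) ?_ ?_ ?_ ?_ ?_
  · rintro ⟨m, n⟩ ha
    simp only [mem_sigma, mem_Icc, Nat.mem_divisors] at ha ⊢
    have h2 : m * n ≤ X := by
      have := Nat.mul_le_of_le_div m n X ha.2.2
      rwa [mul_comm]
    refine ⟨⟨Nat.mul_pos (by omega) (by omega), h2⟩, Dvd.intro_left m rfl, ?_⟩
    exact Nat.mul_ne_zero (by omega) (by omega)
  · rintro ⟨N, n⟩ ha
    simp only [mem_sigma, mem_Icc, Nat.mem_divisors] at ha ⊢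
    obtain ⟨⟨h2, h3⟩, ⟨k, rfl⟩, h4⟩ := ha
    have hn : 0 < n := Nat.pos_of_ne_zero fun h => h4 (by rw [h, zero_mul])
    have hk : 0 < k := Nat.pos_of_ne_zero fun h => h4 (by rw [h, mul_zero])
    rw [Nat.mul_div_cancel_left k hn]
    refine ⟨⟨hk, (Nat.le_mul_of_pos_left k hn).trans h3⟩, hn, ?_⟩
    exact (Nat.le_div_iff_mul_le hk).2 h3
  · rintro ⟨m, n⟩ ha
    simp only [mem_sigma, mem_Icc] at ha
    have hn : 0 < n := by omega
    simp only [Nat.mul_div_cancel m hn]
  · rintro ⟨N, n⟩ ha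
    simp only [mem_sigma, mem_Icc, Nat.mem_divisors] at ha
    simp only [Nat.div_mul_cancel ha.2.1]
  · rintro ⟨m, n⟩ _
    rfl

/-- the error terms -/
private theorem err_bd (δ : ℝ) (hδ : 0 < δ) (hδ1 : δ ≤ 1) (X : ℕ) (hX : 1 ≤ X) :
    ∑ m ∈ Icc 1 X, 1 / (m : ℝ) * ((X : ℝ) / m) ^ (-δ) ≤ 1 / δ := by
  have hind : ∀ N : ℕ, 1 ≤ N → ∑ m ∈ Icc 1 N, (m : ℝ) ^ (δ - 1) ≤ (N : ℝ) ^ δ / δ := by
    intro N hN
    induction N, hN using Nat.le_induction with
    | base =>
      simp only [Finset.Icc_self, Finset.sum_singleton, Nat.cast_one, Real.one_rpow]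
      rw [le_div_iff₀ hδ]; linarith
    | succ N hN ih =>
      rw [Finset.sum_Icc_succ_top (by omega)]
      have hN0 : (0 : ℝ) < N := by exact_mod_cast hN
      set x : ℝ := ((N + 1 : ℕ) : ℝ) with hx
      have hxN : x = N + 1 := by rw [hx]; push_cast; ring
      have hx0 : 0 < x := by rw [hxN]; linarith
      have h1 := rpow_one_add_le_one_add_mul_self (s := -(1 / x)) (p := δ) (by
        have : 1 / x ≤ 1 := by rw [div_le_one hx0, hxN]; linarith
        linarith) hδ.le hδ1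
      have h2 : 1 + -(1 / x) = N / x := by rw [hxN]; field_simp; ring
      rw [h2, Real.div_rpow hN0.le hx0.le, div_le_iff₀ (by positivity)] at h1
      have h3 : x ^ (δ - 1) = x ^ δ / x := by rw [Real.rpow_sub hx0, Real.rpow_one]
      have h4 : (1 + δ * -(1 / x)) * x ^ δ = x ^ δ - δ * (x ^ δ / x) := by ring
      rw [h4, ← h3] at h1
      have h5 : x ^ (δ - 1) ≤ x ^ δ / δ - (N : ℝ) ^ δ / δ := by
        rw [← sub_div, le_div_iff₀ hδ]; linarith
      linarith
  have hX0 : (0 : ℝ) < X := by exact_mod_cast hX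
  have h1 : ∀ m ∈ Icc 1 X, 1 / (m : ℝ) * ((X : ℝ) / m) ^ (-δ) = (X : ℝ) ^ (-δ) * (m : ℝ) ^ (δ - 1) := by
    intro m hm
    have hm0 : (0 : ℝ) < m := by exact_mod_cast (mem_Icc.1 hm).1
    rw [Real.div_rpow hX0.le hm0.le, Real.rpow_neg hm0.le, Real.rpow_sub hm0, Real.rpow_one]
    field_simp
  rw [Finset.sum_congr rfl h1, ← Finset.mul_sum]
  calc (X : ℝ) ^ (-δ) * ∑ m ∈ Icc 1 X, (m : ℝ) ^ (δ - 1) ≤ (X : ℝ) ^ (-δ) * ((X : ℝ) ^ δ / δ) := by
        have := hind X hX
        gcongr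
    _ = 1 / δ := by
        rw [← mul_div_assoc, ← Real.rpow_add hX0]; simp

/-- `c2 = γ + k` -/
private theorem c2_eq (c2 : ℝ) (h2 : Was c2) : c2 = Real.eulerMascheroniConstant + kk0 := by
  obtain ⟨C, hC, h⟩ := h2 1
  obtain ⟨C', hC', h'⟩ := two_sums
  have key : ∀ M : ℕ, 1 ≤ M → |c2 - Real.eulerMascheroniConstant - kk0| ≤ (C + C' + 1) / M := by
    intro M hM
    have hM1 : (1 : ℝ) ≤ M := by exact_mod_cast hM
    have hM0 : (0 : ℝ) < M := by linarith
    have e1 := h M hM1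
    rw [pow_one] at e1
    have e2 := (h' M hM).1
    have e3 := hn_bd M hM
    have e4 : Wz M = Hn M + ∑ m ∈ Ioc M (2 * M), ww ((m : ℝ) / M) / m := by
      have k1 : ⌊2 * (M : ℝ)⌋₊ = 2 * M := by
        rw [show 2 * (M : ℝ) = ((2 * M : ℕ) : ℝ) by push_cast; ring, Nat.floor_natCast]
      have k2 : Icc 1 (2 * M) = Icc 1 M ∪ Ioc M (2 * M) := by
        ext n; simp only [mem_union, mem_Icc, mem_Ioc]; omega
      have k3 : Disjoint (Icc 1 M) (Ioc M (2 * M)) := by
        rw [Finset.disjoint_left]; intro n hn; simp only [mem_Icc, mem_Ioc] at hn ⊢; omega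
      rw [Wz, k1, k2, Finset.sum_union k3, Hn]
      congr 1
      apply Finset.sum_congr rfl
      intro m hm
      have hm2 : (m : ℝ) ≤ M := by exact_mod_cast (mem_Icc.1 hm).2
      rw [ww_one]
      rw [div_le_one hM0]; exact hm2
    rw [e4] at e1
    have e5 : (C + C' + 1) / (M : ℝ) = C / M + C' / M + 1 / M := by ring
    rw [e5]
    rw [abs_le] at e1 e2 e3 ⊢
    constructor <;> linarith [e1.1, e1.2, e2.1, e2.2, e3.1, e3.2]
  by_contra hne
  have hpos : 0 < |c2 - Real.eulerMascheroniConstant - kk0| := abs_pos.2 fun h => hne (by linarith)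
  obtain ⟨M, hM⟩ := exists_nat_gt ((C + C' + 1) / |c2 - Real.eulerMascheroniConstant - kk0|)
  have hM0 : (0 : ℝ) < M := lt_trans (by positivity) hM
  have h3 := key M (by exact_mod_cast hM0)
  rw [div_lt_iff₀ hpos] at hM
  rw [le_div_iff₀ hM0] at h3
  linarith

/-- `c1 = -γ - k` -/
private theorem c1_eq (α c1 : ℝ) (hα1 : α < 1) (h1 : Gas α c1) :
    c1 + Real.eulerMascheroniConstant + kk0 = 0 := by
  set γ := Real.eulerMascheroniConstant with hγ
  set δ : ℝ := min ((1 - α) / 2) 1 with hδ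
  have hδ0 : 0 < δ := lt_min (by linarith) one_pos
  have hδ1 : δ ≤ 1 := min_le_right _ _
  have hδ2 : δ ≤ (1 - α) / 2 := min_le_left _ _
  obtain ⟨C, hC, hG⟩ := h1 (1 - α - δ) (by linarith)
  obtain ⟨C', hC', h'⟩ := two_sums
  obtain ⟨B, hB, hS⟩ := s1_bd
  set ℓ2 := Real.log 2 with hℓ2
  have hℓ20 : 0 ≤ ℓ2 := Real.log_nonneg (by norm_num)
  have hℓ21 : ℓ2 ≤ 1 := by have := Real.log_two_lt_d9; linarith
  have key : ∃ D : ℝ, 0 < D ∧ ∀ M : ℕ, 1 ≤ M → |(c1 + γ + kk0) * Real.log M| ≤ D := by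
    refine ⟨C * (1 / δ) + 2 * B + 1 + (C' + 2) + (1 + |c1|) +
      |ℓ2 ^ 2 / 2 + (c1 + γ) * ℓ2 + c1 * γ|, by positivity, fun M hM => ?_⟩
    have hM1 : (1 : ℝ) ≤ M := by exact_mod_cast hM
    have hM0 : (0 : ℝ) < M := by linarith
    set X : ℕ := 2 * M with hX
    have hXM : (X : ℝ) = 2 * M := by rw [hX]; push_cast; ring
    have hX1 : (1 : ℝ) ≤ X := by linarith
    have hX0 : (0 : ℝ) < X := by linarith
    set ℓ := Real.log M with hℓ
    have hℓ0 : 0 ≤ ℓ := Real.log_nonneg hM1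
    have hlX : Real.log X = ℓ + ℓ2 := by rw [hXM, Real.log_mul two_ne_zero hM0.ne', hℓ, hℓ2]; ring
    -- the left side
    have a1 : |∑ m ∈ Icc 1 X, 1 / (m : ℝ) * Gz ((X : ℝ) / m) - ((Real.log X + c1) * Hn X - S1 X)| ≤
        C * (1 / δ) := by
      have b1 : (Real.log X + c1) * Hn X - S1 X = ∑ m ∈ Icc 1 X, 1 / (m : ℝ) * (Real.log ((X : ℝ) / m) + c1) := by
        rw [Hn, S1, Finset.mul_sum, ← Finset.sum_sub_distrib]
        apply Finset.sum_congr rfl
        intro m hm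
        have hm0 : (0 : ℝ) < m := by exact_mod_cast (mem_Icc.1 hm).1
        rw [Real.log_div hX0.ne' hm0.ne']; ring
      rw [b1, ← Finset.sum_sub_distrib]
      calc |∑ m ∈ Icc 1 X, (1 / (m : ℝ) * Gz ((X : ℝ) / m) - 1 / (m : ℝ) * (Real.log ((X : ℝ) / m) + c1))|
          ≤ ∑ m ∈ Icc 1 X, |1 / (m : ℝ) * Gz ((X : ℝ) / m) - 1 / (m : ℝ) * (Real.log ((X : ℝ) / m) + c1)| :=
            Finset.abs_sum_le_sum_abs _ _
        _ ≤ ∑ m ∈ Icc 1 X, C * (1 / (m : ℝ) * ((X : ℝ) / m) ^ (-δ)) := by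
            apply Finset.sum_le_sum
            intro m hm
            have hm0 : (0 : ℝ) < m := by exact_mod_cast (mem_Icc.1 hm).1
            have hmX : (m : ℝ) ≤ X := by exact_mod_cast (mem_Icc.1 hm).2
            have g1 := hG ((X : ℝ) / m) (by rw [le_div_iff₀ hm0]; linarith)
            rw [show α - 1 + (1 - α - δ) = -δ by ring] at g1
            rw [← mul_sub, abs_mul, abs_of_pos (by positivity : 0 < 1 / (m : ℝ))]
            rw [show Gz ((X : ℝ) / m) - (Real.log ((X : ℝ) / m) + c1) =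
              Gz ((X : ℝ) / m) - Real.log ((X : ℝ) / m) - c1 by ring]
            calc 1 / (m : ℝ) * |Gz ((X : ℝ) / m) - Real.log ((X : ℝ) / m) - c1|
                ≤ 1 / (m : ℝ) * (C * ((X : ℝ) / m) ^ (-δ)) := by gcongr
              _ = _ := by ring
        _ ≤ C * (1 / δ) := by
            rw [← Finset.mul_sum]
            have := err_bd δ hδ0 hδ1 X (by omega)
            gcongr
    -- the identity
    have a2 : ∑ m ∈ Icc 1 X, 1 / (m : ℝ) * Gz ((X : ℝ) / m) =
        ∑ N ∈ Icc 1 X, Real.log N * (1 / (N : ℝ) * (1 - ww ((X : ℝ) / N))) := by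
      rw [← cheb X (fun N => 1 / (N : ℝ) * (1 - ww ((X : ℝ) / N)))]
      apply Finset.sum_congr rfl
      intro m hm
      have hm0 : (0 : ℝ) < m := by exact_mod_cast (mem_Icc.1 hm).1
      rw [Gz, Nat.floor_div_eq_div, Finset.mul_sum]
      apply Finset.sum_congr rfl
      intro n hn
      have hn0 : (0 : ℝ) < n := by exact_mod_cast (mem_Icc.1 hn).1
      push_cast
      rw [div_div]
      field_simp
    -- the right side
    have a3 : ∑ N ∈ Icc 1 X, Real.log N * (1 / (N : ℝ) * (1 - ww ((X : ℝ) / N))) =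
        S1 M + ∑ N ∈ Ioc M X, Real.log N * (1 / (N : ℝ) * (1 - ww ((X : ℝ) / N))) := by
      have k2 : Icc 1 X = Icc 1 M ∪ Ioc M X := by
        ext n; simp only [mem_union, mem_Icc, mem_Ioc]; omega
      have k3 : Disjoint (Icc 1 M) (Ioc M X) := by
        rw [Finset.disjoint_left]; intro n hn; simp only [mem_Icc, mem_Ioc] at hn ⊢; omega
      rw [k2, Finset.sum_union k3, S1]
      congr 1
      apply Finset.sum_congr rfl
      intro m hm
      have hm0 : (0 : ℝ) < m := by exact_mod_cast (mem_Icc.1 hm).1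
      have hm2 : (m : ℝ) ≤ M := by exact_mod_cast (mem_Icc.1 hm).2
      rw [ww_zero]
      · ring
      · rw [le_div_iff₀ hm0, hXM]; linarith
    have a4 : |∑ N ∈ Ioc M X, Real.log N * (1 / (N : ℝ) * (1 - ww ((X : ℝ) / N))) -
        ℓ * ∑ N ∈ Ioc M X, 1 / (N : ℝ) * (1 - ww ((X : ℝ) / N))| ≤ 1 := by
      rw [Finset.mul_sum, ← Finset.sum_sub_distrib]
      calc |∑ N ∈ Ioc M X, (Real.log N * (1 / (N : ℝ) * (1 - ww ((X : ℝ) / N))) -
            ℓ * (1 / (N : ℝ) * (1 - ww ((X : ℝ) / N))))|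
          ≤ ∑ N ∈ Ioc M X, |Real.log N * (1 / (N : ℝ) * (1 - ww ((X : ℝ) / N))) -
            ℓ * (1 / (N : ℝ) * (1 - ww ((X : ℝ) / N)))| := Finset.abs_sum_le_sum_abs _ _
        _ ≤ ∑ N ∈ Ioc M X, 1 / (M : ℝ) := by
            apply Finset.sum_le_sum
            intro N hN
            have hNM : (M : ℝ) ≤ N := by exact_mod_cast (mem_Ioc.1 hN).1.le
            have hNX : (N : ℝ) ≤ X := by exact_mod_cast (mem_Ioc.1 hN).2
            have hN0 : (0 : ℝ) < N := by linarith
            rw [← sub_mul, abs_mul]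
            have g1 : |Real.log N - ℓ| ≤ 1 := by
              have := Real.log_le_log hM0 hNM
              have := Real.log_le_log hN0 hNX
              rw [abs_le]; constructor <;> linarith
            have g2 : |1 / (N : ℝ) * (1 - ww ((X : ℝ) / N))| ≤ 1 / M := by
              have := ww_nonneg ((X : ℝ) / N)
              have := ww_le ((X : ℝ) / N)
              rw [abs_of_nonneg (mul_nonneg (by positivity) (by linarith))]
              calc 1 / (N : ℝ) * (1 - ww ((X : ℝ) / N)) ≤ 1 / (N : ℝ) * 1 := by gcongr; linarith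
                _ ≤ 1 / M := by rw [mul_one]; gcongr
            calc |Real.log N - ℓ| * |1 / (N : ℝ) * (1 - ww ((X : ℝ) / N))| ≤ 1 * (1 / M) :=
                  mul_le_mul g1 g2 (abs_nonneg _) zero_le_one
              _ = _ := one_mul _
        _ = 1 := by
            rw [Finset.sum_const, Nat.card_Ioc, nsmul_eq_mul, Nat.cast_sub (by omega), hXM]; field_simp; ring
    have a5 : ∑ N ∈ Ioc M X, 1 / (N : ℝ) * (1 - ww ((X : ℝ) / N)) =
        Hn X - Hn M - ∑ N ∈ Ioc M X, ww ((X : ℝ) / N) / N := by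
      have k2 : Icc 1 X = Icc 1 M ∪ Ioc M X := by
        ext n; simp only [mem_union, mem_Icc, mem_Ioc]; omega
      have k3 : Disjoint (Icc 1 M) (Ioc M X) := by
        rw [Finset.disjoint_left]; intro n hn; simp only [mem_Icc, mem_Ioc] at hn ⊢; omega
      have k4 : Hn X = Hn M + ∑ N ∈ Ioc M X, 1 / (N : ℝ) := by
        rw [Hn, k2, Finset.sum_union k3, Hn]
      rw [k4, add_sub_cancel_left, ← Finset.sum_sub_distrib]
      exact Finset.sum_congr rfl fun N _ => by ring
    have b1 := (h' M hM).2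
    have b2 := hn_bd M hM
    have b3 := hn_bd X (by omega)
    have b4 := hS M hM
    have b5 := hS X (by omega)
    rw [← hX] at b1
    have hlM : ℓ ≤ M := by
      have := Real.log_le_sub_one_of_pos hM0
      linarith
    -- the sum a5 times log M
    have a6 : |ℓ * ∑ N ∈ Ioc M X, 1 / (N : ℝ) * (1 - ww ((X : ℝ) / N)) - ℓ * (ℓ2 - kk0)| ≤ C' + 2 := by
      rw [a5, ← mul_sub, abs_mul, abs_of_nonneg hℓ0]
      have g1 : |Hn X - Hn M - ∑ N ∈ Ioc M X, ww ((X : ℝ) / N) / N - (ℓ2 - kk0)| ≤ (C' + 2) / M := by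
        have g2 : 1 / (X : ℝ) ≤ 1 / M := by
          apply one_div_le_one_div_of_le hM0; linarith
        have g3 : (C' + 2) / (M : ℝ) = C' / M + 1 / M + 1 / M := by ring
        rw [hlX] at b3
        rw [g3]
        rw [abs_le] at b1 b2 b3 ⊢
        constructor <;> linarith [b1.1, b1.2, b2.1, b2.2, b3.1, b3.2]
      calc ℓ * |Hn X - Hn M - ∑ N ∈ Ioc M X, ww ((X : ℝ) / N) / N - (ℓ2 - kk0)|
          ≤ M * ((C' + 2) / M) := mul_le_mul hlM g1 (abs_nonneg _) hM0.le
        _ = C' + 2 := by field_simp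
    have a7 : |(Real.log X + c1) * Hn X - (Real.log X + c1) * (Real.log X + γ)| ≤ 1 + |c1| := by
      rw [← mul_sub, abs_mul]
      have g1 : |Hn X - (Real.log X + γ)| ≤ 1 / X := by
        rw [show Hn X - (Real.log X + γ) = Hn X - Real.log X - γ by ring]; exact b3
      have g2 : |Real.log X + c1| ≤ X * (1 + |c1|) := by
        have g3 : 0 ≤ Real.log X := Real.log_nonneg hX1
        have g4 : Real.log X ≤ X := by have := Real.log_le_sub_one_of_pos hX0; linarith
        have g5 : |c1| ≤ X * |c1| := by have := abs_nonneg c1; nlinarith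
        calc |Real.log X + c1| ≤ |Real.log X| + |c1| := abs_add_le _ _
          _ ≤ X * (1 + |c1|) := by rw [abs_of_nonneg g3]; linarith
      calc |Real.log X + c1| * |Hn X - (Real.log X + γ)| ≤ (X * (1 + |c1|)) * (1 / X) :=
            mul_le_mul g2 g1 (abs_nonneg _) (by positivity)
        _ = 1 + |c1| := by field_simp
    -- final
    rw [a2, a3] at a1
    rw [hlX] at a1 a7 b5
    have f1 : (c1 + γ + kk0) * ℓ = ((ℓ + ℓ2 + c1) * (ℓ + ℓ2 + γ) - (ℓ + ℓ2) ^ 2 / 2 - ℓ ^ 2 / 2 - ℓ * (ℓ2 - kk0)) -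
        (ℓ2 ^ 2 / 2 + (c1 + γ) * ℓ2 + c1 * γ) := by ring
    have f2 := abs_nonneg (ℓ2 ^ 2 / 2 + (c1 + γ) * ℓ2 + c1 * γ)
    have f3 := le_abs_self (ℓ2 ^ 2 / 2 + (c1 + γ) * ℓ2 + c1 * γ)
    have f4 := neg_abs_le (ℓ2 ^ 2 / 2 + (c1 + γ) * ℓ2 + c1 * γ)
    rw [f1]
    rw [abs_le] at a1 a4 a6 a7 b4 b5 ⊢
    constructor
    · linarith [a1.1, a1.2, a4.1, a4.2, a6.1, a6.2, a7.1, a7.2, b4.1, b4.2, b5.1, b5.2]
    · linarith [a1.1, a1.2, a4.1, a4.2, a6.1, a6.2, a7.1, a7.2, b4.1, b4.2, b5.1, b5.2]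
  obtain ⟨D, hD, hk⟩ := key
  by_contra hne
  have hpos : 0 < |c1 + γ + kk0| := abs_pos.2 hne
  obtain ⟨M, hM⟩ := exists_nat_gt (Real.exp (D / |c1 + γ + kk0|))
  have hM0 : (0 : ℝ) < M := lt_trans (Real.exp_pos _) hM
  have h3 := hk M (by exact_mod_cast hM0)
  have h4 : D / |c1 + γ + kk0| < Real.log M := (Real.lt_log_iff_exp_lt hM0).2 hM
  rw [abs_mul] at h3
  have h5 : Real.log M ≤ |Real.log M| := le_abs_self _
  rw [div_lt_iff₀ hpos] at h4
  have h6 : |c1 + γ + kk0| * Real.log M ≤ |c1 + γ + kk0| * |Real.log M| := by gcongr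
  linarith

theorem cst (α c1 c2 : ℝ) (hα1 : α < 1) (h1 : Gas α c1) (h2 : Was c2) : c1 + c2 = 0 := by
  have e1 := c1_eq α c1 hα1 h1
  have e2 := c2_eq c2 h2
  linarith

end Pool.Agent.H67.TS
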