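import Pool.Agent.H67.TS.Defs

/-!
# [TS FIN] two sided errors: from the sup bound and the mean bound to a contradiction with `mai`

PROOF. `b = 1/u + ε1`, `mai b ε1` at a large `T`: `T ≤ X^(1/b)`, so `H ≥ X/T ≥ X^(1-1/b) ≥ (2X)^(1-u)`;
`X ≤ T^(1/u + 5/8)`, so `H ≤ 64 X/T ≤ X^(1/(1+u) - ε2)`. Hence
`X H T^(-ε1) ≤ Σ EI^2 ≤ (2X)^(α/(1+u)+κ) X^(α+κ) H`, i.e. `X^(1-ε1) ≤ 2 X^(1-2κ)`, `ε1 ≤ κ`.
-/

set_option autoImplicit false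

namespace Pool.Agent.H67.TS

open Finset Pool.Agent.H48.WN

theorem fin (u α : ℝ) (hu : 0 < u) (hu1 : u < 1) (hα0 : 0 ≤ α) (hα : α * (2 + u) < 1 + u)
    (hsup : ∀ ε : ℝ, 0 < ε → ∃ x0 : ℝ, ∀ n H : ℕ, x0 ≤ n → (H : ℝ) ≤ (n : ℝ) ^ (1 / (1 + u)) →
      |EI n H| ≤ (n : ℝ) ^ (α / (1 + u) + ε))
    (hl1 : ∀ ε : ℝ, 0 < ε → ∃ x0 : ℝ, ∀ X H : ℕ, x0 ≤ X → 4 * (3 * (X : ℝ)) ^ (1 - u) ≤ H →
      2 * (H : ℝ) ≤ X → ∑ n ∈ Ioc X (2 * X), |EI n H| ≤ (X : ℝ) ^ (α + ε) * H)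
    (hmai0 : ∀ b ε : ℝ, 1 ≤ b → 0 < ε → ∃ T0 : ℝ, 1 ≤ T0 ∧ ∀ T : ℝ, T0 ≤ T → ∃ X H : ℕ,
      T ^ b ≤ X ∧ (X : ℝ) ≤ T ^ (b + 1 / 2 + ε) ∧ (X : ℝ) ≤ H * T ∧ (H : ℝ) * T ≤ 64 * X ∧
      (X : ℝ) * H * T ^ (-ε) ≤ ∑ n ∈ Ioc X (2 * X), (EI n H) ^ 2) : False := by
  have h1u : 0 < 1 + u := by linarith
  obtain ⟨κ, hκ, hκα⟩ : ∃ κ : ℝ, 0 < κ ∧ α + α / (1 + u) + 4 * κ ≤ 1 := by
    refine ⟨(1 - (α + α / (1 + u))) / 4, ?_, by linarith⟩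
    have e1 : α + α / (1 + u) = α * (2 + u) / (1 + u) := by field_simp; ring
    rw [e1]
    have : α * (2 + u) / (1 + u) < 1 := by rwa [div_lt_one h1u]
    linarith
  obtain ⟨ε1, h1a, h1b, h1c⟩ : ∃ ε1 : ℝ, 0 < ε1 ∧ ε1 ≤ κ ∧ ε1 ≤ 1 / 16 :=
    ⟨min κ (1 / 16), by positivity, min_le_left _ _, min_le_right _ _⟩
  obtain ⟨b, hb⟩ : ∃ b : ℝ, b = 1 / u + ε1 := ⟨_, rfl⟩
  have hiu : 1 < 1 / u := by rw [lt_div_iff₀ hu]; linarith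
  have hb1 : 1 ≤ b := by linarith
  have hb0 : 0 < b := by linarith
  have hα1 : 0 ≤ α / (1 + u) := by positivity
  -- `1/b < u`
  have hbu : 1 / b < u := by
    rw [div_lt_iff₀ hb0, hb]
    have : u * (1 / u + ε1) = 1 + u * ε1 := by field_simp
    rw [this]
    have : 0 < u * ε1 := by positivity
    linarith
  obtain ⟨τ, hτ⟩ : ∃ τ : ℝ, τ = 1 / (b + 1 / 2 + ε1) := ⟨_, rfl⟩
  have hb3 : 0 < b + 1 / 2 + ε1 := by linarith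
  have hτ0 : 0 < τ := by rw [hτ]; positivity
  have hτ1 : τ ≤ 1 := by rw [hτ, div_le_one hb3]; linarith
  have hτu : u / (1 + u) < τ := by
    rw [hτ, div_lt_div_iff₀ h1u hb3, hb]
    have : u * (1 / u + ε1 + 1 / 2 + ε1) = 1 + u * (2 * ε1 + 1 / 2) := by field_simp; ring
    rw [this]
    have : u * (2 * ε1 + 1 / 2) < u * 1 := mul_lt_mul_of_pos_left (by linarith) hu
    linarith
  obtain ⟨ε2, hε2⟩ : ∃ ε2 : ℝ, ε2 = (τ - u / (1 + u)) / 2 := ⟨_, rfl⟩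
  have hε2p : 0 < ε2 := by rw [hε2]; linarith
  have hτe : 1 - τ = 1 / (1 + u) - 2 * ε2 := by
    rw [hε2]
    field_simp
    ring
  obtain ⟨T0, hT0, hmai⟩ := hmai0 b ε1 hb1 h1a
  obtain ⟨x1, hs⟩ := hsup κ hκ
  obtain ⟨x2, hl⟩ := hl1 κ hκ
  -- `T` large
  obtain ⟨T, t1, t2, t3, t4, t5, t6, t7⟩ : ∃ T : ℝ, T0 ≤ T ∧ x1 ≤ T ∧ x2 ≤ T ∧
      (12 : ℝ) ^ (1 / (u - 1 / b)) ≤ T ∧ (64 : ℝ) ^ (1 / ε2) ≤ T ∧ (3 : ℝ) ^ (1 / κ) ≤ T ∧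
      128 ≤ T := by
    refine ⟨max T0 (max x1 (max x2 (max ((12 : ℝ) ^ (1 / (u - 1 / b)))
      (max ((64 : ℝ) ^ (1 / ε2)) (max ((3 : ℝ) ^ (1 / κ)) 128))))), ?_, ?_, ?_, ?_, ?_, ?_, ?_⟩ <;>
      simp
  have hT1 : 1 ≤ T := hT0.trans t1
  have hTp : 0 < T := by linarith
  obtain ⟨X, H, g1, g2, g3, g4, g5⟩ := hmai T t1
  have hTX : T ≤ X := by
    refine le_trans ?_ g1
    calc T = T ^ (1 : ℝ) := (Real.rpow_one T).symm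
      _ ≤ T ^ b := Real.rpow_le_rpow_of_exponent_le hT1 hb1
  have hX1 : (1 : ℝ) ≤ X := hT1.trans hTX
  have hX0 : (0 : ℝ) < X := by linarith
  have big : ∀ (c d : ℝ), 0 < d → 1 ≤ c → c ^ (1 / d) ≤ T → c ≤ (X : ℝ) ^ d := by
    intro c d hd hc h
    calc c = (c ^ (1 / d)) ^ d := by
          rw [← Real.rpow_mul (by linarith), one_div_mul_cancel hd.ne', Real.rpow_one]
      _ ≤ (X : ℝ) ^ d := Real.rpow_le_rpow (by positivity) (h.trans hTX) hd.le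
  have big1 := big 12 (u - 1 / b) (by linarith) (by norm_num) t4
  have big2 := big 64 ε2 hε2p (by norm_num) t5
  have big3 := big 3 κ hκ (by norm_num) t6
  -- bounds for `T`
  have hTb : T ≤ (X : ℝ) ^ (1 / b) := by
    calc T = (T ^ b) ^ (1 / b) := by
          rw [← Real.rpow_mul hTp.le, mul_one_div_cancel hb0.ne', Real.rpow_one]
      _ ≤ _ := Real.rpow_le_rpow (by positivity) g1 (by positivity)
  have hTτ : (X : ℝ) ^ τ ≤ T := by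
    calc (X : ℝ) ^ τ ≤ (T ^ (b + 1 / 2 + ε1)) ^ τ := Real.rpow_le_rpow hX0.le g2 hτ0.le
      _ = T := by
          rw [← Real.rpow_mul hTp.le, hτ, mul_one_div_cancel hb3.ne', Real.rpow_one]
  -- bounds for `H`
  have hHlow : 4 * (3 * (X : ℝ)) ^ (1 - u) ≤ H := by
    have e1 : (X : ℝ) / T ≤ H := by rw [div_le_iff₀ hTp]; exact g3
    refine le_trans ?_ e1
    rw [le_div_iff₀ hTp]
    calc 4 * (3 * (X : ℝ)) ^ (1 - u) * T ≤ (4 * (3 * (X : ℝ) ^ (1 - u))) * (X : ℝ) ^ (1 / b) := by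
          refine mul_le_mul ?_ hTb hTp.le (by positivity)
          refine mul_le_mul_of_nonneg_left ?_ (by norm_num)
          rw [Real.mul_rpow (by norm_num) hX0.le]
          refine mul_le_mul_of_nonneg_right ?_ (by positivity)
          calc (3 : ℝ) ^ (1 - u) ≤ (3 : ℝ) ^ (1 : ℝ) :=
                Real.rpow_le_rpow_of_exponent_le (by norm_num) (by linarith)
            _ = 3 := Real.rpow_one 3
      _ = (12 * (X : ℝ) ^ (1 - u)) * (X : ℝ) ^ (1 / b) := by ring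
      _ ≤ ((X : ℝ) ^ (u - 1 / b) * (X : ℝ) ^ (1 - u)) * (X : ℝ) ^ (1 / b) := by gcongr
      _ = X := by
          rw [← Real.rpow_add hX0, ← Real.rpow_add hX0]
          have : u - 1 / b + (1 - u) + 1 / b = 1 := by ring
          rw [this, Real.rpow_one]
  have hHp : (0 : ℝ) < H := lt_of_lt_of_le (by positivity) hHlow
  have hHup : (H : ℝ) ≤ (X : ℝ) ^ (1 / (1 + u) - ε2) := by
    have e1 : (H : ℝ) ≤ 64 * X / T := by rw [le_div_iff₀ hTp]; exact g4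
    refine e1.trans ?_
    rw [div_le_iff₀ hTp]
    calc 64 * (X : ℝ) ≤ (X : ℝ) ^ ε2 * X := by gcongr
      _ = (X : ℝ) ^ (1 / (1 + u) - ε2) * (X : ℝ) ^ τ := by
          nth_rewrite 2 [← Real.rpow_one (X : ℝ)]
          rw [← Real.rpow_add hX0, ← Real.rpow_add hX0]
          congr 1
          linarith
      _ ≤ _ := by gcongr
  have hexp : 0 ≤ 1 / (1 + u) - ε2 := by linarith
  have hHX : 2 * (H : ℝ) ≤ X := by
    have e1 : (H : ℝ) * 128 ≤ 64 * X := (mul_le_mul_of_nonneg_left t7 hHp.le).trans g4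
    linarith
  -- the sup bound
  obtain ⟨a, ha⟩ : ∃ a : ℝ, a = α / (1 + u) + κ := ⟨_, rfl⟩
  have ha0 : 0 ≤ a := by rw [ha]; linarith
  have ha1 : a ≤ 1 := by rw [ha]; linarith
  have hsupn : ∀ n ∈ Ioc X (2 * X), |EI n H| ≤ 2 * (X : ℝ) ^ a := by
    intro n hn
    rw [mem_Ioc] at hn
    have n1 : (X : ℝ) ≤ n := by exact_mod_cast hn.1.le
    have n2 : (n : ℝ) ≤ 2 * X := by exact_mod_cast hn.2
    have n0 : (1 : ℝ) ≤ n := hX1.trans n1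
    have k2 : (H : ℝ) ≤ (n : ℝ) ^ (1 / (1 + u)) := by
      calc (H : ℝ) ≤ (X : ℝ) ^ (1 / (1 + u) - ε2) := hHup
        _ ≤ (n : ℝ) ^ (1 / (1 + u) - ε2) := Real.rpow_le_rpow hX0.le n1 hexp
        _ ≤ _ := Real.rpow_le_rpow_of_exponent_le n0 (by linarith)
    refine (hs n H (t2.trans (hTX.trans n1)) k2).trans ?_
    rw [← ha]
    calc (n : ℝ) ^ a ≤ (2 * (X : ℝ)) ^ a := Real.rpow_le_rpow (by linarith) n2 ha0
      _ = 2 ^ a * (X : ℝ) ^ a := Real.mul_rpow (by norm_num) hX0.le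
      _ ≤ 2 * (X : ℝ) ^ a := by
          refine mul_le_mul_of_nonneg_right ?_ (by positivity)
          calc (2 : ℝ) ^ a ≤ (2 : ℝ) ^ (1 : ℝ) :=
                Real.rpow_le_rpow_of_exponent_le (by norm_num) ha1
            _ = 2 := Real.rpow_one 2
  have hmean := hl X H (t3.trans hTX) hHlow hHX
  have hsq : ∑ n ∈ Ioc X (2 * X), (EI n H) ^ 2 ≤ 2 * (X : ℝ) ^ a * ((X : ℝ) ^ (α + κ) * H) := by
    calc ∑ n ∈ Ioc X (2 * X), (EI n H) ^ 2 ≤ ∑ n ∈ Ioc X (2 * X), 2 * (X : ℝ) ^ a * |EI n H| := by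
          refine sum_le_sum fun n hn => ?_
          rw [← sq_abs, sq]
          exact mul_le_mul_of_nonneg_right (hsupn n hn) (abs_nonneg _)
      _ = 2 * (X : ℝ) ^ a * ∑ n ∈ Ioc X (2 * X), |EI n H| := by rw [mul_sum]
      _ ≤ _ := by gcongr
  have hfin := g5.trans hsq
  have hTe : (X : ℝ) ^ (-ε1) ≤ T ^ (-ε1) :=
    Real.rpow_le_rpow_of_nonpos hTp hTX (by linarith)
  have hfin2 : (X : ℝ) * (X : ℝ) ^ (-ε1) * H ≤ 2 * (X : ℝ) ^ a * (X : ℝ) ^ (α + κ) * H := by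
    calc (X : ℝ) * (X : ℝ) ^ (-ε1) * H ≤ (X : ℝ) * T ^ (-ε1) * H := by gcongr
      _ = (X : ℝ) * H * T ^ (-ε1) := by ring
      _ ≤ _ := hfin
      _ = _ := by ring
  have hfin3 : (X : ℝ) * (X : ℝ) ^ (-ε1) ≤ 2 * (X : ℝ) ^ a * (X : ℝ) ^ (α + κ) :=
    le_of_mul_le_mul_right hfin2 hHp
  have e3 : 3 * ((X : ℝ) ^ a * (X : ℝ) ^ (α + κ)) ≤ (X : ℝ) * (X : ℝ) ^ (-ε1) := by
    calc 3 * ((X : ℝ) ^ a * (X : ℝ) ^ (α + κ)) ≤ (X : ℝ) ^ κ * ((X : ℝ) ^ a * (X : ℝ) ^ (α + κ)) := by gcongr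
      _ = (X : ℝ) ^ (κ + (a + (α + κ))) := by rw [← Real.rpow_add hX0, ← Real.rpow_add hX0]
      _ ≤ (X : ℝ) ^ (1 + (-ε1)) := Real.rpow_le_rpow_of_exponent_le hX1 (by rw [ha]; linarith)
      _ = _ := by rw [Real.rpow_add hX0, Real.rpow_one]
  have hpos : 0 < (X : ℝ) ^ a * (X : ℝ) ^ (α + κ) := by positivity
  nlinarith

end Pool.Agent.H67.TS
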