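import Pool.Agent.H67.TS.Defs

/-!
# [H67 TS GSM] `Σ Lam(n)/n (1 - w(Z/n)) = log Z + c1 + O(Z^(α-1+ε))`

PROOF (helper73). `cl`: a sum over `3 ≤ n ≤ Z` whose terms do not depend on `Z` for `n + 1 ≤ Z/2` and are `O(|A n| (1 + log n)/n^2)` is
`c + O(Z^(α-1+ε))`, if `Σ |A n| n^(-(1+w)) < ∞` for `w > α`. `al`: partial summation. It is used for `PiN` with the weight
`log n / n`, for `ψ - θ ≤ 2 √n log n` with `1/n`, and for the main term with `A = 1`.
-/

set_option autoImplicit false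

namespace Pool.Agent.H67.TS

open Finset Pool.Agent.H48.WN

private theorem log_pow {δ : ℝ} (hδ : 0 < δ) {n : ℕ} (hn : 1 ≤ n) :
    1 + Real.log n ≤ (1 + 1 / δ) * (n : ℝ) ^ δ := by
  have hn1 : (1 : ℝ) ≤ n := by exact_mod_cast hn
  have h1 := Real.log_le_rpow_div (by linarith : (0 : ℝ) ≤ n) hδ
  have h2 : (1 : ℝ) ≤ (n : ℝ) ^ δ := Real.one_le_rpow hn1 hδ.le
  have h3 : (1 + 1 / δ) * (n : ℝ) ^ δ = (n : ℝ) ^ δ + (n : ℝ) ^ δ / δ := by ring
  rw [h3]; linarith

/-- the cut lemma -/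
private theorem cl (α : ℝ) (hα1 : α < 1) (A : ℕ → ℝ)
    (hA : ∀ w : ℝ, α < w → Summable fun n : ℕ => |A n| * (n : ℝ) ^ (-(1 + w))) (K : ℝ) (hK : 0 ≤ K)
    (x : ℕ → ℝ) (y : ℝ → ℕ → ℝ)
    (hy : ∀ (Z : ℝ) (n : ℕ), 3 ≤ n → (n : ℝ) ≤ Z →
      |y Z n| ≤ K * (|A n| * ((1 + Real.log n) / (n : ℝ) ^ 2)))
    (hxy : ∀ (Z : ℝ) (n : ℕ), 3 ≤ n → (n : ℝ) + 1 ≤ Z / 2 → y Z n = x n) :
    ∃ c : ℝ, ∀ ε : ℝ, 0 < ε → ∃ C : ℝ, 0 < C ∧ ∀ Z : ℝ, 8 ≤ Z →
      |∑ n ∈ Icc 3 ⌊Z⌋₊, y Z n - c| ≤ C * Z ^ (α - 1 + ε) := by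
  have hx : ∀ n : ℕ, 3 ≤ n → |x n| ≤ K * (|A n| * ((1 + Real.log n) / (n : ℝ) ^ 2)) := by
    intro n hn
    have h1 := hy (2 * n + 2) n hn (by have : (0 : ℝ) ≤ n := Nat.cast_nonneg n
                                       linarith)
    rwa [hxy (2 * n + 2) n hn (by linarith)] at h1
  refine ⟨∑' n : ℕ, (if 3 ≤ n then x n else 0), fun ε hε => ?_⟩
  obtain ⟨e, he0, he1, he2⟩ : ∃ e : ℝ, 0 < e ∧ e ≤ ε ∧ e ≤ (1 - α) / 2 :=
    ⟨min ε ((1 - α) / 2), lt_min hε (by linarith), min_le_left _ _, min_le_right _ _⟩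
  have hβ : α - 1 + e < 0 := by linarith
  have hU := hA (α + e / 2) (by linarith)
  set u : ℕ → ℝ := fun n => |A n| * (n : ℝ) ^ (-(1 + (α + e / 2))) with hu
  have hu0 : ∀ n, 0 ≤ u n := fun n => mul_nonneg (abs_nonneg _) (Real.rpow_nonneg (Nat.cast_nonneg n) _)
  set C1 : ℝ := 1 + 1 / (e / 2) with hC1
  have hC1p : 0 < C1 := by positivity
  -- the basic estimate
  have hbas : ∀ n : ℕ, 3 ≤ n → ∀ Y : ℝ, 0 < Y → Y ≤ n →
      K * (|A n| * ((1 + Real.log n) / (n : ℝ) ^ 2)) ≤ K * C1 * Y ^ (α - 1 + e) * u n := by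
    intro n hn Y hY hYn
    have hn0 : (0 : ℝ) < n := by exact_mod_cast (by omega : 0 < n)
    have h1 := log_pow (δ := e / 2) (by linarith) (n := n) (by omega)
    have h2 : (1 + Real.log n) / (n : ℝ) ^ 2 ≤ C1 * (Y ^ (α - 1 + e) * (n : ℝ) ^ (-(1 + (α + e / 2)))) := by
      rw [div_le_iff₀ (by positivity)]
      calc 1 + Real.log n ≤ C1 * (n : ℝ) ^ (e / 2) := h1
        _ = C1 * (((n : ℝ) ^ (α - 1 + e) * (n : ℝ) ^ (-(1 + (α + e / 2)))) * (n : ℝ) ^ (2 : ℝ)) := by
            rw [← Real.rpow_add hn0, ← Real.rpow_add hn0]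
            congr 2; ring
        _ ≤ C1 * ((Y ^ (α - 1 + e) * (n : ℝ) ^ (-(1 + (α + e / 2)))) * (n : ℝ) ^ (2 : ℝ)) := by
            have h3 : (n : ℝ) ^ (α - 1 + e) ≤ Y ^ (α - 1 + e) :=
              Real.rpow_le_rpow_of_nonpos hY hYn hβ.le
            gcongr
        _ = C1 * (Y ^ (α - 1 + e) * (n : ℝ) ^ (-(1 + (α + e / 2)))) * (n : ℝ) ^ 2 := by
            rw [Real.rpow_two]; ring
    calc K * (|A n| * ((1 + Real.log n) / (n : ℝ) ^ 2))
        ≤ K * (|A n| * (C1 * (Y ^ (α - 1 + e) * (n : ℝ) ^ (-(1 + (α + e / 2)))))) := by gcongr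
      _ = K * C1 * Y ^ (α - 1 + e) * u n := by rw [hu]; ring
  have hxs : Summable fun n : ℕ => (if 3 ≤ n then x n else 0) := by
    refine Summable.of_norm_bounded (g := fun n => K * C1 * u n) (hU.mul_left _) fun n => ?_
    by_cases hn : 3 ≤ n
    · rw [if_pos hn, Real.norm_eq_abs]
      have h1 := hbas n hn 1 one_pos (by exact_mod_cast (by omega : 1 ≤ n))
      rw [Real.one_rpow, mul_one] at h1
      exact (hx n hn).trans h1
    · rw [if_neg hn, norm_zero]
      exact mul_nonneg (mul_nonneg hK hC1p.le) (hu0 n)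
  set U : ℝ := ∑' n, u n with hUdef
  have hUn : 0 ≤ U := tsum_nonneg hu0
  refine ⟨2 * K * C1 * (1 / 4) ^ (α - 1 + e) * U + 1, by positivity, fun Z hZ => ?_⟩
  have hZ0 : 0 < Z := by linarith
  set y' : ℕ → ℝ := fun n => if n ∈ Icc 3 ⌊Z⌋₊ then y Z n else 0 with hy'
  have hys : HasSum y' (∑ n ∈ Icc 3 ⌊Z⌋₊, y Z n) := by
    have h1 : ∑ n ∈ Icc 3 ⌊Z⌋₊, y Z n = ∑ n ∈ Icc 3 ⌊Z⌋₊, y' n :=
      Finset.sum_congr rfl fun n hn => by rw [hy']; simp only [if_pos hn]
    rw [h1]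
    exact hasSum_sum_of_ne_finset_zero fun n hn => by rw [hy']; simp only [if_neg hn]
  have hd := hys.sub hxs.hasSum
  have hbd : ∀ n, ‖y' n - (if 3 ≤ n then x n else 0)‖ ≤
      2 * K * C1 * (Z / 4) ^ (α - 1 + e) * u n := by
    intro n
    rw [Real.norm_eq_abs]
    have hr : 0 ≤ 2 * K * C1 * (Z / 4) ^ (α - 1 + e) * u n :=
      mul_nonneg (by positivity) (hu0 n)
    by_cases hn : 3 ≤ n
    · rw [if_pos hn]
      by_cases hn2 : (n : ℝ) + 1 ≤ Z / 2
      · have h1 : n ∈ Icc 3 ⌊Z⌋₊ := mem_Icc.2 ⟨hn, Nat.le_floor (by linarith)⟩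
        have h2 : y' n = x n := by
          rw [hy']; simp only [if_pos h1]; exact hxy Z n hn hn2
        rw [h2, sub_self, abs_zero]; exact hr
      · push Not at hn2
        have h4 := hbas n hn (Z / 4) (by linarith) (by linarith)
        have h5 : |y' n| ≤ K * (|A n| * ((1 + Real.log n) / (n : ℝ) ^ 2)) := by
          by_cases h1 : n ∈ Icc 3 ⌊Z⌋₊
          · rw [hy']; simp only [if_pos h1]
            exact hy Z n hn ((Nat.le_floor_iff hZ0.le).1 (mem_Icc.1 h1).2)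
          · rw [hy']; simp only [if_neg h1, abs_zero]
            exact (abs_nonneg _).trans (hx n hn)
        have h6 := hx n hn
        have h7 : |y' n - x n| ≤ |y' n| + |x n| := abs_sub _ _
        have h8 : 2 * K * C1 * (Z / 4) ^ (α - 1 + e) * u n = 2 * (K * C1 * (Z / 4) ^ (α - 1 + e) * u n) := by ring
        rw [h8]; linarith
    · have h1 : n ∉ Icc 3 ⌊Z⌋₊ := fun h => hn (mem_Icc.1 h).1
      rw [if_neg hn]
      have h2 : y' n = 0 := by rw [hy']; simp only [if_neg h1]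
      rw [h2, sub_zero, abs_zero]; exact hr
  have h1 := hd.norm_le_of_bounded (hU.hasSum.mul_left (2 * K * C1 * (Z / 4) ^ (α - 1 + e))) hbd
  rw [Real.norm_eq_abs] at h1
  have h2 : (Z / 4) ^ (α - 1 + e) = (1 / 4) ^ (α - 1 + e) * Z ^ (α - 1 + e) := by
    rw [← Real.mul_rpow (by norm_num) hZ0.le]; congr 1; ring
  have h3 : Z ^ (α - 1 + e) ≤ Z ^ (α - 1 + ε) := Real.rpow_le_rpow_of_exponent_le (by linarith) (by linarith)
  have h4 : (0 : ℝ) ≤ Z ^ (α - 1 + ε) := by positivity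
  calc |∑ n ∈ Icc 3 ⌊Z⌋₊, y Z n - ∑' n : ℕ, (if 3 ≤ n then x n else 0)|
      ≤ 2 * K * C1 * (Z / 4) ^ (α - 1 + e) * U := h1
    _ = 2 * K * C1 * (1 / 4) ^ (α - 1 + e) * U * Z ^ (α - 1 + e) := by rw [h2]; ring
    _ ≤ 2 * K * C1 * (1 / 4) ^ (α - 1 + e) * U * Z ^ (α - 1 + ε) := by gcongr
    _ ≤ (2 * K * C1 * (1 / 4) ^ (α - 1 + e) * U + 1) * Z ^ (α - 1 + ε) := by
        rw [add_mul]; linarith

private theorem ww_lip : ∃ L : ℝ, 0 < L ∧ ∀ s t : ℝ, |ww s - ww t| ≤ L * |s - t| := by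
  have hc : Continuous (deriv ww) := ww_contDiff.continuous_deriv (by simp)
  obtain ⟨B, hB⟩ := (isCompact_Icc (a := (1 : ℝ)) (b := 2)).exists_bound_of_continuousOn hc.continuousOn
  have hB' : ∀ t : ℝ, ‖deriv ww t‖ ≤ |B| + 1 := by
    intro t
    by_cases h1 : t < 1
    · have h2 : ww =ᶠ[nhds t] fun _ => (1 : ℝ) := by
        filter_upwards [Iio_mem_nhds h1] with v hv using ww_one (le_of_lt hv)
      rw [h2.deriv_eq, deriv_const, norm_zero]; positivity
    · by_cases h3 : 2 < t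
      · have h2 : ww =ᶠ[nhds t] fun _ => (0 : ℝ) := by
          filter_upwards [Ioi_mem_nhds h3] with v hv using ww_zero (le_of_lt hv)
        rw [h2.deriv_eq, deriv_const, norm_zero]; positivity
      · have h4 := hB t ⟨not_lt.1 h1, not_lt.1 h3⟩
        have h5 := le_abs_self B
        linarith
  refine ⟨|B| + 1, by positivity, fun s t => ?_⟩
  have h := Convex.norm_image_sub_le_of_norm_deriv_le (f := ww) (C := |B| + 1) (s := Set.univ) (x := t) (y := s)
    (fun v _ => (ww_contDiff.differentiable (by simp)) v) (fun v _ => hB' v) convex_univ trivial trivial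
  simpa [Real.norm_eq_abs] using h

private theorem ww_inv : ∃ L : ℝ, 0 < L ∧ ∀ Z s t : ℝ, 0 < Z → 0 < s → 0 < t →
    |ww (Z / s) - ww (Z / t)| ≤ L * (|s - t| / Z) := by
  obtain ⟨L, hL, h⟩ := ww_lip
  refine ⟨4 * L, by positivity, fun Z s t hZ hs ht => ?_⟩
  have key : ∀ s : ℝ, 0 < s → ww (Z / s) = ww (Z / max s (Z / 2)) := by
    intro s hs
    by_cases h1 : s ≤ Z / 2
    · rw [max_eq_right h1, ww_zero, ww_zero]
      · rw [le_div_iff₀ (by positivity)]; linarith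
      · rw [le_div_iff₀ hs]; linarith
    · rw [max_eq_left (by linarith)]
  rw [key s hs, key t ht]
  set S := max s (Z / 2)
  set T := max t (Z / 2)
  have hS : Z / 2 ≤ S := le_max_right _ _
  have hT : Z / 2 ≤ T := le_max_right _ _
  have hS0 : 0 < S := by linarith
  have hT0 : 0 < T := by linarith
  have h1 : |S - T| ≤ |s - t| := by
    have := abs_max_sub_max_le_abs s t (Z / 2)
    exact this
  have h2 : Z / S - Z / T = (T - S) * (Z / (S * T)) := by field_simp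
  have h3 : Z / (S * T) ≤ 4 / Z := by
    rw [div_le_div_iff₀ (by positivity) hZ]; nlinarith
  have h4 : (0 : ℝ) ≤ Z / (S * T) := by positivity
  calc |ww (Z / S) - ww (Z / T)| ≤ L * |Z / S - Z / T| := h _ _
    _ = L * (|S - T| * (Z / (S * T))) := by
        rw [h2, abs_mul, abs_of_nonneg h4, abs_sub_comm T S]
    _ ≤ L * (|s - t| * (4 / Z)) := by gcongr
    _ = 4 * L * (|s - t| / Z) := by ring

private theorem abel (A g : ℕ → ℝ) (N : ℕ) (hN : 3 ≤ N) :
    ∑ n ∈ Icc 3 N, (A n - A (n - 1)) * g n =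
      A N * g (N + 1) - A 2 * g 3 + ∑ n ∈ Icc 3 N, A n * (g n - g (n + 1)) := by
  induction N, hN using Nat.le_induction with
  | base => simp; ring
  | succ N hN ih =>
    rw [Finset.sum_Icc_succ_top (by omega), Finset.sum_Icc_succ_top (by omega), ih]
    simp only [Nat.add_sub_cancel]
    ring

/-- partial summation -/
private theorem al (α : ℝ) (hα1 : α < 1) (A : ℕ → ℝ)
    (hA : ∀ w : ℝ, α < w → Summable fun n : ℕ => |A n| * (n : ℝ) ^ (-(1 + w))) (K : ℝ) (hK : 0 ≤ K)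
    (g : ℕ → ℝ) (hg : ∀ n : ℕ, 3 ≤ n → |g n| ≤ K * ((1 + Real.log n) / n))
    (hg' : ∀ n : ℕ, 3 ≤ n → |g n - g (n + 1)| ≤ K * ((1 + Real.log n) / (n : ℝ) ^ 2)) :
    ∃ c : ℝ, ∀ ε : ℝ, 0 < ε → ∃ C : ℝ, 0 < C ∧ ∀ Z : ℝ, 8 ≤ Z →
      |∑ n ∈ Icc 3 ⌊Z⌋₊, (A n - A (n - 1)) * (g n * (1 - ww (Z / n))) - c| ≤ C * Z ^ (α - 1 + ε) := by
  obtain ⟨L, hL, hww⟩ := ww_inv
  obtain ⟨c, hc⟩ := cl α hα1 A hA (K * (1 + 2 * L)) (by positivity)
    (fun n => A n * (g n - g (n + 1)))
    (fun Z n => A n * (g n * (1 - ww (Z / n)) - g (n + 1) * (1 - ww (Z / ((n + 1 : ℕ) : ℝ)))))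
    (by
      intro Z n hn hnZ
      have hn0 : (0 : ℝ) < n := by exact_mod_cast (by omega : 0 < n)
      have hZ0 : 0 < Z := lt_of_lt_of_le hn0 hnZ
      have hl : 0 ≤ Real.log n := Real.log_nonneg (by exact_mod_cast (by omega : 1 ≤ n))
      have e1 : g n * (1 - ww (Z / n)) - g (n + 1) * (1 - ww (Z / ((n + 1 : ℕ) : ℝ))) =
          (g n - g (n + 1)) * (1 - ww (Z / n)) +
            g (n + 1) * (ww (Z / ((n + 1 : ℕ) : ℝ)) - ww (Z / n)) := by ring
      have e2 : |(g n - g (n + 1)) * (1 - ww (Z / n))| ≤ K * ((1 + Real.log n) / (n : ℝ) ^ 2) := by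
        rw [abs_mul]
        have h1 : |1 - ww (Z / n)| ≤ 1 := by
          rw [abs_le]; constructor <;> linarith [ww_nonneg (Z / n), ww_le (Z / n)]
        calc |g n - g (n + 1)| * |1 - ww (Z / n)| ≤ |g n - g (n + 1)| * 1 := by gcongr
          _ ≤ _ := by rw [mul_one]; exact hg' n hn
      have e3 : |g (n + 1)| ≤ K * (2 * (1 + Real.log n) / n) := by
        refine (hg (n + 1) (by omega)).trans ?_
        have h1 : Real.log ((n + 1 : ℕ) : ℝ) ≤ Real.log n + 1 := by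
          have h2 : Real.log ((n + 1 : ℕ) : ℝ) ≤ Real.log (2 * n) := by
            apply Real.log_le_log (by positivity)
            have : (3 : ℝ) ≤ n := by exact_mod_cast hn
            push_cast; linarith
          rw [Real.log_mul (by norm_num) hn0.ne'] at h2
          have := Real.log_two_lt_d9
          linarith
        have h3 : (1 + Real.log ((n + 1 : ℕ) : ℝ)) / ((n + 1 : ℕ) : ℝ) ≤ 2 * (1 + Real.log n) / n := by
          apply div_le_div₀ (by positivity) (by linarith) hn0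
          push_cast; linarith
        gcongr
      have e4 : |ww (Z / ((n + 1 : ℕ) : ℝ)) - ww (Z / n)| ≤ L * (1 / n) := by
        refine (hww Z _ _ hZ0 (by positivity) hn0).trans ?_
        have h1 : |((n + 1 : ℕ) : ℝ) - n| = 1 := by push_cast; simp
        rw [h1]; gcongr
      rw [abs_mul, e1]
      have e5 : |(g n - g (n + 1)) * (1 - ww (Z / n)) +
            g (n + 1) * (ww (Z / ((n + 1 : ℕ) : ℝ)) - ww (Z / n))| ≤
          K * (1 + 2 * L) * ((1 + Real.log n) / (n : ℝ) ^ 2) := by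
        refine (abs_add_le _ _).trans ?_
        rw [abs_mul (g (n + 1))]
        calc |(g n - g (n + 1)) * (1 - ww (Z / n))| +
              |g (n + 1)| * |ww (Z / ((n + 1 : ℕ) : ℝ)) - ww (Z / n)|
            ≤ K * ((1 + Real.log n) / (n : ℝ) ^ 2) + K * (2 * (1 + Real.log n) / n) * (L * (1 / n)) := by
              gcongr
          _ = K * (1 + 2 * L) * ((1 + Real.log n) / (n : ℝ) ^ 2) := by field_simp
      calc |A n| * |(g n - g (n + 1)) * (1 - ww (Z / n)) +
            g (n + 1) * (ww (Z / ((n + 1 : ℕ) : ℝ)) - ww (Z / n))|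
          ≤ |A n| * (K * (1 + 2 * L) * ((1 + Real.log n) / (n : ℝ) ^ 2)) := by gcongr
        _ = _ := by ring)
    (by
      intro Z n hn hnZ
      have hn0 : (0 : ℝ) < n := by exact_mod_cast (by omega : 0 < n)
      have h1 : ww (Z / n) = 0 := ww_zero (by rw [le_div_iff₀ hn0]; linarith)
      have h2 : ww (Z / ((n + 1 : ℕ) : ℝ)) = 0 :=
        ww_zero (by rw [le_div_iff₀ (by positivity)]; push_cast; linarith)
      simp only [h1, h2]; ring)
  refine ⟨c - A 2 * g 3, fun ε hε => ?_⟩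
  obtain ⟨C, hC, h⟩ := hc ε hε
  refine ⟨C, hC, fun Z hZ => ?_⟩
  have h1 := h Z hZ
  have hN : 3 ≤ ⌊Z⌋₊ := Nat.le_floor (by push_cast; linarith)
  rw [abel A (fun n => g n * (1 - ww (Z / n))) ⌊Z⌋₊ hN]
  have h2 : ww (Z / ((⌊Z⌋₊ + 1 : ℕ) : ℝ)) = 1 := by
    apply ww_one
    rw [div_le_one (by positivity)]
    push_cast; exact (Nat.lt_floor_add_one Z).le
  have h3 : ww (Z / ((3 : ℕ) : ℝ)) = 0 := ww_zero (by rw [le_div_iff₀ (by positivity)]; push_cast; linarith)
  simp only [h2, h3]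
  have h4 : A ⌊Z⌋₊ * (g (⌊Z⌋₊ + 1) * (1 - 1)) - A 2 * (g 3 * (1 - 0)) +
      ∑ n ∈ Icc 3 ⌊Z⌋₊, A n * (g n * (1 - ww (Z / n)) - g (n + 1) * (1 - ww (Z / ((n + 1 : ℕ) : ℝ)))) -
        (c - A 2 * g 3) =
      ∑ n ∈ Icc 3 ⌊Z⌋₊, A n * (g n * (1 - ww (Z / n)) - g (n + 1) * (1 - ww (Z / ((n + 1 : ℕ) : ℝ)))) - c := by
    ring
  rw [h4]; exact h1

private theorem prm (α : ℝ) (hα1 : α < 1) (h : Smb α) : ∃ c : ℝ, ∀ ε : ℝ, 0 < ε → ∃ C : ℝ, 0 < C ∧
    ∀ Z : ℝ, 8 ≤ Z → |∑ n ∈ Icc 3 ⌊Z⌋₊, (PiN n - PiN (n - 1)) * (Real.log n / n * (1 - ww (Z / n))) - c| ≤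
      C * Z ^ (α - 1 + ε) := by
  refine al α hα1 PiN h 1 zero_le_one (fun n => Real.log n / n) ?_ ?_
  · intro n hn
    have hn0 : (0 : ℝ) < n := by exact_mod_cast (by omega : 0 < n)
    have hl : 0 ≤ Real.log n := Real.log_nonneg (by exact_mod_cast (by omega : 1 ≤ n))
    rw [abs_of_nonneg (by positivity), one_mul]
    gcongr; linarith
  · intro n hn
    have hn0 : (0 : ℝ) < n := by exact_mod_cast (by omega : 0 < n)
    have hl : 0 ≤ Real.log n := Real.log_nonneg (by exact_mod_cast (by omega : 1 ≤ n))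
    have h1 : Real.log ((n + 1 : ℕ) : ℝ) - Real.log n = Real.log (1 + 1 / n) := by
      rw [← Real.log_div (by positivity) hn0.ne']; congr 1; push_cast; field_simp
    have h2 : Real.log (1 + 1 / (n : ℝ)) ≤ 1 / n := by
      have := Real.log_le_sub_one_of_pos (x := 1 + 1 / (n : ℝ)) (by positivity); linarith
    have h3 : 0 ≤ Real.log (1 + 1 / (n : ℝ)) := Real.log_nonneg (by
      have : (0 : ℝ) ≤ 1 / n := by positivity
      linarith)
    have h4 : Real.log n / n - Real.log ((n + 1 : ℕ) : ℝ) / ((n + 1 : ℕ) : ℝ) =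
        (Real.log n - n * Real.log (1 + 1 / n)) / (n * (n + 1)) := by
      rw [show Real.log ((n + 1 : ℕ) : ℝ) = Real.log n + Real.log (1 + 1 / n) by linarith]
      push_cast; field_simp; ring
    have h5 : (n : ℝ) * Real.log (1 + 1 / n) ≤ 1 := by
      calc (n : ℝ) * Real.log (1 + 1 / n) ≤ n * (1 / n) := by gcongr
        _ = 1 := by field_simp
    have h6 : 0 ≤ (n : ℝ) * Real.log (1 + 1 / n) := by positivity
    rw [h4, one_mul, abs_div, abs_of_pos (by positivity : (0 : ℝ) < n * (n + 1))]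
    apply div_le_div₀ (by positivity) _ (by positivity) (by nlinarith)
    rw [abs_le]; constructor <;> linarith

private theorem nprm (α : ℝ) (hα : 1 / 2 ≤ α) (hα1 : α < 1) : ∃ c : ℝ, ∀ ε : ℝ, 0 < ε → ∃ C : ℝ, 0 < C ∧
    ∀ Z : ℝ, 8 ≤ Z → |∑ n ∈ Icc 3 ⌊Z⌋₊, ((Chebyshev.psi (n : ℕ) - Chebyshev.theta (n : ℕ)) -
      (Chebyshev.psi ((n - 1 : ℕ) : ℝ) - Chebyshev.theta ((n - 1 : ℕ) : ℝ))) * (1 / n * (1 - ww (Z / n))) - c| ≤
      C * Z ^ (α - 1 + ε) := by
  refine al α hα1 (fun n : ℕ => Chebyshev.psi (n : ℝ) - Chebyshev.theta (n : ℝ)) ?_ 1 zero_le_one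
    (fun n => 1 / n) ?_ ?_
  · intro w hw
    have hδ : 0 < (w - 1 / 2) / 2 := by linarith
    set δ := (w - 1 / 2) / 2 with hδd
    have hs : Summable fun n : ℕ => 2 / δ * (n : ℝ) ^ (-(1 + δ)) :=
      (Real.summable_nat_rpow.2 (by linarith)).mul_left _
    refine hs.of_nonneg_of_le (fun n => by positivity) fun n => ?_
    rcases Nat.eq_zero_or_pos n with hn | hn
    · subst hn
      simp only [Nat.cast_zero, Chebyshev.psi_zero, Chebyshev.theta_zero, sub_self, abs_zero, zero_mul]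
      positivity
    · have hn0 : (0 : ℝ) < n := by exact_mod_cast hn
      have hn1 : (1 : ℝ) ≤ n := by exact_mod_cast hn
      have h1 := Chebyshev.abs_psi_sub_theta_le_sqrt_mul_log hn1
      have h2 := Real.log_le_rpow_div hn0.le hδ
      calc |Chebyshev.psi (n : ℝ) - Chebyshev.theta (n : ℝ)| * (n : ℝ) ^ (-(1 + w))
          ≤ (2 * Real.sqrt n * ((n : ℝ) ^ δ / δ)) * (n : ℝ) ^ (-(1 + w)) := by
            gcongr
            exact h1.trans (by gcongr)
        _ = 2 / δ * ((n : ℝ) ^ (1 / 2 : ℝ) * (n : ℝ) ^ δ * (n : ℝ) ^ (-(1 + w))) := by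
            rw [Real.sqrt_eq_rpow]; ring
        _ = 2 / δ * (n : ℝ) ^ (-(1 + δ)) := by
            rw [← Real.rpow_add hn0, ← Real.rpow_add hn0]; congr 2; rw [hδd]; ring
  · intro n hn
    have hn0 : (0 : ℝ) < n := by exact_mod_cast (by omega : 0 < n)
    have hl : 0 ≤ Real.log n := Real.log_nonneg (by exact_mod_cast (by omega : 1 ≤ n))
    rw [abs_of_nonneg (by positivity), one_mul]
    gcongr; linarith
  · intro n hn
    have hn0 : (0 : ℝ) < n := by exact_mod_cast (by omega : 0 < n)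
    have hl : 0 ≤ Real.log n := Real.log_nonneg (by exact_mod_cast (by omega : 1 ≤ n))
    have h4 : 1 / (n : ℝ) - 1 / ((n + 1 : ℕ) : ℝ) = 1 / (n * (n + 1)) := by
      push_cast; field_simp; ring
    rw [h4, one_mul, abs_of_pos (by positivity)]
    apply div_le_div₀ (by positivity) (by linarith) (by positivity) (by nlinarith)

private theorem fz_cont (Z : ℝ) : ContinuousOn (fun t : ℝ => (1 - ww (Z / t)) / t) (Set.Ioi 0) := by
  have h1 : Continuous ww := ww_contDiff.continuous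
  apply ContinuousOn.div _ continuousOn_id (fun t ht => (ne_of_gt ht))
  apply continuousOn_const.sub
  exact h1.comp_continuousOn (continuousOn_const.div continuousOn_id (fun t ht => (ne_of_gt ht)))

private theorem il_cont : ContinuousOn (fun t : ℝ => 1 / Real.log t) (Set.Ioi 1) := by
  apply continuousOn_const.div
  · exact Real.continuousOn_log.mono fun t ht => by
      simp only [Set.mem_compl_iff, Set.mem_singleton_iff]; exact ne_of_gt (lt_trans zero_lt_one ht)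
  · intro t ht; exact (Real.log_pos ht).ne'

private theorem sum_int (f : ℝ → ℝ) (hf : ContinuousOn f (Set.Ioi 1)) (N : ℕ) (hN : 2 ≤ N) :
    ∑ n ∈ Icc 3 N, ∫ t in ((n : ℝ) - 1)..(n : ℝ), f t = ∫ t in (2 : ℝ)..(N : ℝ), f t := by
  induction N, hN using Nat.le_induction with
  | base => simp
  | succ N hN ih =>
    rw [Finset.sum_Icc_succ_top (by omega), ih]
    have hN2 : (2 : ℝ) ≤ N := by exact_mod_cast hN
    have e1 : (((N + 1 : ℕ) : ℝ)) - 1 = N := by push_cast; ring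
    rw [e1]
    apply intervalIntegral.integral_add_adjacent_intervals
    · apply ContinuousOn.intervalIntegrable
      rw [Set.uIcc_of_le hN2]
      exact hf.mono fun t ht => lt_of_lt_of_le one_lt_two ht.1
    · apply ContinuousOn.intervalIntegrable
      rw [Set.uIcc_of_le (by push_cast; linarith)]
      exact hf.mono fun t ht => lt_of_lt_of_le (by linarith) ht.1

private theorem mn (α : ℝ) (hα : 1 / 2 ≤ α) (hα1 : α < 1) : ∃ c : ℝ, ∀ ε : ℝ, 0 < ε → ∃ C : ℝ, 0 < C ∧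
    ∀ Z : ℝ, 8 ≤ Z → |∑ n ∈ Icc 3 ⌊Z⌋₊, (Real.log n / n * (1 - ww (Z / n)) *
        (∫ t in ((n : ℝ) - 1)..(n : ℝ), 1 / Real.log t) -
      ∫ t in ((n : ℝ) - 1)..(n : ℝ), (1 - ww (Z / t)) / t) - c| ≤ C * Z ^ (α - 1 + ε) := by
  obtain ⟨L, hL, hww⟩ := ww_inv
  refine cl α hα1 (fun _ => 1) ?_ (2 * (2 + L)) (by positivity)
    (fun n => Real.log n / n * (∫ t in ((n : ℝ) - 1)..(n : ℝ), 1 / Real.log t) -
      ∫ t in ((n : ℝ) - 1)..(n : ℝ), 1 / t)
    (fun Z n => Real.log n / n * (1 - ww (Z / n)) *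
        (∫ t in ((n : ℝ) - 1)..(n : ℝ), 1 / Real.log t) -
      ∫ t in ((n : ℝ) - 1)..(n : ℝ), (1 - ww (Z / t)) / t) ?_ ?_
  · intro w hw
    simp only [abs_one, one_mul]
    exact Real.summable_nat_rpow.2 (by linarith)
  · intro Z n hn hnZ
    have hn3 : (3 : ℝ) ≤ n := by exact_mod_cast hn
    have hn0 : (0 : ℝ) < n := by linarith
    have hZ0 : 0 < Z := by linarith
    have hl : 0 ≤ Real.log n := Real.log_nonneg (by linarith)
    have hi1 : IntervalIntegrable (fun t : ℝ => 1 / Real.log t) MeasureTheory.volume ((n : ℝ) - 1) n := by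
      apply ContinuousOn.intervalIntegrable
      rw [Set.uIcc_of_le (by linarith)]
      exact il_cont.mono fun t ht => lt_of_lt_of_le (by linarith) ht.1
    have hi2 : IntervalIntegrable (fun t : ℝ => (1 - ww (Z / t)) / t) MeasureTheory.volume ((n : ℝ) - 1) n := by
      apply ContinuousOn.intervalIntegrable
      rw [Set.uIcc_of_le (by linarith)]
      exact (fz_cont Z).mono fun t ht => lt_of_lt_of_le (by linarith) ht.1
    rw [← intervalIntegral.integral_const_mul, ← intervalIntegral.integral_sub (hi1.const_mul _) hi2]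
    have key : ∀ t ∈ Set.uIoc ((n : ℝ) - 1) n,
        ‖Real.log n / n * (1 - ww (Z / n)) * (1 / Real.log t) - (1 - ww (Z / t)) / t‖ ≤
          2 * (2 + L) * (|(1 : ℝ)| * ((1 + Real.log n) / (n : ℝ) ^ 2)) := by
      intro t ht
      rw [Set.uIoc_of_le (by linarith)] at ht
      obtain ⟨ht1, ht2⟩ := ht
      have ht0 : 2 ≤ t := by linarith
      have htp : 0 < t := by linarith
      have hlt : 1 / 2 ≤ Real.log t := by
        have h1 : Real.log 2 ≤ Real.log t := Real.log_le_log (by norm_num) ht0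
        have := Real.log_two_gt_d9
        linarith
      have hltn : Real.log t ≤ Real.log n := Real.log_le_log htp ht2
      have hltp : 0 < Real.log t := by linarith
      rw [Real.norm_eq_abs, abs_one, one_mul]
      have e1 : Real.log n / n * (1 - ww (Z / n)) * (1 / Real.log t) - (1 - ww (Z / t)) / t =
          1 / Real.log t * ((Real.log n / n - Real.log t / t) * (1 - ww (Z / t)) +
            Real.log n / n * (ww (Z / t) - ww (Z / n))) := by field_simp; ring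
      have e2 : |(Real.log n / n - Real.log t / t)| ≤ 2 * ((1 + Real.log n) / (n : ℝ) ^ 2) := by
        have f1 : Real.log n / n - Real.log t / t =
            (Real.log n - Real.log t) / n - Real.log t * ((n - t) / (n * t)) := by field_simp; ring
        have f2 : Real.log n - Real.log t ≤ 2 / n := by
          rw [← Real.log_div hn0.ne' htp.ne']
          have g1 := Real.log_le_sub_one_of_pos (x := (n : ℝ) / t) (by positivity)
          have g2 : (n : ℝ) / t - 1 ≤ 2 / n := by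
            rw [show (n : ℝ) / t - 1 = (n - t) / t by field_simp, div_le_div_iff₀ htp hn0]
            nlinarith
          linarith
        have f3 : (n - t) / (n * t) ≤ 2 / (n : ℝ) ^ 2 := by
          rw [div_le_div_iff₀ (by positivity) (by positivity)]
          nlinarith
        have f4 : 0 ≤ (n - t) / (n * t) := div_nonneg (by linarith) (by positivity)
        rw [f1, abs_le]
        have f5 : (Real.log n - Real.log t) / n ≤ 2 / (n : ℝ) ^ 2 := by
          rw [show 2 / (n : ℝ) ^ 2 = (2 / n) / n by field_simp]; gcongr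
        have f6 : Real.log t * ((n - t) / (n * t)) ≤ Real.log n * (2 / (n : ℝ) ^ 2) := by gcongr
        have f7 : 2 * ((1 + Real.log n) / (n : ℝ) ^ 2) = 2 / (n : ℝ) ^ 2 + Real.log n * (2 / (n : ℝ) ^ 2) := by
          ring
        have f8 : 0 ≤ (Real.log n - Real.log t) / n := div_nonneg (by linarith) hn0.le
        have f9 : 0 ≤ Real.log t * ((n - t) / (n * t)) := mul_nonneg hltp.le f4
        have f10 : 0 ≤ 2 / (n : ℝ) ^ 2 := by positivity
        have f11 : 0 ≤ Real.log n * (2 / (n : ℝ) ^ 2) := by positivity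
        rw [f7]; constructor <;> linarith
      have e3 : |ww (Z / t) - ww (Z / n)| ≤ L * (1 / n) := by
        refine (hww Z t n hZ0 htp hn0).trans ?_
        have h1 : |t - n| ≤ 1 := by rw [abs_le]; constructor <;> linarith
        gcongr
      have e4 : |1 - ww (Z / t)| ≤ 1 := by
        rw [abs_le]; constructor <;> linarith [ww_nonneg (Z / t), ww_le (Z / t)]
      rw [e1, abs_mul, abs_of_pos (by positivity : 0 < 1 / Real.log t)]
      have e5 : 1 / Real.log t ≤ 2 := by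
        rw [div_le_iff₀ hltp]; linarith
      have e6 : |(Real.log n / n - Real.log t / t) * (1 - ww (Z / t)) +
            Real.log n / n * (ww (Z / t) - ww (Z / n))| ≤ (2 + L) * ((1 + Real.log n) / (n : ℝ) ^ 2) := by
        refine (abs_add_le _ _).trans ?_
        rw [abs_mul, abs_mul, abs_of_nonneg (by positivity : 0 ≤ Real.log n / n)]
        calc |Real.log n / n - Real.log t / t| * |1 - ww (Z / t)| +
              Real.log n / n * |ww (Z / t) - ww (Z / n)|
            ≤ 2 * ((1 + Real.log n) / (n : ℝ) ^ 2) * 1 + (1 + Real.log n) / n * (L * (1 / n)) := by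
              gcongr; linarith
          _ = (2 + L) * ((1 + Real.log n) / (n : ℝ) ^ 2) := by field_simp
      calc 1 / Real.log t * |(Real.log n / n - Real.log t / t) * (1 - ww (Z / t)) +
            Real.log n / n * (ww (Z / t) - ww (Z / n))|
          ≤ 2 * ((2 + L) * ((1 + Real.log n) / (n : ℝ) ^ 2)) := by gcongr
        _ = _ := by ring
    have h1 := intervalIntegral.norm_integral_le_of_norm_le_const key
    rw [Real.norm_eq_abs] at h1
    have h2 : |(n : ℝ) - ((n : ℝ) - 1)| = 1 := by rw [sub_sub_cancel]; exact abs_one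
    rw [h2, mul_one] at h1
    exact h1
  · intro Z n hn hnZ
    have hn3 : (3 : ℝ) ≤ n := by exact_mod_cast hn
    have hn0 : (0 : ℝ) < n := by linarith
    have h1 : ww (Z / n) = 0 := ww_zero (by rw [le_div_iff₀ hn0]; linarith)
    have h2 : ∫ t in ((n : ℝ) - 1)..(n : ℝ), (1 - ww (Z / t)) / t = ∫ t in ((n : ℝ) - 1)..(n : ℝ), 1 / t := by
      apply intervalIntegral.integral_congr
      intro t ht
      rw [Set.uIcc_of_le (by linarith)] at ht
      have h3 : ww (Z / t) = 0 := ww_zero (by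
        rw [le_div_iff₀ (by linarith [ht.1])]; linarith [ht.2])
      simp only [h3, sub_zero]
    simp only [h1, h2, sub_zero, mul_one]

private theorem fzi : ∃ κ C : ℝ, 0 < C ∧ ∀ Z : ℝ, 8 ≤ Z →
    |(∫ t in (2 : ℝ)..(⌊Z⌋₊ : ℝ), (1 - ww (Z / t)) / t) - Real.log Z - κ| ≤ C / Z := by
  obtain ⟨L, hL, hww⟩ := ww_inv
  set f0 : ℝ → ℝ := fun v => (1 - ww v) / v with hf0
  have hc0 : ContinuousOn f0 (Set.Ioi 0) :=
    (continuousOn_const.sub ww_contDiff.continuous.continuousOn).div continuousOn_id fun t ht => ne_of_gt ht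
  have hint : ∀ a b : ℝ, 0 < a → 0 < b → IntervalIntegrable f0 MeasureTheory.volume a b := by
    intro a b ha hb
    apply ContinuousOn.intervalIntegrable
    exact hc0.mono fun t ht => lt_of_lt_of_le (lt_min ha hb) ht.1
  have hder : ∀ y : ℝ, 0 < y → HasDerivAt (fun y => ∫ v in (1 : ℝ)..y, f0 v) (f0 y) y := by
    intro y hy
    exact intervalIntegral.integral_hasDerivAt_right (hint 1 y one_pos hy)
      (hc0.stronglyMeasurableAtFilter isOpen_Ioi y hy) (hc0.continuousAt (Ioi_mem_nhds hy))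
  refine ⟨(∫ v in (1 : ℝ)..2, f0 v) - Real.log 4, L, hL, fun Z hZ => ?_⟩
  have hZ0 : 0 < Z := by linarith
  have hfl : (⌊Z⌋₊ : ℝ) ≤ Z := Nat.floor_le hZ0.le
  have hfl2 : Z < ⌊Z⌋₊ + 1 := Nat.lt_floor_add_one Z
  have hi : ∀ a b : ℝ, 0 < a → 0 < b →
      IntervalIntegrable (fun t : ℝ => (1 - ww (Z / t)) / t) MeasureTheory.volume a b := by
    intro a b ha hb
    apply ContinuousOn.intervalIntegrable
    exact (fz_cont Z).mono fun t ht => lt_of_lt_of_le (lt_min ha hb) ht.1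
  have h1 : ∫ t in (2 : ℝ)..Z, (1 - ww (Z / t)) / t =
      (-∫ v in (1 : ℝ)..(Z / Z), f0 v) - (-∫ v in (1 : ℝ)..(Z / 2), f0 v) := by
    apply intervalIntegral.integral_eq_sub_of_hasDerivAt (f := fun t => -∫ v in (1 : ℝ)..(Z / t), f0 v)
    · intro t ht
      rw [Set.uIcc_of_le (by linarith)] at ht
      have ht0 : 0 < t := by linarith [ht.1]
      have g1 : HasDerivAt (fun t : ℝ => Z / t) (-(Z / t ^ 2)) t := by
        exact ((hasDerivAt_const t Z).div (hasDerivAt_id t) ht0.ne').congr_deriv (by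
          simp only [id]; ring)
      have g2 := ((hder (Z / t) (by positivity)).comp t g1).neg
      refine g2.congr_deriv ?_
      rw [hf0]
      field_simp
    · exact hi 2 Z (by norm_num) hZ0
  rw [div_self hZ0.ne', intervalIntegral.integral_same, neg_zero, zero_sub, neg_neg] at h1
  have h2 : ∫ v in (1 : ℝ)..(Z / 2), f0 v = (∫ v in (1 : ℝ)..2, f0 v) + (Real.log Z - Real.log 4) := by
    rw [← intervalIntegral.integral_add_adjacent_intervals (hint 1 2 one_pos two_pos)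
      (hint 2 (Z / 2) two_pos (by linarith))]
    congr 1
    have g1 : ∫ v in (2 : ℝ)..(Z / 2), f0 v = ∫ v in (2 : ℝ)..(Z / 2), 1 / v := by
      apply intervalIntegral.integral_congr
      intro v hv
      rw [Set.uIcc_of_le (by linarith)] at hv
      rw [hf0]
      simp only [ww_zero hv.1, sub_zero]
    rw [g1, integral_one_div_of_pos two_pos (by linarith), ← Real.log_div hZ0.ne' (by norm_num)]
    congr 1; ring
  have h3 : (∫ t in (2 : ℝ)..(⌊Z⌋₊ : ℝ), (1 - ww (Z / t)) / t) +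
      (∫ t in (⌊Z⌋₊ : ℝ)..Z, (1 - ww (Z / t)) / t) = ∫ t in (2 : ℝ)..Z, (1 - ww (Z / t)) / t :=
    intervalIntegral.integral_add_adjacent_intervals (hi _ _ two_pos (by linarith)) (hi _ _ (by linarith) hZ0)
  have h4 : |∫ t in (⌊Z⌋₊ : ℝ)..Z, (1 - ww (Z / t)) / t| ≤ L / Z * |Z - ⌊Z⌋₊| := by
    rw [← Real.norm_eq_abs]
    apply intervalIntegral.norm_integral_le_of_norm_le_const
    intro t ht
    rw [Set.uIoc_of_le hfl] at ht
    have ht1 : 1 ≤ t := by linarith [ht.1]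
    rw [Real.norm_eq_abs, abs_div, abs_of_pos (by linarith : 0 < t)]
    have g1 : |1 - ww (Z / t)| ≤ L * (1 / Z) := by
      have g2 := hww Z Z t hZ0 hZ0 (by linarith)
      rw [div_self hZ0.ne', ww_one le_rfl] at g2
      refine g2.trans ?_
      have g3 : |Z - t| ≤ 1 := by rw [abs_le]; constructor <;> linarith [ht.1, ht.2]
      gcongr
    calc |1 - ww (Z / t)| / t ≤ |1 - ww (Z / t)| / 1 := by gcongr
      _ ≤ L / Z := by rw [div_one]; refine g1.trans (le_of_eq ?_); ring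
  have h5 : |Z - ⌊Z⌋₊| ≤ 1 := by rw [abs_le]; constructor <;> linarith
  have h6 : (∫ t in (2 : ℝ)..(⌊Z⌋₊ : ℝ), (1 - ww (Z / t)) / t) - Real.log Z -
      ((∫ v in (1 : ℝ)..2, f0 v) - Real.log 4) = -∫ t in (⌊Z⌋₊ : ℝ)..Z, (1 - ww (Z / t)) / t := by
    linarith
  rw [h6, abs_neg]
  have h7 : 0 ≤ L / Z := by positivity
  calc _ ≤ L / Z * |Z - ⌊Z⌋₊| := h4
    _ ≤ L / Z * 1 := by gcongr
    _ = L / Z := mul_one _

private theorem piN_sub (n : ℕ) (hn : 3 ≤ n) : PiN n - PiN (n - 1) =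
    (if n.Prime then 1 else 0) - ∫ t in ((n : ℝ) - 1)..(n : ℝ), 1 / Real.log t := by
  obtain ⟨k, rfl⟩ : ∃ k, n = k + 1 := ⟨n - 1, by omega⟩
  have hk : (2 : ℝ) ≤ k := by exact_mod_cast (by omega : 2 ≤ k)
  unfold PiN
  rw [Nat.add_sub_cancel]
  have h1 : (Nat.primeCounting (k + 1) : ℝ) = Nat.primeCounting k + (if (k + 1).Prime then 1 else 0) := by
    have g1 : Nat.primeCounting (k + 1) = Nat.primeCounting k + (if (k + 1).Prime then 1 else 0) := by
      show Nat.count Nat.Prime (k + 1 + 1) = Nat.count Nat.Prime (k + 1) + _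
      exact Nat.count_succ _ _
    rw [g1]; push_cast; rfl
  have h2 : (∫ t in (2 : ℝ)..(k : ℝ), 1 / Real.log t) + (∫ t in (k : ℝ)..((k + 1 : ℕ) : ℝ), 1 / Real.log t) =
      ∫ t in (2 : ℝ)..((k + 1 : ℕ) : ℝ), 1 / Real.log t := by
    apply intervalIntegral.integral_add_adjacent_intervals
    · apply ContinuousOn.intervalIntegrable
      rw [Set.uIcc_of_le hk]
      exact il_cont.mono fun t ht => lt_of_lt_of_le one_lt_two ht.1
    · apply ContinuousOn.intervalIntegrable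
      rw [Set.uIcc_of_le (by push_cast; linarith)]
      exact il_cont.mono fun t ht => lt_of_lt_of_le (by linarith) ht.1
  have h3 : (((k + 1 : ℕ) : ℝ)) - 1 = k := by push_cast; ring
  rw [h3, h1, ← h2]; ring

private theorem psi_sub (n : ℕ) (hn : 3 ≤ n) :
    (Chebyshev.psi (n : ℕ) - Chebyshev.theta (n : ℕ)) -
      (Chebyshev.psi ((n - 1 : ℕ) : ℝ) - Chebyshev.theta ((n - 1 : ℕ) : ℝ)) =
    ArithmeticFunction.vonMangoldt n - (if n.Prime then Real.log n else 0) := by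
  obtain ⟨k, rfl⟩ : ∃ k, n = k + 1 := ⟨n - 1, by omega⟩
  rw [Nat.add_sub_cancel]
  have h1 : Chebyshev.psi ((k + 1 : ℕ) : ℝ) = Chebyshev.psi (k : ℝ) + ArithmeticFunction.vonMangoldt (k + 1) := by
    rw [Chebyshev.psi_eq_sum_Icc, Chebyshev.psi_eq_sum_Icc, Nat.floor_natCast, Nat.floor_natCast,
      Finset.sum_Icc_succ_top (by omega)]
  have h2 : Chebyshev.theta ((k + 1 : ℕ) : ℝ) = Chebyshev.theta (k : ℝ) +
      (if (k + 1).Prime then Real.log ((k + 1 : ℕ) : ℝ) else 0) := by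
    rw [Chebyshev.theta_eq_sum_Icc, Chebyshev.theta_eq_sum_Icc, Nat.floor_natCast, Nat.floor_natCast,
      Finset.sum_filter, Finset.sum_filter, Finset.sum_Icc_succ_top (by omega)]
  rw [h1, h2]; ring

theorem gsm (α : ℝ) (hα : 1 / 2 ≤ α) (hα1 : α < 1) (h : Smb α) : ∃ c1 : ℝ, Gas α c1 := by
  obtain ⟨a1, h1⟩ := prm α hα1 h
  obtain ⟨a2, h2⟩ := nprm α hα hα1
  obtain ⟨a3, h3⟩ := mn α hα hα1
  obtain ⟨κ, C4, hC4, h4⟩ := fzi
  refine ⟨a1 + a2 + a3 + κ + ArithmeticFunction.vonMangoldt 2 / 2, fun ε hε => ?_⟩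
  obtain ⟨C1, hC1, h1⟩ := h1 ε hε
  obtain ⟨C2, hC2, h2⟩ := h2 ε hε
  obtain ⟨C3, hC3, h3⟩ := h3 ε hε
  set c := a1 + a2 + a3 + κ + ArithmeticFunction.vonMangoldt 2 / 2 with hc
  -- the case of large Z
  have hbig : ∀ Z : ℝ, 8 ≤ Z → |Gz Z - Real.log Z - c| ≤ (C1 + C2 + C3 + C4) * Z ^ (α - 1 + ε) := by
    intro Z hZ
    have hZ0 : 0 < Z := by linarith
    have e1 := h1 Z hZ
    have e2 := h2 Z hZ
    have e3 := h3 Z hZ
    have e4 := h4 Z hZ
    have hN : 8 ≤ ⌊Z⌋₊ := Nat.le_floor (by push_cast; linarith)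
    have g1 : Gz Z = ArithmeticFunction.vonMangoldt 2 / 2 +
        ∑ n ∈ Icc 3 ⌊Z⌋₊, ArithmeticFunction.vonMangoldt n / n * (1 - ww (Z / n)) := by
      unfold Gz
      have k1 : Icc 1 ⌊Z⌋₊ = insert 1 (insert 2 (Icc 3 ⌊Z⌋₊)) := by
        ext n; simp only [mem_insert, mem_Icc]; omega
      rw [k1, Finset.sum_insert (by simp), Finset.sum_insert (by simp)]
      have k2 : ww (Z / ((2 : ℕ) : ℝ)) = 0 := ww_zero (by push_cast; linarith)
      rw [k2, ArithmeticFunction.vonMangoldt_apply_one]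
      push_cast; ring
    have g2 : ∑ n ∈ Icc 3 ⌊Z⌋₊, ArithmeticFunction.vonMangoldt n / n * (1 - ww (Z / n)) =
        (∑ n ∈ Icc 3 ⌊Z⌋₊, (PiN n - PiN (n - 1)) * (Real.log n / n * (1 - ww (Z / n)))) +
        (∑ n ∈ Icc 3 ⌊Z⌋₊, ((Chebyshev.psi (n : ℕ) - Chebyshev.theta (n : ℕ)) -
      (Chebyshev.psi ((n - 1 : ℕ) : ℝ) - Chebyshev.theta ((n - 1 : ℕ) : ℝ))) * (1 / n * (1 - ww (Z / n)))) +
        (∑ n ∈ Icc 3 ⌊Z⌋₊, (Real.log n / n * (1 - ww (Z / n)) *
        (∫ t in ((n : ℝ) - 1)..(n : ℝ), 1 / Real.log t) -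
      ∫ t in ((n : ℝ) - 1)..(n : ℝ), (1 - ww (Z / t)) / t)) +
        ∫ t in (2 : ℝ)..(⌊Z⌋₊ : ℝ), (1 - ww (Z / t)) / t := by
      rw [← sum_int (fun t => (1 - ww (Z / t)) / t)
        ((fz_cont Z).mono (Set.Ioi_subset_Ioi zero_le_one)) ⌊Z⌋₊ (by omega),
        ← Finset.sum_add_distrib, ← Finset.sum_add_distrib, ← Finset.sum_add_distrib]
      apply Finset.sum_congr rfl
      intro n hn
      have hn3 : 3 ≤ n := (mem_Icc.1 hn).1
      rw [piN_sub n hn3, psi_sub n hn3]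
      by_cases hp : n.Prime
      · simp only [if_pos hp]; ring
      · simp only [if_neg hp]; ring
    have g3 : C4 / Z ≤ C4 * Z ^ (α - 1 + ε) := by
      rw [div_eq_mul_inv, ← Real.rpow_neg_one]
      have : Z ^ (-1 : ℝ) ≤ Z ^ (α - 1 + ε) := Real.rpow_le_rpow_of_exponent_le (by linarith) (by linarith)
      gcongr
    have e5 : |Gz Z - Real.log Z - c| ≤ C1 * Z ^ (α - 1 + ε) + C2 * Z ^ (α - 1 + ε) +
        C3 * Z ^ (α - 1 + ε) + C4 * Z ^ (α - 1 + ε) := by
      rw [g1, g2, hc]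
      rw [abs_le] at e1 e2 e3 e4 ⊢
      constructor <;> linarith [e1.1, e1.2, e2.1, e2.2, e3.1, e3.2, e4.1, e4.2]
    calc _ ≤ _ := e5
      _ = _ := by ring
  -- small Z
  set B : ℝ := ∑ n ∈ Icc 1 8, ArithmeticFunction.vonMangoldt n / (n : ℝ) with hB
  have hBn : 0 ≤ B := Finset.sum_nonneg fun n _ => div_nonneg ArithmeticFunction.vonMangoldt_nonneg (Nat.cast_nonneg n)
  have hsm : ∀ Z : ℝ, 1 ≤ Z → Z < 8 → |Gz Z - Real.log Z - c| ≤ B + Real.log 8 + |c| := by
    intro Z hZ1 hZ8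
    have k1 : 0 ≤ Gz Z := Finset.sum_nonneg fun n _ =>
      mul_nonneg (div_nonneg ArithmeticFunction.vonMangoldt_nonneg (Nat.cast_nonneg n))
        (by linarith [ww_le (Z / n)])
    have k2 : Gz Z ≤ B := by
      unfold Gz
      calc ∑ n ∈ Icc 1 ⌊Z⌋₊, ArithmeticFunction.vonMangoldt n / n * (1 - ww (Z / n))
          ≤ ∑ n ∈ Icc 1 ⌊Z⌋₊, ArithmeticFunction.vonMangoldt n / (n : ℝ) := by
            apply Finset.sum_le_sum
            intro n _
            have : ArithmeticFunction.vonMangoldt n / (n : ℝ) * (1 - ww (Z / n)) ≤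
                ArithmeticFunction.vonMangoldt n / (n : ℝ) * 1 := by
              have := ww_nonneg (Z / n)
              have : 0 ≤ ArithmeticFunction.vonMangoldt n / (n : ℝ) :=
                div_nonneg ArithmeticFunction.vonMangoldt_nonneg (Nat.cast_nonneg n)
              gcongr; linarith
            rwa [mul_one] at this
        _ ≤ B := by
            apply Finset.sum_le_sum_of_subset_of_nonneg
            · intro n hn
              rw [mem_Icc] at hn ⊢
              have : ⌊Z⌋₊ ≤ 8 := Nat.floor_le_of_le (by push_cast; linarith)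
              omega
            · intro n _ _
              exact div_nonneg ArithmeticFunction.vonMangoldt_nonneg (Nat.cast_nonneg n)
    have k3 : 0 ≤ Real.log Z := Real.log_nonneg hZ1
    have k4 : Real.log Z ≤ Real.log 8 := Real.log_le_log (by linarith) hZ8.le
    have k5 := abs_nonneg c
    have k6 := le_abs_self c
    have k7 := neg_abs_le c
    rw [abs_le]; constructor <;> linarith
  set D : ℝ := B + Real.log 8 + |c| with hD
  have hDn : 0 ≤ D := by
    have : 0 ≤ Real.log 8 := Real.log_nonneg (by norm_num)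
    positivity
  refine ⟨C1 + C2 + C3 + C4 + D * 8, by positivity, fun Z hZ => ?_⟩
  by_cases hZ8 : 8 ≤ Z
  · refine (hbig Z hZ8).trans ?_
    have : (0 : ℝ) ≤ Z ^ (α - 1 + ε) := by positivity
    exact mul_le_mul_of_nonneg_right (by linarith) this
  · push Not at hZ8
    refine (hsm Z hZ hZ8).trans ?_
    have k1 : 1 / 8 ≤ Z ^ (α - 1 + ε) := by
      have k2 : Z ^ (-1 : ℝ) ≤ Z ^ (α - 1 + ε) := Real.rpow_le_rpow_of_exponent_le hZ (by linarith)
      have k3 : 1 / 8 ≤ Z ^ (-1 : ℝ) := by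
        rw [Real.rpow_neg_one, ← one_div]
        exact one_div_le_one_div_of_le (by linarith) hZ8.le
      linarith
    calc D = D * 8 * (1 / 8) := by ring
      _ ≤ D * 8 * Z ^ (α - 1 + ε) := by gcongr
      _ ≤ (C1 + C2 + C3 + C4 + D * 8) * Z ^ (α - 1 + ε) := by
          have : (0 : ℝ) ≤ Z ^ (α - 1 + ε) := by positivity
          exact mul_le_mul_of_nonneg_right (by linarith) this

end Pool.Agent.H67.TS
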