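import Pool.Agent.H67.TS.Defs
import Pool.Agent.H48.WN.Poi
import Pool.Agent.H49.TS.Gen

/-!
# [H67 TS LSM] the sum of `log N`

PROOF. As `Poi` with `f(t) = log t · Kk x l t`, `|f^(k)| ≤ C_k log x · l^(-k)`.
-/

set_option autoImplicit false

namespace Pool.Agent.H67.TS

open Finset Pool.Agent.H48.WN

private theorem lsm_der (A : ℕ) {x l t : ℝ} (hx : 1 ≤ x) (hl : 0 < l) (hlx : l ≤ x) (hxt : x ≤ t)
    (ht2 : t ≤ 2 * x) (i : ℕ) (hi : i ≤ A) :
    |iteratedDeriv i Real.log t| ≤ ((A.factorial : ℝ) * (2 * x)) * (1 / l) ^ i := by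
  have hf1 : (1 : ℝ) ≤ (A.factorial : ℝ) := by exact_mod_cast Nat.one_le_iff_ne_zero.2 (Nat.factorial_ne_zero A)
  have ht0 : 0 < t := by linarith
  rcases i with _ | k
  · rw [iteratedDeriv_zero, pow_zero, mul_one, abs_of_nonneg (Real.log_nonneg (by linarith))]
    have h1 := Real.log_le_sub_one_of_pos ht0
    nlinarith
  · rw [iteratedDeriv_succ', Real.deriv_log', iteratedDeriv_eq_iterate, iter_deriv_inv, abs_mul, abs_mul,
      abs_pow, abs_neg, abs_one, one_pow, one_mul, abs_of_nonneg (Nat.cast_nonneg _)]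
    have h1 : |t ^ (-1 - k : ℤ)| = (1 / t) ^ (k + 1) := by
      rw [abs_of_pos (zpow_pos ht0 _), one_div, inv_pow, ← zpow_natCast, ← zpow_neg]
      congr 1
      push_cast
      ring
    rw [h1]
    have h2 : (k.factorial : ℝ) ≤ (A.factorial : ℝ) * (2 * x) := by
      have h3 : (k.factorial : ℝ) ≤ (A.factorial : ℝ) := by exact_mod_cast Nat.factorial_le (by omega)
      nlinarith
    have h3 : (1 / t) ^ (k + 1) ≤ (1 / l) ^ (k + 1) :=
      pow_le_pow_left₀ (by positivity) (one_div_le_one_div_of_le hl (hlx.trans hxt)) _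
    exact mul_le_mul h2 h3 (by positivity) (by positivity)

theorem lsm (ε : ℝ) (hε : 0 < ε) : ∃ x0 : ℝ, 2 ≤ x0 ∧ ∀ x l : ℝ, x0 ≤ x → x ^ ε ≤ l → 10 * l ≤ x →
    |(∑ N ∈ Icc 1 ⌊x + 5 * l⌋₊, Real.log N * Kk x l N) -
      ∫ v in x..(x + 5 * l), Real.log v * Kk x l v| ≤ 1 / x := by
  obtain ⟨A, hA2, hA⟩ : ∃ A : ℕ, 2 ≤ A ∧ 4 / ε ≤ A :=
    ⟨max 2 ⌈4 / ε⌉₊, le_max_left _ _, (Nat.le_ceil _).trans (by exact_mod_cast le_max_right _ _)⟩
  have hA4 : 4 ≤ ε * A := by
    rw [div_le_iff₀ hε] at hA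
    linarith
  obtain ⟨C, hC1, hC⟩ := Pool.Agent.H49.TS.gen A hA2
  refine ⟨max 2 (C * A.factorial * 2 ^ A), le_max_left _ _, fun x l hx hl hlx => ?_⟩
  have hx2 : 2 ≤ x := (le_max_left _ _).trans hx
  have hxC : C * A.factorial * 2 ^ A ≤ x := (le_max_right _ _).trans hx
  have hx0 : 0 < x := by linarith
  have hxe : 0 < x ^ ε := Real.rpow_pos_of_pos hx0 _
  have hl0 : 0 < l := hxe.trans_le hl
  have hK : ∀ v : ℝ, Kk x l v = Real.smoothTransition (1 / l * v + -(x / l)) -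
      Real.smoothTransition (1 / l * v + -(x / l + 4)) := by
    intro v
    unfold Kk
    have e2 : (v - x) / l = 1 / l * v + -(x / l) := by ring
    have e3 : (v - x) / l - 4 = 1 / l * v + -(x / l + 4) := by ring
    rw [e3, e2]
  have h1 := hC Real.log x (x + 5 * l) (1 / l) ((A.factorial : ℝ) * (2 * x)) (1 / l) (-(x / l)) (1 / l)
    (-(x / l + 4)) hx0 (by linarith) (by positivity) le_rfl (by positivity) le_rfl (by positivity)
    (fun t ht => (Real.contDiffAt_log.2 (by linarith)).of_le le_top)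
    (fun i hi t ht => lsm_der A (by linarith) hl0 (by linarith) ht.1 (by linarith [ht.2]) i hi)
    (fun t ht => by
      rw [← hK]
      rw [Set.mem_Icc, not_and_or, not_le, not_le] at ht
      rcases ht with h | h
      · exact kk_left hl0 h.le
      · exact kk_right hl0 h.le)
  simp only [← hK] at h1
  refine h1.trans ?_
  have h2 : (2 * (1 / l)) ^ A ≤ 2 ^ A * (1 / x ^ 4) := by
    rw [mul_pow]
    refine mul_le_mul_of_nonneg_left ?_ (by positivity)
    have h3 : (1 / l) ^ A ≤ (1 / x ^ ε) ^ A :=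
      pow_le_pow_left₀ (by positivity) (one_div_le_one_div_of_le hxe hl) _
    have h4 : (1 / x ^ ε) ^ A = 1 / x ^ (ε * A) := by
      rw [one_div, inv_pow, ← Real.rpow_natCast, ← Real.rpow_mul hx0.le, one_div]
    have h5 : x ^ (4 : ℕ) ≤ x ^ (ε * A) := by
      rw [← Real.rpow_natCast]
      exact Real.rpow_le_rpow_of_exponent_le (by linarith) (by norm_num; linarith)
    rw [h4] at h3
    exact h3.trans (one_div_le_one_div_of_le (by positivity) h5)
  have h3 : x + 5 * l - x ≤ x / 2 := by linarith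
  have h4 : C * ((A.factorial : ℝ) * (2 * x)) * (2 * (1 / l)) ^ A * (x + 5 * l - x) ≤
      C * ((A.factorial : ℝ) * (2 * x)) * (2 ^ A * (1 / x ^ 4)) * (x / 2) := by
    have h5 : 0 ≤ x + 5 * l - x := by linarith
    gcongr
  refine h4.trans ?_
  rw [le_div_iff₀ hx0]
  have h5 : C * ((A.factorial : ℝ) * (2 * x)) * (2 ^ A * (1 / x ^ 4)) * (x / 2) * x =
      C * A.factorial * 2 ^ A / x := by
    field_simp
  rw [h5, div_le_one hx0]
  exact hxC

end Pool.Agent.H67.TS
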