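import Pool.Agent.H67.TS.Poi
import Pool.Agent.H67.TS.Lsm

/-!
# [H67 TS SSB] the bound for `SS`

PROOF. `Σ_(m,n) Lam(n) Kk(nm) = Σ_N log N Kk(N)` (`m, n ≤ x + 5l`; `ArithmeticFunction.vonMangoldt_sum`). So
`SS = Σ_N log N Kk(N) - Σ_n Lam(n) Σ_m (1 - ww(m/M)) Kk(nm) - 4 l Wz M` (`ww (m/M) = 0` for `m ≥ 2M`; `2M ≤ x`). In the middle only
`n M ≤ 2x` occur (`1 - ww(m/M) ≠ 0` only for `m > M`). By `lsm`, `poi`:
`SS = ∫ Kk(v) (log v - Gz (v/M) - Wz M) dv + O(1)` (`∫ Kk = 4l`; `Σ_n Lam(n)/n (1 - ww(v/(nM))) = Gz (v/M)`, terms with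
`n > v/M` are `0`), and `log v - Gz(v/M) - Wz M = -(Gz Z - log Z - c1) - (Wz M - log M - c2)`, `Z = v/M ≥ x/M ≥ 1`. `A ≥ 2/ε` in `Was`
(`M ≥ 10 x^ε`). `α - 1 + ε` may be assumed `≤ 0` (else use a smaller ε); `Z^(..) ≤ (x/M)^(..)`.
-/

set_option autoImplicit false

namespace Pool.Agent.H67.TS

open Finset Pool.Agent.H48.WN MeasureTheory

private theorem ssb_kk0 (x l v : ℝ) : 0 ≤ Kk x l v := by
  unfold Kk
  have := Real.smoothTransition.monotone (show (v - x) / l - 4 ≤ (v - x) / l by linarith)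
  linarith

private theorem ssb_int {x l : ℝ} (hl : 0 < l) : ∫ v in x..(x + 5 * l), Kk x l v = 4 * l := by
  have hc : Continuous Real.smoothTransition := Real.smoothTransition.continuous
  have h1 : ∫ v in x..(x + 5 * l), Kk x l v =
      ∫ v in x..(x + 5 * l), (fun w => Real.smoothTransition w - Real.smoothTransition (w - 4)) (1 / l * v - x / l) := by
    refine intervalIntegral.integral_congr fun v _ => ?_
    unfold Kk
    have e : (v - x) / l = 1 / l * v - x / l := by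
      field_simp
    simp only [e]
  have h2 := intervalIntegral.integral_comp_mul_sub (a := x) (b := x + 5 * l)
    (fun w => Real.smoothTransition w - Real.smoothTransition (w - 4)) (by positivity : (1 : ℝ) / l ≠ 0) (x / l)
  rw [h1, h2]
  have e1 : 1 / l * x - x / l = 0 := by ring
  have e2 : 1 / l * (x + 5 * l) - x / l = 5 := by
    field_simp
    ring
  have e0 : ∫ w in (0 : ℝ)..5, (Real.smoothTransition w - Real.smoothTransition (w - 4)) =
      (∫ w in (0 : ℝ)..5, Real.smoothTransition w) - ∫ w in (0 : ℝ)..5, Real.smoothTransition (w - 4) :=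
    intervalIntegral.integral_sub (hc.intervalIntegrable _ _)
      ((hc.comp (by fun_prop : Continuous fun w : ℝ => w - 4)).intervalIntegrable _ _)
  rw [e1, e2, e0]
  have e3 : ∫ w in (0 : ℝ)..5, Real.smoothTransition (w - 4) = ∫ w in (-4 : ℝ)..1, Real.smoothTransition w := by
    rw [intervalIntegral.integral_comp_sub_right]
    norm_num
  have e4 : ∫ w in (-4 : ℝ)..1, Real.smoothTransition w = ∫ w in (0 : ℝ)..1, Real.smoothTransition w := by
    rw [← intervalIntegral.integral_add_adjacent_intervals (hc.intervalIntegrable (-4) 0) (hc.intervalIntegrable 0 1)]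
    have : ∫ w in (-4 : ℝ)..0, Real.smoothTransition w = ∫ w in (-4 : ℝ)..0, (0 : ℝ) := by
      refine intervalIntegral.integral_congr fun w hw => ?_
      rw [Set.uIcc_of_le (by norm_num)] at hw
      exact Real.smoothTransition.zero_of_nonpos hw.2
    rw [this]
    simp
  have e5 : ∫ w in (0 : ℝ)..5, Real.smoothTransition w = (∫ w in (0 : ℝ)..1, Real.smoothTransition w) + 4 := by
    rw [← intervalIntegral.integral_add_adjacent_intervals (hc.intervalIntegrable 0 1) (hc.intervalIntegrable 1 5)]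
    have : ∫ w in (1 : ℝ)..5, Real.smoothTransition w = ∫ w in (1 : ℝ)..5, (1 : ℝ) := by
      refine intervalIntegral.integral_congr fun w hw => ?_
      rw [Set.uIcc_of_le (by norm_num)] at hw
      exact Real.smoothTransition.one_of_one_le hw.1
    rw [this]
    simp
    norm_num
  rw [e3, e4, e5, smul_eq_mul]
  field_simp
  ring

/-- the Chebyshev identity -/
private theorem ssb_id {x l : ℝ} (hl : 0 < l) :
    ∑ N ∈ Icc 1 ⌊x + 5 * l⌋₊, Real.log N * Kk x l N =
      ∑ n ∈ Icc 1 ⌊x + 5 * l⌋₊, ArithmeticFunction.vonMangoldt n *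
        ∑ m ∈ Icc 1 ⌊x + 5 * l⌋₊, Kk x l ((n : ℝ) * m) := by
  obtain ⟨Q, hQ⟩ : ∃ Q : ℕ, Q = ⌊x + 5 * l⌋₊ := ⟨_, rfl⟩
  rw [← hQ]
  have hz : ∀ k : ℕ, Q < k → Kk x l k = 0 := by
    intro k hk
    apply kk_right hl
    rw [hQ] at hk
    exact (Nat.lt_of_floor_lt hk).le
  have h1 : ∀ N ∈ Icc 1 Q, Real.log N * Kk x l N =
      ∑ n ∈ Icc 1 Q, if n ∣ N then ArithmeticFunction.vonMangoldt n * Kk x l N else 0 := by
    intro N hN
    rw [mem_Icc] at hN
    rw [← sum_filter, ← ArithmeticFunction.vonMangoldt_sum, sum_mul]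
    refine sum_congr ?_ fun _ _ => rfl
    ext n
    rw [Nat.mem_divisors, mem_filter, mem_Icc]
    constructor
    · rintro ⟨h1, h2⟩
      have := Nat.le_of_dvd (by omega) h1
      have := Nat.pos_of_dvd_of_pos h1 (by omega)
      exact ⟨⟨by omega, by omega⟩, h1⟩
    · rintro ⟨h1, h2⟩
      exact ⟨h2, by omega⟩
  rw [sum_congr rfl h1, sum_comm]
  refine sum_congr rfl fun n hn => ?_
  rw [mem_Icc] at hn
  rw [mul_sum, ← sum_filter]
  -- the multiples of `n`
  have h2 : ∑ m ∈ Icc 1 Q, ArithmeticFunction.vonMangoldt n * Kk x l ((n : ℝ) * m) =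
      ∑ m ∈ (Icc 1 Q).filter (fun m => n * m ≤ Q), ArithmeticFunction.vonMangoldt n * Kk x l ((n : ℝ) * m) := by
    rw [sum_filter]
    refine sum_congr rfl fun m _ => ?_
    split_ifs with h
    · rfl
    · have := hz (n * m) (by omega)
      rw [Nat.cast_mul] at this
      rw [this, mul_zero]
  rw [h2]
  symm
  refine sum_bij (fun m _ => n * m) ?_ ?_ ?_ ?_
  · intro m hm
    rw [mem_filter, mem_Icc] at hm
    rw [mem_filter, mem_Icc]
    exact ⟨⟨Nat.mul_pos (by omega) (by omega), hm.2⟩, dvd_mul_right _ _⟩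
  · intro a _ b _ hab
    exact Nat.eq_of_mul_eq_mul_left (by omega) hab
  · intro N hN
    rw [mem_filter, mem_Icc] at hN
    obtain ⟨m, hm⟩ := hN.2
    refine ⟨m, ?_, hm.symm⟩
    rw [mem_filter, mem_Icc]
    have hm1 : 1 ≤ m := by
      by_contra hc
      have : m = 0 := by omega
      subst this
      simp at hm
      omega
    have : m ≤ n * m := Nat.le_mul_of_pos_left m (by omega)
    exact ⟨⟨hm1, by omega⟩, by omega⟩
  · intro m _
    push_cast
    rfl

/-- the three parts of `SS` -/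
private theorem ssb_split {x l M : ℝ} (hl : 0 < l) (hM : 0 < M) (hMx : 2 * M ≤ x) :
    SS x l M = (∑ N ∈ Icc 1 ⌊x + 5 * l⌋₊, Real.log N * Kk x l N) -
      (∑ n ∈ Icc 1 ⌊x + 5 * l⌋₊, ArithmeticFunction.vonMangoldt n *
        ∑ m ∈ Icc 1 ⌊x + 5 * l⌋₊, (1 - ww ((m : ℝ) / M)) * Kk x l ((n : ℝ) * m)) - 4 * l * Wz M := by
  have hQ : ⌊2 * M⌋₊ ≤ ⌊x + 5 * l⌋₊ := Nat.floor_le_floor (by linarith)
  rw [ssb_id hl]
  unfold SS Dm Wz
  have h1 : ∑ m ∈ Icc 1 ⌊2 * M⌋₊, ww ((m : ℝ) / M) *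
      ((∑ n ∈ Icc 1 ⌊x + 5 * l⌋₊, ArithmeticFunction.vonMangoldt n * Kk x l ((n : ℝ) * m)) - 4 * l / m) =
      (∑ m ∈ Icc 1 ⌊2 * M⌋₊, ww ((m : ℝ) / M) *
        ∑ n ∈ Icc 1 ⌊x + 5 * l⌋₊, ArithmeticFunction.vonMangoldt n * Kk x l ((n : ℝ) * m)) -
      4 * l * ∑ m ∈ Icc 1 ⌊2 * M⌋₊, ww ((m : ℝ) / M) / m := by
    rw [mul_sum, ← sum_sub_distrib]
    refine sum_congr rfl fun m _ => ?_
    ring
  rw [h1]
  have h2 : ∑ m ∈ Icc 1 ⌊2 * M⌋₊, ww ((m : ℝ) / M) *
        ∑ n ∈ Icc 1 ⌊x + 5 * l⌋₊, ArithmeticFunction.vonMangoldt n * Kk x l ((n : ℝ) * m) =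
      ∑ m ∈ Icc 1 ⌊x + 5 * l⌋₊, ww ((m : ℝ) / M) *
        ∑ n ∈ Icc 1 ⌊x + 5 * l⌋₊, ArithmeticFunction.vonMangoldt n * Kk x l ((n : ℝ) * m) := by
    refine sum_subset (Icc_subset_Icc_right hQ) fun m hm hm' => ?_
    have h1 : 1 ≤ m := (mem_Icc.1 hm).1
    have h2 : ⌊2 * M⌋₊ < m := by
      by_contra h
      exact hm' (mem_Icc.2 ⟨h1, not_lt.1 h⟩)
    have h3 : 2 * M < m := Nat.lt_of_floor_lt h2
    rw [ww_zero (by rw [le_div_iff₀ hM]; exact h3.le), zero_mul]
  rw [h2]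
  congr 1
  have h3 : ∑ m ∈ Icc 1 ⌊x + 5 * l⌋₊, ww ((m : ℝ) / M) *
        ∑ n ∈ Icc 1 ⌊x + 5 * l⌋₊, ArithmeticFunction.vonMangoldt n * Kk x l ((n : ℝ) * m) =
      ∑ n ∈ Icc 1 ⌊x + 5 * l⌋₊, ArithmeticFunction.vonMangoldt n *
        ∑ m ∈ Icc 1 ⌊x + 5 * l⌋₊, ww ((m : ℝ) / M) * Kk x l ((n : ℝ) * m) := by
    simp_rw [mul_sum]
    rw [sum_comm]
    refine sum_congr rfl fun n _ => sum_congr rfl fun m _ => ?_
    ring
  rw [h3, ← sum_sub_distrib]
  refine sum_congr rfl fun n _ => ?_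
  rw [← mul_sub, ← sum_sub_distrib]
  congr 1
  refine sum_congr rfl fun m _ => ?_
  ring

private theorem ssb_gz {M v : ℝ} (hM : 0 < M) {Q : ℕ} (hQ : ⌊v / M⌋₊ ≤ Q) :
    Gz (v / M) = ∑ n ∈ Icc 1 Q, ArithmeticFunction.vonMangoldt n * (1 / n * (1 - ww (v / (n * M)))) := by
  unfold Gz
  have h1 : ∀ n : ℕ, ArithmeticFunction.vonMangoldt n / n * (1 - ww (v / M / n)) =
      ArithmeticFunction.vonMangoldt n * (1 / n * (1 - ww (v / (n * M)))) := by
    intro n
    rw [div_div, mul_comm M]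
    ring
  simp_rw [h1]
  refine sum_subset (Icc_subset_Icc_right hQ) fun n hn hn' => ?_
  have h1 : 1 ≤ n := (mem_Icc.1 hn).1
  have hn0 : (0 : ℝ) < n := by exact_mod_cast h1
  have h2 : ⌊v / M⌋₊ < n := by
    by_contra h
    exact hn' (mem_Icc.2 ⟨h1, not_lt.1 h⟩)
  have h3 : v / M < n := Nat.lt_of_floor_lt h2
  have h4 : v / (n * M) ≤ 1 := by
    rw [div_le_one (by positivity)]
    rw [div_lt_iff₀ hM] at h3
    exact h3.le
  rw [ww_one h4]
  ring

/-- the middle sum -/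
private theorem ssb_mid {x l M : ℝ} (hx : 2 ≤ x) (hl : 0 < l) (hlx : 10 * l ≤ x) (hM : 1 ≤ M)
    (hp : ∀ n : ℕ, 1 ≤ n → (n : ℝ) * M ≤ 2 * x →
      |(∑ m ∈ Icc 1 ⌊x + 5 * l⌋₊, (1 - ww ((m : ℝ) / M)) * Kk x l ((n : ℝ) * m)) -
        1 / n * ∫ v in x..(x + 5 * l), (1 - ww (v / (n * M))) * Kk x l v| ≤ 1 / x ^ 2) :
    |(∑ n ∈ Icc 1 ⌊x + 5 * l⌋₊, ArithmeticFunction.vonMangoldt n *
        ∑ m ∈ Icc 1 ⌊x + 5 * l⌋₊, (1 - ww ((m : ℝ) / M)) * Kk x l ((n : ℝ) * m)) -
      ∫ v in x..(x + 5 * l), Kk x l v * Gz (v / M)| ≤ 12 := by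
  have hx0 : 0 < x := by linarith
  have hM0 : 0 < M := by linarith
  obtain ⟨Q, hQ⟩ : ∃ Q : ℕ, Q = ⌊x + 5 * l⌋₊ := ⟨_, rfl⟩
  have hQx : (Q : ℝ) ≤ 2 * x := by
    rw [hQ]
    exact (Nat.floor_le (by positivity)).trans (by linarith)
  have hkc : Continuous (Kk x l) := (kk_contDiff x l).continuous
  have hwc : Continuous ww := ww_contDiff.continuous
  -- the integral as a sum
  have h1 : ∫ v in x..(x + 5 * l), Kk x l v * Gz (v / M) =
      ∑ n ∈ Icc 1 Q, ArithmeticFunction.vonMangoldt n *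
        (1 / n * ∫ v in x..(x + 5 * l), (1 - ww (v / (n * M))) * Kk x l v) := by
    have h2 : ∫ v in x..(x + 5 * l), Kk x l v * Gz (v / M) = ∫ v in x..(x + 5 * l),
        ∑ n ∈ Icc 1 Q, ArithmeticFunction.vonMangoldt n * (1 / n * ((1 - ww (v / (n * M))) * Kk x l v)) := by
      refine intervalIntegral.integral_congr fun v hv => ?_
      rw [Set.uIcc_of_le (by linarith)] at hv
      have hv0 : 0 < v := by linarith [hv.1]
      have hvM : v / M ≤ v := div_le_self hv0.le hM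
      rw [ssb_gz hM0 (Q := Q) (by rw [hQ]; exact Nat.floor_le_floor (hvM.trans hv.2)), mul_sum]
      refine sum_congr rfl fun n _ => ?_
      ring
    rw [h2, intervalIntegral.integral_finsetSum]
    · refine sum_congr rfl fun n _ => ?_
      rw [intervalIntegral.integral_const_mul, intervalIntegral.integral_const_mul]
    · intro n _
      refine Continuous.intervalIntegrable ?_ _ _
      exact continuous_const.mul (continuous_const.mul ((continuous_const.sub
        (hwc.comp (continuous_id.div_const _))).mul hkc))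
  rw [h1, ← hQ, ← sum_sub_distrib]
  have h3 : ∀ n ∈ Icc 1 Q, |ArithmeticFunction.vonMangoldt n *
        (∑ m ∈ Icc 1 Q, (1 - ww ((m : ℝ) / M)) * Kk x l ((n : ℝ) * m)) -
        ArithmeticFunction.vonMangoldt n *
        (1 / n * ∫ v in x..(x + 5 * l), (1 - ww (v / (n * M))) * Kk x l v)| ≤
      ArithmeticFunction.vonMangoldt n * (1 / x ^ 2) := by
    intro n hn
    rw [mem_Icc] at hn
    have hn0 : (0 : ℝ) < n := by exact_mod_cast hn.1
    have hL : 0 ≤ ArithmeticFunction.vonMangoldt n := ArithmeticFunction.vonMangoldt_nonneg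
    rw [← mul_sub, abs_mul, abs_of_nonneg hL]
    refine mul_le_mul_of_nonneg_left ?_ hL
    by_cases hc : (n : ℝ) * M ≤ 2 * x
    · rw [hQ]
      exact hp n hn.1 hc
    · push Not at hc
      have e1 : ∑ m ∈ Icc 1 Q, (1 - ww ((m : ℝ) / M)) * Kk x l ((n : ℝ) * m) = 0 := by
        refine sum_eq_zero fun m hm => ?_
        by_cases hm2 : (m : ℝ) ≤ M
        · rw [ww_one (by rw [div_le_one hM0]; exact hm2)]
          ring
        · push Not at hm2
          rw [kk_right hl (by nlinarith), mul_zero]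
      have e2 : ∫ v in x..(x + 5 * l), (1 - ww (v / (n * M))) * Kk x l v = 0 := by
        have : ∫ v in x..(x + 5 * l), (1 - ww (v / (n * M))) * Kk x l v = ∫ v in x..(x + 5 * l), (0 : ℝ) := by
          refine intervalIntegral.integral_congr fun v hv => ?_
          rw [Set.uIcc_of_le (by linarith)] at hv
          rw [ww_one (by rw [div_le_one (by positivity)]; linarith [hv.2])]
          ring
        rw [this]
        simp
      rw [e1, e2, mul_zero, sub_zero, abs_zero]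
      positivity
  refine (abs_sum_le_sum_abs _ _).trans ((sum_le_sum h3).trans ?_)
  rw [← sum_mul]
  have h4 : ∑ n ∈ Icc 1 Q, ArithmeticFunction.vonMangoldt n ≤ 6 * (2 * x) := by
    have h5 : ∑ n ∈ Icc 1 Q, ArithmeticFunction.vonMangoldt n ≤ Chebyshev.psi Q := by
      rw [Chebyshev.psi_eq_sum_Icc, Nat.floor_natCast]
      refine sum_le_sum_of_subset_of_nonneg (fun n hn => ?_) fun _ _ _ => ArithmeticFunction.vonMangoldt_nonneg
      rw [mem_Icc] at hn ⊢
      omega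
    have h6 := Chebyshev.psi_le_const_mul_self (x := (Q : ℝ)) (Nat.cast_nonneg Q)
    have h7 : Real.log 4 + 4 ≤ 6 := by
      have h8 : Real.log 4 = 2 * Real.log 2 := by
        rw [show (4 : ℝ) = 2 ^ 2 by norm_num, Real.log_pow]
        norm_num
      have := Real.log_two_lt_d9
      linarith
    have h9 : (Real.log 4 + 4) * Q ≤ 6 * (2 * x) := by
      have := mul_le_mul h7 hQx (Nat.cast_nonneg Q) (by norm_num)
      exact this
    linarith
  have hx2 : 0 < x ^ 2 := by positivity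
  have h5 : (∑ n ∈ Icc 1 Q, ArithmeticFunction.vonMangoldt n) * (1 / x ^ 2) ≤ 6 * (2 * x) * (1 / x ^ 2) :=
    mul_le_mul_of_nonneg_right h4 (by positivity)
  refine h5.trans ?_
  rw [mul_one_div, div_le_iff₀ hx2]
  nlinarith

theorem ssb (α c1 c2 : ℝ) (hα1 : α < 1) (h1 : Gas α c1) (h2 : Was c2) (h12 : c1 + c2 = 0) : Ssp α := by
  intro ε hε
  obtain ⟨x1, hx1, hpoi⟩ := poi ε hε
  obtain ⟨x2, hx2, hlsm⟩ := lsm ε hε
  obtain ⟨C1, hC1, hG⟩ := h1 ε hε
  obtain ⟨A, hA⟩ := exists_nat_ge (1 / ε)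
  obtain ⟨C2, hC2, hW⟩ := h2 A
  obtain ⟨γ, hγ⟩ : ∃ γ : ℝ, γ = α - 1 + ε := ⟨_, rfl⟩
  obtain ⟨x3, hx3⟩ : ∃ x3 : ℝ, ∀ x : ℝ, x3 ≤ x → 2 ≤ x ^ ε := by
    have h := (tendsto_rpow_atTop hε).eventually_ge_atTop 2
    rw [Filter.eventually_atTop] at h
    exact h
  refine ⟨4 * (C1 * 2 ^ |γ|) + 4 * C2 + 14, max (max x1 x2) (max x3 2), by positivity, by
    exact le_trans (le_max_right _ _) (le_max_right _ _), ?_⟩
  intro x l M hx hl hlx hlM hMx
  simp only [max_le_iff] at hx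
  obtain ⟨⟨hxa, hxb⟩, hxc, hxd⟩ := hx
  have hx0 : 0 < x := by linarith
  have hx1' : 1 ≤ x := by linarith
  have hpow := hx3 x hxc
  have hl0 : 0 < l := by linarith
  -- `M ≥ 10 x^ε`
  have hMlow : x ^ ε ≤ M := by
    have e1 : x ^ (1 + ε) = x * x ^ ε := by rw [Real.rpow_add hx0, Real.rpow_one]
    rw [e1] at hlM
    have hM0 : 0 < M := by
      by_contra hc
      push Not at hc
      have : l * M ≤ 0 := mul_nonpos_of_nonneg_of_nonpos hl0.le hc
      have : 0 < x * x ^ ε := by positivity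
      linarith
    have e2 : l * M ≤ x * M := mul_le_mul_of_nonneg_right (by linarith) hM0.le
    have e3 : x * x ^ ε ≤ x * M := hlM.trans e2
    exact le_of_mul_le_mul_left e3 hx0
  have hM1 : 1 ≤ M := by linarith
  have hM0 : 0 < M := by linarith
  have hxM : x ^ ε ≤ x / M := by
    rw [le_div_iff₀ hM0]
    have e1 : x ^ ε * x ^ (1 - ε) = x := by
      rw [← Real.rpow_add hx0]
      rw [show ε + (1 - ε) = 1 by ring, Real.rpow_one]
    calc x ^ ε * M ≤ x ^ ε * x ^ (1 - ε) := mul_le_mul_of_nonneg_left hMx (by linarith)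
      _ = x := e1
  have hMx2 : 2 * M ≤ x := by
    rw [le_div_iff₀ hM0] at hxM
    nlinarith
  rw [ssb_split hl0 hM0 hMx2]
  have ha := hlsm x l hxb hl hlx
  have hb := ssb_mid hxd hl0 hlx hM1 (hpoi x l M hxa hl hlx hlM)
  have hc := ssb_int (x := x) hl0
  have hkc : Continuous (Kk x l) := (kk_contDiff x l).continuous
  have hle : x ≤ x + 5 * l := by linarith
  -- integrability
  have hi1 : IntervalIntegrable (fun v => Real.log v * Kk x l v) volume x (x + 5 * l) := by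
    refine ContinuousOn.intervalIntegrable ?_
    refine ContinuousOn.mul ?_ hkc.continuousOn
    refine Real.continuousOn_log.mono fun v hv => ?_
    rw [Set.uIcc_of_le hle] at hv
    simp only [Set.mem_compl_iff, Set.mem_singleton_iff]
    linarith [hv.1]
  have hi2 : IntervalIntegrable (fun v => Kk x l v * Gz (v / M)) volume x (x + 5 * l) := by
    have hcont : ContinuousOn (fun v => Kk x l v * Gz (v / M)) (Set.uIcc x (x + 5 * l)) := by
      refine ContinuousOn.mul hkc.continuousOn ?_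
      have hG : ContinuousOn (fun v => ∑ n ∈ Icc 1 ⌊x + 5 * l⌋₊, ArithmeticFunction.vonMangoldt n *
          (1 / n * (1 - ww (v / (n * M))))) (Set.uIcc x (x + 5 * l)) := by
        refine Continuous.continuousOn ?_
        refine continuous_finsetSum _ fun n _ => ?_
        exact continuous_const.mul (continuous_const.mul (continuous_const.sub
          (ww_contDiff.continuous.comp (continuous_id.div_const _))))
      refine hG.congr fun v hv => ?_
      rw [Set.uIcc_of_le hle] at hv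
      have hv0 : 0 < v := by linarith [hv.1]
      exact ssb_gz hM0 (Nat.floor_le_floor ((div_le_self hv0.le hM1).trans hv.2))
    exact hcont.intervalIntegrable
  have hi3 : IntervalIntegrable (fun v => Wz M * Kk x l v) volume x (x + 5 * l) :=
    (continuous_const.mul hkc).intervalIntegrable _ _
  -- the main term
  have hd : |(∫ v in x..(x + 5 * l), Real.log v * Kk x l v) - (∫ v in x..(x + 5 * l), Kk x l v * Gz (v / M)) -
      4 * l * Wz M| ≤ 4 * l * (C1 * 2 ^ |γ| * (x / M) ^ γ + C2 / M ^ A) := by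
    have e1 : 4 * l * Wz M = ∫ v in x..(x + 5 * l), Wz M * Kk x l v := by
      rw [intervalIntegral.integral_const_mul, hc]
      ring
    have e2 : (∫ v in x..(x + 5 * l), Real.log v * Kk x l v) - (∫ v in x..(x + 5 * l), Kk x l v * Gz (v / M)) -
        4 * l * Wz M = ∫ v in x..(x + 5 * l),
          (Real.log v * Kk x l v - Kk x l v * Gz (v / M) - Wz M * Kk x l v) := by
      rw [e1, intervalIntegral.integral_sub (hi1.sub hi2) hi3, intervalIntegral.integral_sub hi1 hi2]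
    have e3 : 4 * l * (C1 * 2 ^ |γ| * (x / M) ^ γ + C2 / M ^ A) =
        ∫ v in x..(x + 5 * l), (C1 * 2 ^ |γ| * (x / M) ^ γ + C2 / M ^ A) * Kk x l v := by
      rw [intervalIntegral.integral_const_mul, hc]
      ring
    rw [e2, e3]
    have e4 := intervalIntegral.norm_integral_le_of_norm_le (μ := volume) (a := x) (b := x + 5 * l)
      (f := fun v => Real.log v * Kk x l v - Kk x l v * Gz (v / M) - Wz M * Kk x l v)
      (g := fun v => (C1 * 2 ^ |γ| * (x / M) ^ γ + C2 / M ^ A) * Kk x l v) hle ?_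
      ((continuous_const.mul hkc).intervalIntegrable _ _)
    · rw [Real.norm_eq_abs] at e4
      exact e4
    · refine Filter.Eventually.of_forall fun v hv => ?_
      have hv0 : 0 < v := by linarith [hv.1]
      have hvx : x ≤ v := hv.1.le
      have hv2 : v ≤ 2 * x := by linarith [hv.2]
      have hZ : 1 ≤ v / M := by
        rw [le_div_iff₀ hM0]
        linarith
      have g1 := hG (v / M) hZ
      have g2 := hW M hM1
      rw [← hγ] at g1
      have g3 : Real.log (v / M) = Real.log v - Real.log M := Real.log_div hv0.ne' hM0.ne'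
      have g4 : Real.log v * Kk x l v - Kk x l v * Gz (v / M) - Wz M * Kk x l v =
          -((Gz (v / M) - Real.log (v / M) - c1) + (Wz M - Real.log M - c2)) * Kk x l v := by
        rw [g3]
        have : c2 = -c1 := by linarith
        rw [this]
        ring
      rw [g4, Real.norm_eq_abs, abs_mul, abs_neg, abs_of_nonneg (ssb_kk0 x l v)]
      refine mul_le_mul_of_nonneg_right ?_ (ssb_kk0 x l v)
      refine (abs_add_le _ _).trans (add_le_add (g1.trans ?_) g2)
      have g5 : (v / M) ^ γ ≤ 2 ^ |γ| * (x / M) ^ γ := by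
        have g6 : v / M = v / x * (x / M) := by
          field_simp
        rw [g6, Real.mul_rpow (by positivity) (by positivity)]
        refine mul_le_mul_of_nonneg_right ?_ (by positivity)
        have g7 : 1 ≤ v / x := by
          rw [le_div_iff₀ hx0]
          linarith
        have g8 : v / x ≤ 2 := by
          rw [div_le_iff₀ hx0]
          linarith
        calc (v / x) ^ γ ≤ (v / x) ^ |γ| := Real.rpow_le_rpow_of_exponent_le g7 (le_abs_self γ)
          _ ≤ 2 ^ |γ| := Real.rpow_le_rpow (by positivity) g8 (abs_nonneg γ)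
      calc C1 * (v / M) ^ γ ≤ C1 * (2 ^ |γ| * (x / M) ^ γ) := mul_le_mul_of_nonneg_left g5 hC1.le
        _ = C1 * 2 ^ |γ| * (x / M) ^ γ := by ring
  -- the term with `M^A`
  have he : l * (C2 / M ^ A) ≤ C2 := by
    have e1 : x ≤ M ^ A := by
      have e2 : x = (x ^ ε) ^ (1 / ε) := by
        rw [← Real.rpow_mul hx0.le, mul_one_div_cancel hε.ne', Real.rpow_one]
      have e3 : (x ^ ε) ^ (1 / ε) ≤ (x ^ ε) ^ (A : ℝ) := Real.rpow_le_rpow_of_exponent_le (by linarith) hA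
      rw [Real.rpow_natCast] at e3
      have e4 : (x ^ ε) ^ A ≤ M ^ A := pow_le_pow_left₀ (by linarith) hMlow A
      linarith
    have e5 : 0 < M ^ A := by positivity
    rw [mul_div_assoc', div_le_iff₀ e5, mul_comm]
    exact mul_le_mul_of_nonneg_left (by linarith) hC2.le
  have hx3' : 1 / x ≤ 1 := by
    rw [div_le_one hx0]
    exact hx1'
  obtain ⟨S1, hS1⟩ : ∃ S1 : ℝ, S1 = ∑ N ∈ Icc 1 ⌊x + 5 * l⌋₊, Real.log N * Kk x l N := ⟨_, rfl⟩
  obtain ⟨S2, hS2⟩ : ∃ S2 : ℝ, S2 = ∑ n ∈ Icc 1 ⌊x + 5 * l⌋₊, ArithmeticFunction.vonMangoldt n *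
        ∑ m ∈ Icc 1 ⌊x + 5 * l⌋₊, (1 - ww ((m : ℝ) / M)) * Kk x l ((n : ℝ) * m) := ⟨_, rfl⟩
  obtain ⟨I1, hI1⟩ : ∃ I1 : ℝ, I1 = ∫ v in x..(x + 5 * l), Real.log v * Kk x l v := ⟨_, rfl⟩
  obtain ⟨I2, hI2⟩ : ∃ I2 : ℝ, I2 = ∫ v in x..(x + 5 * l), Kk x l v * Gz (v / M) := ⟨_, rfl⟩
  rw [← hS1, ← hI1] at ha
  rw [← hS2, ← hI2] at hb
  rw [← hI1, ← hI2] at hd
  rw [← hS1, ← hS2, ← hγ]
  have e1 : S1 - S2 - 4 * l * Wz M = (S1 - I1) - (S2 - I2) + (I1 - I2 - 4 * l * Wz M) := by ring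
  rw [e1]
  have e2 : |(S1 - I1) - (S2 - I2) + (I1 - I2 - 4 * l * Wz M)| ≤
      |S1 - I1| + |S2 - I2| + |I1 - I2 - 4 * l * Wz M| :=
    (abs_add_le _ _).trans (add_le_add (abs_sub _ _) le_rfl)
  refine e2.trans ?_
  have e3 : 0 ≤ l * (x / M) ^ γ := by positivity
  have e4 : (0 : ℝ) ≤ 2 ^ |γ| := by positivity
  have e5 : 4 * l * (C1 * 2 ^ |γ| * (x / M) ^ γ + C2 / M ^ A) =
      4 * (C1 * 2 ^ |γ|) * (l * (x / M) ^ γ) + 4 * (l * (C2 / M ^ A)) := by ring
  rw [e5] at hd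
  have e6 : 4 * (C1 * 2 ^ |γ|) * (l * (x / M) ^ γ) ≤
      (4 * (C1 * 2 ^ |γ|) + 4 * C2 + 14) * (l * (x / M) ^ γ) := by
    refine mul_le_mul_of_nonneg_right ?_ e3
    linarith
  have e7 : 0 ≤ 4 * (C1 * 2 ^ |γ|) := by positivity
  linarith

end Pool.Agent.H67.TS
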