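import Pool.Agent.H67.TS.Stp

/-!
# [H67 TS SUP] the sup bound

PROOF. `PP u 1` is trivial (`|Pi x h| ≤ h + 1 + h/log 2`). `stp` with `e`, `e/(1+u)`, ...: if `e/(1+u)^k ≤ α` replace it by `α` (`PP` is
monotone in `e`) and apply `stp` once more with `e = α`.
-/

set_option autoImplicit false

namespace Pool.Agent.H67.TS

open Finset Pool.Agent.H48.WN

theorem pp_mono (u e e' : ℝ) (h : e ≤ e') (hP : PP u e) : PP u e' := by
  intro ε hε
  obtain ⟨C, x0, hC, hx0, h1⟩ := hP ε hε
  refine ⟨C, x0, hC, hx0, fun x g hx hg hg2 => (h1 x g hx hg hg2).trans ?_⟩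
  refine mul_le_mul_of_nonneg_left ?_ hC.le
  exact Real.rpow_le_rpow_of_exponent_le (by linarith) (by linarith)

theorem pp_one (u : ℝ) (hu : 0 < u) : PP u 1 := by
  intro ε hε
  refine ⟨4, 2, by norm_num, le_rfl, fun x g hx hg hg2 => ?_⟩
  have hx0 : 0 < x := by linarith
  have hgx : g ≤ x := by
    refine hg2.trans ?_
    calc x ^ (1 / (1 + u)) ≤ x ^ (1 : ℝ) := by
          apply Real.rpow_le_rpow_of_exponent_le (by linarith)
          rw [div_le_one (by linarith)]
          linarith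
      _ = x := Real.rpow_one x
  have h1 : |Pi x g| ≤ 4 * x := by
    unfold Pi
    have e1 : (((Ioc ⌊x⌋₊ ⌊x + g⌋₊).filter Nat.Prime).card : ℝ) ≤ 2 * x := by
      have k1 : ((Ioc ⌊x⌋₊ ⌊x + g⌋₊).filter Nat.Prime).card ≤ ⌊x + g⌋₊ := by
        refine (card_filter_le _ _).trans ?_
        rw [Nat.card_Ioc]
        omega
      calc (((Ioc ⌊x⌋₊ ⌊x + g⌋₊).filter Nat.Prime).card : ℝ) ≤ (⌊x + g⌋₊ : ℝ) := by exact_mod_cast k1
        _ ≤ x + g := Nat.floor_le (by linarith)
        _ ≤ 2 * x := by linarith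
    have e2 : |∫ t in x..(x + g), 1 / Real.log (max t 2)| ≤ 2 * |x + g - x| := by
      rw [← Real.norm_eq_abs]
      refine intervalIntegral.norm_integral_le_of_norm_le_const fun t _ => ?_
      have k1 : Real.log 2 ≤ Real.log (max t 2) := Real.log_le_log (by norm_num) (le_max_right _ _)
      have k2 : 1 / 2 ≤ Real.log 2 := by
        have := Real.log_two_gt_d9
        linarith
      have k3 : 0 < Real.log (max t 2) := by linarith
      rw [Real.norm_eq_abs, abs_of_nonneg (by positivity), div_le_iff₀ k3]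
      linarith
    have e3 : |x + g - x| = g := by rw [add_sub_cancel_left, abs_of_nonneg hg]
    rw [e3] at e2
    have e4 : (0 : ℝ) ≤ (((Ioc ⌊x⌋₊ ⌊x + g⌋₊).filter Nat.Prime).card : ℝ) := Nat.cast_nonneg _
    calc |(((Ioc ⌊x⌋₊ ⌊x + g⌋₊).filter Nat.Prime).card : ℝ) - ∫ t in x..(x + g), 1 / Real.log (max t 2)| ≤
          |(((Ioc ⌊x⌋₊ ⌊x + g⌋₊).filter Nat.Prime).card : ℝ)| + |∫ t in x..(x + g), 1 / Real.log (max t 2)| :=
            abs_sub _ _
      _ ≤ 4 * x := by
          rw [abs_of_nonneg e4]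
          linarith
  refine h1.trans ?_
  refine mul_le_mul_of_nonneg_left ?_ (by norm_num)
  calc x = x ^ (1 : ℝ) := (Real.rpow_one x).symm
    _ ≤ x ^ (1 + ε) := Real.rpow_le_rpow_of_exponent_le (by linarith) (by linarith)

theorem sup (s α u : ℝ) (hs : s = 1 ∨ s = -1) (hu : 0 < u) (hu1 : u < 1) (hα : u ≤ α)
    (hα2 : 1 / 2 ≤ α) (hα1 : α < 1) (h : One s α u) (hS : Ssp α) : PP u (α / (1 + u)) := by
  have h1u : 1 < 1 + u := by linarith
  -- induction
  have key : ∀ k : ℕ, PP u (max α ((1 / (1 + u)) ^ k)) := by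
    intro k
    induction k with
    | zero => exact pp_mono u 1 _ (by simp) (pp_one u hu)
    | succ k ih =>
      have hle : max α ((1 / (1 + u)) ^ k) ≤ 1 := by
        refine max_le hα1.le (pow_le_one₀ (by positivity) ?_)
        rw [div_le_one (by linarith)]
        exact h1u.le
      have h2 := stp s α u _ hs hu hu1 hα hα2 hα1 hle (le_max_left _ _) h hS ih
      refine pp_mono u _ _ ?_ h2
      rcases max_choice α ((1 / (1 + u)) ^ k) with h3 | h3 <;> rw [h3]
      · refine le_trans ?_ (le_max_left _ _)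
        exact div_le_self (by linarith) h1u.le
      · refine le_trans (le_of_eq ?_) (le_max_right _ _)
        rw [pow_succ]
        ring
  have hlim : Filter.Tendsto (fun k : ℕ => (1 / (1 + u)) ^ k) Filter.atTop (nhds 0) := by
    apply tendsto_pow_atTop_nhds_zero_of_lt_one (by positivity)
    rw [div_lt_one (by linarith)]
    exact h1u
  obtain ⟨k, hk⟩ := (hlim.eventually_lt_const (show (0 : ℝ) < α by linarith)).exists
  have h3 := key k
  rw [max_eq_left hk.le] at h3
  exact stp s α u α hs hu hu1 hα hα2 hα1 hα1.le le_rfl h hS h3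

end Pool.Agent.H67.TS
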