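import Pool.Agent.H67.TS.Defs
import Pool.Agent.H48.WN.Poi
import Pool.Agent.H49.TS.Gen

/-!
# [H67 TS WSM] `Σ w(m/M)/m = log M + c2 + O(M^(-A))`

PROOF. `c(M) = Wz M - log M`. For `M' ∈ [M, 2M]`: `Wz M' - Wz M = Σ_m f(m)`, `f(t) = (ww (t/M') - ww (t/M))/t` smooth, supported in
`[M, 4M]`, `|f^(k)| ≤ C_k M^(-1-k)`: the sum is `∫ f + O(M^(-A))` (Poisson / Euler-Maclaurin), `∫ f = log (M'/M)`. So
`c(2^j M)` is a Cauchy sequence, the limit does not depend on `M`.
-/

set_option autoImplicit false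

namespace Pool.Agent.H67.TS

open Finset Pool.Agent.H48.WN

private theorem wsm_der (A : ℕ) {M t : ℝ} (hM : 0 < M) (hMt : M ≤ t) (i : ℕ) (hi : i ≤ A) :
    |iteratedDeriv i (Inv.inv : ℝ → ℝ) t| ≤ ((A.factorial : ℝ) * (1 / M)) * (1 / M) ^ i := by
  have ht0 : 0 < t := by linarith
  rw [iteratedDeriv_eq_iterate, iter_deriv_inv, abs_mul, abs_mul, abs_pow, abs_neg, abs_one, one_pow, one_mul,
    abs_of_nonneg (Nat.cast_nonneg _)]
  have h1 : |t ^ (-1 - i : ℤ)| = (1 / t) ^ (i + 1) := by
    rw [abs_of_pos (zpow_pos ht0 _), one_div, inv_pow, ← zpow_natCast, ← zpow_neg]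
    congr 1
    push_cast
    ring
  rw [h1, mul_assoc, ← pow_succ']
  have h3 : (i.factorial : ℝ) ≤ (A.factorial : ℝ) := by exact_mod_cast Nat.factorial_le hi
  have h4 : (1 / t) ^ (i + 1) ≤ (1 / M) ^ (i + 1) :=
    pow_le_pow_left₀ (by positivity) (one_div_le_one_div_of_le hM hMt) _
  exact mul_le_mul h3 h4 (by positivity) (by positivity)

private theorem wsm_wz {M : ℝ} (hM : 0 < M) {Q : ℕ} (hQ : ⌊2 * M⌋₊ ≤ Q) :
    Wz M = ∑ m ∈ Icc 1 Q, ww ((m : ℝ) / M) / m := by
  unfold Wz
  refine sum_subset (Icc_subset_Icc_right hQ) fun m hm hm' => ?_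
  have h1 : 1 ≤ m := (mem_Icc.1 hm).1
  have h2 : ⌊2 * M⌋₊ < m := by
    by_contra h
    exact hm' (mem_Icc.2 ⟨h1, not_lt.1 h⟩)
  have h3 : 2 * M < m := Nat.lt_of_floor_lt h2
  rw [ww_zero (by rw [le_div_iff₀ hM]; exact h3.le), zero_div]

private noncomputable def Gt (t : ℝ) : ℝ := t⁻¹ * Real.smoothTransition (t - 1)

private theorem gt_zero {t : ℝ} (h : t ≤ 1) : Gt t = 0 := by
  unfold Gt
  rw [Real.smoothTransition.zero_of_nonpos (by linarith), mul_zero]

private theorem gt_cont : ContinuousOn Gt (Set.Ioi 0) := by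
  unfold Gt
  refine ContinuousOn.mul (ContinuousOn.inv₀ continuousOn_id fun t ht => ne_of_gt ht) ?_
  exact (Real.smoothTransition.continuous.comp (by fun_prop)).continuousOn

private theorem gt_int {a b : ℝ} (ha : 0 < a) (hb : 0 < b) : IntervalIntegrable Gt MeasureTheory.volume a b := by
  refine (gt_cont.mono fun t ht => ?_).intervalIntegrable
  rw [Set.mem_Ioi]
  rcases le_total a b with h | h
  · rw [Set.uIcc_of_le h] at ht
    linarith [ht.1]
  · rw [Set.uIcc_of_ge h] at ht
    linarith [ht.1]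

private theorem gt_scale {N a b : ℝ} (hN : 0 < N) :
    ∫ v in a..b, v⁻¹ * Real.smoothTransition (1 / N * v + -1) = ∫ t in (a / N)..(b / N), Gt t := by
  have h1 : ∀ v : ℝ, v⁻¹ * Real.smoothTransition (1 / N * v + -1) = N⁻¹ * Gt (v / N) := by
    intro v
    unfold Gt
    rw [show v / N - 1 = 1 / N * v + -1 by ring, inv_div, ← mul_assoc]
    congr 1
    rw [div_eq_mul_inv, ← mul_assoc, inv_mul_cancel₀ hN.ne', one_mul]
  simp_rw [h1]
  rw [intervalIntegral.integral_const_mul, intervalIntegral.integral_comp_div _ hN.ne', smul_eq_mul,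
    ← mul_assoc, inv_mul_cancel₀ hN.ne', one_mul]

private theorem wsm_int {M M' : ℝ} (hM : 0 < M) (h1 : M ≤ M') (h2 : M' ≤ 2 * M) :
    ∫ v in M..(4 * M), v⁻¹ * (Real.smoothTransition (1 / M * v + -1) - Real.smoothTransition (1 / M' * v + -1)) =
      Real.log M' - Real.log M := by
  have hM' : 0 < M' := by linarith
  have hc : ∀ N : ℝ, 0 < N → IntervalIntegrable (fun v => v⁻¹ * Real.smoothTransition (1 / N * v + -1))
      MeasureTheory.volume M (4 * M) := by
    intro N hN
    refine ContinuousOn.intervalIntegrable ?_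
    refine ContinuousOn.mul (ContinuousOn.inv₀ continuousOn_id fun t ht => ?_) ?_
    · rw [Set.uIcc_of_le (by linarith)] at ht
      exact ne_of_gt (lt_of_lt_of_le hM ht.1)
    · exact (Real.smoothTransition.continuous.comp (by fun_prop)).continuousOn
  have h3 : ∫ v in M..(4 * M), v⁻¹ * (Real.smoothTransition (1 / M * v + -1) -
      Real.smoothTransition (1 / M' * v + -1)) =
      (∫ v in M..(4 * M), v⁻¹ * Real.smoothTransition (1 / M * v + -1)) -
      ∫ v in M..(4 * M), v⁻¹ * Real.smoothTransition (1 / M' * v + -1) := by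
    rw [← intervalIntegral.integral_sub (hc M hM) (hc M' hM')]
    refine intervalIntegral.integral_congr fun v _ => ?_
    ring
  rw [h3, gt_scale hM, gt_scale hM', div_self hM.ne', mul_div_assoc, div_self hM.ne', mul_one]
  have hr1 : M / M' ≤ 1 := by rw [div_le_one hM']; exact h1
  have hr0 : 0 < M / M' := by positivity
  have hr2 : 2 ≤ 4 * M / M' := by rw [le_div_iff₀ hM']; linarith
  have hr4 : 4 * M / M' ≤ 4 := by rw [div_le_iff₀ hM']; linarith
  have h4 : ∫ t in (M / M')..(4 * M / M'), Gt t = ∫ t in (1 : ℝ)..(4 * M / M'), Gt t := by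
    have h5 : ∫ t in (M / M')..(1 : ℝ), Gt t = 0 := by
      rw [intervalIntegral.integral_congr (g := fun _ => (0 : ℝ)) fun t ht => ?_]
      · simp
      · rw [Set.uIcc_of_le hr1] at ht
        exact gt_zero ht.2
    rw [← intervalIntegral.integral_add_adjacent_intervals (gt_int hr0 one_pos) (gt_int one_pos (by linarith)), h5,
      zero_add]
  have h5 : ∫ t in (1 : ℝ)..4, Gt t = (∫ t in (1 : ℝ)..(4 * M / M'), Gt t) + ∫ t in (4 * M / M')..4, Gt t :=
    (intervalIntegral.integral_add_adjacent_intervals (gt_int one_pos (by linarith))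
      (gt_int (by linarith) (by norm_num))).symm
  have h6 : ∫ t in (4 * M / M')..4, Gt t = Real.log M' - Real.log M := by
    have h7 : ∫ t in (4 * M / M')..4, Gt t = ∫ t in (4 * M / M')..4, t⁻¹ := by
      refine intervalIntegral.integral_congr fun t ht => ?_
      rw [Set.uIcc_of_le hr4] at ht
      unfold Gt
      rw [Real.smoothTransition.one_of_one_le (by linarith [ht.1]), mul_one]
    rw [h7, integral_inv_of_pos (by linarith) (by norm_num)]
    rw [show (4 : ℝ) / (4 * M / M') = M' / M by field_simp, Real.log_div hM'.ne' hM.ne']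
  rw [h4, h5, h6]
  ring

private theorem wsm_step (A : ℕ) (hA : 2 ≤ A) : ∃ C : ℝ, 0 < C ∧ ∀ M M' : ℝ, 1 ≤ M → M ≤ M' → M' ≤ 2 * M →
    |(Wz M' - Real.log M') - (Wz M - Real.log M)| ≤ C / M ^ A := by
  obtain ⟨C, hC1, hC⟩ := Pool.Agent.H49.TS.gen A hA
  refine ⟨C * A.factorial * 2 ^ A * 3, by positivity, fun M M' hM h1 h2 => ?_⟩
  have hM0 : 0 < M := by linarith
  have hM'0 : 0 < M' := by linarith
  have h3 := hC Inv.inv M (4 * M) (1 / M) ((A.factorial : ℝ) * (1 / M)) (1 / M) (-1) (1 / M') (-1) hM0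
    (by linarith) (by positivity) le_rfl (by positivity) (one_div_le_one_div_of_le hM0 h1) (by positivity)
    (fun t ht => (contDiffAt_inv ℝ (by linarith)).of_le le_top)
    (fun i hi t ht => wsm_der A hM0 ht.1 i hi)
    (fun t ht => by
      rw [Set.mem_Icc, not_and_or, not_le, not_le] at ht
      have e1 : 1 / M * t + -1 = t / M - 1 := by ring
      have e2 : 1 / M' * t + -1 = t / M' - 1 := by ring
      rw [e1, e2]
      rcases ht with h | h
      · have g1 : t / M ≤ 1 := by rw [div_le_one hM0]; exact h.le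
        have g2 : t / M' ≤ 1 := by rw [div_le_one hM'0]; linarith
        rw [Real.smoothTransition.zero_of_nonpos (by linarith),
          Real.smoothTransition.zero_of_nonpos (by linarith)]
        ring
      · have g1 : 2 ≤ t / M := by rw [le_div_iff₀ hM0]; linarith
        have g2 : 2 ≤ t / M' := by rw [le_div_iff₀ hM'0]; linarith
        rw [Real.smoothTransition.one_of_one_le (by linarith),
          Real.smoothTransition.one_of_one_le (by linarith)]
        ring)
  have h4 : (∑ N ∈ Icc 1 ⌊4 * M⌋₊, ((N : ℝ))⁻¹ * (Real.smoothTransition (1 / M * N + -1) -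
      Real.smoothTransition (1 / M' * N + -1))) = Wz M' - Wz M := by
    rw [wsm_wz hM0 (Q := ⌊4 * M⌋₊) (Nat.floor_le_floor (by linarith)),
      wsm_wz hM'0 (Q := ⌊4 * M⌋₊) (Nat.floor_le_floor (by linarith)), ← sum_sub_distrib]
    refine sum_congr rfl fun m _ => ?_
    unfold ww
    rw [show 1 / M * (m : ℝ) + -1 = m / M - 1 by ring, show 1 / M' * (m : ℝ) + -1 = m / M' - 1 by ring]
    ring
  rw [h4, wsm_int hM0 h1 h2] at h3
  have h5 : (Wz M' - Real.log M') - (Wz M - Real.log M) = Wz M' - Wz M - (Real.log M' - Real.log M) := by ring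
  rw [h5]
  refine h3.trans (le_of_eq ?_)
  rw [mul_pow, one_div_pow]
  field_simp
  ring

private theorem wsm_all (A : ℕ) (hA : 2 ≤ A) : ∃ C : ℝ, 0 < C ∧ ∀ M M' : ℝ, 1 ≤ M → M ≤ M' →
    |(Wz M' - Real.log M') - (Wz M - Real.log M)| ≤ C / M ^ A := by
  obtain ⟨C, hC0, hC⟩ := wsm_step A hA
  refine ⟨2 * C, by linarith, ?_⟩
  have key : ∀ n : ℕ, ∀ M M' : ℝ, 1 ≤ M → M ≤ M' → M' ≤ 2 ^ n * M →
      |(Wz M' - Real.log M') - (Wz M - Real.log M)| ≤ 2 * C / M ^ A := by
    intro n
    induction n with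
    | zero =>
      intro M M' hM h1 h2
      rw [pow_zero, one_mul] at h2
      have h3 : M' = M := le_antisymm h2 h1
      rw [h3, sub_self, abs_zero]
      positivity
    | succ n ih =>
      intro M M' hM h1 h2
      have hM0 : 0 < M := by linarith
      by_cases h3 : M' ≤ 2 * M
      · refine (hC M M' hM h1 h3).trans ?_
        gcongr
        linarith
      · push Not at h3
        have h4 := hC M (2 * M) hM (by linarith) le_rfl
        have h5 := ih (2 * M) M' (by linarith) h3.le (by rw [pow_succ] at h2; linarith)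
        have h6 : 2 * C / (2 * M) ^ A ≤ C / M ^ A := by
          rw [mul_pow, div_le_div_iff₀ (by positivity) (by positivity)]
          have h7 : (2 : ℝ) ≤ 2 ^ A := by
            calc (2 : ℝ) = 2 ^ 1 := by norm_num
              _ ≤ 2 ^ A := pow_le_pow_right₀ (by norm_num) (by omega)
          have h8 : 0 ≤ C * M ^ A := by positivity
          nlinarith
        have h7 : 2 * C / M ^ A = C / M ^ A + C / M ^ A := by ring
        rw [h7]
        have h8 : (Wz M' - Real.log M') - (Wz M - Real.log M) =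
            ((Wz M' - Real.log M') - (Wz (2 * M) - Real.log (2 * M))) +
            ((Wz (2 * M) - Real.log (2 * M)) - (Wz M - Real.log M)) := by ring
        rw [h8]
        exact (abs_add_le _ _).trans (add_le_add (h5.trans h6) h4)
  intro M M' hM h1
  obtain ⟨n, hn⟩ := exists_nat_ge (M' / M)
  refine key n M M' hM h1 ?_
  have hM0 : 0 < M := by linarith
  rw [div_le_iff₀ hM0] at hn
  refine hn.trans (mul_le_mul_of_nonneg_right ?_ hM0.le)
  exact_mod_cast (Nat.lt_two_pow_self (n := n)).le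

theorem wsm : ∃ c2 : ℝ, Was c2 := by
  obtain ⟨C, hC0, hC⟩ := wsm_all 2 le_rfl
  have hcau : CauchySeq fun n : ℕ => Wz ((n : ℝ) + 1) - Real.log ((n : ℝ) + 1) := by
    refine cauchySeq_of_le_tendsto_0' (fun n : ℕ => C / ((n : ℝ) + 1)) ?_ ?_
    · intro n m hnm
      have hn : (0 : ℝ) ≤ n := Nat.cast_nonneg n
      have h1 := hC ((n : ℝ) + 1) ((m : ℝ) + 1) (by linarith) (by
        have : (n : ℝ) ≤ m := by exact_mod_cast hnm
        linarith)
      rw [dist_comm, Real.dist_eq]
      refine h1.trans ?_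
      gcongr
      nlinarith
    · have h1 : Filter.Tendsto (fun n : ℕ => C / ((n : ℝ) + 1)) Filter.atTop (nhds 0) := by
        have h2 := tendsto_one_div_add_atTop_nhds_zero_nat (𝕜 := ℝ)
        have h3 := h2.const_mul C
        rw [mul_zero] at h3
        refine h3.congr fun n => ?_
        ring
      exact h1
  obtain ⟨c2, hc2⟩ := cauchySeq_tendsto_of_complete hcau
  refine ⟨c2, fun A => ?_⟩
  obtain ⟨C', hC'0, hC'⟩ := wsm_all (max A 2) (le_max_right _ _)
  refine ⟨C', hC'0, fun M hM => ?_⟩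
  have h1 : |(Wz M - Real.log M) - c2| ≤ C' / M ^ (max A 2) := by
    have h2 : Filter.Tendsto (fun n : ℕ => |(Wz ((n : ℝ) + 1) - Real.log ((n : ℝ) + 1)) - (Wz M - Real.log M)|)
        Filter.atTop (nhds |c2 - (Wz M - Real.log M)|) := (hc2.sub_const _).abs
    rw [abs_sub_comm]
    refine le_of_tendsto h2 ?_
    obtain ⟨n0, hn0⟩ := exists_nat_ge M
    filter_upwards [Filter.eventually_ge_atTop n0] with n hn
    refine hC' M ((n : ℝ) + 1) hM ?_
    have : (n0 : ℝ) ≤ n := by exact_mod_cast hn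
    linarith
  refine h1.trans ?_
  have hM0 : 0 < M := by linarith
  refine div_le_div_of_nonneg_left hC'0.le (by positivity) ?_
  exact pow_le_pow_right₀ hM (le_max_left _ _)

end Pool.Agent.H67.TS
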