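import Pool.Agent.H67.TS.Pcs
import Pool.Agent.H67.TS.Gsm
import Pool.Agent.H67.TS.Wsm
import Pool.Agent.H67.TS.Cst
import Pool.Agent.H67.TS.Ssb
import Pool.Agent.H67.TS.Sup
import Pool.Agent.H67.TS.L1
import Pool.Agent.H67.TS.Lnd
import Pool.Agent.H67.TS.Fin

/-!
# [H67 TS ASM] assembly
-/

set_option autoImplicit false

namespace Pool.Agent.H67.TS

open Finset Pool.Agent.H48.WN

/-- the input `H24/WH/Mai.lean`, `mai` -/
def MaiStmt : Prop := ∀ b ε : ℝ, 1 ≤ b → 0 < ε → ∃ T0 : ℝ, 1 ≤ T0 ∧ ∀ T : ℝ, T0 ≤ T → ∃ X H : ℕ,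
      T ^ b ≤ X ∧ (X : ℝ) ≤ T ^ (b + 1 / 2 + ε) ∧ (X : ℝ) ≤ H * T ∧ (H : ℝ) * T ≤ 64 * X ∧
      (X : ℝ) * H * T ^ (-ε) ≤ ∑ n ∈ Ioc X (2 * X), (EI n H) ^ 2

private lemma pi_ei (n H : ℕ) (hn : 2 ≤ n) : Pi n H = EI n H := by
  have e1 : ⌊((n : ℝ) + (H : ℝ))⌋₊ = n + H := by
    rw [← Nat.cast_add, Nat.floor_natCast]
  have hn2 : (2 : ℝ) ≤ n := by exact_mod_cast hn
  unfold Pi EI
  rw [e1, Nat.floor_natCast]
  congr 1
  apply intervalIntegral.integral_congr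
  intro t ht
  rw [Set.uIcc_of_le (by simp)] at ht
  show 1 / Real.log (max t 2) = 1 / Real.log t
  rw [max_eq_left (hn2.trans ht.1)]

theorem asm (hmai : MaiStmt) (s α u : ℝ) (hs : s = 1 ∨ s = -1) (hu : 0 < u) (hu1 : u < 1)
    (hα : u ≤ α) (hα2 : 1 / 2 ≤ α) (hα3 : α * (2 + u) < 1 + u) : ¬ OneN s α u := by
  intro h
  have hα1 : α < 1 := by
    by_contra hc
    push Not at hc
    nlinarith
  have h1 := pcs s α u hs hu hu1 hα hα1 h
  have h2 := lnd s α u hs hu hu1 hα2 hα1 h1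
  obtain ⟨c1, h3⟩ := gsm α hα2 hα1 h2
  obtain ⟨c2, h4⟩ := wsm
  have h5 := ssb α c1 c2 hα1 h3 h4 (cst α c1 c2 hα1 h3 h4)
  have h6 := sup s α u hs hu hu1 hα hα2 hα1 h1 h5
  refine fin u α hu hu1 (by linarith) hα3 ?_ ?_ hmai
  · intro ε hε
    obtain ⟨C, x0, hC, hx0, h7⟩ := h6 (ε / 2) (by linarith)
    refine ⟨max x0 (C ^ (2 / ε)), fun n H hn hH => ?_⟩
    have hn1 : x0 ≤ n := (le_max_left _ _).trans hn
    have hn2 : C ^ (2 / ε) ≤ n := (le_max_right _ _).trans hn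
    have hn3 : (2 : ℝ) ≤ n := hx0.trans hn1
    have hn4 : 2 ≤ n := by exact_mod_cast hn3
    have hn0 : (0 : ℝ) < n := by linarith
    rw [← pi_ei n H hn4]
    refine (h7 n H hn1 (Nat.cast_nonneg _) hH).trans ?_
    have e1 : C ≤ (n : ℝ) ^ (ε / 2) := by
      calc C = (C ^ (2 / ε)) ^ (ε / 2) := by
            rw [← Real.rpow_mul hC.le]
            have : 2 / ε * (ε / 2) = 1 := by field_simp
            rw [this, Real.rpow_one]
        _ ≤ _ := Real.rpow_le_rpow (by positivity) hn2 (by linarith)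
    calc C * (n : ℝ) ^ (α / (1 + u) + ε / 2) ≤ (n : ℝ) ^ (ε / 2) * (n : ℝ) ^ (α / (1 + u) + ε / 2) := by
          gcongr
      _ = (n : ℝ) ^ (α / (1 + u) + ε) := by
          rw [← Real.rpow_add hn0]
          congr 1
          ring
  · intro ε hε
    exact l1 s α u hs hu hu1 (by linarith) hα1 h1 h2 ε hε

/-- THEOREM TS -/
theorem main (hmai : MaiStmt) (s θ ε : ℝ) (hs : s = 1 ∨ s = -1) (hθ1 : θ < 1) (hθ : 1 < θ * (3 - θ)) (hε : 0 < ε)
    (N : ℕ) : ∃ n H : ℕ, N ≤ n ∧ (n : ℝ) ^ θ ≤ H ∧ (H : ℝ) ≤ 2 * (n : ℝ) ^ θ ∧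
      (n : ℝ) ^ (θ - 1 / (3 - θ) - ε) < s * EI n H := by
  have hθ0 : 0 < θ := by
    by_contra hc
    push Not at hc
    nlinarith
  have h3 : 0 < 3 - θ := by linarith
  have hd : 0 < θ - 1 / (3 - θ) := by
    rw [sub_pos, div_lt_iff₀ h3]
    linarith
  obtain ⟨u, hu⟩ : ∃ u : ℝ, u = 1 - θ := ⟨_, rfl⟩
  have hu0 : 0 < u := by linarith
  have h2u : 0 < 2 + u := by linarith
  have e0 : 1 - 1 / (3 - θ) = (1 + u) / (2 + u) := by
    rw [hu]
    have : 2 + (1 - θ) ≠ 0 := by linarith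
    field_simp
    ring
  -- a smaller `ε`
  obtain ⟨e, he, he1, he2, he3⟩ : ∃ e : ℝ, 0 < e ∧ e ≤ ε ∧ e ≤ θ - 1 / (3 - θ) ∧
      1 / 2 ≤ (1 + u) / (2 + u) - e := by
    have e1 : 0 < (1 + u) / (2 + u) - 1 / 2 := by
      rw [sub_pos, div_lt_div_iff₀ (by norm_num) h2u]
      linarith
    refine ⟨min ε (min (θ - 1 / (3 - θ)) ((1 + u) / (2 + u) - 1 / 2)), by positivity,
      min_le_left _ _, (min_le_right _ _).trans (min_le_left _ _), ?_⟩
    have := (min_le_right ε (min (θ - 1 / (3 - θ)) ((1 + u) / (2 + u) - 1 / 2))).trans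
      (min_le_right _ _)
    linarith
  obtain ⟨α, hα⟩ : ∃ α : ℝ, α = (1 + u) / (2 + u) - e := ⟨_, rfl⟩
  have hαu : α - u = θ - 1 / (3 - θ) - e := by
    rw [hα, ← e0, hu]
    ring
  have hn := asm hmai (-s) α u (by rcases hs with h | h <;> simp [h]) hu0 (by linarith) (by linarith)
    (by linarith) (by
      have : (1 + u) / (2 + u) * (2 + u) = 1 + u := div_mul_cancel₀ _ h2u.ne'
      rw [hα, sub_mul, this]
      have : 0 < e * (2 + u) := by positivity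
      linarith)
  unfold OneN at hn
  push Not at hn
  obtain ⟨n, H, h1, h2, h4, h5⟩ := hn (max N 1)
  have hθu : 1 - u = θ := by rw [hu]; ring
  rw [hθu] at h2 h4
  refine ⟨n, H, (le_max_left _ _).trans h1, h2, h4, ?_⟩
  have hn1 : (1 : ℝ) ≤ n := by exact_mod_cast (le_max_right N 1).trans h1
  have h6 : (n : ℝ) ^ (θ - 1 / (3 - θ) - ε) ≤ (n : ℝ) ^ (α - u) :=
    Real.rpow_le_rpow_of_exponent_le hn1 (by rw [hαu]; linarith)
  have h7 : -s * EI n H = -(s * EI n H) := by ring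
  rw [h7] at h5
  linarith

end Pool.Agent.H67.TS
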