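import Pool.Agent.H48.WN.Defs

/-!
# [H67 TS] MP_31d0eb_nt: two sided errors at every exponent (theorem TS of helper27)

`Pi x h`, `Ps x h`, `EI n m` are the error terms of `π`, `ψ`, `π` (integers) in `(x, x+h]` of `Pool/Agent/H48/WN/Defs.lean`.

THEOREM (file `Res`). `0 < θ < 1`, `θ (3 - θ) > 1`, `ε > 0`: for arbitrarily large `n` there is `H ∈ [n^θ, 2 n^θ]` with
`EI n H > n^(θ - 1/(3-θ) - ε)`, and the same for `-EI n H`.

PLAN. `u = 1 - θ`, suppose `s EI n H ≥ -n^(α-u)` for all large `n`, `H ∈ [n^θ, 2 n^θ]`, `1/2 ≤ α`, `u ≤ α`, `α < (1+u)/(2+u)`.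
`Pcs`: `s Pi x h ≥ -C x^(α-1) h` for all `h ≥ 4 x^(1-u)`. `Lnd` (Landau): `Σ |PiN n| n^(-1-w) < ∞` for `w > α`.
`Sub`: `|Pi J| ≤ s Pi(I) + C x^(α-1) |I|` for every subinterval `J` of `I = (x, x+L]` with margins `16 x^(1-u)`.
Chebyshev's identity `Lam * 1 = log` with the smooth weight `ww (m/M)`, `M = x^(u/(1+u))`, and the kernel `Kk`
(`Ker`, `Poi`, `Lsm`, `Gsm`, `Wsm`, `Cst`, `Ssb`) gives the upper bound; `Stp`, `Sup`:
`|Pi x h| ≤ x^(α/(1+u)+ε)` for all `h ≤ x^(1/(1+u))`. `L1`: `Σ_(X<n≤2X) |EI n H| ≤ X^(α+ε) H`.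
`Fin`: these contradict `H24/WH/Mai`.
-/

set_option autoImplicit false

namespace Pool.Agent.H67.TS

open Finset Pool.Agent.H48.WN

/-- `π(n) - ∫_2^n dt/log t` -/
noncomputable def PiN (n : ℕ) : ℝ := (Nat.primeCounting n : ℝ) - ∫ t in (2 : ℝ)..(n : ℝ), 1 / Real.log t

/-- the hypothesis which is refuted -/
def OneN (s α u : ℝ) : Prop := ∃ N0 : ℕ, ∀ n H : ℕ, N0 ≤ n → (n : ℝ) ^ (1 - u) ≤ H →
  (H : ℝ) ≤ 2 * (n : ℝ) ^ (1 - u) → -((n : ℝ) ^ (α - u)) ≤ s * EI n H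

/-- one sided bound for all lengths -/
def One (s α u : ℝ) : Prop := ∃ C x0 : ℝ, 0 < C ∧ 2 ≤ x0 ∧ ∀ x h : ℝ, x0 ≤ x → 4 * x ^ (1 - u) ≤ h →
  h ≤ x → -(C * x ^ (α - 1) * h) ≤ s * Pi x h

/-- the result of Landau's lemma -/
def Smb (α : ℝ) : Prop := ∀ w : ℝ, α < w → Summable fun n : ℕ => |PiN n| * (n : ℝ) ^ (-(1 + w))

/-- sup bound for short intervals, exponent `e` -/
def PP (u e : ℝ) : Prop := ∀ ε : ℝ, 0 < ε → ∃ C x0 : ℝ, 0 < C ∧ 2 ≤ x0 ∧ ∀ x h : ℝ, x0 ≤ x → 0 ≤ h →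
  h ≤ x ^ (1 / (1 + u)) → |Pi x h| ≤ C * x ^ (e + ε)

/-- the kernel: `0` up to `x`, `1` on `[x+l, x+4l]`, `0` from `x+5l` -/
noncomputable def Kk (x l v : ℝ) : ℝ :=
  Real.smoothTransition ((v - x) / l) - Real.smoothTransition ((v - x) / l - 4)

/-- the cut-off: `1` up to `1`, `0` from `2` -/
noncomputable def ww (t : ℝ) : ℝ := 1 - Real.smoothTransition (t - 1)

/-- smooth error term of `ψ` near `x/m` -/
noncomputable def Dm (x l : ℝ) (m : ℕ) : ℝ :=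
  (∑ n ∈ Icc 1 ⌊x + 5 * l⌋₊, ArithmeticFunction.vonMangoldt n * Kk x l ((n : ℝ) * m)) - 4 * l / m

/-- the sum in Chebyshev's identity -/
noncomputable def SS (x l M : ℝ) : ℝ := ∑ m ∈ Icc 1 ⌊2 * M⌋₊, ww ((m : ℝ) / M) * Dm x l m

/-- `Σ Lam(n)/n (1 - w(Z/n))` -/
noncomputable def Gz (Z : ℝ) : ℝ :=
  ∑ n ∈ Icc 1 ⌊Z⌋₊, ArithmeticFunction.vonMangoldt n / n * (1 - ww (Z / n))

/-- `Σ w(m/M)/m` -/
noncomputable def Wz (M : ℝ) : ℝ := ∑ m ∈ Icc 1 ⌊2 * M⌋₊, ww ((m : ℝ) / M) / m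

/-- the asymptotics of `Gz` -/
def Gas (α c1 : ℝ) : Prop := ∀ ε : ℝ, 0 < ε → ∃ C : ℝ, 0 < C ∧ ∀ Z : ℝ, 1 ≤ Z →
  |Gz Z - Real.log Z - c1| ≤ C * Z ^ (α - 1 + ε)

/-- the asymptotics of `Wz` -/
def Was (c2 : ℝ) : Prop := ∀ A : ℕ, ∃ C : ℝ, 0 < C ∧ ∀ M : ℝ, 1 ≤ M →
  |Wz M - Real.log M - c2| ≤ C / M ^ A

/-- the bound for `SS` -/
def Ssp (α : ℝ) : Prop := ∀ ε : ℝ, 0 < ε → ∃ C x0 : ℝ, 0 < C ∧ 2 ≤ x0 ∧ ∀ x l M : ℝ, x0 ≤ x →
  x ^ ε ≤ l → 10 * l ≤ x → x ^ (1 + ε) ≤ l * M → M ≤ x ^ (1 - ε) →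
  |SS x l M| ≤ C * (l * (x / M) ^ (α - 1 + ε)) + C

theorem ww_one {t : ℝ} (h : t ≤ 1) : ww t = 1 := by
  unfold ww
  rw [Real.smoothTransition.zero_of_nonpos (by linarith)]
  ring

theorem ww_zero {t : ℝ} (h : 2 ≤ t) : ww t = 0 := by
  unfold ww
  rw [Real.smoothTransition.one_of_one_le (by linarith)]
  ring

theorem ww_nonneg (t : ℝ) : 0 ≤ ww t := by
  unfold ww
  have := Real.smoothTransition.le_one (t - 1)
  linarith

theorem ww_le (t : ℝ) : ww t ≤ 1 := by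
  unfold ww
  have := Real.smoothTransition.nonneg (t - 1)
  linarith

theorem ww_contDiff : ContDiff ℝ (⊤ : ℕ∞) ww := by
  unfold ww
  exact contDiff_const.sub (Real.smoothTransition.contDiff.comp (by fun_prop))

theorem kk_left {x l v : ℝ} (hl : 0 < l) (h : v ≤ x) : Kk x l v = 0 := by
  unfold Kk
  have h1 : (v - x) / l ≤ 0 := div_nonpos_of_nonpos_of_nonneg (by linarith) hl.le
  rw [Real.smoothTransition.zero_of_nonpos h1, Real.smoothTransition.zero_of_nonpos (by linarith)]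
  ring

theorem kk_right {x l v : ℝ} (hl : 0 < l) (h : x + 5 * l ≤ v) : Kk x l v = 0 := by
  unfold Kk
  have h1 : 5 ≤ (v - x) / l := by rw [le_div_iff₀ hl]; linarith
  rw [Real.smoothTransition.one_of_one_le (by linarith), Real.smoothTransition.one_of_one_le (by linarith)]
  ring

theorem kk_contDiff (x l : ℝ) : ContDiff ℝ (⊤ : ℕ∞) (Kk x l) := by
  unfold Kk
  exact (Real.smoothTransition.contDiff.comp (by fun_prop)).sub
    (Real.smoothTransition.contDiff.comp (by fun_prop))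

end Pool.Agent.H67.TS
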