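import Pool.Agent.H67.TS.Trd
import Pool.Agent.H24.TS.Fgb

/-!
# [H67 TS FTH] the final theorem, all ranges

`δ(θ) = max (θ/4) (max (min (θ/2) (max ((1-2θ)/6) (1/12))) (θ - 1/(3-θ)))`: GC for `θ < 1/4`, `fgb` for `θ ≥ 1/4`
(`1/12`), `fbl` (`θ/4`), `main`.
-/

set_option autoImplicit false

namespace Pool.Agent.H67.TS

open Finset Pool.Agent.H48.WN

/-- the statement of `H24/TS/Fbl.lean` -/
def FblStmt : Prop := ∀ (s θ ρ δ : ℝ), s = 1 ∨ s = -1 → 0 < ρ → ρ < 1 / 3 → 2 * ρ < θ → θ < 1 → 0 ≤ δ →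
    2 * δ < ρ → 1 / 2 ≤ δ + (1 - θ) → ¬ OneN s (δ + (1 - θ)) (1 - θ)

theorem of_not (s θ δ η : ℝ) (hη : η ≤ δ) (h : ¬ OneN (-s) (δ + (1 - θ)) (1 - θ)) (N : ℕ) :
    ∃ n H : ℕ, N ≤ n ∧ (n : ℝ) ^ θ ≤ H ∧ (H : ℝ) ≤ 2 * (n : ℝ) ^ θ ∧ (n : ℝ) ^ η ≤ s * EI n H := by
  unfold OneN at h
  push Not at h
  obtain ⟨n, H, k1, k2, k4, k5⟩ := h (max N 1)
  rw [show 1 - (1 - θ) = θ by ring] at k2 k4
  rw [show δ + (1 - θ) - (1 - θ) = δ by ring] at k5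
  refine ⟨n, H, (le_max_left _ _).trans k1, k2, k4, ?_⟩
  have hn1 : (1 : ℝ) ≤ n := by exact_mod_cast (le_max_right N 1).trans k1
  have h6 : (n : ℝ) ^ η ≤ (n : ℝ) ^ δ := Real.rpow_le_rpow_of_exponent_le hn1 hη
  have h7 : -s * EI n H = -(s * EI n H) := by ring
  rw [h7] at k5
  linarith

/-- `θ/4` -/
theorem fth_a (hfbl : FblStmt) (s θ ε : ℝ) (hs : s = 1 ∨ s = -1) (h0 : 0 < θ) (h1 : θ < 2 / 3) (hε : 0 < ε) (N : ℕ) :
    ∃ n H : ℕ, N ≤ n ∧ (n : ℝ) ^ θ ≤ H ∧ (H : ℝ) ≤ 2 * (n : ℝ) ^ θ ∧ (n : ℝ) ^ (θ / 4 - ε) ≤ s * EI n H := by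
  obtain ⟨e, he, he1, he2, he3⟩ : ∃ e : ℝ, 0 < e ∧ e ≤ ε ∧ e ≤ θ / 4 ∧ e ≤ 1 / 2 - 3 / 4 * θ := by
    refine ⟨min ε (min (θ / 4) (1 / 2 - 3 / 4 * θ)), lt_min hε (lt_min (by linarith) (by linarith)),
      min_le_left _ _, (min_le_right _ _).trans (min_le_left _ _), (min_le_right _ _).trans (min_le_right _ _)⟩
  exact of_not s θ (θ / 4 - e) (θ / 4 - ε) (by linarith)
    (hfbl (-s) θ (θ / 2 - e) (θ / 4 - e) (by rcases hs with h | h <;> simp [h]) (by linarith) (by linarith)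
      (by linarith) (by linarith) (by linarith) (by linarith) (by linarith)) N

/-- `1/12` -/
theorem fth_b (s θ ε : ℝ) (hs : s = 1 ∨ s = -1) (h0 : 1 / 4 ≤ θ) (h1 : θ ≤ 1 / 2) (hε : 0 < ε) (N : ℕ) :
    ∃ n H : ℕ, N ≤ n ∧ (n : ℝ) ^ θ ≤ H ∧ (H : ℝ) ≤ 2 * (n : ℝ) ^ θ ∧ (n : ℝ) ^ (1 / 12 - ε) ≤ s * EI n H := by
  obtain ⟨e, he, he1, he2⟩ : ∃ e : ℝ, 0 < e ∧ e ≤ ε ∧ e ≤ 1 / 12 :=
    ⟨min ε (1 / 12), by positivity, min_le_left _ _, min_le_right _ _⟩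
  exact of_not s θ (1 / 12 - e) (1 / 12 - ε) (by linarith)
    (Pool.Agent.H24.TS.fgb (-s) θ (1 / 12 - e) (by rcases hs with h | h <;> simp [h]) h0 (by linarith)
      (by linarith) (by linarith) (by linarith)) N

/-- the exponent -/
noncomputable def dl (θ : ℝ) : ℝ := max (θ / 4) (max (min (θ / 2) (max ((1 - 2 * θ) / 6) (1 / 12))) (θ - 1 / (3 - θ)))

theorem four_ranges (hfbl : FblStmt) (s θ ε : ℝ) (hs : s = 1 ∨ s = -1) (h0 : 0 < θ) (h1 : θ < 1) (hε : 0 < ε)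
    (N : ℕ) :
    ∃ n H : ℕ, N ≤ n ∧ (n : ℝ) ^ θ ≤ H ∧ (H : ℝ) ≤ 2 * (n : ℝ) ^ θ ∧
      (n : ℝ) ^ (max (θ / 4) (max (min (θ / 2) (max ((1 - 2 * θ) / 6) (1 / 12))) (θ - 1 / (3 - θ))) - ε) ≤
        s * EI n H := by
  have h3 : 0 < 3 - θ := by linarith
  obtain ⟨w, hw⟩ : ∃ w : ℝ, w = θ - 1 / (3 - θ) := ⟨_, rfl⟩
  have hw1 : w * (3 - θ) = θ * (3 - θ) - 1 := by
    rw [hw, sub_mul, div_mul_cancel₀ _ h3.ne']
  obtain ⟨v, hv⟩ : ∃ v : ℝ, v = min (θ / 2) (max ((1 - 2 * θ) / 6) (1 / 12)) := ⟨_, rfl⟩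
  rw [← hw, ← hv]
  rcases le_or_gt (max v w) (θ / 4) with h | h
  · rw [max_eq_left h]
    have h4 : w ≤ θ / 4 := (le_max_right _ _).trans h
    refine fth_a hfbl s θ ε hs h0 ?_ hε N
    by_contra hc
    push Not at hc
    nlinarith
  · rw [max_eq_right h.le]
    rcases le_or_gt w v with h5 | h5
    · rw [max_eq_left h5]
      rcases lt_or_ge θ (1 / 4) with h6 | h6
      · have e1 : v = min (θ / 2) ((1 - 2 * θ) / 6) := by
          rw [hv, max_eq_left (by linarith)]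
        rw [e1]
        exact gch s θ ε hs h0 (by linarith) hε N
      · have e1 : v = 1 / 12 := by
          rw [hv, max_eq_right (by linarith), min_eq_right (by linarith)]
        rw [e1]
        refine fth_b s θ ε hs h6 ?_ hε N
        by_contra hc
        push Not at hc
        rw [e1] at h5
        nlinarith
    · rw [max_eq_right h5.le]
      have hv0 : 0 < v := by
        rw [hv]
        exact lt_min (by linarith) (lt_max_of_lt_right (by norm_num))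
      have h4 : 1 < θ * (3 - θ) := by
        have : 0 < w * (3 - θ) := mul_pos (by linarith) h3
        linarith
      obtain ⟨n, H, k1, k2, k3, k4⟩ := main Pool.Agent.H24.WH.mai s θ ε hs h1 h4 hε N
      rw [← hw] at k4
      exact ⟨n, H, k1, k2, k3, k4.le⟩

end Pool.Agent.H67.TS
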