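import Pool.Agent.H67.TS.Pcs
import Pool.Agent.H67.TS.Lnd
import Pool.Agent.H67.TS.L1

/-!
# [H67 TS GFM] a lower bound for the mean refutes the one sided hypothesis, `θ < 1/2`

`H24/TS/Gfin.lean` (helper24) for a general exponent `m`.

PROOF. `u = 1 - θ`, `α = δ + u`, `e = (m - δ)/4`, `c = 1/12`, `A = (5X/2)^θ`. For
`n ∈ [3X/4, 5X/2]`: `n^θ ≤ A ≤ H ≤ (13/12) A ≤ 2 (3X/4)^θ ≤ 2 n^θ` (`(10/3)^(1/2) ≤ 1.83`), so `OneN` gives
`-κ ≤ s EI n H`, `κ = (5X/2)^δ`. `l1_core`: `∑ |EI| ≤ X^(α+e) H + 4 κ X ≤ 14 X^(1+δ+e) < X^(1+m-e)`.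
-/

set_option autoImplicit false

namespace Pool.Agent.H67.TS

open Finset Pool.Agent.H48.WN

/-- the mean of the error is at least `X^(m - ε)` for lengths about `X^θ` -/
def GbAt (θ m : ℝ) : Prop := ∀ ε c : ℝ, 0 < ε → 0 < c →
    ∃ X0 : ℕ, ∀ X : ℕ, X0 ≤ X → ∀ A : ℝ, (X : ℝ) ^ θ ≤ A → A ≤ 4 * (X : ℝ) ^ θ →
      ∃ H : ℕ, A ≤ H ∧ (H : ℝ) ≤ (1 + c) * A ∧
        (X : ℝ) ^ (1 + m - ε) ≤ ∑ n ∈ Ioc X (2 * X), |EI n H|

theorem gfm (s θ m δ : ℝ) (hgb : GbAt θ m) (hs : s = 1 ∨ s = -1) (hθ0 : 0 < θ) (hθ : θ < 1 / 2)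
    (hm1 : m ≤ θ) (hm2 : m ≤ 1 / 4) (hδ0 : 0 ≤ δ) (hδ : δ < m) : ¬ OneN s (δ + (1 - θ)) (1 - θ) := by
  intro h
  have hδθ : δ < θ := by linarith
  obtain ⟨e, he, he4⟩ : ∃ e : ℝ, 0 < e ∧ m = δ + 4 * e := ⟨(m - δ) / 4, by linarith, by ring⟩
  obtain ⟨u, hu⟩ : ∃ u : ℝ, u = 1 - θ := ⟨_, rfl⟩
  rw [← hu] at h
  have hone := pcs s (δ + u) u hs (by linarith) (by linarith) (by linarith) (by linarith) h
  have hsmb := lnd s (δ + u) u hs (by linarith) (by linarith) (by linarith) (by linarith) hone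
  obtain ⟨x0, hcore⟩ := l1_core s (δ + u) hs (by linarith) hsmb e he
  obtain ⟨N0, hN0⟩ := h
  obtain ⟨X1, hX1⟩ := hgb e (1 / 12) he (by norm_num)
  -- a large `X`
  obtain ⟨X, hXa, hXb, hXc, hXd, hXe⟩ : ∃ X : ℕ, X1 ≤ X ∧ x0 ≤ (X : ℝ) ∧ 2 * N0 ≤ X ∧
      20 ≤ (X : ℝ) ∧ 15 ≤ (X : ℝ) ^ (2 * e) := by
    have h1 : ∀ᶠ x : ℝ in Filter.atTop, 15 ≤ x ^ (2 * e) :=
      (tendsto_rpow_atTop (by linarith)).eventually_ge_atTop 15
    have h2 : ∀ᶠ n : ℕ in Filter.atTop, (15 : ℝ) ≤ (n : ℝ) ^ (2 * e) :=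
      tendsto_natCast_atTop_atTop.eventually h1
    have h3 : ∀ᶠ n : ℕ in Filter.atTop, (x0 : ℝ) ≤ (n : ℝ) :=
      tendsto_natCast_atTop_atTop.eventually_ge_atTop _
    have h4 : ∀ᶠ n : ℕ in Filter.atTop, (20 : ℝ) ≤ (n : ℝ) :=
      tendsto_natCast_atTop_atTop.eventually_ge_atTop _
    obtain ⟨X, hX⟩ := (h2.and (h3.and (h4.and ((Filter.eventually_ge_atTop X1).and
      (Filter.eventually_ge_atTop (2 * N0)))))).exists
    exact ⟨X, hX.2.2.2.1, hX.2.1, hX.2.2.2.2, hX.2.2.1, hX.1⟩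
  have hX0 : (0 : ℝ) < X := by linarith
  have hX1' : (1 : ℝ) ≤ X := by linarith
  obtain ⟨A, hA⟩ : ∃ A : ℝ, A = (5 / 2 * (X : ℝ)) ^ θ := ⟨_, rfl⟩
  have hA1 : (X : ℝ) ^ θ ≤ A := by
    rw [hA]
    exact Real.rpow_le_rpow hX0.le (by linarith) hθ0.le
  have hA2 : A ≤ 5 / 2 * (X : ℝ) ^ θ := by
    rw [hA, Real.mul_rpow (by norm_num) hX0.le]
    refine mul_le_mul_of_nonneg_right ?_ (by positivity)
    calc (5 / 2 : ℝ) ^ θ ≤ (5 / 2 : ℝ) ^ (1 : ℝ) :=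
          Real.rpow_le_rpow_of_exponent_le (by norm_num) (by linarith)
      _ = 5 / 2 := Real.rpow_one _
  have hXθ : 0 < (X : ℝ) ^ θ := by positivity
  obtain ⟨H, hH1, hH2, hH3⟩ := hX1 X hXa A hA1 (by linarith)
  have hH4 : (H : ℝ) ≤ 3 * (X : ℝ) ^ θ := by linarith
  have hA3 : (1 + 1 / 12) * A ≤ 2 * (3 / 4 * (X : ℝ)) ^ θ := by
    have e1 : (5 / 2 * (X : ℝ)) = 10 / 3 * (3 / 4 * X) := by ring
    rw [hA, e1, Real.mul_rpow (by norm_num) (by positivity)]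
    have e2 : (10 / 3 : ℝ) ^ θ ≤ 183 / 100 := by
      calc (10 / 3 : ℝ) ^ θ ≤ (10 / 3 : ℝ) ^ (1 / 2 : ℝ) :=
            Real.rpow_le_rpow_of_exponent_le (by norm_num) hθ.le
        _ = Real.sqrt (10 / 3) := (Real.sqrt_eq_rpow _).symm
        _ ≤ 183 / 100 := by
            rw [Real.sqrt_le_left (by norm_num)]
            norm_num
    have e3 : 0 < (3 / 4 * (X : ℝ)) ^ θ := by positivity
    have e4 : (1 + 1 / 12) * ((10 / 3 : ℝ) ^ θ * (3 / 4 * (X : ℝ)) ^ θ) ≤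
        (1 + 1 / 12) * (183 / 100 * (3 / 4 * (X : ℝ)) ^ θ) :=
      mul_le_mul_of_nonneg_left (mul_le_mul_of_nonneg_right e2 e3.le) (by norm_num)
    linarith
  -- `2 H ≤ X`
  have hXhalf : (X : ℝ) ^ θ ≤ (X : ℝ) ^ (1 / 2 : ℝ) :=
    Real.rpow_le_rpow_of_exponent_le hX1' hθ.le
  have hHX : 2 * (H : ℝ) ≤ X := by
    rcases le_or_gt 36 (X : ℝ) with h36 | h36
    · have h1 : (X : ℝ) ^ (1 / 2 : ℝ) = Real.sqrt X := (Real.sqrt_eq_rpow _).symm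
      have h2 : 6 ≤ Real.sqrt X := by
        rw [show (6 : ℝ) = Real.sqrt 36 by rw [show (36 : ℝ) = 6 ^ 2 by norm_num]; exact (Real.sqrt_sq (by norm_num)).symm]
        exact Real.sqrt_le_sqrt h36
      have h3 : Real.sqrt X * Real.sqrt X = X := Real.mul_self_sqrt hX0.le
      rw [h1] at hXhalf
      nlinarith
    · exfalso
      -- `X < 36` is impossible: `15 ≤ X^(2e)`, `2 e < 1/6`
      have h1 : 2 * e ≤ 1 / 6 := by linarith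
      have h2 : (X : ℝ) ^ (2 * e) ≤ (X : ℝ) ^ (1 : ℝ) :=
        Real.rpow_le_rpow_of_exponent_le hX1' (by linarith)
      have h3 : (X : ℝ) ^ (2 * e) ≤ (36 : ℝ) ^ (1 / 6 : ℝ) := by
        calc (X : ℝ) ^ (2 * e) ≤ (X : ℝ) ^ (1 / 6 : ℝ) :=
              Real.rpow_le_rpow_of_exponent_le hX1' h1
          _ ≤ (36 : ℝ) ^ (1 / 6 : ℝ) := Real.rpow_le_rpow hX0.le h36.le (by norm_num)
      have h4 : (36 : ℝ) ^ (1 / 6 : ℝ) ≤ (36 : ℝ) ^ (1 / 2 : ℝ) :=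
        Real.rpow_le_rpow_of_exponent_le (by norm_num) (by norm_num)
      have h5 : (36 : ℝ) ^ (1 / 2 : ℝ) = 6 := by
        rw [← Real.sqrt_eq_rpow, show (36 : ℝ) = 6 ^ 2 by norm_num]
        exact Real.sqrt_sq (by norm_num)
      linarith
  obtain ⟨κ, hκ⟩ : ∃ κ : ℝ, κ = (5 / 2 * (X : ℝ)) ^ δ := ⟨_, rfl⟩
  have hκ0 : 0 ≤ κ := by rw [hκ]; positivity
  have hκ1 : κ ≤ 5 / 2 * (X : ℝ) ^ δ := by
    rw [hκ, Real.mul_rpow (by norm_num) hX0.le]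
    refine mul_le_mul_of_nonneg_right ?_ (by positivity)
    calc (5 / 2 : ℝ) ^ δ ≤ (5 / 2 : ℝ) ^ (1 : ℝ) :=
          Real.rpow_le_rpow_of_exponent_le (by norm_num) (by linarith)
      _ = 5 / 2 := Real.rpow_one _
  have hL := hcore X H hXb hHX κ hκ0 ?_
  · have h1 : (X : ℝ) ^ (δ + u + e) * H ≤ 3 * (X : ℝ) ^ (1 + δ + e) := by
      have e1 : (X : ℝ) ^ (1 + δ + e) = (X : ℝ) ^ (δ + u + e) * (X : ℝ) ^ θ := by
        rw [← Real.rpow_add hX0]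
        congr 1
        rw [hu]
        ring
      rw [e1]
      have := mul_le_mul_of_nonneg_left hH4 (by positivity : 0 ≤ (X : ℝ) ^ (δ + u + e))
      linarith
    have h2 : 4 * κ * X ≤ 10 * (X : ℝ) ^ (1 + δ + e) := by
      have e1 : (X : ℝ) ^ δ * X ≤ (X : ℝ) ^ (1 + δ + e) := by
        rw [← Real.rpow_add_one hX0.ne']
        exact Real.rpow_le_rpow_of_exponent_le hX1' (by linarith)
      have e2 : κ * X ≤ 5 / 2 * (X : ℝ) ^ δ * X := mul_le_mul_of_nonneg_right hκ1 hX0.le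
      linarith
    have h3 : (X : ℝ) ^ (1 + m - e) = (X : ℝ) ^ (2 * e) * (X : ℝ) ^ (1 + δ + e) := by
      rw [← Real.rpow_add hX0]
      congr 1
      rw [he4]
      ring
    rw [h3] at hH3
    have h4 : 15 * (X : ℝ) ^ (1 + δ + e) ≤ (X : ℝ) ^ (2 * e) * (X : ℝ) ^ (1 + δ + e) :=
      mul_le_mul_of_nonneg_right hXe (by positivity)
    have h5 : 0 < (X : ℝ) ^ (1 + δ + e) := by positivity
    linarith
  · intro n hn1 hn2
    have hn1' : 3 * (X : ℝ) ≤ 4 * n := by exact_mod_cast hn1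
    have hn2' : 2 * (n : ℝ) ≤ 5 * X := by exact_mod_cast hn2
    have hn0 : (0 : ℝ) < n := by linarith
    have h1 := hN0 n H (by omega) ?_ ?_
    · refine le_trans (neg_le_neg ?_) h1
      rw [hκ, show δ + u - u = δ by ring]
      exact Real.rpow_le_rpow hn0.le (by linarith) hδ0
    · rw [show 1 - u = θ by rw [hu]; ring]
      refine le_trans ?_ hH1
      rw [hA]
      exact Real.rpow_le_rpow hn0.le (by linarith) hθ0.le
    · rw [show 1 - u = θ by rw [hu]; ring]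
      refine hH2.trans (hA3.trans ?_)
      refine mul_le_mul_of_nonneg_left ?_ (by norm_num)
      exact Real.rpow_le_rpow (by positivity) (by linarith) hθ0.le

end Pool.Agent.H67.TS
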