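import Pool.Agent.H67.TS.Defs

/-!
# [H67 TS KER] the smooth error term is an average of error terms

PROOF. `g = deriv Real.smoothTransition ≥ 0`, `∫_0^1 g = 1`. For every real `v`:
`Kk x l v = ∫_0^1 g(t) 1[x + l t < v ≤ x + l t + 4 l] dt` (fundamental theorem). So
`Dm x l m = ∫_0^1 g(t) Ps ((x + l t)/m) (4 l/m) dt`: `c < n m ≤ c + 4l` iff `⌊c/m⌋ < n ≤ ⌊(c+4l)/m⌋`, and `n ≤ x + 5l`.
-/

set_option autoImplicit false

namespace Pool.Agent.H67.TS

open Finset Pool.Agent.H48.WN

private noncomputable def gg (t : ℝ) : ℝ := deriv Real.smoothTransition t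

private theorem gg_nonneg (t : ℝ) : 0 ≤ gg t := Real.smoothTransition.monotone.deriv_nonneg

private theorem gg_cont : Continuous gg :=
  (Real.smoothTransition.contDiff (n := 1)).continuous_deriv le_rfl

private theorem gg_supp (t : ℝ) (ht : t ∉ Set.Icc (0 : ℝ) 1) : gg t = 0 := by
  rw [Set.mem_Icc, not_and_or, not_le, not_le] at ht
  unfold gg
  rcases ht with h | h
  · have h1 : Real.smoothTransition =ᶠ[nhds t] fun _ => (0 : ℝ) := by
      filter_upwards [Iio_mem_nhds h] with y hy
      exact Real.smoothTransition.zero_of_nonpos (le_of_lt hy)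
    rw [h1.deriv_eq, deriv_const]
  · have h1 : Real.smoothTransition =ᶠ[nhds t] fun _ => (1 : ℝ) := by
      filter_upwards [Ioi_mem_nhds h] with y hy
      exact Real.smoothTransition.one_of_one_le (le_of_lt hy)
    rw [h1.deriv_eq, deriv_const]

private theorem gg_int : MeasureTheory.Integrable gg :=
  gg_cont.integrable_of_hasCompactSupport (HasCompactSupport.intro isCompact_Icc gg_supp)

private theorem gg_ftc (a b : ℝ) : ∫ t in a..b, gg t = Real.smoothTransition b - Real.smoothTransition a :=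
  intervalIntegral.integral_deriv_eq_sub
    (fun t _ => ((Real.smoothTransition.contDiff (n := 1)).differentiable (by norm_num)) t)
    (gg_cont.intervalIntegrable a b)

private theorem gg_one : ∫ t, gg t = 1 := by
  have h1 : Function.support gg ⊆ Set.Ioc (-1) 1 := by
    intro t ht
    have h2 : t ∈ Set.Icc (0 : ℝ) 1 := by
      by_contra h3
      exact ht (gg_supp t h3)
    exact ⟨by linarith [h2.1], h2.2⟩
  rw [← intervalIntegral.integral_eq_integral_of_support_subset h1, gg_ftc, Real.smoothTransition.one,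
    Real.smoothTransition.zero_of_nonpos (by norm_num)]
  norm_num

/-- the indicator of `y - 4 ≤ t < y` -/
private noncomputable def ii (y t : ℝ) : ℝ := (Set.Ico (y - 4) y).indicator (fun _ => (1 : ℝ)) t

private theorem gi_eq (y : ℝ) : (fun t => gg t * ii y t) = (Set.Ico (y - 4) y).indicator gg := by
  ext t
  unfold ii
  by_cases h : t ∈ Set.Ico (y - 4) y
  · rw [Set.indicator_of_mem h, Set.indicator_of_mem h, mul_one]
  · rw [Set.indicator_of_notMem h, Set.indicator_of_notMem h, mul_zero]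

private theorem gi_int (y : ℝ) : MeasureTheory.Integrable (fun t => gg t * ii y t) := by
  rw [gi_eq]
  exact gg_int.indicator measurableSet_Ico

private theorem gi_val (y : ℝ) : ∫ t, gg t * ii y t = Real.smoothTransition y - Real.smoothTransition (y - 4) := by
  have h1 : ∫ t, gg t * ii y t = ∫ t, (Set.Ico (y - 4) y).indicator gg t := by rw [← gi_eq]
  rw [h1, MeasureTheory.integral_indicator measurableSet_Ico, MeasureTheory.integral_Ico_eq_integral_Ioo,
    ← MeasureTheory.integral_Ioc_eq_integral_Ioo, ← intervalIntegral.integral_of_le (by linarith), gg_ftc]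

/-- the error term at `c = x + l t` -/
private noncomputable def FF (x l : ℝ) (m : ℕ) (t : ℝ) : ℝ :=
  (∑ n ∈ Icc 1 ⌊x + 5 * l⌋₊, ArithmeticFunction.vonMangoldt n * ii (((n : ℝ) * m - x) / l) t) - 4 * l / m

private theorem ff_eq {x l : ℝ} {m : ℕ} (hx : 0 < x) (hl : 0 < l) (hm : 1 ≤ m) {t : ℝ}
    (ht : t ∈ Set.Icc (0 : ℝ) 1) : FF x l m t = Ps ((x + l * t) / m) (4 * l / m) := by
  have hm0 : (0 : ℝ) < m := by exact_mod_cast hm
  have hm1 : (1 : ℝ) ≤ m := by exact_mod_cast hm
  have hlt : 0 ≤ l * t := mul_nonneg hl.le ht.1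
  have hlt1 : l * t ≤ l := by
    have := mul_le_mul_of_nonneg_left ht.2 hl.le
    linarith
  unfold FF Ps
  congr 1
  have h1 : ∀ n : ℕ, ArithmeticFunction.vonMangoldt n * ii (((n : ℝ) * m - x) / l) t =
      if n ∈ Ioc ⌊(x + l * t) / m⌋₊ ⌊(x + l * t) / m + 4 * l / m⌋₊ then ArithmeticFunction.vonMangoldt n else 0 := by
    intro n
    have h2 : n ∈ Ioc ⌊(x + l * t) / m⌋₊ ⌊(x + l * t) / m + 4 * l / m⌋₊ ↔
        t ∈ Set.Ico (((n : ℝ) * m - x) / l - 4) (((n : ℝ) * m - x) / l) := by
      rw [mem_Ioc, Nat.floor_lt (by positivity), Nat.le_floor_iff (by positivity), Set.mem_Ico,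
        div_lt_iff₀ hm0, lt_div_iff₀ hl, ← add_div, le_div_iff₀ hm0, sub_le_iff_le_add, div_le_iff₀ hl]
      constructor
      · rintro ⟨h3, h4⟩
        constructor <;> nlinarith
      · rintro ⟨h3, h4⟩
        constructor <;> nlinarith
    unfold ii
    by_cases h : t ∈ Set.Ico (((n : ℝ) * m - x) / l - 4) (((n : ℝ) * m - x) / l)
    · rw [Set.indicator_of_mem h, if_pos (h2.2 h), mul_one]
    · rw [Set.indicator_of_notMem h, if_neg (fun h3 => h (h2.1 h3)), mul_zero]
  rw [sum_congr rfl fun n _ => h1 n, ← sum_filter]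
  congr 1
  ext n
  rw [mem_filter, mem_Icc, mem_Ioc]
  constructor
  · exact fun h2 => h2.2
  · intro h2
    refine ⟨⟨by omega, ?_⟩, h2⟩
    have h3 : (n : ℝ) ≤ (x + l * t) / m + 4 * l / m := (Nat.le_floor_iff (by positivity)).1 h2.2
    rw [Nat.le_floor_iff (by positivity)]
    rw [← add_div] at h3
    refine h3.trans ((div_le_self (by positivity) hm1).trans (by linarith))

theorem ker (s x l A : ℝ) (m : ℕ) (hx : 0 < x) (hl : 0 < l) (hm : 1 ≤ m)
    (h : ∀ c : ℝ, x ≤ c → c ≤ x + l → A ≤ s * Ps (c / m) (4 * l / m)) : A ≤ s * Dm x l m := by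
  -- integrability of the pieces
  have hterm : ∀ n ∈ Icc 1 ⌊x + 5 * l⌋₊, MeasureTheory.Integrable (fun t =>
      ArithmeticFunction.vonMangoldt n * (gg t * ii (((n : ℝ) * m - x) / l) t)) :=
    fun n _ => (gi_int _).const_mul _
  have hsum : MeasureTheory.Integrable (fun t => ∑ n ∈ Icc 1 ⌊x + 5 * l⌋₊,
      ArithmeticFunction.vonMangoldt n * (gg t * ii (((n : ℝ) * m - x) / l) t)) :=
    MeasureTheory.integrable_finsetSum _ hterm
  have hFF : ∀ t, gg t * (s * FF x l m t - A) = s * (∑ n ∈ Icc 1 ⌊x + 5 * l⌋₊,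
      ArithmeticFunction.vonMangoldt n * (gg t * ii (((n : ℝ) * m - x) / l) t)) - (s * (4 * l / m) + A) * gg t := by
    intro t
    unfold FF
    have h1 : ∑ n ∈ Icc 1 ⌊x + 5 * l⌋₊,
        ArithmeticFunction.vonMangoldt n * (gg t * ii (((n : ℝ) * m - x) / l) t) =
        gg t * ∑ n ∈ Icc 1 ⌊x + 5 * l⌋₊, ArithmeticFunction.vonMangoldt n * ii (((n : ℝ) * m - x) / l) t := by
      rw [mul_sum]
      exact sum_congr rfl fun n _ => by ring
    rw [h1]
    ring
  have hval : ∫ t, gg t * (s * FF x l m t - A) = s * Dm x l m - A := by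
    have h1 : ∫ t, gg t * (s * FF x l m t - A) = ∫ t, (s * (∑ n ∈ Icc 1 ⌊x + 5 * l⌋₊,
      ArithmeticFunction.vonMangoldt n * (gg t * ii (((n : ℝ) * m - x) / l) t)) -
      (s * (4 * l / m) + A) * gg t) := by
      congr 1
      ext t
      exact hFF t
    rw [h1, MeasureTheory.integral_sub (hsum.const_mul s) (gg_int.const_mul _),
      MeasureTheory.integral_const_mul, MeasureTheory.integral_const_mul, gg_one,
      MeasureTheory.integral_finsetSum _ hterm]
    unfold Dm Kk
    have h2 : ∑ n ∈ Icc 1 ⌊x + 5 * l⌋₊, ∫ t, ArithmeticFunction.vonMangoldt n *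
        (gg t * ii (((n : ℝ) * m - x) / l) t) = ∑ n ∈ Icc 1 ⌊x + 5 * l⌋₊, ArithmeticFunction.vonMangoldt n *
        (Real.smoothTransition (((n : ℝ) * m - x) / l) - Real.smoothTransition (((n : ℝ) * m - x) / l - 4)) := by
      refine sum_congr rfl fun n _ => ?_
      rw [MeasureTheory.integral_const_mul, gi_val]
    rw [h2]
    ring
  have hpos : 0 ≤ ∫ t, gg t * (s * FF x l m t - A) := by
    refine MeasureTheory.integral_nonneg fun t => ?_
    by_cases ht : t ∈ Set.Icc (0 : ℝ) 1
    · have hlt : 0 ≤ l * t := mul_nonneg hl.le ht.1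
      have hlt1 : l * t ≤ l := by
        have := mul_le_mul_of_nonneg_left ht.2 hl.le
        linarith
      have h1 := h (x + l * t) (by linarith) (by linarith)
      simp only
      rw [ff_eq hx hl hm ht]
      exact mul_nonneg (gg_nonneg t) (by linarith)
    · simp only
      rw [gg_supp t ht, zero_mul]
      exact le_rfl
  linarith

end Pool.Agent.H67.TS
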