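import Pool.Agent.H67.TS.Defs
import Pool.Agent.H48.WN.Poi

/-!
# [H67 TS POI] the sum over `m`

PROOF. `f(t) = (1 - ww (t/M)) Kk x l (n t)` is smooth, supported in `(x/n, (x+5l)/n)`, `|f^(k)| ≤ C_k (n/l + 1/M)^k ≤ C_k' x^(-kε)`
because `n/l ≤ 2x/(lM) ≤ 2 x^(-ε)` and `M ≥ 10 x^ε`. The sum over all integers minus the integral is at most
`C_k ∫ |f^(k)| ≤ C x · x^(-kε)` (Poisson, `H48/WN/Poi`, or Euler-Maclaurin without boundary terms, or `k` times
`|Σ f - ∫ f| ≤ ...`), `k ≥ 4/ε`. Substitute `v = n t` in the integral.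
-/

set_option autoImplicit false

namespace Pool.Agent.H67.TS

open Finset Pool.Agent.H48.WN

private noncomputable def S0 (t : ℝ) : ℂ := ((Real.smoothTransition t : ℝ) : ℂ)

private theorem s0_contDiff : ContDiff ℝ (⊤ : ℕ∞) S0 :=
  Complex.ofRealCLM.contDiff.comp Real.smoothTransition.contDiff

private theorem s0_deriv_supp : HasCompactSupport (deriv S0) := by
  refine HasCompactSupport.intro (isCompact_Icc (a := (0 : ℝ)) (b := 1)) fun t ht => ?_
  rw [Set.mem_Icc, not_and_or, not_le, not_le] at ht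
  rcases ht with h | h
  · have h1 : S0 =ᶠ[nhds t] fun _ => (0 : ℂ) := by
      filter_upwards [Iio_mem_nhds h] with y hy
      unfold S0
      rw [Real.smoothTransition.zero_of_nonpos (le_of_lt hy)]
      simp
    rw [h1.deriv_eq, deriv_const]
  · have h1 : S0 =ᶠ[nhds t] fun _ => (1 : ℂ) := by
      filter_upwards [Ioi_mem_nhds h] with y hy
      unfold S0
      rw [Real.smoothTransition.one_of_one_le (le_of_lt hy)]
      simp
    rw [h1.deriv_eq, deriv_const]

private theorem supp_iter {g : ℝ → ℂ} (hc : HasCompactSupport g) (n : ℕ) :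
    HasCompactSupport (iteratedDeriv n g) := by
  have h2 : HasCompactSupport (iteratedFDeriv ℝ n g) := hc.iteratedFDeriv n
  exact h2.comp_left (g := fun F : ContinuousMultilinearMap ℝ (fun _ : Fin n => ℝ) ℂ =>
    F fun _ => (1 : ℝ)) rfl

private theorem s0_bd_one (j : ℕ) : ∃ C : ℝ, ∀ t, ‖iteratedDeriv j S0 t‖ ≤ C := by
  rcases j with _ | i
  · refine ⟨1, fun t => ?_⟩
    rw [iteratedDeriv_zero]
    unfold S0
    rw [Complex.norm_real, Real.norm_eq_abs, abs_of_nonneg (Real.smoothTransition.nonneg t)]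
    exact Real.smoothTransition.le_one t
  · have h1 : HasCompactSupport (iteratedDeriv (i + 1) S0) := by
      rw [iteratedDeriv_succ']
      exact supp_iter s0_deriv_supp i
    have h2 : Continuous (iteratedDeriv (i + 1) S0) :=
      s0_contDiff.continuous_iteratedDeriv (i + 1) (by exact_mod_cast le_top)
    exact h2.bounded_above_of_compact_support h1

private theorem s0_bd (A : ℕ) : ∃ C : ℝ, 1 ≤ C ∧ ∀ j ≤ A, ∀ t, ‖iteratedDeriv j S0 t‖ ≤ C := by
  choose c hc using s0_bd_one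
  refine ⟨1 + ∑ j ∈ range (A + 1), |c j|, ?_, fun j hj t => ?_⟩
  · have : 0 ≤ ∑ j ∈ range (A + 1), |c j| := sum_nonneg fun _ _ => abs_nonneg _
    linarith
  · have h1 : |c j| ≤ ∑ j ∈ range (A + 1), |c j| :=
      single_le_sum (f := fun j => |c j|) (fun _ _ => abs_nonneg _) (mem_range.2 (by omega))
    have h2 := hc j t
    have h3 := le_abs_self (c j)
    linarith

private theorem aff_iter (a b : ℝ) (j : ℕ) (t : ℝ) :
    iteratedDeriv j (fun t => S0 (a * t + b)) t = a ^ j • iteratedDeriv j S0 (a * t + b) := by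
  have h1 : ContDiff ℝ j (fun t => S0 (t + b)) := by
    have := s0_contDiff.comp (contDiff_id.add (contDiff_const (c := b)) : ContDiff ℝ (⊤ : ℕ∞) fun t : ℝ => t + b)
    exact this.of_le (by exact_mod_cast le_top)
  have h2 := iteratedDeriv_comp_const_smul h1 a
  have h3 := congrFun h2 t
  rw [h3, iteratedDeriv_comp_add_const]

private theorem aff_contDiff (a b : ℝ) : ContDiff ℝ (⊤ : ℕ∞) (fun t => S0 (a * t + b)) :=
  s0_contDiff.comp ((contDiff_const.mul contDiff_id).add contDiff_const)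

private theorem aff_bd {A : ℕ} {C : ℝ} (hC : ∀ j ≤ A, ∀ t, ‖iteratedDeriv j S0 t‖ ≤ C) (hC1 : 1 ≤ C)
    {a b B : ℝ} (ha : 0 ≤ a) (haB : a ≤ B) (j : ℕ) (hj : j ≤ A) (t : ℝ) :
    ‖iteratedDeriv j (fun t => S0 (a * t + b)) t‖ ≤ C * B ^ j := by
  rw [aff_iter, norm_smul, norm_pow, Real.norm_eq_abs, abs_of_nonneg ha, mul_comm]
  exact mul_le_mul (hC j hj _) (pow_le_pow_left₀ ha haB j) (pow_nonneg ha j) (by linarith)

private theorem prod_bd {A : ℕ} {C : ℝ} (hC : ∀ j ≤ A, ∀ t, ‖iteratedDeriv j S0 t‖ ≤ C) (hC1 : 1 ≤ C)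
    {a b c d e B : ℝ} (ha : 0 ≤ a) (haB : a ≤ B) (hc : 0 ≤ c) (hcB : c ≤ B) (t : ℝ) :
    ‖iteratedDeriv A (fun t => S0 (a * t + b) * (S0 (c * t + d) - S0 (c * t + e))) t‖ ≤
      2 * C ^ 2 * (2 * B) ^ A := by
  have hB : 0 ≤ B := ha.trans haB
  have h1 : ContDiff ℝ A (fun t => S0 (a * t + b)) := (aff_contDiff a b).of_le (by exact_mod_cast le_top)
  have h2 : ContDiff ℝ (⊤ : ℕ∞) (fun t => S0 (c * t + d) - S0 (c * t + e)) :=
    (aff_contDiff c d).sub (aff_contDiff c e)
  have h3 : ContDiff ℝ A (fun t => S0 (c * t + d) - S0 (c * t + e)) := h2.of_le (by exact_mod_cast le_top)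
  have h4 : iteratedDeriv A (fun t => S0 (a * t + b) * (S0 (c * t + d) - S0 (c * t + e))) t =
      ∑ i ∈ range (A + 1), (A.choose i : ℂ) * iteratedDeriv i (fun t => S0 (a * t + b)) t *
        iteratedDeriv (A - i) (fun t => S0 (c * t + d) - S0 (c * t + e)) t :=
    iteratedDeriv_mul (f := fun t => S0 (a * t + b)) (g := fun t => S0 (c * t + d) - S0 (c * t + e))
      h1.contDiffAt h3.contDiffAt
  rw [h4]
  refine (norm_sum_le _ _).trans ?_
  have h5 : ∀ i ∈ range (A + 1), ‖(A.choose i : ℂ) * iteratedDeriv i (fun t => S0 (a * t + b)) t *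
        iteratedDeriv (A - i) (fun t => S0 (c * t + d) - S0 (c * t + e)) t‖ ≤
      (A.choose i : ℝ) * (2 * C ^ 2 * B ^ A) := by
    intro i hi
    have hi' : i ≤ A := by have := mem_range.1 hi; omega
    rw [norm_mul, norm_mul, Complex.norm_natCast]
    have h6 := aff_bd hC hC1 (b := b) ha haB i hi' t
    have h70 : ∀ k : ℕ, iteratedDeriv k (fun t => S0 (c * t + d) - S0 (c * t + e)) t =
        iteratedDeriv k (fun t => S0 (c * t + d)) t - iteratedDeriv k (fun t => S0 (c * t + e)) t := by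
      intro k
      exact iteratedDeriv_sub (f := fun t => S0 (c * t + d)) (g := fun t => S0 (c * t + e))
        ((aff_contDiff c d).of_le (by exact_mod_cast le_top)).contDiffAt
        ((aff_contDiff c e).of_le (by exact_mod_cast le_top)).contDiffAt
    have h7 := h70 (A - i)
    have h8 := aff_bd hC hC1 (b := d) hc hcB (A - i) (by omega) t
    have h9 := aff_bd hC hC1 (b := e) hc hcB (A - i) (by omega) t
    have h10 : ‖iteratedDeriv (A - i) (fun t => S0 (c * t + d) - S0 (c * t + e)) t‖ ≤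
        2 * (C * B ^ (A - i)) := by
      rw [h7]
      exact (norm_sub_le _ _).trans (by linarith)
    have h11 : B ^ A = B ^ i * B ^ (A - i) := by rw [← pow_add]; congr 1; omega
    rw [mul_assoc]
    refine mul_le_mul_of_nonneg_left ?_ (Nat.cast_nonneg _)
    calc _ ≤ (C * B ^ i) * (2 * (C * B ^ (A - i))) :=
          mul_le_mul h6 h10 (norm_nonneg _) (by positivity)
      _ = 2 * C ^ 2 * B ^ A := by rw [h11]; ring
  refine (sum_le_sum h5).trans (le_of_eq ?_)
  rw [← sum_mul]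
  have h6 : ∑ i ∈ range (A + 1), (A.choose i : ℝ) = 2 ^ A := by
    exact_mod_cast Nat.sum_range_choose A
  rw [h6, mul_pow]
  ring

private theorem int_bd {g : ℝ → ℂ} {A : ℕ} {a b C : ℝ} (hab : a ≤ b) (hC : ∀ t, ‖iteratedDeriv A g t‖ ≤ C)
    (hs : ∀ t, t ∉ Set.Icc a b → g t = 0) : ∫ t, ‖iteratedDeriv A g t‖ ≤ C * (b - a) := by
  have h1 : ∀ t, t ∉ Set.Icc a b → ‖iteratedDeriv A g t‖ = 0 := by
    intro t ht
    have h2 : g =ᶠ[nhds t] fun _ => (0 : ℂ) := by
      filter_upwards [isClosed_Icc.isOpen_compl.mem_nhds (show t ∈ (Set.Icc a b)ᶜ from ht)] with y hy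
      exact hs y hy
    rw [h2.iteratedDeriv_eq A]
    simp
  rw [← MeasureTheory.setIntegral_eq_integral_of_forall_compl_eq_zero h1]
  have h3 := MeasureTheory.norm_setIntegral_le_of_norm_le_const (μ := MeasureTheory.volume)
    (s := Set.Icc a b) (f := fun t => ‖iteratedDeriv A g t‖) (C := C) (by simp) (fun t _ => by
      rw [norm_norm]; exact hC t)
  refine (le_abs_self _).trans ?_
  rw [← Real.norm_eq_abs]
  refine h3.trans (le_of_eq ?_)
  rw [MeasureTheory.Measure.real, Real.volume_Icc, ENNReal.toReal_ofReal (by linarith)]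

theorem poi (ε : ℝ) (hε : 0 < ε) : ∃ x0 : ℝ, 2 ≤ x0 ∧ ∀ x l M : ℝ, x0 ≤ x → x ^ ε ≤ l → 10 * l ≤ x →
    x ^ (1 + ε) ≤ l * M → ∀ n : ℕ, 1 ≤ n → (n : ℝ) * M ≤ 2 * x →
    |(∑ m ∈ Icc 1 ⌊x + 5 * l⌋₊, (1 - ww ((m : ℝ) / M)) * Kk x l ((n : ℝ) * m)) -
      1 / n * ∫ v in x..(x + 5 * l), (1 - ww (v / (n * M))) * Kk x l v| ≤ 1 / x ^ 2 := by
  obtain ⟨A, hA2, hA⟩ : ∃ A : ℕ, 2 ≤ A ∧ 4 / ε ≤ A :=
    ⟨max 2 ⌈4 / ε⌉₊, le_max_left _ _, (Nat.le_ceil _).trans (by exact_mod_cast le_max_right _ _)⟩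
  have hA4 : 4 ≤ ε * A := by
    rw [div_le_iff₀ hε] at hA
    linarith
  obtain ⟨C, hC1, hC⟩ := s0_bd A
  refine ⟨max 2 (C ^ 2 * 4 ^ A), le_max_left _ _, fun x l M hx hl hlx hlM n hn hnM => ?_⟩
  have hx2 : 2 ≤ x := (le_max_left _ _).trans hx
  have hxC : C ^ 2 * 4 ^ A ≤ x := (le_max_right _ _).trans hx
  have hx0 : 0 < x := by linarith
  have hxe : 0 < x ^ ε := Real.rpow_pos_of_pos hx0 _
  have hl0 : 0 < l := hxe.trans_le hl
  have hn0 : (0 : ℝ) < n := by exact_mod_cast hn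
  have hn1 : (1 : ℝ) ≤ n := by exact_mod_cast hn
  have hx1e : x ^ (1 + ε) = x * x ^ ε := by rw [Real.rpow_add hx0, Real.rpow_one]
  rw [hx1e] at hlM
  have hM0 : 0 < M := by
    have h1 : 0 < l * M := lt_of_lt_of_le (by positivity) hlM
    exact (mul_pos_iff_of_pos_left hl0).1 h1
  have hM : 10 * x ^ ε ≤ M := by
    have h1 : x * x ^ ε ≤ (x / 10) * M := hlM.trans (mul_le_mul_of_nonneg_right (by linarith) hM0.le)
    have h2 : x * (10 * x ^ ε) ≤ x * M := by linarith
    exact le_of_mul_le_mul_left h2 hx0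
  -- the bound for the slopes
  set B : ℝ := 2 * x ^ (-ε) with hB
  have hxne : x ^ (-ε) * x ^ ε = 1 := by
    rw [← Real.rpow_add hx0]
    simp
  have hB0 : 0 ≤ B := by positivity
  have h1M : 1 / M ≤ B := by
    rw [div_le_iff₀ hM0, hB]
    have h1 : x ^ (-ε) * (10 * x ^ ε) ≤ x ^ (-ε) * M := mul_le_mul_of_nonneg_left hM (by positivity)
    nlinarith [h1, hxne]
  have hnl : (n : ℝ) / l ≤ B := by
    rw [div_le_iff₀ hl0, hB]
    -- n ≤ 2 x^(-ε) l, because n M ≤ 2 x ≤ 2 x^(-ε) l M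
    have h1 : (n : ℝ) * M ≤ (2 * x ^ (-ε) * l) * M := by
      have h2 : x ^ (-ε) * (x * x ^ ε) ≤ x ^ (-ε) * (l * M) := mul_le_mul_of_nonneg_left hlM (by positivity)
      have h3 : x ^ (-ε) * (x * x ^ ε) = x := by
        rw [mul_comm x, ← mul_assoc, hxne, one_mul]
      rw [h3] at h2
      nlinarith [h2, hnM]
    exact le_of_mul_le_mul_right h1 hM0
  -- the functions
  set h : ℝ → ℝ := fun v => (1 - ww (v / (n * M))) * Kk x l v with hh
  set g : ℝ → ℂ := fun t => S0 (1 / M * t + -1) *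
    (S0 ((n : ℝ) / l * t + -(x / l)) - S0 ((n : ℝ) / l * t + -(x / l + 4))) with hg
  have hgh : ∀ t, g t = ((h (n * t) : ℝ) : ℂ) := by
    intro t
    simp only [hg, hh, S0, ww, Kk]
    have e1 : (n : ℝ) * t / (n * M) - 1 = 1 / M * t + -1 := by
      field_simp
      ring
    have e2 : ((n : ℝ) * t - x) / l = (n : ℝ) / l * t + -(x / l) := by ring
    have e3 : ((n : ℝ) * t - x) / l - 4 = (n : ℝ) / l * t + -(x / l + 4) := by ring
    rw [e1, e3, e2]
    push_cast
    ring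
  have hgc : ContDiff ℝ (⊤ : ℕ∞) g := (aff_contDiff _ _).mul ((aff_contDiff _ _).sub (aff_contDiff _ _))
  have hsup : ∀ t, t ∉ Set.Icc (x / n) ((x + 5 * l) / n) → g t = 0 := by
    intro t ht
    rw [hgh, hh]
    simp only
    rw [Set.mem_Icc, not_and_or, not_le, not_le] at ht
    rcases ht with h1 | h1
    · rw [lt_div_iff₀ hn0] at h1
      rw [kk_left hl0 (by linarith)]
      simp
    · rw [div_lt_iff₀ hn0] at h1
      rw [kk_right hl0 (by linarith)]
      simp
  have hsc : HasCompactSupport g := HasCompactSupport.intro isCompact_Icc hsup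
  have hP := Pool.Agent.H48.WN.poi g hgc hsc A hA2
  have hI := int_bd (g := g) (A := A) (a := x / n) (b := (x + 5 * l) / n)
    (by gcongr; linarith) (fun t => prod_bd hC hC1 (by positivity) h1M (by positivity) hnl t) hsup
  -- the sum
  have hsum : (∑' m : ℤ, g m) =
      ((∑ m ∈ Icc 1 ⌊x + 5 * l⌋₊, (1 - ww ((m : ℝ) / M)) * Kk x l ((n : ℝ) * m) : ℝ) : ℂ) := by
    have h1 : (∑' m : ℤ, g m) = ∑ m ∈ (Icc 1 ⌊x + 5 * l⌋₊).map Nat.castEmbedding, g ((m : ℤ) : ℝ) := by
      refine tsum_eq_sum fun m hm => ?_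
      rw [hgh, hh]
      simp only
      rcases le_or_gt m 0 with h0 | h0
      · have h2 : (n : ℝ) * ((m : ℤ) : ℝ) ≤ 0 :=
          mul_nonpos_of_nonneg_of_nonpos hn0.le (by exact_mod_cast h0)
        rw [kk_left hl0 (by linarith)]
        simp
      · obtain ⟨k, rfl⟩ := Int.eq_ofNat_of_zero_le h0.le
        have h3 : ¬ (k ≤ ⌊x + 5 * l⌋₊) := by
          intro h4
          apply hm
          rw [mem_map]
          exact ⟨k, mem_Icc.2 ⟨by exact_mod_cast h0, h4⟩, rfl⟩
        have h4 : x + 5 * l < k := by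
          rw [not_le] at h3
          exact (Nat.floor_lt (by positivity)).1 h3
        have h5 : (k : ℝ) ≤ (n : ℝ) * k := le_mul_of_one_le_left (by positivity) hn1
        have h6 : (((k : ℕ) : ℤ) : ℝ) = (k : ℝ) := by norm_cast
        rw [h6, kk_right hl0 (by linarith)]
        simp
    rw [h1, sum_map, Complex.ofReal_sum]
    refine sum_congr rfl fun m _ => ?_
    have h6 : ((Nat.castEmbedding m : ℤ) : ℝ) = (m : ℝ) := by
      simp
    rw [h6, hgh, hh]
    simp only
    congr 3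
    rw [mul_div_mul_left _ _ hn0.ne']
  have hint : ∫ t, g t = ((1 / n * ∫ v in x..(x + 5 * l), h v : ℝ) : ℂ) := by
    have h1 : ∫ t, g t = ∫ t, ((h (n * t) : ℝ) : ℂ) := by
      congr 1
      ext t
      exact hgh t
    have hsub : Function.support h ⊆ Set.Ioc x (x + 5 * l) := by
      intro v hv
      rw [Function.mem_support] at hv
      constructor
      · by_contra h2
        exact hv (by simp only [hh]; rw [kk_left hl0 (not_lt.1 h2)]; ring)
      · by_contra h2
        exact hv (by simp only [hh]; rw [kk_right hl0 (not_le.1 h2).le]; ring)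
    rw [h1, integral_complex_ofReal, MeasureTheory.Measure.integral_comp_mul_left h (n : ℝ),
      intervalIntegral.integral_eq_integral_of_support_subset hsub, abs_of_pos (inv_pos.2 hn0), smul_eq_mul,
      one_div]
  rw [hsum, hint, ← Complex.ofReal_sub, Complex.norm_real, Real.norm_eq_abs] at hP
  refine (hP.trans hI).trans ?_
  -- numbers
  have h1 : (x + 5 * l) / n - x / n ≤ x / 2 := by
    rw [← sub_div, div_le_iff₀ hn0]
    nlinarith
  have h2 : (2 * B) ^ A ≤ 4 ^ A * (1 / x ^ 4) := by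
    rw [hB, ← mul_assoc, mul_pow]
    norm_num
    have h3 : (x ^ (-ε)) ^ A = x ^ (-(ε * A)) := by
      rw [← Real.rpow_natCast, ← Real.rpow_mul hx0.le]
      congr 1
      ring
    rw [h3]
    have h4 : x ^ (-(ε * A)) ≤ x ^ (-4 : ℝ) := Real.rpow_le_rpow_of_exponent_le (by linarith) (by linarith)
    have h5 : x ^ (-4 : ℝ) = (x ^ 4)⁻¹ := by
      rw [Real.rpow_neg hx0.le]
      norm_cast
    rwa [h5] at h4
  have h3 : 2 * C ^ 2 * (2 * B) ^ A * ((x + 5 * l) / n - x / n) ≤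
      2 * C ^ 2 * (4 ^ A * (1 / x ^ 4)) * (x / 2) := by
    have h4 : 0 ≤ (x + 5 * l) / n - x / n := by
      rw [← sub_div]
      exact div_nonneg (by linarith) hn0.le
    gcongr
  refine h3.trans ?_
  rw [le_div_iff₀ (by positivity)]
  have h5 : 2 * C ^ 2 * (4 ^ A * (1 / x ^ 4)) * (x / 2) * x ^ 2 = C ^ 2 * 4 ^ A / x := by
    field_simp
  rw [h5, div_le_one hx0]
  exact hxC

end Pool.Agent.H67.TS
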