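import Pool.Agent.H67.TS.Defs
import Pool.Agent.H48.WN.Coc

/-!
# [H67 TS PSP] from `π` to `ψ` in one interval

PROOF. `Σ_(y<p≤y+h) log p = log y · #{p} + Σ_p ∫_y^p dt/t`, `∫ over (y,y+h]` of `1` likewise, so
`Th y h = log y · Pi y h + ∫_y^(y+h) Pi t (y+h-t) dt/t` (`Th` of `H48/WN/Defs`), `|∫| ≤ (h/y) B`. Prime powers `p^k`, `k ≥ 2`, in
`(y, y+h]`, weight `log p ≤ log (2y)/2`: `k = 2`: at most `1 + h/(2 √y)` squares (`+1` for rounding); `k ≥ 3`: in the same way at
most `1 + h y^(1/k-1)` for each `k ≤ log (2y)/log 2`, with weight `log p ≤ log(2y)/k`: `Σ_(k ≤ K) log (2y)/k`. If this costs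
another log: write `C (log y)^2 (1 + h/√y)` instead of the stated bound and tell helper67.
-/

set_option autoImplicit false

namespace Pool.Agent.H67.TS

open MeasureTheory Finset Pool.Agent.H48.WN

private theorem ppw_D (x h : ℝ) : Ps x h - Th x h =
    ∑ n ∈ (Ioc ⌊x⌋₊ ⌊x + h⌋₊).filter (fun n => ¬ n.Prime), ArithmeticFunction.vonMangoldt n := by
  unfold Ps Th
  have h1 := sum_filter_add_sum_filter_not (Ioc ⌊x⌋₊ ⌊x + h⌋₊) (fun n => n.Prime)
    (fun n => ArithmeticFunction.vonMangoldt n)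
  have h2 : ∑ n ∈ (Ioc ⌊x⌋₊ ⌊x + h⌋₊).filter (fun n => n.Prime), ArithmeticFunction.vonMangoldt n =
      ∑ p ∈ (Ioc ⌊x⌋₊ ⌊x + h⌋₊).filter Nat.Prime, Real.log p := by
    refine sum_congr rfl fun p hp => ?_
    rw [mem_filter] at hp
    exact ArithmeticFunction.vonMangoldt_apply_prime hp.2
  rw [← h1, h2]
  ring

private theorem ppw_diam (S : Finset ℕ) (δ : ℝ) (hδ : 0 ≤ δ)
    (h : ∀ m ∈ S, ∀ m' ∈ S, m < m' → (m' : ℝ) - m ≤ δ) : (S.card : ℝ) ≤ δ + 1 := by
  rcases S.eq_empty_or_nonempty with rfl | hS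
  · simp; linarith
  · set a := S.min' hS
    set b := S.max' hS
    have hab : a ≤ b := S.min'_le_max' hS
    have h1 : (b : ℝ) - a ≤ δ := by
      rcases hab.eq_or_lt with h2 | h2
      · rw [h2]; simpa using hδ
      · exact h a (S.min'_mem hS) b (S.max'_mem hS) h2
    have h2 : S ⊆ Icc a b := fun m hm => mem_Icc.2 ⟨S.min'_le m hm, S.le_max' m hm⟩
    have h3 := card_le_card h2
    rw [Nat.card_Icc] at h3
    have h4 : (S.card : ℝ) ≤ ((b + 1 - a : ℕ) : ℝ) := by exact_mod_cast h3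
    rw [Nat.cast_sub (by omega)] at h4
    push_cast at h4
    linarith

private theorem ppw_M (X x h : ℝ) (hX : 10 ≤ X) (hx : X ≤ x) (hh : 0 ≤ h) (k B : ℕ) (hk : 2 ≤ k) :
    ((((range B).filter (fun m : ℕ => x < (m : ℝ) ^ k ∧ (m : ℝ) ^ k ≤ x + h)).card : ℕ) : ℝ) ≤
      h / Real.sqrt X + 1 := by
  have hX0 : 0 < X := by linarith
  have hs : 0 < Real.sqrt X := Real.sqrt_pos.2 hX0
  refine ppw_diam _ _ (by positivity) fun m hm m' hm' hlt => ?_
  rw [mem_filter] at hm hm'
  rw [le_div_iff₀ hs]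
  have hltR : (m : ℝ) < m' := by exact_mod_cast hlt
  have hm1 : 1 ≤ m := by
    rcases Nat.eq_zero_or_pos m with h0 | h0
    · exfalso
      have h1 := hm.2.1
      rw [h0, Nat.cast_zero, zero_pow (by omega)] at h1
      linarith
    · exact h0
  have hm1R : (1 : ℝ) ≤ m := by exact_mod_cast hm1
  have h1 : Real.sqrt X ≤ (m : ℝ) ^ (k - 1) := by
    rw [Real.sqrt_le_left (by positivity), ← pow_mul]
    calc X ≤ (m : ℝ) ^ k := by linarith [hm.2.1]
      _ ≤ (m : ℝ) ^ ((k - 1) * 2) := pow_le_pow_right₀ hm1R (by omega)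
  have h2 : (m : ℝ) ^ (k - 1) * m = (m : ℝ) ^ k := by
    rw [← pow_succ]
    congr 1
    omega
  have h3 : (m : ℝ) ^ (k - 1) * m' ≤ (m' : ℝ) ^ k := by
    have h4 : (m' : ℝ) ^ (k - 1) * m' = (m' : ℝ) ^ k := by
      rw [← pow_succ]
      congr 1
      omega
    rw [← h4]
    exact mul_le_mul_of_nonneg_right (pow_le_pow_left₀ (by positivity) hltR.le _) (by positivity)
  have h5 : ((m' : ℝ) - m) * Real.sqrt X ≤ ((m' : ℝ) - m) * (m : ℝ) ^ (k - 1) :=
    mul_le_mul_of_nonneg_left h1 (by linarith)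
  nlinarith [hm.2.1, hm'.2.2]

private theorem ppw_log4 {X : ℝ} (hX : 10 ≤ X) : Real.log (4 * X) ≤ 2 * Real.log X := by
  rw [Real.log_mul (by norm_num) (by linarith)]
  have : Real.log 4 ≤ Real.log X := Real.log_le_log (by norm_num) (by linarith)
  linarith

private theorem ppw_one {X : ℝ} (hX : 10 ≤ X) : 1 ≤ Real.log X := by
  rw [Real.le_log_iff_exp_le (by linarith)]
  have := Real.exp_one_lt_d9
  linarith

private theorem ppw_sup (X x h : ℝ) (hX : 10 ≤ X) (hx : X ≤ x) (hx2 : x ≤ 3 * X) (hh : 0 ≤ h)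
    (hh2 : h ≤ X) : Ps x h - Th x h ≤ 6 * Real.log X ^ 2 * (h / Real.sqrt X + 1) := by
  have hX0 : 0 < X := by linarith
  have hs : 0 < Real.sqrt X := Real.sqrt_pos.2 hX0
  have hL := ppw_one hX
  have hL4 := ppw_log4 hX
  rw [ppw_D]
  set N := ⌊4 * X⌋₊ with hN
  set K := Nat.log 2 N with hK
  set P := (Ioc ⌊x⌋₊ ⌊x + h⌋₊).filter (fun n => ¬ n.Prime ∧ ArithmeticFunction.vonMangoldt n ≠ 0) with hP
  have hsum : ∑ n ∈ (Ioc ⌊x⌋₊ ⌊x + h⌋₊).filter (fun n => ¬ n.Prime), ArithmeticFunction.vonMangoldt n =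
      ∑ n ∈ P, ArithmeticFunction.vonMangoldt n := by
    symm
    refine sum_subset ?_ ?_
    · intro n hn
      rw [hP, mem_filter] at hn
      exact mem_filter.2 ⟨hn.1, hn.2.1⟩
    · intro n hn hn2
      rw [mem_filter] at hn
      by_contra h0
      exact hn2 (by rw [hP]; exact mem_filter.2 ⟨hn.1, hn.2, h0⟩)
  rw [hsum]
  have hx0 : 0 ≤ x := by linarith
  have hmem : ∀ n ∈ P, x < (n : ℝ) ∧ (n : ℝ) ≤ x + h ∧ (n : ℝ) ≤ 4 * X := by
    intro n hn
    rw [hP, mem_filter, mem_Ioc] at hn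
    have h1 : x < (n : ℝ) := (Nat.floor_lt hx0).1 hn.1.1
    have h2 : (n : ℝ) ≤ x + h := (Nat.le_floor_iff (by linarith)).1 hn.1.2
    exact ⟨h1, h2, by linarith⟩
  have hle : ∀ n ∈ P, ArithmeticFunction.vonMangoldt n ≤ Real.log (4 * X) := by
    intro n hn
    obtain ⟨h1, h2, h3⟩ := hmem n hn
    refine ArithmeticFunction.vonMangoldt_le_log.trans ?_
    exact Real.log_le_log (by linarith) h3
  have hsub : P ⊆ (Icc 2 K).biUnion fun k =>
      ((range (N + 1)).filter (fun m : ℕ => x < (m : ℝ) ^ k ∧ (m : ℝ) ^ k ≤ x + h)).image (fun m => m ^ k) := by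
    intro n hn
    obtain ⟨h1, h2, h3⟩ := hmem n hn
    have hn' := hn
    rw [hP, mem_filter, mem_Ioc] at hn'
    have hpp := ArithmeticFunction.vonMangoldt_ne_zero_iff.1 hn'.2.2
    obtain ⟨p, k, hp, hk, rfl⟩ := (isPrimePow_nat_iff _).1 hpp
    have hk2 : 2 ≤ k := by
      by_contra hlt
      have : k = 1 := by omega
      rw [this, pow_one] at hn'
      exact hn'.2.1 hp
    rw [mem_biUnion]
    have hnN : p ^ k ≤ N := by
      rw [hN]
      exact Nat.le_floor h3
    refine ⟨k, mem_Icc.2 ⟨hk2, ?_⟩, mem_image.2 ⟨p, mem_filter.2 ⟨mem_range.2 ?_, ?_⟩, rfl⟩⟩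
    · rw [hK]
      refine Nat.le_log_of_pow_le (by norm_num) (le_trans ?_ hnN)
      exact Nat.pow_le_pow_left hp.two_le k
    · have : p ≤ p ^ k := Nat.le_self_pow (by omega) p
      omega
    · push_cast at h1 h2
      exact ⟨h1, h2⟩
  have hcard : (P.card : ℝ) ≤ K * (h / Real.sqrt X + 1) := by
    have h1 := card_le_card hsub
    have h2 := h1.trans card_biUnion_le
    have h3 : (P.card : ℝ) ≤ ∑ k ∈ Icc 2 K, (h / Real.sqrt X + 1) := by
      calc (P.card : ℝ) ≤ ((∑ k ∈ Icc 2 K, (((range (N + 1)).filter (fun m : ℕ => x < (m : ℝ) ^ k ∧ (m : ℝ) ^ k ≤ x + h)).image (fun m => m ^ k)).card : ℕ) : ℝ) := by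
            exact_mod_cast h2
        _ = ∑ k ∈ Icc 2 K, ((((range (N + 1)).filter (fun m : ℕ => x < (m : ℝ) ^ k ∧ (m : ℝ) ^ k ≤ x + h)).image (fun m => m ^ k)).card : ℝ) := by
            push_cast
            rfl
        _ ≤ _ := by
            refine sum_le_sum fun k hk => ?_
            rw [mem_Icc] at hk
            refine le_trans ?_ (ppw_M X x h hX hx hh k (N + 1) hk.1)
            exact_mod_cast card_image_le
    refine h3.trans ?_
    rw [sum_const, nsmul_eq_mul]
    refine mul_le_mul_of_nonneg_right ?_ (by positivity)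
    rw [Nat.card_Icc]
    exact_mod_cast (by omega : K + 1 - 2 ≤ K)
  have hKL : (K : ℝ) ≤ 3 * Real.log X := by
    have hN0 : N ≠ 0 := by
      have : 1 ≤ N := by
        rw [hN]
        exact Nat.le_floor (by norm_num; linarith)
      omega
    have h1 : 2 ^ K ≤ N := Nat.pow_log_le_self 2 hN0
    have h2 : ((2 : ℝ)) ^ K ≤ 4 * X := by
      calc ((2 : ℝ)) ^ K = ((2 ^ K : ℕ) : ℝ) := by push_cast; rfl
        _ ≤ (N : ℝ) := by exact_mod_cast h1
        _ ≤ 4 * X := Nat.floor_le (by linarith)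
    have h3 := Real.log_le_log (by positivity) h2
    rw [Real.log_pow] at h3
    have h4 := Real.log_two_gt_d9
    have h5 : (K : ℝ) * 0.69 ≤ K * Real.log 2 := mul_le_mul_of_nonneg_left (by linarith) (by positivity)
    nlinarith
  calc ∑ n ∈ P, ArithmeticFunction.vonMangoldt n ≤ ∑ n ∈ P, Real.log (4 * X) := sum_le_sum hle
    _ = P.card * Real.log (4 * X) := by rw [sum_const, nsmul_eq_mul]
    _ ≤ (K * (h / Real.sqrt X + 1)) * (2 * Real.log X) := by
        refine mul_le_mul hcard hL4 (Real.log_nonneg (by linarith)) (by positivity)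
    _ ≤ ((3 * Real.log X) * (h / Real.sqrt X + 1)) * (2 * Real.log X) := by
        gcongr
    _ = _ := by ring

private noncomputable def tS (u : ℝ) : ℝ := ∑ k ∈ Icc 0 ⌊u⌋₊, (if k.Prime then (1 : ℝ) else 0)

private theorem tS_diff {x u : ℝ} (hxu : x ≤ u) :
    (((Ioc ⌊x⌋₊ ⌊u⌋₊).filter Nat.Prime).card : ℝ) = tS u - tS x := by
  have h1 : ⌊x⌋₊ ≤ ⌊u⌋₊ := Nat.floor_le_floor hxu
  have h2 : Icc 0 ⌊u⌋₊ = Icc 0 ⌊x⌋₊ ∪ Ioc ⌊x⌋₊ ⌊u⌋₊ := by
    ext k
    simp only [mem_union, mem_Icc, mem_Ioc]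
    omega
  have h3 : Disjoint (Icc 0 ⌊x⌋₊) (Ioc ⌊x⌋₊ ⌊u⌋₊) := by
    rw [disjoint_left]
    intro k hk hk'
    rw [mem_Icc] at hk
    rw [mem_Ioc] at hk'
    omega
  unfold tS
  rw [h2, sum_union h3, add_sub_cancel_left, card_filter]
  push_cast
  rfl

private theorem tS_mono : Monotone tS := by
  intro x u hxu
  have h := tS_diff hxu
  have h0 : (0 : ℝ) ≤ (((Ioc ⌊x⌋₊ ⌊u⌋₊).filter Nat.Prime).card : ℝ) := Nat.cast_nonneg _
  linarith

private theorem tg_cont : Continuous (fun u : ℝ => 1 / Real.log (max u 2)) := by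
  have h2 : ∀ u : ℝ, (2 : ℝ) ≤ max u 2 := fun u => le_max_right _ _
  refine Continuous.div continuous_const (Continuous.log (continuous_id.max continuous_const) ?_) ?_
  · intro u
    have := h2 u
    exact ne_of_gt (lt_of_lt_of_le (by norm_num) this)
  · intro u
    have := h2 u
    exact (Real.log_pos (lt_of_lt_of_le (by norm_num) this)).ne'

private noncomputable def tv (x u : ℝ) : ℝ := ∫ s in x..u, 1 / Real.log (max s 2)

private theorem tv_der (x u : ℝ) : HasDerivAt (tv x) (1 / Real.log (max u 2)) u :=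
  (tg_cont.integral_hasStrictDerivAt x u).hasDerivAt

private theorem tv_cont (x : ℝ) : Continuous (tv x) :=
  continuous_iff_continuousAt.2 fun u => (tv_der x u).continuousAt

private theorem tPi {x u : ℝ} (hxu : x ≤ u) : Pi x (u - x) = tS u - tS x - tv x u := by
  unfold Pi tv
  rw [add_sub_cancel, tS_diff hxu]

private theorem inv_cont {x h : ℝ} (hx : 2 ≤ x) (hh : 0 ≤ h) :
    ContinuousOn (fun u : ℝ => u⁻¹) (Set.uIcc x (x + h)) := by
  refine continuousOn_inv₀.mono ?_
  intro u hu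
  rw [Set.uIcc_of_le (by linarith)] at hu
  have : 0 < u := by linarith [hu.1]
  exact this.ne'

private theorem th_abel {x h : ℝ} (hx : 2 ≤ x) (hh : 0 ≤ h) :
    ∑ p ∈ (Ioc ⌊x⌋₊ ⌊x + h⌋₊).filter Nat.Prime, Real.log p =
      Real.log (x + h) * tS (x + h) - Real.log x * tS x - ∫ u in x..(x + h), u⁻¹ * tS u := by
  have h1 := sum_mul_eq_sub_sub_integral_mul (f := Real.log) (a := x) (b := x + h)
    (fun k : ℕ => if k.Prime then (1 : ℝ) else 0) (by linarith) (by linarith)
    (fun t ht => Real.differentiableAt_log (by linarith [ht.1] : (0 : ℝ) < t).ne')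
    (by
      rw [Real.deriv_log']
      have := inv_cont hx hh
      rw [Set.uIcc_of_le (by linarith)] at this
      exact this.integrableOn_Icc)
  have h2 : ∑ p ∈ (Ioc ⌊x⌋₊ ⌊x + h⌋₊).filter Nat.Prime, Real.log p =
      ∑ k ∈ Ioc ⌊x⌋₊ ⌊x + h⌋₊, Real.log k * (if k.Prime then (1 : ℝ) else 0) := by
    rw [sum_filter]
    refine sum_congr rfl fun k _ => ?_
    split_ifs
    · rw [mul_one]
    · rw [mul_zero]
  rw [h2, h1, intervalIntegral.integral_of_le (by linarith), Real.deriv_log']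
  rfl

private theorem th_len {x h : ℝ} (hx : 2 ≤ x) (hh : 0 ≤ h) :
    h = Real.log (x + h) * tv x (x + h) - ∫ u in x..(x + h), u⁻¹ * tv x u := by
  have hpos : ∀ u ∈ Set.uIcc x (x + h), 2 ≤ u := by
    intro u hu
    rw [Set.uIcc_of_le (by linarith)] at hu
    linarith [hu.1]
  have h1 := intervalIntegral.integral_mul_deriv_eq_deriv_mul (a := x) (b := x + h) (u := Real.log)
    (v := tv x) (u' := fun u => u⁻¹) (v' := fun u => 1 / Real.log (max u 2))
    (fun u hu => Real.hasDerivAt_log (by linarith [hpos u hu] : (0 : ℝ) < u).ne')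
    (fun u _ => tv_der x u) (inv_cont hx hh).intervalIntegrable
    (tg_cont.intervalIntegrable _ _)
  have h2 : ∫ u in x..(x + h), Real.log u * (1 / Real.log (max u 2)) = h := by
    have h3 : ∫ u in x..(x + h), Real.log u * (1 / Real.log (max u 2)) = ∫ _u in x..(x + h), (1 : ℝ) := by
      refine intervalIntegral.integral_congr fun u hu => ?_
      have h4 := hpos u hu
      rw [max_eq_left h4, mul_one_div, div_self (Real.log_pos (by linarith)).ne']
    rw [h3, intervalIntegral.integral_const, smul_eq_mul, mul_one, add_sub_cancel_left]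
  have h3 : tv x x = 0 := intervalIntegral.integral_same
  rw [h2, h3, mul_zero, sub_zero] at h1
  exact h1

private theorem th_id {x h : ℝ} (hx : 2 ≤ x) (hh : 0 ≤ h) :
    Th x h = Real.log (x + h) * Pi x h - ∫ t in (0 : ℝ)..h, Pi x t / (x + t) := by
  have hx0 : 0 < x := by linarith
  have e1 : ∫ t in (0 : ℝ)..h, Pi x t / (x + t) = ∫ u in x..(x + h), Pi x (u - x) / u := by
    have h1 := intervalIntegral.integral_comp_add_left (a := 0) (b := h) (fun u => Pi x (u - x) / u) x
    simp only [add_sub_cancel_left, add_zero] at h1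
    exact h1
  have i1 : IntervalIntegrable (fun u => u⁻¹ * tS u) volume x (x + h) :=
    (tS_mono.intervalIntegrable).continuousOn_mul (inv_cont hx hh)
  have i2 : IntervalIntegrable (fun u => u⁻¹ * tS x) volume x (x + h) :=
    (intervalIntegrable_const).continuousOn_mul (inv_cont hx hh)
  have i3 : IntervalIntegrable (fun u => u⁻¹ * tv x u) volume x (x + h) :=
    ((tv_cont x).intervalIntegrable _ _).continuousOn_mul (inv_cont hx hh)
  have e2 : ∫ u in x..(x + h), Pi x (u - x) / u = (∫ u in x..(x + h), u⁻¹ * tS u) -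
      (∫ u in x..(x + h), u⁻¹ * tS x) - ∫ u in x..(x + h), u⁻¹ * tv x u := by
    rw [← intervalIntegral.integral_sub i1 i2, ← intervalIntegral.integral_sub (i1.sub i2) i3]
    refine intervalIntegral.integral_congr fun u hu => ?_
    rw [Set.uIcc_of_le (by linarith)] at hu
    rw [tPi hu.1]
    ring
  have e3 : ∫ u in x..(x + h), u⁻¹ * tS x = (Real.log (x + h) - Real.log x) * tS x := by
    rw [intervalIntegral.integral_mul_const, integral_inv_of_pos hx0 (by linarith),
      Real.log_div (by linarith) hx0.ne']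
  have e4 : Pi x h = tS (x + h) - tS x - tv x (x + h) := by
    have := tPi (x := x) (u := x + h) (by linarith)
    rwa [add_sub_cancel_left] at this
  have e5 := th_abel hx hh
  have e6 := th_len hx hh
  unfold Th
  rw [e5, e1, e2, e3, e4]
  linarith

private theorem ii_bdd {f : ℝ → ℝ} {a b M : ℝ} (hab : a ≤ b) (hf : Measurable f)
    (hb : ∀ t ∈ Set.Icc a b, |f t| ≤ M) : IntervalIntegrable f volume a b := by
  rw [intervalIntegrable_iff_integrableOn_Ioc_of_le hab]
  exact IntegrableOn.of_bound measure_Ioc_lt_top hf.aestronglyMeasurable M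
    ((ae_restrict_mem measurableSet_Ioc).mono fun t ht => hb t (Set.Ioc_subset_Icc_self ht))

private theorem coc_m2 {F : ℝ → ℝ → ℝ} (hF : Cocy F) (x : ℝ) : Measurable fun t => F x t :=
  hF.meas.comp (measurable_const.prodMk measurable_id)

private theorem th_gen {F : ℝ → ℝ → ℝ} (hF : Cocy F) {y h B : ℝ} (hy : 2 ≤ y) (hh : 0 ≤ h)
    (hB : ∀ a j : ℝ, y ≤ a → 0 ≤ j → a + j ≤ y + h → |F a j| ≤ B) :
    |(Real.log (y + h) * F y h - ∫ t in (0 : ℝ)..h, F y t / (y + t)) - Real.log y * F y h| ≤ h / y * B := by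
  have hy0 : 0 < y := by linarith
  obtain ⟨M, hM⟩ := hF.bdd (y + h)
  have hPb : ∀ t ∈ Set.Icc (0 : ℝ) h, |F y t| ≤ M := fun t ht =>
    hM y t hy0.le (by linarith) ht.1 (by linarith [ht.2])
  have hM0 : 0 ≤ M := (abs_nonneg _).trans (hPb 0 ⟨le_rfl, hh⟩)
  have hmP : Measurable fun t => F y t := coc_m2 hF y
  have hma : Measurable fun t => F y t / (y + t) := hmP.div (measurable_const.add measurable_id)
  have ia : IntervalIntegrable (fun t => F y t / (y + t)) volume 0 h := by
    refine ii_bdd (M := M / y) hh hma fun t ht => ?_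
    rw [abs_div, abs_of_pos (show 0 < y + t by linarith [ht.1])]
    exact (div_le_div_of_nonneg_left (abs_nonneg _) hy0 (by linarith [ht.1])).trans
      (div_le_div_of_nonneg_right (hPb t ht) hy0.le)
  have ib : IntervalIntegrable (fun t => F y h / (y + t)) volume 0 h := by
    refine ii_bdd (M := M / y) hh (measurable_const.div (measurable_const.add measurable_id)) fun t ht => ?_
    rw [abs_div, abs_of_pos (show 0 < y + t by linarith [ht.1])]
    exact (div_le_div_of_nonneg_left (abs_nonneg _) hy0 (by linarith [ht.1])).trans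
      (div_le_div_of_nonneg_right (hPb h ⟨hh, le_rfl⟩) hy0.le)
  have e1 : ∫ t in (0 : ℝ)..h, F y h / (y + t) = (Real.log (y + h) - Real.log y) * F y h := by
    have e2 : ∫ t in (0 : ℝ)..h, F y h / (y + t) = F y h * ∫ t in (0 : ℝ)..h, (y + t)⁻¹ := by
      rw [← intervalIntegral.integral_const_mul]
      rfl
    have e3 : ∫ t in (0 : ℝ)..h, (y + t)⁻¹ = ∫ u in y..(y + h), u⁻¹ := by
      have h1 := intervalIntegral.integral_comp_add_left (a := 0) (b := h) (fun u : ℝ => u⁻¹) y
      simp only [add_zero] at h1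
      exact h1
    rw [e2, e3, integral_inv_of_pos hy0 (by linarith), Real.log_div (by linarith) hy0.ne']
    ring
  have e4 : (Real.log (y + h) * F y h - ∫ t in (0 : ℝ)..h, F y t / (y + t)) - Real.log y * F y h = ∫ t in (0 : ℝ)..h, (F y h / (y + t) - F y t / (y + t)) := by
    rw [intervalIntegral.integral_sub ib ia, e1]
    ring
  rw [e4]
  have h2 : ‖∫ t in (0 : ℝ)..h, (F y h / (y + t) - F y t / (y + t))‖ ≤ B / y * |h - 0| := by
    refine intervalIntegral.norm_integral_le_of_norm_le_const fun t ht => ?_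
    rw [Set.uIoc_of_le hh] at ht
    have h3 : F y h = F y t + F (y + t) (h - t) := by
      have := hF.add y t (h - t) hy0.le ht.1.le (by linarith [ht.2])
      rwa [add_sub_cancel] at this
    have h4 : F y h / (y + t) - F y t / (y + t) = F (y + t) (h - t) / (y + t) := by
      rw [h3]
      ring
    rw [h4, Real.norm_eq_abs, abs_div, abs_of_pos (show 0 < y + t by linarith [ht.1])]
    exact (div_le_div_of_nonneg_left (abs_nonneg _) hy0 (by linarith [ht.1])).trans
      (div_le_div_of_nonneg_right (hB _ _ (by linarith [ht.1]) (by linarith [ht.2]) (by linarith)) hy0.le)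
  rw [Real.norm_eq_abs, sub_zero, abs_of_nonneg hh] at h2
  calc _ ≤ B / y * h := h2
    _ = h / y * B := by ring

theorem psp : ∃ C : ℝ, 0 < C ∧ ∀ y h B : ℝ, 2 ≤ y → 0 ≤ h → h ≤ y →
    (∀ a j : ℝ, y ≤ a → 0 ≤ j → a + j ≤ y + h → |Pi a j| ≤ B) →
    |Ps y h - Real.log y * Pi y h| ≤ h / y * B + C * (Real.log y) ^ 2 * (1 + h / Real.sqrt y) := by
  refine ⟨200, by norm_num, ?_⟩
  intro y h B hy hh hhy hB
  have hy0 : 0 < y := by linarith
  have hs : 0 < Real.sqrt y := Real.sqrt_pos.2 hy0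
  have hB0 : 0 ≤ B := (abs_nonneg _).trans (hB y 0 le_rfl le_rfl (by linarith))
  -- theta
  have h1 : |Th y h - Real.log y * Pi y h| ≤ h / y * B := by
    rw [th_id hy hh]
    exact th_gen pi_coc hy hh hB
  -- prime powers
  have hnn : 0 ≤ Ps y h - Th y h := by
    rw [ppw_D]
    exact sum_nonneg fun n _ => ArithmeticFunction.vonMangoldt_nonneg
  have h2 : Ps y h - Th y h ≤ 200 * (Real.log y) ^ 2 * (1 + h / Real.sqrt y) := by
    rcases le_or_gt 10 y with h10 | h10
    · have h3 := ppw_sup y y h h10 le_rfl (by linarith) hh hhy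
      have h4 : 0 ≤ Real.log y ^ 2 * (h / Real.sqrt y + 1) := by positivity
      calc _ ≤ 6 * Real.log y ^ 2 * (h / Real.sqrt y + 1) := h3
        _ ≤ 200 * (Real.log y) ^ 2 * (1 + h / Real.sqrt y) := by nlinarith
    · have h3 : Ps y h - Th y h ≤ 60 := by
        rw [ppw_D]
        have h4 : ∀ n ∈ (Ioc ⌊y⌋₊ ⌊y + h⌋₊).filter (fun n => ¬ n.Prime),
            ArithmeticFunction.vonMangoldt n ≤ 3 := by
          intro n hn
          rw [mem_filter, mem_Ioc] at hn
          have h5 : (n : ℝ) ≤ y + h := (Nat.le_floor_iff (by linarith)).1 hn.1.2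
          have h6 : (0 : ℝ) < n := by
            have : 0 < n := by omega
            exact_mod_cast this
          refine ArithmeticFunction.vonMangoldt_le_log.trans ?_
          rw [Real.log_le_iff_le_exp h6]
          have h8 : Real.exp 3 = Real.exp 1 ^ 3 := by
            rw [← Real.exp_nat_mul]
            norm_num
          have h11 : Real.exp 1 ^ 3 ≥ 20 := by
            have h12 : (2.7182 : ℝ) < Real.exp 1 := by
              have := Real.exp_one_gt_d9
              linarith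
            have h13 : (2.7182 : ℝ) ^ 3 ≤ Real.exp 1 ^ 3 := pow_le_pow_left₀ (by norm_num) h12.le 3
            have h14 : (20 : ℝ) ≤ (2.7182 : ℝ) ^ 3 := by norm_num
            linarith
          rw [h8]
          linarith
        have h5 : (((Ioc ⌊y⌋₊ ⌊y + h⌋₊).filter (fun n => ¬ n.Prime)).card : ℝ) ≤ 20 := by
          have h6 := card_filter_le (Ioc ⌊y⌋₊ ⌊y + h⌋₊) (fun n => ¬ n.Prime)
          rw [Nat.card_Ioc] at h6
          have h7 : ⌊y + h⌋₊ ≤ 20 := by
            have h8 : (⌊y + h⌋₊ : ℝ) ≤ y + h := Nat.floor_le (by linarith)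
            have h9 : (⌊y + h⌋₊ : ℝ) ≤ ((20 : ℕ) : ℝ) := by
              push_cast
              linarith
            exact_mod_cast h9
          have h8 : ((Ioc ⌊y⌋₊ ⌊y + h⌋₊).filter (fun n => ¬ n.Prime)).card ≤ 20 := by omega
          exact_mod_cast h8
        calc _ ≤ ∑ n ∈ (Ioc ⌊y⌋₊ ⌊y + h⌋₊).filter (fun n => ¬ n.Prime), (3 : ℝ) := sum_le_sum h4
          _ = (((Ioc ⌊y⌋₊ ⌊y + h⌋₊).filter (fun n => ¬ n.Prime)).card : ℝ) * 3 := by
              rw [sum_const, nsmul_eq_mul]
          _ ≤ 60 := by linarith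
      have h4 : (0.69 : ℝ) ≤ Real.log y := by
        have h5 := Real.log_two_gt_d9
        have h6 := Real.log_le_log (by norm_num) hy
        linarith
      have h5 : (0.47 : ℝ) ≤ Real.log y ^ 2 := by nlinarith
      have h6 : 0 ≤ h / Real.sqrt y := by positivity
      nlinarith [mul_nonneg (sq_nonneg (Real.log y)) h6]
  have h3 : |Ps y h - Th y h| ≤ 200 * (Real.log y) ^ 2 * (1 + h / Real.sqrt y) := by
    rw [abs_of_nonneg hnn]
    exact h2
  have h4 : Ps y h - Real.log y * Pi y h = (Ps y h - Th y h) + (Th y h - Real.log y * Pi y h) := by ring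
  rw [h4]
  have h5 := abs_add_le (Ps y h - Th y h) (Th y h - Real.log y * Pi y h)
  linarith

end Pool.Agent.H67.TS
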