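import Pool.Agent.H67.TS.Sub
import Pool.Agent.H67.TS.Psp
import Pool.Agent.H67.TS.Ker
import Pool.Agent.H48.WN.Coc

/-!
# [H67 TS STP] the step of the induction

PROOF. `p = 1/(1+u)`, `η` small, `η' = η/3`, `l = x^(p+η)`, `X = x - 2l`, `M = X^(1-p)`. For `J` inside `(z/m, (z+4l)/m]`,
`z ∈ [X, X+l]`, `m ≤ 2M`: `|Pi J| ≤ 144 C X^(η+η') (X/m)^e` by `PP u e` (cutting into `9 X^η` pieces). `4l/m ≥ 4 (2X/m)^(1-u)`, so
`One` and `psp` give `s Ps (z/m) (4l/m) ≥ -W/m - V`; `ker`; sum over `m`; `Ssp`: `s Dm X l 1 ≤ K X^(p e + 3 η)`.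
For `h ≤ x^p`: by `sub` for all windows `(z, z+4l]`, `|Pi x h| ≤ s Pi z (4l) + C X^(α-1) l`, with `psp`:
`s Ps z (4l) ≥ |Pi x h| - E`, and `ker` for `m = 1`.
-/

set_option autoImplicit false

namespace Pool.Agent.H67.TS

open Finset Pool.Agent.H48.WN

private lemma pi_zero (b : ℝ) : Pi b 0 = 0 := by
  unfold Pi
  simp

private lemma ext_aux (L D a : ℝ) (hL : 0 < L) (hD : 0 ≤ D) (ha : 0 ≤ a)
    (hb : ∀ b j : ℝ, a ≤ b → 0 ≤ j → j ≤ L → b + j ≤ 2 * a → |Pi b j| ≤ D) :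
    ∀ n : ℕ, ∀ b j : ℝ, a ≤ b → 0 ≤ j → b + j ≤ 2 * a → j ≤ (n + 1) * L → |Pi b j| ≤ (n + 1) * D := by
  intro n
  induction n with
  | zero =>
    intro b j h1 h2 h3 h4
    have := hb b j h1 h2 (by simpa using h4) h3
    simpa using this
  | succ n ih =>
    intro b j h1 h2 h3 h4
    rcases le_or_gt j L with h5 | h5
    · refine (hb b j h1 h2 h5 h3).trans ?_
      have : 0 ≤ ((n : ℝ) + 1) * D := by positivity
      push_cast
      linarith
    · have e1 : Pi b j = Pi b L + Pi (b + L) (j - L) := by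
        rw [← pi_coc.add b L (j - L) (ha.trans h1) hL.le (by linarith)]
        congr 1
        ring
      have e2 := hb b L h1 hL.le le_rfl (by linarith)
      have e3 := ih (b + L) (j - L) (by linarith) (by linarith) (by linarith) (by
        push_cast at h4
        linarith)
      rw [e1]
      refine (abs_add_le _ _).trans ?_
      push_cast
      linarith

/-- longer intervals -/
private lemma ext (u e : ℝ) (hu : 0 < u) (he : 0 ≤ e) (hP : PP u e) (ε : ℝ) (hε : 0 < ε) :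
    ∃ C x0 : ℝ, 0 < C ∧ 2 ≤ x0 ∧ ∀ a j : ℝ, x0 ≤ a → 0 ≤ j → j ≤ a →
      |Pi a j| ≤ C * (1 + j / a ^ (1 / (1 + u))) * a ^ (e + ε) := by
  obtain ⟨C, x0, hC, hx0, h⟩ := hP ε hε
  refine ⟨C * 2 ^ (e + ε), x0, by positivity, hx0, fun a j ha hj hja => ?_⟩
  have ha0 : 0 < a := by linarith
  have hL : 0 < a ^ (1 / (1 + u)) := by positivity
  have hb : ∀ b j : ℝ, a ≤ b → 0 ≤ j → j ≤ a ^ (1 / (1 + u)) → b + j ≤ 2 * a →
      |Pi b j| ≤ C * (2 * a) ^ (e + ε) := by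
    intro b j h1 h2 h3 h4
    refine (h b j (ha.trans h1) h2 (h3.trans ?_)).trans ?_
    · exact Real.rpow_le_rpow ha0.le h1 (by positivity)
    · refine mul_le_mul_of_nonneg_left ?_ hC.le
      exact Real.rpow_le_rpow (by linarith) (by linarith) (by linarith)
  have h1 := ext_aux (a ^ (1 / (1 + u))) (C * (2 * a) ^ (e + ε)) a hL (by positivity) ha0.le hb
    ⌊j / a ^ (1 / (1 + u))⌋₊ a j le_rfl hj (by linarith) (by
      have := Nat.lt_floor_add_one (j / a ^ (1 / (1 + u)))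
      rw [← div_le_iff₀ hL]
      exact this.le)
  have h2 : (⌊j / a ^ (1 / (1 + u))⌋₊ : ℝ) ≤ j / a ^ (1 / (1 + u)) := Nat.floor_le (by positivity)
  calc |Pi a j| ≤ (⌊j / a ^ (1 / (1 + u))⌋₊ + 1) * (C * (2 * a) ^ (e + ε)) := h1
    _ ≤ (1 + j / a ^ (1 / (1 + u))) * (C * (2 * a) ^ (e + ε)) := by
        refine mul_le_mul_of_nonneg_right (by linarith) (by positivity)
    _ = _ := by
        rw [Real.mul_rpow (by norm_num) ha0.le]
        ring

/-- `m^(-κ) ≤ (2M)^(1-κ)/m` -/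
private lemma pow_m (κ m M : ℝ) (hκ : κ ≤ 1) (hm : 0 < m) (hM : m ≤ 2 * M) :
    m ^ (-κ) ≤ (2 * M) ^ (1 - κ) / m := by
  rw [le_div_iff₀ hm]
  calc m ^ (-κ) * m = m ^ (1 - κ) := by
        nth_rewrite 2 [← Real.rpow_one m]
        rw [← Real.rpow_add hm]
        congr 1
        ring
    _ ≤ _ := Real.rpow_le_rpow hm.le hM (by linarith)


private lemma two_pow (κ : ℝ) (h1 : κ ≤ 1) (Y : ℝ) (hY : 0 ≤ Y) :
    (2 * Y) ^ κ ≤ 2 * Y ^ κ := by
  rw [Real.mul_rpow (by norm_num) hY]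
  refine mul_le_mul_of_nonneg_right ?_ (by positivity)
  calc (2 : ℝ) ^ κ ≤ (2 : ℝ) ^ (1 : ℝ) := Real.rpow_le_rpow_of_exponent_le (by norm_num) h1
    _ = 2 := Real.rpow_one 2

/-- the bound for subintervals near `z/m` -/
private lemma sub_b (e p η η' C3 x3 X l M : ℝ) (he0 : 0 ≤ e) (he1 : e ≤ 1) (hp0 : 0 ≤ p) (hp1 : p ≤ 1)
    (hη' : 0 ≤ η') (hη1 : η' ≤ 1) (hC3 : 0 < C3) (hX : 1 ≤ X) (hl0 : 0 < l) (hl : l ≤ 2 * X ^ (p + η))
    (hη : 0 ≤ η) (hlX : 5 * l ≤ X)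
    (hext : ∀ a j : ℝ, x3 ≤ a → 0 ≤ j → j ≤ a → |Pi a j| ≤ C3 * (1 + j / a ^ p) * a ^ (e + η'))
    (z m : ℝ) (hz : X ≤ z) (hz2 : z ≤ X + l) (hm : 1 ≤ m) (hmM : m ≤ 2 * M) (hx3 : x3 ≤ z / m)
    (a j : ℝ) (ha : z / m ≤ a) (hj : 0 ≤ j) (haj : a + j ≤ z / m + 4 * l / m) :
    |Pi a j| ≤ 36 * C3 * X ^ (η + η') * (X ^ e * (2 * M) ^ (1 - e)) / m := by
  have hX0 : 0 < X := by linarith
  have hm0 : 0 < m := by linarith
  have hXm : X / m ≤ z / m := by gcongr
  have ha0 : 0 < a := lt_of_lt_of_le (by positivity) (hXm.trans ha)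
  have hj4 : j ≤ 4 * l / m := by linarith
  have hja : j ≤ a := by
    calc j ≤ 4 * l / m := hj4
      _ ≤ X / m := by gcongr; linarith
      _ ≤ a := hXm.trans ha
  have ha2 : a ≤ 2 * (X / m) := by
    calc a ≤ z / m + 4 * l / m := by linarith
      _ = (z + 4 * l) / m := by ring
      _ ≤ (2 * X) / m := by gcongr; linarith
      _ = _ := by ring
  have h1 := hext a j (hx3.trans ha) hj hja
  -- `1 + j/a^p ≤ 9 X^η`
  have hXη : 1 ≤ X ^ η := Real.one_le_rpow hX hη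
  have h2 : j / a ^ p ≤ 8 * X ^ η := by
    rw [div_le_iff₀ (by positivity)]
    calc j ≤ 4 * l / m := hj4
      _ ≤ 4 * (2 * X ^ (p + η)) / m := by gcongr
      _ = 8 * X ^ η * (X ^ p / m) := by rw [Real.rpow_add hX0]; ring
      _ ≤ 8 * X ^ η * (X ^ p / m ^ p) := by
          have : m ^ p ≤ m := by
            calc m ^ p ≤ m ^ (1 : ℝ) := Real.rpow_le_rpow_of_exponent_le hm hp1
              _ = m := Real.rpow_one m
          gcongr
      _ = 8 * X ^ η * (X / m) ^ p := by rw [Real.div_rpow hX0.le hm0.le]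
      _ ≤ 8 * X ^ η * a ^ p := by
          have : (X / m) ^ p ≤ a ^ p := Real.rpow_le_rpow (by positivity) (hXm.trans ha) hp0
          gcongr
  have h3 : a ^ (e + η') ≤ 4 * (X ^ η' * (X ^ e * (2 * M) ^ (1 - e) / m)) := by
    calc a ^ (e + η') ≤ (2 * (X / m)) ^ (e + η') := Real.rpow_le_rpow ha0.le ha2 (by linarith)
      _ = 2 ^ (e + η') * ((X / m) ^ e * (X / m) ^ η') := by
          rw [Real.mul_rpow (by norm_num) (by positivity), ← Real.rpow_add (by positivity)]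
      _ ≤ 4 * ((X ^ e * (2 * M) ^ (1 - e) / m) * X ^ η') := by
          have f1 : (2 : ℝ) ^ (e + η') ≤ 4 := by
            calc (2 : ℝ) ^ (e + η') ≤ (2 : ℝ) ^ (2 : ℝ) :=
                  Real.rpow_le_rpow_of_exponent_le (by norm_num) (by linarith)
              _ = 4 := by norm_num
          have f2 : (X / m) ^ e ≤ X ^ e * (2 * M) ^ (1 - e) / m := by
            rw [Real.div_rpow hX0.le hm0.le, div_eq_mul_inv, ← Real.rpow_neg hm0.le, mul_div_assoc]
            exact mul_le_mul_of_nonneg_left (pow_m e m M he1 hm0 hmM) (by positivity)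
          have f3 : (X / m) ^ η' ≤ X ^ η' :=
            Real.rpow_le_rpow (by positivity) (div_le_self hX0.le hm) hη'
          have f4 : 0 ≤ (X / m) ^ e := by positivity
          have f5 : 0 ≤ (X / m) ^ η' := by positivity
          have f6 : 0 ≤ X ^ e * (2 * M) ^ (1 - e) / m := f4.trans f2
          refine mul_le_mul f1 (mul_le_mul f2 f3 f5 f6) (mul_nonneg f4 f5) (by norm_num)
      _ = _ := by ring
  have h4 : 0 ≤ a ^ (e + η') := by positivity
  calc |Pi a j| ≤ C3 * (1 + j / a ^ p) * a ^ (e + η') := h1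
    _ ≤ C3 * (9 * X ^ η) * (4 * (X ^ η' * (X ^ e * (2 * M) ^ (1 - e) / m))) := by
        refine mul_le_mul ?_ h3 h4 (by positivity)
        refine mul_le_mul_of_nonneg_left ?_ hC3.le
        linarith
    _ = _ := by rw [Real.rpow_add hX0]; ring

/-- lower bound for one `m` -/
private lemma low_m (s α u b C1 C4 x1 X l M lam : ℝ) (hs : s = 1 ∨ s = -1)
    (hα1 : α < 1) (hX : 1 ≤ X) (hl0 : 0 < l) (hlX : 5 * l ≤ X) (hM : 1 ≤ M) (hC1 : 0 < C1)
    (hC4 : 0 < C4) (hb : 0 ≤ b) (hlam : Real.log (2 * X) ≤ lam) (hx1 : 2 ≤ x1)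
    (hone : ∀ x h : ℝ, x1 ≤ x → 4 * x ^ (1 - u) ≤ h → h ≤ x → -(C1 * x ^ (α - 1) * h) ≤ s * Pi x h)
    (hpsp : ∀ y h B : ℝ, 2 ≤ y → 0 ≤ h → h ≤ y →
      (∀ a j : ℝ, y ≤ a → 0 ≤ j → a + j ≤ y + h → |Pi a j| ≤ B) →
      |Ps y h - Real.log y * Pi y h| ≤ h / y * B + C4 * (Real.log y) ^ 2 * (1 + h / Real.sqrt y))
    (m : ℕ) (hm : 1 ≤ m) (hmM : (m : ℝ) ≤ 2 * M) (hXm : x1 ≤ X / m)
    (hlen : 4 * (2 * X / m) ^ (1 - u) ≤ 4 * l / m) (hu1 : u < 1)
    (hB : ∀ z : ℝ, X ≤ z → z ≤ X + l → ∀ a j : ℝ, z / m ≤ a → 0 ≤ j → a + j ≤ z / m + 4 * l / m →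
      |Pi a j| ≤ b / m) :
    -((lam * C1 * (4 * l) * (X ^ (α - 1) * (2 * M) ^ (1 - α)) + 4 * l / X * b +
      C4 * lam ^ 2 * (4 * l / Real.sqrt X * (2 * M) ^ (1 / 2 : ℝ))) / m + C4 * lam ^ 2) ≤ s * Dm X l m := by
  have hX0 : 0 < X := by linarith
  have hmr : (1 : ℝ) ≤ m := by exact_mod_cast hm
  have hm0 : (0 : ℝ) < m := by linarith
  refine ker s X l _ m hX0 hl0 hm fun z hz1 hz2 => ?_
  obtain ⟨y, hy⟩ : ∃ y : ℝ, y = z / m := ⟨_, rfl⟩
  obtain ⟨g, hg⟩ : ∃ g : ℝ, g = 4 * l / m := ⟨_, rfl⟩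
  rw [← hy, ← hg]
  have hy1 : X / m ≤ y := by rw [hy]; gcongr
  have hy0 : 0 < y := lt_of_lt_of_le (by positivity) hy1
  have hyx : x1 ≤ y := hXm.trans hy1
  have hy2 : 2 ≤ y := hx1.trans hyx
  have hy3 : y ≤ 2 * X / m := by rw [hy]; gcongr; linarith
  have hy4 : y ≤ 2 * X := hy3.trans (div_le_self (by linarith) hmr)
  have hg0 : 0 < g := by rw [hg]; positivity
  have hgy : g ≤ y := by
    refine le_trans ?_ hy1
    rw [hg]
    gcongr
    linarith
  have hlog0 : 0 ≤ Real.log y := Real.log_nonneg (by linarith)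
  have hlogl : Real.log y ≤ lam := (Real.log_le_log hy0 hy4).trans hlam
  have hlam0 : 0 ≤ lam := hlog0.trans hlogl
  have e1 := hone y g hyx (le_trans (mul_le_mul_of_nonneg_left
    (Real.rpow_le_rpow hy0.le hy3 (by linarith)) (by norm_num)) (hg ▸ hlen)) hgy
  have e2 := hpsp y g (b / m) hy2 hg0.le hgy (by
    intro a j h1 h2 h3
    rw [hy, hg] at h3
    rw [hy] at h1
    exact hB z hz1 hz2 a j h1 h2 h3)
  have e3 : s * (Real.log y * Pi y g) - |Ps y g - Real.log y * Pi y g| ≤ s * Ps y g := by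
    have k1 : |s * (Ps y g - Real.log y * Pi y g)| = |Ps y g - Real.log y * Pi y g| := by
      rw [abs_mul]
      rcases hs with h | h <;> rw [h] <;> simp
    have k2 := neg_abs_le (s * (Ps y g - Real.log y * Pi y g))
    rw [k1] at k2
    linarith
  -- the main term
  have e4 : -(lam * (C1 * (4 * l) * (X ^ (α - 1) * (2 * M) ^ (1 - α)) / m)) ≤
      s * (Real.log y * Pi y g) := by
    have k0 : y ^ (α - 1) ≤ X ^ (α - 1) * (m : ℝ) ^ (1 - α) := by
      calc y ^ (α - 1) ≤ (X / m) ^ (α - 1) :=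
            Real.rpow_le_rpow_of_nonpos (by positivity) hy1 (by linarith)
        _ = X ^ (α - 1) * (m : ℝ) ^ (1 - α) := by
            rw [Real.div_rpow hX0.le hm0.le, div_eq_mul_inv, ← Real.rpow_neg hm0.le]
            congr 2
            ring
    have k1 : (m : ℝ) ^ (1 - α) ≤ (2 * M) ^ (1 - α) := Real.rpow_le_rpow hm0.le hmM (by linarith)
    have k2 : C1 * y ^ (α - 1) * g ≤ C1 * (4 * l) * (X ^ (α - 1) * (2 * M) ^ (1 - α)) / m := by
      calc C1 * y ^ (α - 1) * g ≤ C1 * (X ^ (α - 1) * (2 * M) ^ (1 - α)) * g := by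
            refine mul_le_mul_of_nonneg_right (mul_le_mul_of_nonneg_left (k0.trans ?_) hC1.le) hg0.le
            exact mul_le_mul_of_nonneg_left k1 (by positivity)
        _ = _ := by rw [hg]; ring
    have k3 : -(C1 * (4 * l) * (X ^ (α - 1) * (2 * M) ^ (1 - α)) / m) ≤ s * Pi y g := by linarith
    have k4 : 0 ≤ C1 * (4 * l) * (X ^ (α - 1) * (2 * M) ^ (1 - α)) / m := by positivity
    calc -(lam * (C1 * (4 * l) * (X ^ (α - 1) * (2 * M) ^ (1 - α)) / m)) ≤
          -(Real.log y * (C1 * (4 * l) * (X ^ (α - 1) * (2 * M) ^ (1 - α)) / m)) := by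
            have := mul_le_mul_of_nonneg_right hlogl k4
            linarith
      _ ≤ Real.log y * (s * Pi y g) := by
          have := mul_le_mul_of_nonneg_left k3 hlog0
          linarith
      _ = _ := by ring
  -- the second term
  have e5 : g / y * (b / m) ≤ 4 * l / X * b / m := by
    have k1 : g / y ≤ 4 * l / X := by
      calc g / y ≤ g / (X / m) := by gcongr
        _ = 4 * l / X := by rw [hg]; field_simp
    calc g / y * (b / m) ≤ 4 * l / X * (b / m) := by gcongr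
      _ = _ := by ring
  have e6 : g / Real.sqrt y ≤ 4 * l / Real.sqrt X * (2 * M) ^ (1 / 2 : ℝ) / m := by
    have k1 : Real.sqrt (X / m) ≤ Real.sqrt y := Real.sqrt_le_sqrt hy1
    have k2 : 0 < Real.sqrt (X / m) := Real.sqrt_pos.2 (by positivity)
    have k3 : (1 : ℝ) / (m : ℝ) * Real.sqrt m ≤ (2 * M) ^ (1 / 2 : ℝ) / m := by
      rw [one_div, inv_mul_eq_div]
      rw [Real.sqrt_eq_rpow]
      gcongr
    calc g / Real.sqrt y ≤ g / Real.sqrt (X / m) := by gcongr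
      _ = 4 * l / Real.sqrt X * (1 / (m : ℝ) * Real.sqrt m) := by
          rw [hg, Real.sqrt_div hX0.le]
          have : 0 < Real.sqrt X := Real.sqrt_pos.2 hX0
          have : 0 < Real.sqrt m := Real.sqrt_pos.2 hm0
          field_simp
      _ ≤ 4 * l / Real.sqrt X * ((2 * M) ^ (1 / 2 : ℝ) / m) := by gcongr
      _ = _ := by ring
  have e7 : C4 * (Real.log y) ^ 2 * (1 + g / Real.sqrt y) ≤
      C4 * lam ^ 2 * (1 + 4 * l / Real.sqrt X * (2 * M) ^ (1 / 2 : ℝ) / m) := by gcongr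
  have e8 : (lam * C1 * (4 * l) * (X ^ (α - 1) * (2 * M) ^ (1 - α)) + 4 * l / X * b +
      C4 * lam ^ 2 * (4 * l / Real.sqrt X * (2 * M) ^ (1 / 2 : ℝ))) / m + C4 * lam ^ 2 =
      lam * (C1 * (4 * l) * (X ^ (α - 1) * (2 * M) ^ (1 - α)) / m) + 4 * l / X * b / m +
      C4 * lam ^ 2 * (1 + 4 * l / Real.sqrt X * (2 * M) ^ (1 / 2 : ℝ) / m) := by ring
  rw [e8]
  linarith


/-- the sum over `m` -/
private lemma sum_m (s X l M W V lam : ℝ) (hs : s = 1 ∨ s = -1) (hM : 1 ≤ M) (hW : 0 ≤ W) (hV : 0 ≤ V)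
    (hlam : 1 + Real.log (2 * M) ≤ lam)
    (h : ∀ m : ℕ, 1 ≤ m → (m : ℝ) ≤ 2 * M → -(W / m + V) ≤ s * Dm X l m) :
    s * Dm X l 1 ≤ |SS X l M| + (W * lam + V * (2 * M)) := by
  obtain ⟨N, hN⟩ : ∃ N : ℕ, N = ⌊2 * M⌋₊ := ⟨_, rfl⟩
  have hNM : (N : ℝ) ≤ 2 * M := by rw [hN]; exact Nat.floor_le (by linarith)
  have hN1 : 1 ≤ N := by
    rw [hN]
    exact Nat.le_floor (by push_cast; linarith)
  have h1 : s * Dm X l 1 - (W / (1 : ℕ) + V) * 0 ≤ s * SS X l M + ∑ m ∈ Icc 1 N, (W / (m : ℝ) + V) := by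
    have e1 : s * SS X l M + ∑ m ∈ Icc 1 N, (W / (m : ℝ) + V) =
        ∑ m ∈ Icc 1 N, (ww ((m : ℝ) / M) * (s * Dm X l m) + (W / (m : ℝ) + V)) := by
      unfold SS
      rw [← hN, mul_sum, ← sum_add_distrib]
      refine sum_congr rfl fun m _ => by ring
    rw [e1]
    have hnn : ∀ m ∈ Icc 1 N, 0 ≤ ww ((m : ℝ) / M) * (s * Dm X l m) + (W / (m : ℝ) + V) := by
      intro m hm
      rw [mem_Icc] at hm
      have k1 := h m hm.1 ((by exact_mod_cast hm.2 : (m : ℝ) ≤ N).trans hNM)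
      have k2 := ww_nonneg ((m : ℝ) / M)
      have k3 := ww_le ((m : ℝ) / M)
      have hm0 : (0 : ℝ) < m := by exact_mod_cast hm.1
      have k4 : 0 ≤ W / (m : ℝ) + V := by positivity
      nlinarith
    have k1 : s * Dm X l 1 ≤ ww (((1 : ℕ) : ℝ) / M) * (s * Dm X l (1 : ℕ)) + (W / ((1 : ℕ) : ℝ) + V) := by
      rw [ww_one (by
        rw [div_le_one (by linarith)]
        push_cast
        exact hM)]
      have : 0 ≤ W / ((1 : ℕ) : ℝ) + V := by positivity
      linarith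
    have k2 := single_le_sum hnn (mem_Icc.2 ⟨le_rfl, hN1⟩)
    have k3 : s * Dm X l 1 - (W / (1 : ℕ) + V) * 0 = s * Dm X l 1 := by ring
    rw [k3]
    exact k1.trans k2
  have h2 : s * SS X l M ≤ |SS X l M| := by
    rcases hs with h | h <;> rw [h]
    · rw [one_mul]; exact le_abs_self _
    · rw [neg_one_mul]; exact neg_le_abs _
  have h3 : ∑ m ∈ Icc 1 N, (W / (m : ℝ) + V) ≤ W * lam + V * (2 * M) := by
    have e1 : ∑ m ∈ Icc 1 N, (W / (m : ℝ) + V) = W * ∑ m ∈ Icc 1 N, ((m : ℝ))⁻¹ + N * V := by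
      rw [sum_add_distrib, mul_sum, sum_const, Nat.card_Icc, nsmul_eq_mul]
      congr 1
    have e2 : ∑ m ∈ Icc 1 N, ((m : ℝ))⁻¹ ≤ lam := by
      have k1 := harmonic_le_one_add_log N
      have k2 : ((harmonic N : ℚ) : ℝ) = ∑ m ∈ Icc 1 N, ((m : ℝ))⁻¹ := by
        rw [harmonic_eq_sum_Icc]
        push_cast
        rfl
      rw [k2] at k1
      refine k1.trans (le_trans ?_ hlam)
      have : Real.log N ≤ Real.log (2 * M) :=
        Real.log_le_log (by exact_mod_cast hN1) hNM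
      linarith
    rw [e1]
    have k1 := mul_le_mul_of_nonneg_left e2 hW
    have k2 := mul_le_mul_of_nonneg_right hNM hV
    linarith
  have h4 : s * Dm X l 1 - (W / (1 : ℕ) + V) * 0 = s * Dm X l 1 := by ring
  rw [h4] at h1
  linarith


/-- from the windows `(z, z+4l]` to `J = (x, x+h]` -/
private lemma up_x (s α u b C4 C5 x5 x X l lam h : ℝ) (hs : s = 1 ∨ s = -1) (hα1 : α < 1)
    (hX : 3 ≤ X) (hl0 : 0 < l) (hlX : 32 * l ≤ X) (hxX : x = X + 2 * l) (hC5 : 0 < C5)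
    (hC4 : 0 < C4) (hb : 0 ≤ b) (hlam : Real.log (2 * X) ≤ lam) (hx5 : x5 ≤ X) (hu1 : u < 1)
    (hsub : ∀ x L a j : ℝ, x5 ≤ x → L ≤ x / 8 →
      x + 16 * x ^ (1 - u) ≤ a → 0 ≤ j → a + j + 16 * x ^ (1 - u) ≤ x + L →
      |Pi a j| ≤ s * Pi x L + C5 * x ^ (α - 1) * L)
    (hpsp : ∀ y h B : ℝ, 2 ≤ y → 0 ≤ h → h ≤ y →
      (∀ a j : ℝ, y ≤ a → 0 ≤ j → a + j ≤ y + h → |Pi a j| ≤ B) →
      |Ps y h - Real.log y * Pi y h| ≤ h / y * B + C4 * (Real.log y) ^ 2 * (1 + h / Real.sqrt y))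
    (hh : 0 ≤ h) (hmar : h + 32 * x ^ (1 - u) ≤ l)
    (hB : ∀ z : ℝ, X ≤ z → z ≤ X + l → ∀ a j : ℝ, z ≤ a → 0 ≤ j → a + j ≤ z + 4 * l →
      |Pi a j| ≤ b) :
    |Pi x h| - (lam * C5 * (4 * l) * X ^ (α - 1) + 4 * l / X * b +
      C4 * lam ^ 2 * (1 + 4 * l / Real.sqrt X)) ≤ s * Dm X l 1 := by
  have hX0 : 0 < X := by linarith
  refine ker s X l _ 1 hX0 hl0 le_rfl fun z hz1 hz2 => ?_
  rw [Nat.cast_one, div_one, div_one]
  have hz0 : 0 < z := by linarith
  have hzx : z ≤ x := by linarith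
  have hzp : z ^ (1 - u) ≤ x ^ (1 - u) := Real.rpow_le_rpow hz0.le hzx (by linarith)
  have hx0 : 0 ≤ x ^ (1 - u) := Real.rpow_nonneg (by linarith) _
  have e1 := hsub z (4 * l) x h (hx5.trans hz1) (by linarith) (by linarith) hh (by linarith)
  have e2 := hpsp z (4 * l) b (by linarith) (by linarith) (by linarith) (hB z hz1 hz2)
  have e3 : s * (Real.log z * Pi z (4 * l)) - |Ps z (4 * l) - Real.log z * Pi z (4 * l)| ≤
      s * Ps z (4 * l) := by
    have k1 : |s * (Ps z (4 * l) - Real.log z * Pi z (4 * l))| =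
        |Ps z (4 * l) - Real.log z * Pi z (4 * l)| := by
      rw [abs_mul]
      rcases hs with h | h <;> rw [h] <;> simp
    have k2 := neg_abs_le (s * (Ps z (4 * l) - Real.log z * Pi z (4 * l)))
    rw [k1] at k2
    linarith
  have hz3 : Real.exp 1 ≤ z := by
    have := Real.exp_one_lt_d9
    linarith
  have hlog1 : 1 ≤ Real.log z := by
    rw [← Real.log_exp 1]
    exact Real.log_le_log (Real.exp_pos 1) hz3
  have hlogl : Real.log z ≤ lam := (Real.log_le_log hz0 (by linarith)).trans hlam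
  have hlam0 : 0 ≤ lam := by linarith
  have hzα : z ^ (α - 1) ≤ X ^ (α - 1) := Real.rpow_le_rpow_of_nonpos hX0 hz1 (by linarith)
  have hp0 : 0 ≤ C5 * z ^ (α - 1) * (4 * l) := by positivity
  have e4 : |Pi x h| - lam * C5 * (4 * l) * X ^ (α - 1) ≤ s * (Real.log z * Pi z (4 * l)) := by
    have k1 : |Pi x h| - C5 * z ^ (α - 1) * (4 * l) ≤ s * Pi z (4 * l) := by linarith
    have k2 := mul_le_mul_of_nonneg_left k1 (by linarith : 0 ≤ Real.log z)
    have k3 : |Pi x h| ≤ Real.log z * |Pi x h| := le_mul_of_one_le_left (abs_nonneg _) hlog1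
    have k4 : Real.log z * (C5 * z ^ (α - 1) * (4 * l)) ≤ lam * (C5 * X ^ (α - 1) * (4 * l)) := by
      gcongr
    have k5 : s * (Real.log z * Pi z (4 * l)) = Real.log z * (s * Pi z (4 * l)) := by ring
    rw [k5]
    have k6 : lam * C5 * (4 * l) * X ^ (α - 1) = lam * (C5 * X ^ (α - 1) * (4 * l)) := by ring
    rw [k6]
    rw [mul_sub] at k2
    linarith
  have e5 : 4 * l / z * b ≤ 4 * l / X * b := by gcongr
  have e6 : 4 * l / Real.sqrt z ≤ 4 * l / Real.sqrt X := by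
    have : 0 < Real.sqrt X := Real.sqrt_pos.2 hX0
    have := Real.sqrt_le_sqrt hz1
    gcongr
  have e7 : C4 * (Real.log z) ^ 2 * (1 + 4 * l / Real.sqrt z) ≤
      C4 * lam ^ 2 * (1 + 4 * l / Real.sqrt X) := by gcongr
  linarith

/-- numbers -/
private lemma nums (α u e p η c C1 C3 C4 C5 X l M lam : ℝ) (hu : 0 < u) (hp : p = 1 / (1 + u))
    (hα : u ≤ α) (hα2 : 1 / 2 ≤ α) (hα1 : α < 1) (he : e ≤ 1) (hαe : α ≤ e) (hp0 : 0 < p) (hp1 : p < 1)
    (hη : 0 < η) (hc : 0 < c) (hC1 : 0 < C1) (hC3 : 0 < C3) (hC4 : 0 < C4) (hC5 : 0 < C5)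
    (hX : 1 ≤ X) (hl : l ≤ 2 * X ^ (p + η)) (hM : M = X ^ (1 - p))
    (hlam : lam = c * X ^ (η / 3)) :
    (lam * C1 * (4 * l) * (X ^ (α - 1) * (2 * M) ^ (1 - α)) +
      4 * l / X * (36 * C3 * X ^ (η + η / 3) * (X ^ e * (2 * M) ^ (1 - e))) +
      C4 * lam ^ 2 * (4 * l / Real.sqrt X * (2 * M) ^ (1 / 2 : ℝ))) * lam + C4 * lam ^ 2 * (2 * M) ≤
      (16 * c ^ 2 * C1 + 576 * c * C3 + 16 * c ^ 3 * C4 + 2 * c ^ 2 * C4) * X ^ (p * e + 3 * η) ∧
    lam * C5 * (4 * l) * X ^ (α - 1) +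
      4 * l / X * (36 * C3 * X ^ (η + η / 3) * (X ^ e * (2 * M) ^ (1 - e))) +
      C4 * lam ^ 2 * (1 + 4 * l / Real.sqrt X) ≤
      (8 * c * C5 + 576 * C3 + 9 * c ^ 2 * C4) * X ^ (p * e + 3 * η) ∧
    l * (X / M) ^ (α - 1 + η) ≤ 2 * X ^ (p * e + 3 * η) := by
  have hX0 : 0 < X := by linarith
  have hup : 1 - p = p * u := by
    rw [hp]
    have : 1 + u ≠ 0 := by linarith
    field_simp
    ring
  have xp : ∀ {a b : ℝ}, a ≤ b → X ^ a ≤ X ^ b := fun h => Real.rpow_le_rpow_of_exponent_le hX h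
  have hM0 : 0 < M := by rw [hM]; positivity
  have m2 : ∀ κ : ℝ, κ ≤ 1 → (2 * M) ^ κ ≤ 2 * X ^ ((1 - p) * κ) := by
    intro κ h1
    refine (two_pow κ h1 M hM0.le).trans (le_of_eq ?_)
    rw [hM, ← Real.rpow_mul hX0.le]
  have hpα : p * α ≤ p * e := mul_le_mul_of_nonneg_left hαe hp0.le
  have hp2 : p * (1 / 2) ≤ p * e := mul_le_mul_of_nonneg_left (hα2.trans hαe) hp0.le
  have hpu : p * u ≤ p * e := mul_le_mul_of_nonneg_left (hα.trans hαe) hp0.le
  have hpp : 0 ≤ (1 - p) * (1 - α) := mul_nonneg (by linarith) (by linarith)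
  have hpe : 0 ≤ (1 - p) * (1 - e) := mul_nonneg (by linarith) (by linarith)
  have hsq : Real.sqrt X = X ^ (1 / 2 : ℝ) := Real.sqrt_eq_rpow X
  have hX1 : X ^ (-1 : ℝ) = X⁻¹ := Real.rpow_neg_one X
  have hsqi : (X ^ (1 / 2 : ℝ))⁻¹ = X ^ (-(1 / 2) : ℝ) := (Real.rpow_neg hX0.le _).symm
  have hlam0 : 0 < lam := by rw [hlam]; positivity
  -- the second term of `W`
  have n2 : 4 * l / X * (36 * C3 * X ^ (η + η / 3) * (X ^ e * (2 * M) ^ (1 - e))) ≤
      576 * C3 * X ^ (p * e + 2 * η + η / 3) := by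
    calc 4 * l / X * (36 * C3 * X ^ (η + η / 3) * (X ^ e * (2 * M) ^ (1 - e)))
        ≤ 4 * (2 * X ^ (p + η)) / X * (36 * C3 * X ^ (η + η / 3) * (X ^ e * (2 * X ^ ((1 - p) * (1 - e))))) := by
          have := m2 (1 - e) (by linarith)
          gcongr
      _ = 576 * C3 * (X ^ (p + η) * X ^ (-1 : ℝ) * X ^ (η + η / 3) * X ^ e * X ^ ((1 - p) * (1 - e))) := by
          rw [hX1]
          ring
      _ = 576 * C3 * X ^ (p * e + 2 * η + η / 3) := by
          rw [← Real.rpow_add hX0, ← Real.rpow_add hX0, ← Real.rpow_add hX0, ← Real.rpow_add hX0]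
          congr 2
          ring
  have hXη : 0 < X ^ (η / 3) := by positivity
  refine ⟨?_, ?_, ?_⟩
  · have a1 : lam * C1 * (4 * l) * (X ^ (α - 1) * (2 * M) ^ (1 - α)) * lam ≤
        16 * c ^ 2 * C1 * X ^ (p * e + 3 * η) := by
      calc lam * C1 * (4 * l) * (X ^ (α - 1) * (2 * M) ^ (1 - α)) * lam
          ≤ lam * C1 * (4 * (2 * X ^ (p + η))) * (X ^ (α - 1) * (2 * X ^ ((1 - p) * (1 - α)))) * lam := by
            have := m2 (1 - α) (by linarith)
            gcongr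
        _ = 16 * c ^ 2 * C1 * (X ^ (η / 3) * X ^ (η / 3) * X ^ (p + η) * X ^ (α - 1) *
              X ^ ((1 - p) * (1 - α))) := by
            rw [hlam]
            ring
        _ = 16 * c ^ 2 * C1 * X ^ (p * α + η + 2 * (η / 3)) := by
            rw [← Real.rpow_add hX0, ← Real.rpow_add hX0, ← Real.rpow_add hX0, ← Real.rpow_add hX0]
            congr 2
            ring
        _ ≤ _ := by
            have := xp (a := p * α + η + 2 * (η / 3)) (b := p * e + 3 * η) (by linarith)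
            gcongr
    have a2 : 4 * l / X * (36 * C3 * X ^ (η + η / 3) * (X ^ e * (2 * M) ^ (1 - e))) * lam ≤
        576 * c * C3 * X ^ (p * e + 3 * η) := by
      calc 4 * l / X * (36 * C3 * X ^ (η + η / 3) * (X ^ e * (2 * M) ^ (1 - e))) * lam
          ≤ 576 * C3 * X ^ (p * e + 2 * η + η / 3) * lam := by gcongr
        _ = 576 * c * C3 * (X ^ (p * e + 2 * η + η / 3) * X ^ (η / 3)) := by
            rw [hlam]
            ring
        _ = 576 * c * C3 * X ^ (p * e + 2 * η + η / 3 + η / 3) := by rw [← Real.rpow_add hX0]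
        _ ≤ _ := by
            have := xp (a := p * e + 2 * η + η / 3 + η / 3) (b := p * e + 3 * η) (by linarith)
            gcongr
    have a3 : C4 * lam ^ 2 * (4 * l / Real.sqrt X * (2 * M) ^ (1 / 2 : ℝ)) * lam ≤
        16 * c ^ 3 * C4 * X ^ (p * e + 3 * η) := by
      calc C4 * lam ^ 2 * (4 * l / Real.sqrt X * (2 * M) ^ (1 / 2 : ℝ)) * lam
          ≤ C4 * lam ^ 2 * (4 * (2 * X ^ (p + η)) / X ^ (1 / 2 : ℝ) * (2 * X ^ ((1 - p) * (1 / 2)))) * lam := by
            have := m2 (1 / 2) (by norm_num)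
            rw [hsq]
            gcongr
        _ = 16 * c ^ 3 * C4 * (X ^ (η / 3) * X ^ (η / 3) * X ^ (η / 3) * X ^ (p + η) *
              X ^ (-(1 / 2) : ℝ) * X ^ ((1 - p) * (1 / 2))) := by
            rw [hlam, ← hsqi]
            ring
        _ = 16 * c ^ 3 * C4 * X ^ (p * (1 / 2) + 2 * η) := by
            rw [← Real.rpow_add hX0, ← Real.rpow_add hX0, ← Real.rpow_add hX0, ← Real.rpow_add hX0,
              ← Real.rpow_add hX0]
            congr 2
            ring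
        _ ≤ _ := by
            have := xp (a := p * (1 / 2) + 2 * η) (b := p * e + 3 * η) (by linarith)
            gcongr
    have a4 : C4 * lam ^ 2 * (2 * M) ≤ 2 * c ^ 2 * C4 * X ^ (p * e + 3 * η) := by
      calc C4 * lam ^ 2 * (2 * M) = 2 * c ^ 2 * C4 * (X ^ (η / 3) * X ^ (η / 3) * X ^ (1 - p)) := by
            rw [hlam, hM]
            ring
        _ = 2 * c ^ 2 * C4 * X ^ (η / 3 + η / 3 + (1 - p)) := by
            rw [← Real.rpow_add hX0, ← Real.rpow_add hX0]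
        _ ≤ _ := by
            have := xp (a := η / 3 + η / 3 + (1 - p)) (b := p * e + 3 * η) (by linarith)
            gcongr
    nlinarith [a1, a2, a3, a4]
  · have b1 : lam * C5 * (4 * l) * X ^ (α - 1) ≤ 8 * c * C5 * X ^ (p * e + 3 * η) := by
      calc lam * C5 * (4 * l) * X ^ (α - 1) ≤ lam * C5 * (4 * (2 * X ^ (p + η))) * X ^ (α - 1) := by gcongr
        _ = 8 * c * C5 * (X ^ (η / 3) * X ^ (p + η) * X ^ (α - 1)) := by
            rw [hlam]
            ring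
        _ = 8 * c * C5 * X ^ (η / 3 + (p + η) + (α - 1)) := by
            rw [← Real.rpow_add hX0, ← Real.rpow_add hX0]
        _ ≤ _ := by
            have := xp (a := η / 3 + (p + η) + (α - 1)) (b := p * e + 3 * η) (by nlinarith)
            gcongr
    have b2 : 576 * C3 * X ^ (p * e + 2 * η + η / 3) ≤ 576 * C3 * X ^ (p * e + 3 * η) := by
      have := xp (a := p * e + 2 * η + η / 3) (b := p * e + 3 * η) (by linarith)
      gcongr
    have b3 : C4 * lam ^ 2 * (1 + 4 * l / Real.sqrt X) ≤ 9 * c ^ 2 * C4 * X ^ (p * e + 3 * η) := by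
      calc C4 * lam ^ 2 * (1 + 4 * l / Real.sqrt X)
          ≤ C4 * lam ^ 2 * (1 + 4 * (2 * X ^ (p + η)) / X ^ (1 / 2 : ℝ)) := by
            rw [hsq]
            gcongr
        _ = c ^ 2 * C4 * (X ^ (η / 3) * X ^ (η / 3)) +
            8 * c ^ 2 * C4 * (X ^ (η / 3) * X ^ (η / 3) * X ^ (p + η) * X ^ (-(1 / 2) : ℝ)) := by
            rw [hlam, ← hsqi]
            ring
        _ = c ^ 2 * C4 * X ^ (η / 3 + η / 3) +
            8 * c ^ 2 * C4 * X ^ (η / 3 + η / 3 + (p + η) + (-(1 / 2))) := by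
            rw [← Real.rpow_add hX0, ← Real.rpow_add hX0, ← Real.rpow_add hX0]
        _ ≤ c ^ 2 * C4 * X ^ (p * e + 3 * η) + 8 * c ^ 2 * C4 * X ^ (p * e + 3 * η) := by
            have h1 := xp (a := η / 3 + η / 3) (b := p * e + 3 * η) (by nlinarith)
            have h2 := xp (a := η / 3 + η / 3 + (p + η) + (-(1 / 2))) (b := p * e + 3 * η) (by nlinarith)
            gcongr
        _ = _ := by ring
    nlinarith [b1, b2, b3, n2]
  · have e1 : X / M = X ^ p := by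
      rw [hM, div_eq_iff (by positivity), ← Real.rpow_add hX0]
      have : p + (1 - p) = 1 := by ring
      rw [this, Real.rpow_one]
    rw [e1, ← Real.rpow_mul hX0.le]
    calc l * X ^ (p * (α - 1 + η)) ≤ 2 * X ^ (p + η) * X ^ (p * (α - 1 + η)) := by gcongr
      _ = 2 * X ^ (p + η + p * (α - 1 + η)) := by rw [mul_assoc, ← Real.rpow_add hX0]
      _ ≤ _ := by
          have := xp (a := p + η + p * (α - 1 + η)) (b := p * e + 3 * η) (by nlinarith)
          gcongr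


theorem stp (s α u e : ℝ) (hs : s = 1 ∨ s = -1) (hu : 0 < u) (hu1 : u < 1) (hα : u ≤ α)
    (hα2 : 1 / 2 ≤ α) (hα1 : α < 1) (he : e ≤ 1) (hαe : α ≤ e) (h : One s α u) (hS : Ssp α)
    (hP : PP u e) : PP u (e / (1 + u)) := by
  intro ε hε
  obtain ⟨p, hp⟩ : ∃ p : ℝ, p = 1 / (1 + u) := ⟨_, rfl⟩
  have h1u : 0 < 1 + u := by linarith
  have hp0 : 0 < p := by rw [hp]; positivity
  have hp1 : p < 1 := by rw [hp, div_lt_one h1u]; linarith
  have hup : 1 - p = p * u := by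
    rw [hp]
    field_simp
    ring
  have hpe : e / (1 + u) = p * e := by rw [hp]; ring
  have hup0 : 0 < p * u := by positivity
  -- `1 - u < p`, `(1-u) + u (1-p) = p`
  have hpu2 : 1 - u + u * (1 - p) = p := by
    have : p * (1 + u) = 1 := by rw [hp]; field_simp
    linarith
  have hlt : 1 - u < p := by
    have : 0 < u * (1 - p) := by rw [hup]; positivity
    linarith
  -- `η`
  obtain ⟨η, hη, hη1, hη2, hη3⟩ : ∃ η : ℝ, 0 < η ∧ 3 * η ≤ ε ∧ η ≤ (1 - p) / 2 ∧ η ≤ p / 2 := by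
    refine ⟨min (ε / 3) (min ((1 - p) / 2) (p / 2)), by
      have : 0 < 1 - p := by linarith
      positivity, ?_, ?_, ?_⟩
    · have := min_le_left (ε / 3) (min ((1 - p) / 2) (p / 2))
      linarith
    · exact (min_le_right _ _).trans (min_le_left _ _)
    · exact (min_le_right _ _).trans (min_le_right _ _)
  have hη4 : η / 3 ≤ 1 := by linarith
  obtain ⟨C1, x1, hC1, hx1, hone⟩ := h
  obtain ⟨C2, x2, hC2, hx2, hss⟩ := hS η hη
  obtain ⟨C3, x3, hC3, hx3, hext⟩ := ext u e hu (by linarith) hP (η / 3) (by linarith)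
  obtain ⟨C4, hC4, hpsp⟩ := psp
  obtain ⟨C5, x5, hC5, hx5, hsub⟩ := sub s α u hs hu hu1 (by linarith) hα1 ⟨C1, x1, hC1, hx1, hone⟩
  rw [← hp] at hext
  obtain ⟨c, hc⟩ : ∃ c : ℝ, c = 2 + 1 / (η / 3) := ⟨_, rfl⟩
  have hc0 : 0 < c := by rw [hc]; positivity
  -- the thresholds
  have ev1 : ∀ᶠ x : ℝ in Filter.atTop, 64 * x ^ (p + η) ≤ x := by
    have h1 : Filter.Tendsto (fun x : ℝ => x ^ (1 - (p + η))) Filter.atTop Filter.atTop :=
      tendsto_rpow_atTop (by linarith)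
    filter_upwards [h1.eventually_ge_atTop 64, Filter.eventually_gt_atTop 0] with x h2 h3
    calc 64 * x ^ (p + η) ≤ x ^ (1 - (p + η)) * x ^ (p + η) := by gcongr
      _ = x := by
          rw [← Real.rpow_add h3]
          have : 1 - (p + η) + (p + η) = 1 := by ring
          rw [this, Real.rpow_one]
  have ev2 : ∀ᶠ x : ℝ in Filter.atTop, x ^ p + 32 * x ^ (1 - u) ≤ x ^ (p + η) := by
    have h1 : Filter.Tendsto (fun x : ℝ => x ^ η) Filter.atTop Filter.atTop := tendsto_rpow_atTop hη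
    filter_upwards [h1.eventually_ge_atTop 33, Filter.eventually_ge_atTop 1] with x h2 h3
    have h0 : 0 < x := by linarith
    have h4 : x ^ (1 - u) ≤ x ^ p := Real.rpow_le_rpow_of_exponent_le h3 hlt.le
    calc x ^ p + 32 * x ^ (1 - u) ≤ 33 * x ^ p := by linarith
      _ ≤ x ^ η * x ^ p := by gcongr
      _ = x ^ (p + η) := by rw [← Real.rpow_add h0]; congr 1; ring
  have ev3 : ∀ᶠ x : ℝ in Filter.atTop, 2 * max x1 x3 ≤ (x / 2) ^ p := by
    have h1 : Filter.Tendsto (fun x : ℝ => (x / 2) ^ p) Filter.atTop Filter.atTop :=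
      (tendsto_rpow_atTop hp0).comp (Filter.tendsto_id.atTop_div_const (by norm_num))
    exact h1.eventually_ge_atTop _
  have ev4 : ∀ᶠ x : ℝ in Filter.atTop, 2 * max 3 (max x2 (max x3 x5)) ≤ x := Filter.eventually_ge_atTop _
  have ev5 : ∀ᶠ x : ℝ in Filter.atTop, 2 ≤ (x / 2) ^ η := by
    have h1 : Filter.Tendsto (fun x : ℝ => (x / 2) ^ η) Filter.atTop Filter.atTop :=
      (tendsto_rpow_atTop hη).comp (Filter.tendsto_id.atTop_div_const (by norm_num))
    exact h1.eventually_ge_atTop _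
  obtain ⟨x0, hx0⟩ := Filter.eventually_atTop.1 (ev1.and (ev2.and (ev3.and (ev4.and ev5))))
  obtain ⟨K1, hK1⟩ : ∃ K : ℝ, K = 16 * c ^ 2 * C1 + 576 * c * C3 + 16 * c ^ 3 * C4 + 2 * c ^ 2 * C4 := ⟨_, rfl⟩
  obtain ⟨K2, hK2⟩ : ∃ K : ℝ, K = 8 * c * C5 + 576 * C3 + 9 * c ^ 2 * C4 := ⟨_, rfl⟩
  have hK10 : 0 < K1 := by rw [hK1]; positivity
  have hK20 : 0 < K2 := by rw [hK2]; positivity
  refine ⟨3 * C2 + K1 + K2, max x0 2, by positivity, le_max_right _ _, fun x hh hx hh0 hhp => ?_⟩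
  obtain ⟨g1, g2, g3, g4, g5⟩ := hx0 x ((le_max_left _ _).trans hx)
  have hx2' : 2 ≤ x := (le_max_right _ _).trans hx
  have hxp : 0 < x := by linarith
  rw [← hp] at hhp
  rw [hpe]
  -- `l`, `X`, `M`
  obtain ⟨l, hl⟩ : ∃ l : ℝ, l = x ^ (p + η) := ⟨_, rfl⟩
  have hl0 : 0 < l := by rw [hl]; positivity
  rw [← hl] at g1 g2
  obtain ⟨X, hX⟩ : ∃ X : ℝ, X = x - 2 * l := ⟨_, rfl⟩
  have hXx : x / 2 ≤ X := by rw [hX]; linarith
  have hXx2 : X ≤ x := by rw [hX]; linarith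
  have hX3 : 3 ≤ X := by
    have : (3 : ℝ) ≤ max 3 (max x2 (max x3 x5)) := le_max_left _ _
    linarith
  have hXx2' : x2 ≤ X := by
    have : x2 ≤ max 3 (max x2 (max x3 x5)) := (le_max_left _ _).trans (le_max_right _ _)
    linarith
  have hXx3 : x3 ≤ X := by
    have : x3 ≤ max 3 (max x2 (max x3 x5)) :=
      (le_max_left _ _).trans ((le_max_right _ _).trans (le_max_right _ _))
    linarith
  have hXx5 : x5 ≤ X := by
    have : x5 ≤ max 3 (max x2 (max x3 x5)) :=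
      (le_max_right _ _).trans ((le_max_right _ _).trans (le_max_right _ _))
    linarith
  have hX1 : 1 ≤ X := by linarith
  have hX0 : 0 < X := by linarith
  have hl32 : 32 * l ≤ X := by linarith
  obtain ⟨M, hM⟩ : ∃ M : ℝ, M = X ^ (1 - p) := ⟨_, rfl⟩
  have hM1 : 1 ≤ M := by rw [hM]; exact Real.one_le_rpow hX1 (by linarith)
  have hM0 : 0 < M := by linarith
  have hlX : l ≤ 2 * X ^ (p + η) := by
    rw [hl]
    calc x ^ (p + η) ≤ (2 * X) ^ (p + η) := Real.rpow_le_rpow hxp.le (by linarith) (by linarith)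
      _ ≤ _ := two_pow _ (by linarith) X hX0.le
  have hXl : X ^ (p + η) ≤ l := by rw [hl]; exact Real.rpow_le_rpow hX0.le hXx2 (by linarith)
  -- logarithms
  obtain ⟨lam, hlam⟩ : ∃ lam : ℝ, lam = c * X ^ (η / 3) := ⟨_, rfl⟩
  have hXη1 : 1 ≤ X ^ (η / 3) := Real.one_le_rpow hX1 (by linarith)
  have hlogX : Real.log X ≤ X ^ (η / 3) / (η / 3) := Real.log_le_rpow_div hX0.le (by linarith)
  have hlog2 : Real.log 2 ≤ 1 := by
    have := Real.log_two_lt_d9
    linarith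
  have hlam1 : 2 + Real.log X ≤ lam := by
    rw [hlam, hc]
    have : (2 + 1 / (η / 3)) * X ^ (η / 3) = 2 * X ^ (η / 3) + X ^ (η / 3) / (η / 3) := by ring
    rw [this]
    linarith
  have hlamX : Real.log (2 * X) ≤ lam := by
    rw [Real.log_mul (by norm_num) hX0.ne']
    linarith
  have hMX : M ≤ X := by
    rw [hM]
    calc X ^ (1 - p) ≤ X ^ (1 : ℝ) := Real.rpow_le_rpow_of_exponent_le hX1 (by linarith)
      _ = X := Real.rpow_one X
  have hlamM : 1 + Real.log (2 * M) ≤ lam := by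
    rw [Real.log_mul (by norm_num) hM0.ne']
    have := Real.log_le_log hM0 hMX
    linarith
  have hlam0 : 0 < lam := by rw [hlam]; positivity
  -- `X / (2M) = X^p / 2`
  have hXM : X / M = X ^ p := by
    rw [hM, div_eq_iff (by positivity), ← Real.rpow_add hX0]
    have : p + (1 - p) = 1 := by ring
    rw [this, Real.rpow_one]
  have hthr : max x1 x3 ≤ X / (2 * M) := by
    have e1 : X / (2 * M) = X ^ p / 2 := by rw [← hXM]; field_simp
    rw [e1]
    have e2 : (x / 2) ^ p ≤ X ^ p := Real.rpow_le_rpow (by linarith) hXx hp0.le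
    linarith
  -- the bound `b`
  obtain ⟨b, hb⟩ : ∃ b : ℝ, b = 36 * C3 * X ^ (η + η / 3) * (X ^ e * (2 * M) ^ (1 - e)) := ⟨_, rfl⟩
  have hb0 : 0 ≤ b := by rw [hb]; positivity
  have hBb : ∀ z m : ℝ, X ≤ z → z ≤ X + l → 1 ≤ m → m ≤ 2 * M → ∀ a j : ℝ, z / m ≤ a → 0 ≤ j →
      a + j ≤ z / m + 4 * l / m → |Pi a j| ≤ b / m := by
    intro z m hz1 hz2 hm1 hm2 a j h1 h2 h3
    rw [hb]
    refine sub_b e p η (η / 3) C3 x3 X l M (by linarith) he hp0.le hp1.le (by linarith) hη4 hC3 hX1 hl0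
      hlX hη.le (by linarith) hext z m hz1 hz2 hm1 hm2 ?_ a j h1 h2 h3
    refine (le_max_right x1 x3).trans (hthr.trans ?_)
    have : 0 < m := by linarith
    have : 0 ≤ z := by linarith
    gcongr
  -- lower bounds
  obtain ⟨W, hW⟩ : ∃ W : ℝ, W = lam * C1 * (4 * l) * (X ^ (α - 1) * (2 * M) ^ (1 - α)) + 4 * l / X * b +
      C4 * lam ^ 2 * (4 * l / Real.sqrt X * (2 * M) ^ (1 / 2 : ℝ)) := ⟨_, rfl⟩
  have hW0 : 0 ≤ W := by rw [hW]; positivity
  have hlow : ∀ m : ℕ, 1 ≤ m → (m : ℝ) ≤ 2 * M → -(W / m + C4 * lam ^ 2) ≤ s * Dm X l m := by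
    intro m hm1 hm2
    have hmr : (1 : ℝ) ≤ m := by exact_mod_cast hm1
    have hm0 : (0 : ℝ) < m := by linarith
    rw [hW]
    refine low_m s α u b C1 C4 x1 X l M lam hs hα1 hX1 hl0 (by linarith) hM1 hC1 hC4 hb0 hlamX hx1
      hone hpsp m hm1 hm2 ?_ ?_ hu1 (fun z hz1 hz2 => hBb z m hz1 hz2 hmr hm2)
    · refine (le_max_left x1 x3).trans (hthr.trans ?_)
      gcongr
    · rw [le_div_iff₀ hm0]
      have e1 : (2 * X / (m : ℝ)) ^ (1 - u) * m ≤ 2 * X ^ p := by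
        calc (2 * X / (m : ℝ)) ^ (1 - u) * m = (2 * X) ^ (1 - u) * (m : ℝ) ^ u := by
              rw [Real.div_rpow (by linarith) hm0.le, div_mul_eq_mul_div, mul_div_assoc]
              congr 1
              nth_rewrite 1 [← Real.rpow_one (m : ℝ)]
              rw [← Real.rpow_sub hm0]
              congr 1
              ring
          _ ≤ (2 * X) ^ (1 - u) * (2 * M) ^ u := by gcongr
          _ = 2 ^ (1 - u) * 2 ^ u * (X ^ (1 - u) * M ^ u) := by
              rw [Real.mul_rpow (by norm_num) hX0.le, Real.mul_rpow (by norm_num) hM0.le]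
              ring
          _ = 2 * X ^ p := by
              rw [← Real.rpow_add (by norm_num), hM, ← Real.rpow_mul hX0.le, ← Real.rpow_add hX0]
              have k1 : 1 - u + u = (1 : ℝ) := by ring
              have k2 : 1 - u + (1 - p) * u = p := by linarith
              rw [k1, k2, Real.rpow_one]
      have e2 : 2 * X ^ p ≤ l := by
        calc 2 * X ^ p ≤ X ^ η * X ^ p := by
              have : (x / 2) ^ η ≤ X ^ η := Real.rpow_le_rpow (by linarith) hXx hη.le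
              have : 2 ≤ X ^ η := by linarith
              gcongr
          _ = X ^ (p + η) := by rw [← Real.rpow_add hX0]; congr 1; ring
          _ ≤ l := hXl
      linarith
  have hD1 := sum_m s X l M W (C4 * lam ^ 2) lam hs hM1 hW0 (by positivity) hlamM hlow
  have hup1 := up_x s α u b C4 C5 x5 x X l lam hh hs hα1 hX3 hl0 hl32 (by rw [hX]; ring) hC5 hC4 hb0 hlamX
    hXx5 hu1 hsub hpsp hh0 (by linarith) (by
      intro z hz1 hz2 a j h1 h2 h3
      have := hBb z 1 hz1 hz2 le_rfl (by linarith) a j (by simpa using h1) h2 (by simpa using h3)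
      simpa using this)
  obtain ⟨n1, n2, n3⟩ := nums α u e p η c C1 C3 C4 C5 X l M lam hu hp hα hα2 hα1 he hαe hp0 hp1 hη hc0
    hC1 hC3 hC4 hC5 hX1 hlX hM hlam
  rw [← hb, ← hW, ← hK1] at n1
  rw [← hb, ← hK2] at n2
  have hSS := hss X l M hXx2' ?_ (by linarith) ?_ ?_
  · have hQ1 : 1 ≤ X ^ (p * e + 3 * η) := Real.one_le_rpow hX1 (by
      have : 0 ≤ p * e := mul_nonneg hp0.le (by linarith)
      linarith)
    have hQx : X ^ (p * e + 3 * η) ≤ x ^ (p * e + ε) := by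
      have h0 : 0 ≤ p * e := mul_nonneg hp0.le (by linarith)
      calc X ^ (p * e + 3 * η) ≤ x ^ (p * e + 3 * η) := Real.rpow_le_rpow hX0.le hXx2 (by linarith)
        _ ≤ _ := Real.rpow_le_rpow_of_exponent_le (by linarith) (by linarith)
    have k1 : C2 * (l * (X / M) ^ (α - 1 + η)) + C2 ≤ 3 * C2 * X ^ (p * e + 3 * η) := by
      have := mul_le_mul_of_nonneg_left n3 hC2.le
      have := mul_le_mul_of_nonneg_left hQ1 hC2.le
      linarith
    have k2 : |Pi x hh| ≤ (3 * C2 + K1 + K2) * X ^ (p * e + 3 * η) := by linarith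
    exact k2.trans (mul_le_mul_of_nonneg_left hQx (by positivity))
  · exact (Real.rpow_le_rpow_of_exponent_le hX1 (by linarith)).trans hXl
  · calc X ^ (1 + η) = X ^ (p + η) * X ^ (1 - p) := by
          rw [← Real.rpow_add hX0]
          congr 1
          ring
      _ ≤ l * M := by rw [← hM]; gcongr
  · rw [hM]
    exact Real.rpow_le_rpow_of_exponent_le hX1 (by linarith)

end Pool.Agent.H67.TS
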