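import Pool.Agent.H67.TS.Defs
import Pool.Agent.H48.WN.Coc

/-!
# [H67 TS SUB] the subinterval lemma (helper24, helper73)

PROOF. `k = 8 x^(1-u)`. (1) `s Pi a j = s Pi x L - s Pi x (a-x) - s Pi (a+j) (x+L-a-j) ≤ s Pi x L + 2 C x^(α-1) L`: both rests
have length `≥ 8 x^(1-u) ≥ 4 (2x)^(1-u)`. The same for `(a+j, a+j+k]`: its margins are `≥ 8 x^(1-u)`.
(2) `s Pi a j = s Pi a (j+k) - s Pi (a+j) k ≥ -C x^(α-1) L - (s Pi x L + 2 C x^(α-1) L)` (`4 a^(1-u) ≤ 4 (2x)^(1-u) ≤ k`).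
`y^(α-1) ≤ x^(α-1)` for `y ≥ x`. Additivity: `pi_coc.add` (`H48/WN/Coc`).
-/

set_option autoImplicit false

namespace Pool.Agent.H67.TS

open Finset Pool.Agent.H48.WN

private theorem core {s α u C x L κ : ℝ} (hu1 : u < 1) (hu : 0 < u) (hα1 : α < 1) (hC : 0 < C) (_ : 2 ≤ x)
    (hκ : κ = x ^ (1 - u)) (hL0 : 0 < L) (hL : L ≤ x / 8)
    (H : ∀ y h : ℝ, x ≤ y → 4 * y ^ (1 - u) ≤ h → h ≤ y → -(C * y ^ (α - 1) * h) ≤ s * Pi y h)
    {y h : ℝ} (h1 : x ≤ y) (h2 : y ≤ x + L) (h3 : 8 * κ ≤ h) (h4 : h ≤ L) :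
    -(C * x ^ (α - 1) * L) ≤ s * Pi y h := by
  have hx0 : 0 < x := by linarith
  have e1 : y ^ (1 - u) ≤ 2 * κ := by
    have a1 : y ^ (1 - u) ≤ (2 * x) ^ (1 - u) := by
      apply Real.rpow_le_rpow (by linarith) (by linarith) (by linarith)
    have a2 : (2 * x) ^ (1 - u) = (2 : ℝ) ^ (1 - u) * x ^ (1 - u) := Real.mul_rpow (by norm_num) hx0.le
    have a3 : (2 : ℝ) ^ (1 - u) ≤ 2 := by
      calc (2 : ℝ) ^ (1 - u) ≤ 2 ^ (1 : ℝ) := Real.rpow_le_rpow_of_exponent_le (by norm_num) (by linarith)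
        _ = 2 := Real.rpow_one 2
    have a4 : 0 < x ^ (1 - u) := Real.rpow_pos_of_pos hx0 _
    rw [hκ]
    nlinarith
  have e2 := H y h h1 (by linarith) (by linarith)
  have e3 : y ^ (α - 1) ≤ x ^ (α - 1) := Real.rpow_le_rpow_of_nonpos hx0 h1 (by linarith)
  have e4 : 0 < y ^ (α - 1) := Real.rpow_pos_of_pos (by linarith) _
  have hκ0 : 0 < κ := by rw [hκ]; exact Real.rpow_pos_of_pos hx0 _
  have e5 : C * y ^ (α - 1) * h ≤ C * x ^ (α - 1) * L := by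
    apply mul_le_mul (mul_le_mul_of_nonneg_left e3 hC.le) h4 (by linarith)
    exact mul_nonneg hC.le (Real.rpow_nonneg hx0.le _)
  linarith

theorem sub (s α u : ℝ) (hs : s = 1 ∨ s = -1) (hu : 0 < u) (hu1 : u < 1) (hα0 : 0 ≤ α) (hα1 : α < 1)
    (h : One s α u) : ∃ C x0 : ℝ, 0 < C ∧ 2 ≤ x0 ∧ ∀ x L a j : ℝ, x0 ≤ x → L ≤ x / 8 →
      x + 16 * x ^ (1 - u) ≤ a → 0 ≤ j → a + j + 16 * x ^ (1 - u) ≤ x + L →
      |Pi a j| ≤ s * Pi x L + C * x ^ (α - 1) * L := by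
  obtain ⟨C, x0, hC, hx0, H⟩ := h
  refine ⟨3 * C, x0, by positivity, hx0, fun x L a j hx hL ha hj haj => ?_⟩
  have hxp : 0 < x := by linarith
  obtain ⟨κ, hκ⟩ : ∃ κ, κ = x ^ (1 - u) := ⟨_, rfl⟩
  have hκ0 : 0 < κ := by rw [hκ]; exact Real.rpow_pos_of_pos hxp _
  rw [← hκ] at ha haj
  have hL0 : 0 < L := by linarith
  have K : ∀ y h : ℝ, x ≤ y → y ≤ x + L → 8 * κ ≤ h → h ≤ L → -(C * x ^ (α - 1) * L) ≤ s * Pi y h :=
    fun y h h1 h2 h3 h4 => core hu1 hu hα1 hC (by linarith) hκ hL0 hL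
      (fun y h b1 b2 b3 => H y h (by linarith) b2 b3) h1 h2 h3 h4
  obtain ⟨D, hD⟩ : ∃ D, D = C * x ^ (α - 1) * L := ⟨_, rfl⟩
  rw [← hD] at K
  have hD0 : 0 ≤ D := by rw [hD]; exact mul_nonneg (mul_nonneg hC.le (Real.rpow_nonneg hxp.le _)) hL0.le
  have U : ∀ b m : ℝ, x + 8 * κ ≤ b → 0 ≤ m → b + m + 8 * κ ≤ x + L → s * Pi b m ≤ s * Pi x L + 2 * D := by
    intro b m h1 h2 h3
    have a1 := pi_coc.add x (b - x) (m + (x + L - b - m)) hxp.le (by linarith) (by linarith)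
    have a2 := pi_coc.add b m (x + L - b - m) (by linarith) h2 (by linarith)
    have a3 : x + (b - x) = b := by ring
    have a4 : b - x + (m + (x + L - b - m)) = L := by ring
    rw [a4, a3, a2] at a1
    have a5 := K x (b - x) le_rfl (by linarith) (by linarith) (by linarith)
    have a6 := K (b + m) (x + L - b - m) (by linarith) (by linarith) (by linarith) (by linarith)
    have a7 : s * Pi x L = s * Pi x (b - x) + s * Pi b m + s * Pi (b + m) (x + L - b - m) := by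
      rw [a1]; ring
    linarith
  have u1 := U a j (by linarith) hj (by linarith)
  have u2 := U (a + j) (8 * κ) (by linarith) (by linarith) (by linarith)
  have u3 := K a (j + 8 * κ) (by linarith) (by linarith) (by linarith) (by linarith)
  have u4 := pi_coc.add a j (8 * κ) (by linarith) hj (by linarith)
  have u5 : s * Pi a (j + 8 * κ) = s * Pi a j + s * Pi (a + j) (8 * κ) := by rw [u4]; ring
  have u6 : |Pi a j| = |s * Pi a j| := by
    rcases hs with hs | hs <;> rw [hs] <;> simp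
  have u7 : 3 * C * x ^ (α - 1) * L = 3 * D := by rw [hD]; ring
  rw [u6, u7, abs_le]
  constructor <;> linarith

end Pool.Agent.H67.TS
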