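import Pool.Agent.H67.TS.Asm
import Pool.Agent.H67.TS.Gfm
import Pool.Agent.H24.WH.Mai

/-!
# [H67 TS TWO] the final theorem from its two halves

`δ(θ) = max (min θ (1/2 - θ) * max (1/3) (1/2 - θ)) (θ - 1/(3-θ))`. The first term is for `θ < 1/2`: the moment of order `2k`,
`k = 2` for `θ ≥ 1/6` and `k = ⌊1/(2θ)⌋` for `θ < 1/6`.
-/

set_option autoImplicit false

namespace Pool.Agent.H67.TS

open Finset Pool.Agent.H48.WN

/-- the statement of `gbk`: mean errors from the moment of order `2k` -/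
def GbkStmt : Prop := ∀ (k : ℕ) (θ ε c : ℝ), 2 ≤ k → 0 < θ → θ < 1 / 2 → 0 < ε → 0 < c →
    ∃ X0 : ℕ, ∀ X : ℕ, X0 ≤ X → ∀ A : ℝ, (X : ℝ) ^ θ ≤ A → A ≤ 4 * (X : ℝ) ^ θ →
      ∃ H : ℕ, A ≤ H ∧ (H : ℝ) ≤ (1 + c) * A ∧
        (X : ℝ) ^ (1 + min (((k : ℝ) - 1) * θ) (1 / 2 - θ) / (2 * (k : ℝ) - 1) - ε) ≤
          ∑ n ∈ Ioc X (2 * X), |EI n H|

/-- the exponent for `θ < 1/2` -/
theorem exp_k (θ : ℝ) (h0 : 0 < θ) (h1 : θ < 1 / 2) : ∃ k : ℕ, 2 ≤ k ∧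
    min θ (1 / 2 - θ) * max (1 / 3) (1 / 2 - θ) ≤ min (((k : ℝ) - 1) * θ) (1 / 2 - θ) / (2 * (k : ℝ) - 1) := by
  rcases le_or_gt (1 / 6) θ with h | h
  · refine ⟨2, le_refl _, ?_⟩
    rw [max_eq_left (by linarith)]
    apply le_of_eq
    norm_num
    ring
  · obtain ⟨k, hk⟩ : ∃ k : ℕ, k = ⌊1 / (2 * θ)⌋₊ := ⟨_, rfl⟩
    have h2 : 0 < 2 * θ := by linarith
    have hk1 : (k : ℝ) ≤ 1 / (2 * θ) := by
      rw [hk]
      exact Nat.floor_le (by positivity)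
    have hk2 : 1 / (2 * θ) < (k : ℝ) + 1 := by
      rw [hk]
      exact Nat.lt_floor_add_one _
    rw [le_div_iff₀ h2] at hk1
    rw [div_lt_iff₀ h2] at hk2
    have hk3 : 2 ≤ k := by
      by_contra hc
      have : k ≤ 1 := by omega
      have : (k : ℝ) ≤ 1 := by exact_mod_cast this
      nlinarith
    refine ⟨k, hk3, ?_⟩
    have hk4 : (2 : ℝ) ≤ k := by exact_mod_cast hk3
    rw [max_eq_right (by linarith), min_eq_left (by linarith), min_eq_left (by nlinarith),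
      le_div_iff₀ (by linarith)]
    nlinarith [mul_pos h0 h0]

/-- the half `θ < 1/2` -/
theorem gbh (hgb : GbkStmt) (s θ ε : ℝ) (hs : s = 1 ∨ s = -1) (h0 : 0 < θ) (h1 : θ < 1 / 2)
    (hε : 0 < ε) (N : ℕ) :
    ∃ n H : ℕ, N ≤ n ∧ (n : ℝ) ^ θ ≤ H ∧ (H : ℝ) ≤ 2 * (n : ℝ) ^ θ ∧
      (n : ℝ) ^ (min θ (1 / 2 - θ) * max (1 / 3) (1 / 2 - θ) - ε) ≤ s * EI n H := by
  obtain ⟨k, hk, hexp⟩ := exp_k θ h0 h1
  have hk4 : (2 : ℝ) ≤ k := by exact_mod_cast hk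
  obtain ⟨m, hm⟩ : ∃ m : ℝ, m = min (((k : ℝ) - 1) * θ) (1 / 2 - θ) / (2 * (k : ℝ) - 1) := ⟨_, rfl⟩
  rw [← hm] at hexp
  have hm0 : 0 < m := by
    have h2 : 0 < ((k : ℝ) - 1) * θ := mul_pos (by linarith) h0
    have : 0 < min (((k : ℝ) - 1) * θ) (1 / 2 - θ) := lt_min h2 (by linarith)
    have h3 : 0 < 2 * (k : ℝ) - 1 := by linarith
    rw [hm]
    positivity
  have hmθ : m ≤ θ / 2 := by
    rw [hm, div_le_iff₀ (by linarith)]
    refine (min_le_left _ _).trans ?_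
    nlinarith
  obtain ⟨e, he, he1, he2⟩ : ∃ e : ℝ, 0 < e ∧ e ≤ ε ∧ e ≤ m :=
    ⟨min ε m, by positivity, min_le_left _ _, min_le_right _ _⟩
  have hat : GbAt θ m := by
    intro ε' c hε' hc
    rw [hm]
    exact hgb k θ ε' c hk h0 h1 hε' hc
  have hn := gfm (-s) θ m (m - e) hat (by rcases hs with h | h <;> simp [h]) h0 h1
    (by linarith) (by linarith) (by linarith) (by linarith)
  unfold OneN at hn
  push Not at hn
  obtain ⟨n, H, k1, k2, k4, k5⟩ := hn (max N 1)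
  rw [show 1 - (1 - θ) = θ by ring] at k2 k4
  rw [show m - e + (1 - θ) - (1 - θ) = m - e by ring] at k5
  refine ⟨n, H, (le_max_left _ _).trans k1, k2, k4, ?_⟩
  have hn1 : (1 : ℝ) ≤ n := by exact_mod_cast (le_max_right N 1).trans k1
  have h6 : (n : ℝ) ^ (min θ (1 / 2 - θ) * max (1 / 3) (1 / 2 - θ) - ε) ≤ (n : ℝ) ^ (m - e) :=
    Real.rpow_le_rpow_of_exponent_le hn1 (by linarith)
  have h7 : -s * EI n H = -(s * EI n H) := by ring
  rw [h7] at k5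
  linarith

/-- the exponent is positive -/
theorem exp_pos (θ : ℝ) (h0 : 0 < θ) (h1 : θ < 1) :
    0 < max (min θ (1 / 2 - θ) * max (1 / 3) (1 / 2 - θ)) (θ - 1 / (3 - θ)) := by
  rcases lt_or_ge θ (1 / 2) with h | h
  · refine lt_max_of_lt_left ?_
    have h2 : 0 < min θ (1 / 2 - θ) := lt_min h0 (by linarith)
    have h3 : (0 : ℝ) < max (1 / 3) (1 / 2 - θ) := lt_max_of_lt_left (by norm_num)
    positivity
  · refine lt_max_of_lt_right ?_
    have h3 : 0 < 3 - θ := by linarith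
    rw [sub_pos, div_lt_iff₀ h3]
    nlinarith

theorem two (hgb : GbkStmt) (s θ ε : ℝ) (hs : s = 1 ∨ s = -1) (h0 : 0 < θ) (h1 : θ < 1)
    (hε : 0 < ε) (N : ℕ) :
    ∃ n H : ℕ, N ≤ n ∧ (n : ℝ) ^ θ ≤ H ∧ (H : ℝ) ≤ 2 * (n : ℝ) ^ θ ∧
      (n : ℝ) ^ (max (min θ (1 / 2 - θ) * max (1 / 3) (1 / 2 - θ)) (θ - 1 / (3 - θ)) - ε) ≤ s * EI n H := by
  have hM : (0 : ℝ) < max (1 / 3) (1 / 2 - θ) := lt_max_of_lt_left (by norm_num)
  rcases le_or_gt (min θ (1 / 2 - θ) * max (1 / 3) (1 / 2 - θ)) (θ - 1 / (3 - θ)) with h | h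
  · rw [max_eq_right h]
    rcases le_or_gt (θ - 1 / (3 - θ)) 0 with h2 | h2
    · -- then `θ < 1/2` and the other exponent is positive: impossible
      have h3 : 0 < 3 - θ := by linarith
      have h4 : θ * (3 - θ) ≤ 1 := by
        rw [sub_nonpos, le_div_iff₀ h3] at h2
        exact h2
      have h5 : θ < 1 / 2 := by nlinarith
      have h6 : 0 < min θ (1 / 2 - θ) * max (1 / 3) (1 / 2 - θ) :=
        mul_pos (lt_min h0 (by linarith)) hM
      linarith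
    · have h3 : 0 < 3 - θ := by linarith
      have h4 : 1 < θ * (3 - θ) := by
        rw [sub_pos, div_lt_iff₀ h3] at h2
        exact h2
      obtain ⟨n, H, k1, k2, k3, k4⟩ := main Pool.Agent.H24.WH.mai s θ ε hs h1 h4 hε N
      exact ⟨n, H, k1, k2, k3, k4.le⟩
  · rw [max_eq_left h.le]
    have h5 : θ < 1 / 2 := by
      by_contra hc
      push Not at hc
      have h3 : 0 < 3 - θ := by linarith
      have h6 : min θ (1 / 2 - θ) * max (1 / 3) (1 / 2 - θ) ≤ 0 :=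
        mul_nonpos_of_nonpos_of_nonneg ((min_le_right _ _).trans (by linarith)) hM.le
      have h7 : 0 < θ - 1 / (3 - θ) := by
        rw [sub_pos, div_lt_iff₀ h3]
        nlinarith
      linarith
    exact gbh hgb s θ ε hs h0 h5 hε N

end Pool.Agent.H67.TS
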